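import Mathlib

/-! Task V4: specialisation of a finite Galois extension. -/

set_option autoImplicit false

open Polynomial

namespace H33

namespace V4

theorem exists_rep {Q E : Type} [Field Q] [Field E] [Algebra Q E] [FiniteDimensional Q E]
    (y : E) (hy : IntermediateField.adjoin Q {y} = ⊤) (x : E) :
    ∃ p : Q[X], p.degree < (minpoly Q y).degree ∧ aeval y p = x := by
  have hint : IsIntegral Q y := IsIntegral.of_finite Q y
  have hx : x ∈ (IntermediateField.adjoin Q {y}).toSubalgebra := by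
    rw [hy]; trivial
  rw [IntermediateField.adjoin_simple_toSubalgebra_of_isAlgebraic hint.isAlgebraic,
    Algebra.adjoin_singleton_eq_range_aeval] at hx
  obtain ⟨g, hg⟩ := hx
  refine ⟨g %ₘ minpoly Q y, degree_modByMonic_lt _ (minpoly.monic hint), ?_⟩
  rw [aeval_modByMonic_eq_self_of_root (minpoly.aeval Q y)]
  exact hg

end V4

theorem spec_lemma {Q E : Type} [Field Q] [Field E] [Algebra Q E] [FiniteDimensional Q E]
    [IsGalois Q E] (y : E) (hy : IntermediateField.adjoin Q {y} = ⊤) (W : Finset E) :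
    ∃ S : Finset Q, ∀ (A : Subring Q), (S : Set Q) ⊆ A → ∀ (k' : Type) [Field k'] (φ : A →+* k')
      (fA : Polynomial A), fA.map A.subtype = minpoly Q y → Irreducible (fA.map φ) →
      ∃ (F' : Type) (_ : Field F') (_ : Algebra k' F'), FiniteDimensional k' F' ∧ IsGalois k' F' ∧
        ∃ (ψ : (E ≃ₐ[Q] E) ≃* (F' ≃ₐ[k'] F')) (B : Subring E)
          (hA : ∀ a : A, algebraMap Q E a ∈ B) (hB : ∀ (σ : E ≃ₐ[Q] E) (b : B), σ b ∈ B)
          (Φ : B →+* F'), y ∈ B ∧ (W : Set E) ⊆ B ∧
          (∀ a : A, Φ ⟨algebraMap Q E a, hA a⟩ = algebraMap k' F' (φ a)) ∧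
          (∀ (σ : E ≃ₐ[Q] E) (b : B), Φ ⟨σ b, hB σ b⟩ = ψ σ (Φ b)) ∧
          Module.finrank k' F' = Module.finrank Q E := by
  classical
  have hint : IsIntegral Q y := IsIntegral.of_finite Q y
  choose p hpdeg hpx using V4.exists_rep y hy
  have : Fintype (E ≃ₐ[Q] E) := Fintype.ofFinite _
  let T : Finset E := W ∪ (Finset.univ.image fun σ : E ≃ₐ[Q] E => σ y) ∪
    (Finset.univ.image fun σ : E ≃ₐ[Q] E => σ y - y)
  let S : Finset Q := T.biUnion fun x => (p x).coeffs ∪ (p x).coeffs.image fun c => c⁻¹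
  refine ⟨S, ?_⟩
  intro A hSA k' _ φ fA hfA hirr
  -- lifting of the representatives
  have hTc : ∀ x ∈ T, ((p x).coeffs : Set Q) ⊆ A := by
    intro x hx c hc
    apply hSA
    simp only [S, Finset.coe_biUnion, Set.mem_iUnion, Finset.mem_coe, Finset.mem_union]
    exact ⟨x, hx, Or.inl hc⟩
  have hTi : ∀ x ∈ T, ∀ c ∈ (p x).coeffs, c⁻¹ ∈ A := by
    intro x hx c hc
    apply hSA
    simp only [S, Finset.coe_biUnion, Set.mem_iUnion, Finset.mem_coe, Finset.mem_union,
      Finset.mem_image]
    exact ⟨x, hx, Or.inr ⟨c, hc, rfl⟩⟩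
  have hσT : ∀ σ : E ≃ₐ[Q] E, σ y ∈ T := by
    intro σ
    simp only [T, Finset.mem_union, Finset.mem_image, Finset.mem_univ, true_and]
    exact Or.inl (Or.inr ⟨σ, rfl⟩)
  have hdT : ∀ σ : E ≃ₐ[Q] E, σ y - y ∈ T := by
    intro σ
    simp only [T, Finset.mem_union, Finset.mem_image, Finset.mem_univ, true_and]
    exact Or.inr ⟨σ, rfl⟩
  have hWT : ∀ x ∈ W, x ∈ T := by
    intro x hx
    simp only [T, Finset.mem_union]
    exact Or.inl (Or.inl hx)
  have hfm : fA.Monic := by
    have h1 : (fA.map A.subtype).Monic := by rw [hfA]; exact minpoly.monic hint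
    exact monic_of_injective (Subring.subtype_injective A) h1
  have hfdeg : fA.degree = (minpoly Q y).degree := by
    rw [← hfA, degree_map_eq_of_injective (Subring.subtype_injective A)]
  -- the target field
  have : Fact (Irreducible (fA.map φ)) := ⟨hirr⟩
  have hfmφ : (fA.map φ).Monic := hfm.map φ
  have hφdeg : (fA.map φ).degree = fA.degree := hfm.degree_map φ
  let F' : Type := AdjoinRoot (fA.map φ)
  let ev : A[X] →+* E := eval₂RingHom ((algebraMap Q E).comp A.subtype) y
  let ρ : F' := AdjoinRoot.root (fA.map φ)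
  let ev' : A[X] →+* F' := eval₂RingHom ((algebraMap k' F').comp φ) ρ
  have hev : ∀ g : A[X], ev g = aeval y (g.map A.subtype) := by
    intro g
    simp only [ev, coe_eval₂RingHom, aeval_def, eval₂_map]
  have hev' : ∀ g : A[X], ev' g = aeval ρ (g.map φ) := by
    intro g
    simp only [ev', coe_eval₂RingHom, aeval_def, eval₂_map]
  have hevf' : ev' fA = 0 := by
    rw [hev']
    have := AdjoinRoot.eval₂_root (fA.map φ)
    rw [aeval_def]
    exact this
  have hker : RingHom.ker ev ≤ RingHom.ker ev' := by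
    intro g hg
    rw [RingHom.mem_ker] at hg ⊢
    have h1 : ev (g %ₘ fA) = 0 := by
      have h2 := modByMonic_add_div g fA
      have h3 : ev (g %ₘ fA + fA * (g /ₘ fA)) = 0 := by rw [h2, hg]
      rw [map_add, map_mul, hev fA, hfA, minpoly.aeval, zero_mul, add_zero] at h3
      exact h3
    have h4 : (g %ₘ fA).map A.subtype = 0 := by
      by_contra h5
      have h6 : (minpoly Q y).degree ≤ ((g %ₘ fA).map A.subtype).degree := by
        apply minpoly.degree_le_of_ne_zero Q y h5
        rw [← hev]; exact h1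
      have h7 : ((g %ₘ fA).map A.subtype).degree < (minpoly Q y).degree := by
        rw [degree_map_eq_of_injective (Subring.subtype_injective A), ← hfdeg]
        exact degree_modByMonic_lt _ hfm
      exact absurd h6 (not_le.2 h7)
    have h8 : g %ₘ fA = 0 := by
      apply Polynomial.map_injective A.subtype (Subring.subtype_injective A)
      rw [h4, Polynomial.map_zero]
    have h9 := modByMonic_add_div g fA
    rw [h8, zero_add] at h9
    rw [← h9, map_mul, hevf', zero_mul]
  -- lifted representatives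
  let P : ∀ x : E, A[X] := fun x => if hx : x ∈ T then (p x).toSubring A (hTc x hx) else 0
  have hP : ∀ x ∈ T, (P x).map A.subtype = p x := by
    intro x hx
    simp only [P, dif_pos hx]
    exact map_toSubring _ _ _
  have hPe : ∀ x ∈ T, ev (P x) = x := by
    intro x hx
    rw [hev, hP x hx, hpx]
  have hPdeg : ∀ x ∈ T, (P x).degree < fA.degree := by
    intro x hx
    rw [hfdeg, ← degree_map_eq_of_injective (Subring.subtype_injective A), hP x hx]
    exact hpdeg x
  -- the subring and the specialisation map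
  let B : Subring E := ev.range
  let Φ : B →+* F' := RingHom.liftOfSurjective ev.rangeRestrict ev.rangeRestrict_surjective
    ⟨ev', by
      intro g hg
      apply hker
      rw [RingHom.mem_ker] at hg ⊢
      exact congrArg Subtype.val hg⟩
  have hΦ : ∀ g : A[X], Φ (ev.rangeRestrict g) = ev' g := by
    intro g
    exact RingHom.liftOfRightInverse_comp_apply _ _ _ _ _
  have hcomp : ∀ (σ : E ≃ₐ[Q] E) (g : A[X]), ev (g.comp (P (σ y))) = σ (ev g) := by
    intro σ g
    have h1 : ev (g.comp (P (σ y))) = aeval (ev (P (σ y))) (g.map A.subtype) := by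
      rw [hev, hev, Polynomial.map_comp, aeval_comp]
    rw [h1, hPe _ (hσT σ), hev, ← AlgEquiv.coe_toAlgHom, ← aeval_algHom_apply]
  have hcomp' : ∀ (σ : E ≃ₐ[Q] E) (g : A[X]),
      ev' (g.comp (P (σ y))) = aeval (ev' (P (σ y))) (g.map φ) := by
    intro σ g
    rw [hev', hev', Polynomial.map_comp, aeval_comp]
  -- the endomorphisms
  have hroot : ∀ σ : E ≃ₐ[Q] E, (fA.map φ).eval₂ (algebraMap k' F') (ev' (P (σ y))) = 0 := by
    intro σ
    have h1 : ev (fA.comp (P (σ y))) = 0 := by
      rw [hcomp, hev fA, hfA, minpoly.aeval, map_zero]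
    have h2 : ev' (fA.comp (P (σ y))) = 0 := hker h1
    rw [hcomp'] at h2
    exact h2
  let ψ0 : (E ≃ₐ[Q] E) → (F' →ₐ[k'] F') := fun σ =>
    AdjoinRoot.liftAlgHom (fA.map φ) (Algebra.ofId k' F') (ev' (P (σ y))) (hroot σ)
  have hψρ : ∀ σ, ψ0 σ ρ = ev' (P (σ y)) := by
    intro σ
    exact AdjoinRoot.liftAlgHom_root _ _ _ _
  have hψev : ∀ σ g, ψ0 σ (ev' g) = ev' (g.comp (P (σ y))) := by
    intro σ g
    rw [hcomp', hev', ← aeval_algHom_apply, hψρ]
  have hevX : ev X = y := by
    simp [ev]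
  have hevX' : ev' X = ρ := by
    simp [ev']
  -- well-definedness : equal values of ev give equal values of ev'
  have hwd : ∀ g h : A[X], ev g = ev h → ev' g = ev' h := by
    intro g h hgh
    have h1 : g - h ∈ RingHom.ker ev := by
      rw [RingHom.mem_ker, map_sub, hgh, sub_self]
    have h2 := hker h1
    rw [RingHom.mem_ker, map_sub, sub_eq_zero] at h2
    exact h2
  have hext : ∀ f g : F' →ₐ[k'] F', f ρ = g ρ → f = g := by
    intro f g h
    exact AdjoinRoot.algHom_ext h
  have hψ1 : ψ0 1 = 1 := by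
    apply hext
    rw [hψρ, AlgHom.one_apply, ← hevX']
    apply hwd
    rw [hPe _ (hσT 1), hevX]; rfl
  have hψmul : ∀ σ τ, ψ0 (σ * τ) = ψ0 σ * ψ0 τ := by
    intro σ τ
    apply hext
    rw [hψρ, AlgHom.mul_apply, hψρ τ, hψev]
    apply hwd
    rw [hPe _ (hσT _), hcomp, hPe _ (hσT τ)]; rfl
  let ψ1 : (E ≃ₐ[Q] E) →* (F' →ₐ[k'] F') :=
    { toFun := ψ0, map_one' := hψ1, map_mul' := hψmul }
  let ψ2 : (E ≃ₐ[Q] E) →* (F' ≃ₐ[k'] F') :=
    (AlgEquiv.algHomUnitsEquiv k' F').toMonoidHom.comp ψ1.toHomUnits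
  have hψ2 : ∀ σ x, ψ2 σ x = ψ0 σ x := by
    intro σ x
    rfl
  have hgen : ∀ σ : E ≃ₐ[Q] E, σ y = y → σ = 1 := by
    intro σ hσ
    have h1 : ∀ x : E, σ x = x := by
      intro x
      rw [← hpx x, ← AlgEquiv.coe_toAlgHom, ← aeval_algHom_apply]
      simp [hσ]
    ext x; exact h1 x
  have hinj : Function.Injective ψ2 := by
    rw [injective_iff_map_eq_one]
    intro σ hσ
    by_contra hne
    have hd : σ y - y ≠ 0 := by
      intro h; exact hne (hgen σ (sub_eq_zero.1 h))
    have hpd : p (σ y - y) ≠ 0 := by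
      intro h
      have := hpx (σ y - y)
      rw [h, map_zero] at this
      exact hd this.symm
    have h1 : ev' (P (σ y)) = ρ := by
      have := congrArg (fun f : F' ≃ₐ[k'] F' => f ρ) hσ
      simp only [hψ2, hψρ] at this
      exact this
    have h2 : ev' (P (σ y - y)) = 0 := by
      have h3 : ev' (P (σ y - y)) = ev' (P (σ y) - X) := by
        apply hwd
        rw [hPe _ (hdT σ), map_sub, hPe _ (hσT σ), hevX]
      rw [h3, map_sub, h1, hevX', sub_self]
    have h4 : (P (σ y - y)).map φ = 0 := by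
      by_contra h5
      have h6 : (fA.map φ).degree ≤ ((P (σ y - y)).map φ).degree := by
        have h7 : minpoly k' ρ = fA.map φ := by
          rw [AdjoinRoot.minpoly_root hirr.ne_zero, hfmφ.leadingCoeff, inv_one, C_1, mul_one]
        rw [← h7]
        apply minpoly.degree_le_of_ne_zero k' ρ h5
        rw [← hev']; exact h2
      have h8 : ((P (σ y - y)).map φ).degree < (fA.map φ).degree := by
        rw [hφdeg]
        exact lt_of_le_of_lt degree_map_le (hPdeg _ (hdT σ))
      exact absurd h6 (not_le.2 h8)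
    -- the leading coefficient is a unit
    set d := p (σ y - y) with hdd
    have hc : d.leadingCoeff ∈ d.coeffs := by
      rw [mem_coeffs_iff]
      exact ⟨d.natDegree, natDegree_mem_support_of_nonzero hpd, rfl⟩
    have hcA : d.leadingCoeff ∈ A := hTc _ (hdT σ) hc
    have hcI : (d.leadingCoeff)⁻¹ ∈ A := hTi _ (hdT σ) _ hc
    have h9 : (P (σ y - y)).coeff d.natDegree = ⟨d.leadingCoeff, hcA⟩ := by
      apply Subtype.ext
      have := congrArg (fun q : Q[X] => q.coeff d.natDegree) (hP _ (hdT σ))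
      simp only [coeff_map] at this
      exact this
    have h10 : φ ⟨d.leadingCoeff, hcA⟩ = 0 := by
      rw [← h9, ← coeff_map, h4, coeff_zero]
    have h11 : (⟨d.leadingCoeff, hcA⟩ : A) * ⟨(d.leadingCoeff)⁻¹, hcI⟩ = 1 := by
      apply Subtype.ext
      exact mul_inv_cancel₀ (leadingCoeff_ne_zero.2 hpd)
    have h12 := congrArg φ h11
    rw [map_mul, h10, zero_mul, map_one] at h12
    exact zero_ne_one h12
  -- dimensions
  have hfin : FiniteDimensional k' F' := (AdjoinRoot.powerBasis hirr.ne_zero).finite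
  have hfr : Module.finrank k' F' = Module.finrank Q E := by
    have h1 : Module.finrank k' F' = (fA.map φ).natDegree := by
      have := (AdjoinRoot.powerBasis hirr.ne_zero).finrank
      rw [AdjoinRoot.powerBasis_dim] at this
      exact this
    have h2 : Module.finrank Q E = (minpoly Q y).natDegree := by
      rw [← IntermediateField.adjoin.finrank hint, hy, IntermediateField.finrank_top']
    rw [h1, h2]
    exact natDegree_eq_of_degree_eq (hφdeg.trans hfdeg)
  have hcardE : Nat.card (E ≃ₐ[Q] E) = Module.finrank Q E := IsGalois.card_aut_eq_finrank Q E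
  have : Finite (F' ≃ₐ[k'] F') := inferInstance
  have hle : Nat.card (F' ≃ₐ[k'] F') ≤ Module.finrank k' F' := by
    calc Nat.card (F' ≃ₐ[k'] F') = Fintype.card (F' ≃ₐ[k'] F') := Nat.card_eq_fintype_card
      _ ≤ _ := AlgEquiv.card_le
  have hge : Nat.card (E ≃ₐ[Q] E) ≤ Nat.card (F' ≃ₐ[k'] F') :=
    Nat.card_le_card_of_injective ψ2 hinj
  have hcard : Nat.card (F' ≃ₐ[k'] F') = Module.finrank k' F' := by
    apply le_antisymm hle
    rw [hfr, ← hcardE]; exact hge
  have hgal : IsGalois k' F' := IsGalois.of_card_aut_eq_finrank k' F' hcard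
  have hbij : Function.Bijective ψ2 := by
    rw [Nat.bijective_iff_injective_and_card]
    exact ⟨hinj, by rw [hcardE, hcard, hfr]⟩
  refine ⟨F', inferInstance, inferInstance, hfin, hgal, MulEquiv.ofBijective ψ2 hbij, B, ?_, ?_,
    Φ, ?_, ?_, ?_, ?_, hfr⟩
  · intro a
    exact ⟨C a, by simp [ev]⟩
  · rintro σ ⟨b, g, rfl⟩
    exact ⟨g.comp (P (σ y)), hcomp σ g⟩
  · exact ⟨X, hevX⟩
  · intro x hx
    exact ⟨P x, hPe x (hWT x hx)⟩
  · intro a
    have h1 : (⟨algebraMap Q E a, ⟨C a, by simp [ev]⟩⟩ : B) = ev.rangeRestrict (C a) := by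
      apply Subtype.ext
      simp [ev]
    rw [h1, hΦ]
    simp [ev']
  · rintro σ ⟨b, g, rfl⟩
    have h1 : (⟨σ (ev g), ⟨g.comp (P (σ y)), hcomp σ g⟩⟩ : B) =
        ev.rangeRestrict (g.comp (P (σ y))) := by
      apply Subtype.ext
      exact (hcomp σ g).symm
    have h2 : (⟨ev g, ⟨g, rfl⟩⟩ : B) = ev.rangeRestrict g := rfl
    rw [h1, hΦ, h2, hΦ]
    exact (hψev σ g).symm

end H33
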