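import Pool.Agent.H33R2.FreeB

set_option autoImplicit false

open Pool.Agent.Helper737.Ample
open scoped TensorProduct

namespace H33

namespace T1b

/-- alg. closedness of `L` in the fraction field of `L ⊗ F`, inside `Ω` -/
theorem mem_of_algebraic {Ω : Type} [Field Ω] {k L D : Subfield Ω} (hLD : L ≤ D)
    {F : Type} [Field F] [Algebra k F]
    [Algebra k L] [IsScalarTower k L Ω] (j : F →ₐ[k] Ω)
    (hli : ∀ (ι : Type) (b : ι → F), LinearIndependent k b → LinearIndependent D (j ∘ b))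
    (u v : L ⊗[k] F) (z : Ω) (hz : z ∈ D) (hv : v ≠ 0) (h : z * mu j v = mu j u) : z ∈ L := by
  let b := Module.Free.chooseBasis k F
  have h1 := hli _ b b.linearIndependent
  have hu := exists_fin_repr u b
  have hv' := exists_fin_repr v b
  set U := (Algebra.TensorProduct.basis L b).repr u with hU
  set V := (Algebra.TensorProduct.basis L b).repr v with hV
  have hV0 : V ≠ 0 := by
    rw [hV]; intro h0; exact hv ((LinearEquiv.map_eq_zero_iff _).1 h0)
  classical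
  let s := U.support ∪ V.support
  have eU : mu j u = ∑ i ∈ s, (U i : Ω) * j (b i) := by
    rw [hu, Finsupp.sum, map_sum]
    simp only [mu_tmul]
    apply Finset.sum_subset Finset.subset_union_left
    intro i _ hi
    rw [Finsupp.notMem_support_iff.1 hi]; simp
  have eV : mu j v = ∑ i ∈ s, (V i : Ω) * j (b i) := by
    rw [hv', Finsupp.sum, map_sum]
    simp only [mu_tmul]
    apply Finset.sum_subset Finset.subset_union_right
    intro i _ hi
    rw [Finsupp.notMem_support_iff.1 hi]; simp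
  have e0 : ∑ i ∈ s, ((⟨z, hz⟩ : D) * ⟨V i, hLD (V i).2⟩ - ⟨U i, hLD (U i).2⟩) • (j ∘ b) i = 0 := by
    have h2 : ∑ i ∈ s, (z * (V i : Ω) - (U i : Ω)) * j (b i) = 0 := by
      simp only [sub_mul, Finset.sum_sub_distrib]
      rw [← eU, ← h, eV, Finset.mul_sum, sub_eq_zero]
      exact Finset.sum_congr rfl fun i _ => mul_assoc _ _ _
    rw [← h2]
    apply Finset.sum_congr rfl
    intro i _
    rw [Subfield.smul_def]
    rfl
  have h3 := linearIndependent_iff'.1 h1 s _ e0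
  obtain ⟨i, hi⟩ : ∃ i, V i ≠ 0 := by
    by_contra hcon
    push Not at hcon
    exact hV0 (Finsupp.ext hcon)
  have hi' : i ∈ s := Finset.mem_union_right _ (Finsupp.mem_support_iff.2 hi)
  have h4 := congrArg (fun w : D => (w : Ω)) (h3 i hi')
  simp only [AddSubgroupClass.coe_sub, MulMemClass.coe_mul, ZeroMemClass.coe_zero] at h4
  have h5 : (V i : Ω) ≠ 0 := fun h => hi (Subtype.ext h)
  have h6 : z = (U i : Ω) / (V i : Ω) := by
    rw [eq_div_iff h5]; exact sub_eq_zero.1 h4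
  rw [h6]
  exact L.div_mem (U i).2 (V i).2

end T1b

open T1b in
theorem free_step {Ω : Type} [Field Ω] [CharZero Ω] [IsAlgClosed Ω] [Uncountable Ω]
    {k : Subfield Ω} (hk : acl k = k) (K L : Subfield Ω) (hkK : k ≤ K) (hKL : K ≤ L)
    (hLc : (L : Set Ω).Countable) (T : Task k) (ρ : T.Γ →* (L ≃+* L))
    (hρi : Function.Injective ρ) (hρ : ∀ x : L, (∀ γ, ρ γ x = x) ↔ (x : Ω) ∈ K) :
    ∃ (K' : Subfield Ω) (j : T.F →+* Ω) (r : ℕ) (x : Fin r → Ω),
      K ≤ K' ∧ (K' : Set Ω).Countable ∧ (∀ c : k, j (algebraMap k T.F c) = c) ∧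
      AlgebraicIndependent L x ∧ K' ≤ L ⊔ acl (adj k (Set.range x)) ∧ K' ⊓ acl K ≤ K ∧
      ∃ hj : ∀ y, j y ∈ L ⊔ K',
      ∀ (σ : ↥(L ⊔ K') →+* Ω) (γ : T.Γ),
        (∀ z (hz : z ∈ K'), σ ⟨z, (le_sup_right : K' ≤ L ⊔ K') hz⟩ = z) →
        (∀ z (hz : z ∈ L), σ ⟨z, (le_sup_left : L ≤ L ⊔ K') hz⟩ = (ρ γ ⟨z, hz⟩ : L)) →
        ∀ y : T.F, σ ⟨j y, hj y⟩ = j (γ • y) := by
  classical
  have := Fintype.ofFinite T.Γ
  have hkL : k ≤ L := hkK.trans hKL
  let _ : Algebra k L := (Subfield.inclusion hkL).toAlgebra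
  have : IsScalarTower k L Ω := IsScalarTower.of_algebraMap_eq (fun _ => rfl)
  let ρ' : T.Γ →* (L ≃ₐ[k] L) :=
    { toFun := fun γ => { ρ γ with
        commutes' := fun c => (hρ (algebraMap k L c)).2 (hkK c.2) γ }
      map_one' := by
        ext x
        have : ρ 1 = 1 := map_one ρ
        change ((ρ 1 x : L) : Ω) = x
        rw [this]; rfl
      map_mul' := by
        intro a b
        ext x
        have : ρ (a * b) = ρ a * ρ b := map_mul ρ a b
        change ((ρ (a * b) x : L) : Ω) = ρ a (ρ b x)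
        rw [this]; rfl }
  have hρ' : ∀ γ x, ρ' γ x = ρ γ x := fun γ x => rfl
  have hLD : L ≤ acl L := le_acl L
  obtain ⟨j, r, x, hxD, hjN⟩ := exists_embed (acl L) (hkL.trans hLD) (countable_acl hLc) T.F T.fg
  have hx : AlgebraicIndependent L x := by
    let _ : Algebra L (acl L) := (Subfield.inclusion hLD).toAlgebra
    have : IsScalarTower L (acl L) Ω := IsScalarTower.of_algebraMap_eq (fun _ => rfl)
    exact hxD.restrictScalars (FaithfulSMul.algebraMap_injective L (acl L))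
  have hjk : ∀ (ι : Type) (b : ι → T.F), LinearIndependent k b → LinearIndependent k (j ∘ b) := by
    intro ι b hb
    exact hb.map' j.toLinearMap (LinearMap.ker_eq_bot.2 j.toRingHom.injective)
  have hliD : ∀ (ι : Type) (b : ι → T.F), LinearIndependent k b →
      LinearIndependent (acl L) (j ∘ b) := fun ι b hb =>
    ld_down hk (hkL.trans hLD) x hxD (j ∘ b) (fun i => hjN _) (hjk ι b hb)
  have hliL : ∀ (ι : Type) (b : ι → T.F), LinearIndependent k b →
      LinearIndependent L (j ∘ b) := fun ι b hb =>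
    ld_down hk hkL x hx (j ∘ b) (fun i => hjN _) (hjk ι b hb)
  have hmu : Function.Injective (mu j : L ⊗[k] T.F →ₐ[L] Ω) := mu_inj j hliL
  have : IsDomain (L ⊗[k] T.F) := hmu.isDomain (mu j : L ⊗[k] T.F →ₐ[L] Ω).toRingHom
  let Q := FractionRing (L ⊗[k] T.F)
  let μQ : Q →+* Ω := IsFractionRing.lift (A := L ⊗[k] T.F)
    (g := (mu j : L ⊗[k] T.F →ₐ[L] Ω).toRingHom) hmu
  have hμQ : ∀ a : L ⊗[k] T.F, μQ (algebraMap _ Q a) = mu j a := fun a =>
    IsFractionRing.lift_algebraMap (A := L ⊗[k] T.F)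
      (g := (mu j : L ⊗[k] T.F →ₐ[L] Ω).toRingHom) hmu a
  have hμL : ∀ l : L, μQ (iL l) = l := by
    intro l
    have : μQ (iL l) = mu j (l ⊗ₜ[k] (1 : T.F)) := hμQ _
    rw [this, mu_tmul, map_one, mul_one]
    rfl
  have hμF : ∀ y : T.F, μQ (iF y) = j y := by
    intro y
    have : μQ (iF y) = mu j ((1 : L) ⊗ₜ[k] y) := hμQ _
    rw [this, mu_tmul, map_one, one_mul]
  let N := acl (adj k (Set.range x))
  have hrange : ∀ q : Q, μQ q ∈ L ⊔ N := by
    have h1 : ∀ a : L ⊗[k] T.F, mu j a ∈ L ⊔ N := by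
      intro a
      induction a with
      | zero => rw [map_zero]; exact zero_mem _
      | tmul l y =>
        rw [mu_tmul]
        exact mul_mem ((le_sup_left : L ≤ L ⊔ N) l.2) ((le_sup_right : N ≤ L ⊔ N) (hjN y))
      | add a b ha hb => rw [map_add]; exact add_mem ha hb
    intro q
    obtain ⟨a, b, hb, rfl⟩ := IsFractionRing.div_surjective (A := L ⊗[k] T.F) q
    rw [map_div₀, hμQ, hμQ]
    exact div_mem (h1 a) (h1 b)
  let KQ : Subfield Q := ⨅ γ, (aQ ρ' γ).eqLocusField (RingHom.id _)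
  have hKQ : ∀ q : Q, q ∈ KQ ↔ ∀ γ, aQ ρ' γ q = q := by
    intro q
    simp only [KQ, Subfield.mem_iInf]
    rfl
  let K' := KQ.map μQ
  obtain ⟨c, hc⟩ := dedekind ρ hρi
  have hc' : ∀ γ, (c.sum fun b cb => cb * ρ' γ b) = if γ = 1 then 1 else 0 := hc
  have hkap : ∀ q b, kap ρ' q b ∈ KQ := fun q b => (hKQ _).2 fun γ => aQ_kap ρ' q b γ
  have hdesc : ∀ (y : T.F) (γ : T.Γ), j (γ • y) =
      c.sum fun b cb => (ρ γ cb : Ω) * μQ (kap ρ' (iF y) b) := by
    intro y γ
    rw [← hμF, ← aQ_iF (L := L) ρ' γ y, descend ρ' c hc' _ γ, Finsupp.sum, map_sum]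
    apply Finset.sum_congr rfl
    intro b _
    rw [map_mul, hμL]; rfl
  have hj1 : ∀ y, j y = c.sum fun b cb => (cb : Ω) * μQ (kap ρ' (iF y) b) := by
    intro y
    have := hdesc y 1
    rw [one_smul, map_one] at this
    exact this
  have hK'L : K' ≤ L ⊔ N := by
    rintro _ ⟨q, _, rfl⟩
    exact hrange q
  have hj : ∀ y, j.toRingHom y ∈ L ⊔ K' := by
    intro y
    change j y ∈ L ⊔ K'
    rw [hj1]
    apply sum_mem
    intro b _
    exact mul_mem ((le_sup_left : L ≤ L ⊔ K') (c b).2)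
      ((le_sup_right : K' ≤ L ⊔ K') ⟨_, hkap _ _, rfl⟩)
  refine ⟨K', j.toRingHom, r, x, ?_, ?_, ?_, hx, hK'L, ?_, hj, ?_⟩
  · intro z hz
    refine ⟨iL ⟨z, hKL hz⟩, (hKQ _).2 fun γ => ?_, hμL _⟩
    rw [aQ_iL, hρ', (hρ _).2 hz γ]
  · have h1 : L ⊔ N ≤ acl (adj L (Set.range x)) := sup_le ((le_adj _ _).trans (le_acl _))
      (acl_mono (adj_mono hkL le_rfl))
    exact (countable_acl (countable_adj hLc (Set.countable_range x))).mono
      (hK'L.trans h1)
  · intro c
    exact j.commutes c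
  · rintro z ⟨⟨q, hq, rfl⟩, hz2⟩
    have hq' := (hKQ _).1 hq
    obtain ⟨a, b, hb, hab⟩ := IsFractionRing.div_surjective (A := L ⊗[k] T.F) q
    have hb0 : b ≠ 0 := nonZeroDivisors.ne_zero hb
    have hmb : mu j b ≠ 0 := by
      intro h; exact hb0 (hmu (by rw [h, map_zero]))
    have h1 : μQ q * mu j b = mu j a := by
      rw [← hab, map_div₀, hμQ, hμQ, div_mul_cancel₀ _ hmb]
    have h2 : μQ q ∈ L := mem_of_algebraic hLD j hliD a b _ (acl_mono hKL hz2) hb0 h1
    obtain ⟨l, hl⟩ : ∃ l : L, (l : Ω) = μQ q := ⟨⟨_, h2⟩, rfl⟩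
    have h3 : q = iL l := by
      apply μQ.injective
      rw [hμL, hl]
    have h4 : ∀ γ, ρ γ l = l := by
      intro γ
      have h5 := hq' γ
      rw [h3, aQ_iL] at h5
      exact (iL (F := T.F)).injective h5
    rw [← hl]
    exact (hρ l).1 h4
  · intro σ γ h1 h2 y
    have hmem : ∀ b, μQ (kap ρ' (iF y) b) ∈ K' := fun b => ⟨_, hkap _ _, rfl⟩
    have h3 : (⟨j y, hj y⟩ : ↥(L ⊔ K')) = ∑ b ∈ c.support,
        (⟨(c b : Ω), (le_sup_left : L ≤ L ⊔ K') (c b).2⟩ : ↥(L ⊔ K')) *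
        ⟨μQ (kap ρ' (iF y) b), (le_sup_right : K' ≤ L ⊔ K') (hmem b)⟩ := by
      apply Subtype.ext
      rw [AddSubmonoidClass.coe_finsetSum]
      exact hj1 y
    have h4 : σ ⟨j y, hj y⟩ = ∑ b ∈ c.support, (ρ γ (c b) : Ω) * μQ (kap ρ' (iF y) b) := by
      rw [h3, map_sum]
      apply Finset.sum_congr rfl
      intro b _
      rw [map_mul, h2 _ (c b).2, h1 _ (hmem b)]
    exact h4.trans (hdesc y γ).symm

end H33
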