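import Pool.Agent.H33R2.Defs

set_option autoImplicit false

namespace H33

open MvPolynomial

/-- permutation of the variables attached to an element of `Γ` -/
def kapPerm {Γ H : Type} [Group Γ] [Group H] (φ : Γ →* MulAut H) :
    Γ →* Equiv.Perm (H ⊕ Γ) where
  toFun γ := Equiv.sumCongr (φ γ).toEquiv (Equiv.mulLeft γ)
  map_one' := by
    ext x
    rcases x with x | x <;> simp
  map_mul' a b := by
    ext x
    rcases x with x | x <;> simp [mul_assoc]

/-- `Γ` acts on the polynomial ring -/
noncomputable def kapPoly (k : Type) {Γ H : Type} [Field k] [Group Γ] [Group H]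
    (φ : Γ →* MulAut H) :
    Γ →* (MvPolynomial (H ⊕ Γ) k ≃ₐ[k] MvPolynomial (H ⊕ Γ) k) where
  toFun γ := MvPolynomial.renameEquiv k (kapPerm φ γ)
  map_one' := by
    ext p
    simp
  map_mul' a b := by
    apply AlgEquiv.ext
    intro p
    simp [MvPolynomial.rename_rename, Equiv.Perm.coe_mul]

theorem kapPoly_X (k : Type) {Γ H : Type} [Field k] [Group Γ] [Group H]
    (φ : Γ →* MulAut H) (γ : Γ) (v : H ⊕ Γ) :
    kapPoly k φ γ (X v) = X (kapPerm φ γ v) := by
  simp [kapPoly]

/-- the action on the fraction field -/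
noncomputable def kapFrac (k : Type) {Γ H : Type} [Field k] [Group Γ] [Group H]
    (φ : Γ →* MulAut H) :
    Γ →* (FractionRing (MvPolynomial (H ⊕ Γ) k) ≃ₐ[k] FractionRing (MvPolynomial (H ⊕ Γ) k)) :=
  (IsFractionRing.fieldEquivOfAlgEquivHom k (FractionRing (MvPolynomial (H ⊕ Γ) k))).comp
    (kapPoly k φ)

theorem kapFrac_X (k : Type) {Γ H : Type} [Field k] [Group Γ] [Group H]
    (φ : Γ →* MulAut H) (γ : Γ) (v : H ⊕ Γ) :
    kapFrac k φ γ (algebraMap (MvPolynomial (H ⊕ Γ) k) _ (X v)) =
      algebraMap (MvPolynomial (H ⊕ Γ) k) _ (X (kapPerm φ γ v)) := by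
  simp only [kapFrac, MonoidHom.comp_apply, IsFractionRing.fieldEquivOfAlgEquivHom_apply,
    IsFractionRing.fieldEquivOfAlgEquiv_algebraMap, kapPoly_X]

/-- TASK U1 -/
theorem exists_kap (k Γ H : Type) [Field k] [CharZero k] [Group Γ] [Finite Γ] [Group H] [Finite H]
    (φ : Γ →* MulAut H) :
    ∃ (κ : Type) (_ : Field κ) (_ : CharZero κ) (_ : Algebra k κ) (_ : MulSemiringAction Γ κ)
      (_ : SMulCommClass Γ k κ) (_ : FaithfulSMul Γ κ) (x : H → κ),
      Function.Injective x ∧ (∀ (γ : Γ) h, γ • x h = x (φ γ h)) ∧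
      ∃ S : Finset κ, IntermediateField.adjoin k (S : Set κ) = ⊤ := by
  classical
  letI act : MulSemiringAction Γ (FractionRing (MvPolynomial (H ⊕ Γ) k)) :=
    MulSemiringAction.compHom _ (kapFrac k φ)
  have hact : ∀ (γ : Γ) (z : FractionRing (MvPolynomial (H ⊕ Γ) k)), γ • z = kapFrac k φ γ z :=
    fun _ _ => rfl
  have hinj : Function.Injective
      (algebraMap (MvPolynomial (H ⊕ Γ) k) (FractionRing (MvPolynomial (H ⊕ Γ) k))) :=
    IsFractionRing.injective _ _
  refine ⟨FractionRing (MvPolynomial (H ⊕ Γ) k), inferInstance, ?_, inferInstance, act, ?_, ?_,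
    fun h => algebraMap (MvPolynomial (H ⊕ Γ) k) _ (X (Sum.inl h)), ?_, ?_, ?_⟩
  · exact charZero_of_injective_algebraMap
      (algebraMap k (FractionRing (MvPolynomial (H ⊕ Γ) k))).injective
  · refine ⟨fun γ c z => ?_⟩
    rw [hact, hact, Algebra.smul_def, Algebra.smul_def, map_mul, AlgEquiv.commutes]
  · refine ⟨fun {a b} hab => ?_⟩
    have h1 := hab (algebraMap (MvPolynomial (H ⊕ Γ) k) _ (X (Sum.inr 1)))
    rw [hact, hact, kapFrac_X, kapFrac_X] at h1
    have h2 := X_injective (hinj h1)
    simpa [kapPerm] using h2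
  · intro a b hab
    have h2 := X_injective (hinj hab)
    simpa using h2
  · intro γ h
    rw [hact, kapFrac_X]
    simp [kapPerm]
  · haveI : Fintype (H ⊕ Γ) := Fintype.ofFinite _
    refine ⟨Finset.univ.image (fun v : H ⊕ Γ =>
      algebraMap (MvPolynomial (H ⊕ Γ) k) (FractionRing (MvPolynomial (H ⊕ Γ) k)) (X v)), ?_⟩
    rw [eq_top_iff]
    intro z _
    obtain ⟨p, q, hq, rfl⟩ := IsFractionRing.div_surjective (MvPolynomial (H ⊕ Γ) k) z
    have key : ∀ p : MvPolynomial (H ⊕ Γ) k,
        algebraMap (MvPolynomial (H ⊕ Γ) k) (FractionRing (MvPolynomial (H ⊕ Γ) k)) p ∈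
          IntermediateField.adjoin k ((Finset.univ.image (fun v : H ⊕ Γ =>
            algebraMap (MvPolynomial (H ⊕ Γ) k)
              (FractionRing (MvPolynomial (H ⊕ Γ) k)) (X v)) : Finset _) : Set _) := by
      intro p
      induction p using MvPolynomial.induction_on with
      | C a =>
        have : algebraMap (MvPolynomial (H ⊕ Γ) k) (FractionRing (MvPolynomial (H ⊕ Γ) k)) (C a) =
            algebraMap k _ a := by
          rw [IsScalarTower.algebraMap_apply k (MvPolynomial (H ⊕ Γ) k)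
            (FractionRing (MvPolynomial (H ⊕ Γ) k)), MvPolynomial.algebraMap_eq]
        rw [this]
        exact IntermediateField.algebraMap_mem _ _
      | add p q hp hq =>
        rw [map_add]
        exact add_mem hp hq
      | mul_X p v hp =>
        rw [map_mul]
        refine mul_mem hp (IntermediateField.subset_adjoin _ _ ?_)
        simp only [Finset.coe_image, Finset.coe_univ, Set.image_univ]
        exact ⟨v, rfl⟩
    exact div_mem (key p) (key q)

end H33
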