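import Pool.Agent.H33R2.Gen2
import Pool.Agent.H33R2.Kap

set_option autoImplicit false

open PowerSeries

namespace H33

theorem gen_exists (k : Type) [Field k] [CharZero k] [IsAlgClosed k] (Γ H : Type) [Group Γ]
    [Finite Γ] [Group H] [Finite H] (φ : Γ →* MulAut H) :
    ∃ (T : Task k) (e : T.Γ ≃* Γ), FaithfulSMul T.Γ T.F ∧
      Nonempty (GenSol T H (φ.comp e.toMonoidHom)) := by
  classical
  haveI := Fintype.ofFinite H
  obtain ⟨κ, _, _, _, _, _, _, x, hx, hxγ, S, hS⟩ := exists_kap k Γ H φ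
  let Λ : Type := FractionRing (RatFunc κ)⟦X⟧
  letI : Algebra κ Λ := inferInstanceAs (Algebra κ (FractionRing (RatFunc κ)⟦X⟧))
  letI : Algebra k Λ := inferInstanceAs (Algebra k (FractionRing (RatFunc κ)⟦X⟧))
  obtain ⟨F₁, hstab, hfg, h1, h2⟩ := gen_aux (k := k) (κ := κ) (Γ := Γ) (H := H)
    (Λ := FractionRing (RatFunc κ)⟦X⟧) φ x hx hxγ S hS
  exact ⟨taskF (κ := κ) F₁ hstab hfg, MulEquiv.refl Γ, h1, h2⟩

end H33
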