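import Mathlib

set_option autoImplicit false

namespace H33

/-- certificate that `K` is not existentially closed in `K((t))` (first clause of S01813) -/
def NonAmple (K : Type) [Field K] : Prop :=
  ∃ (n : ℕ) (s : Finset (MvPolynomial (Fin n) K)),
    (∃ x : Fin n → LaurentSeries K, ∀ p ∈ s, MvPolynomial.aeval x p = 0) ∧
    ∀ y : Fin n → K, ∃ p ∈ s, MvPolynomial.eval y p ≠ 0

/-- a finitely generated field extension `F` of `k` with a `k`-linear action of a finite group -/
structure Task (k : Type) [Field k] where
  Γ : Type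
  [grp : Group Γ]
  [fin : Finite Γ]
  F : Type
  [fld : Field F]
  [alg : Algebra k F]
  [act : MulSemiringAction Γ F]
  [comm : SMulCommClass Γ k F]
  fg : ∃ S : Finset F, IntermediateField.adjoin k (S : Set F) = ⊤

attribute [instance] Task.grp Task.fin Task.fld Task.alg Task.act Task.comm

/-- generic regular solution of the split embedding problem `H ⋊[φ] Γ → Γ`,
with field of coefficients `T.F` -/
structure GenSol {k : Type} [Field k] (T : Task k) (H : Type) [Group H]
    (φ : T.Γ →* MulAut H) where
  B : Type
  [fldB : Field B]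
  [algB : Algebra (RatFunc T.F) B]
  [fdB : FiniteDimensional (RatFunc T.F) B]
  rank : Module.finrank (RatFunc T.F) B = Nat.card H
  [actB : MulSemiringAction (SemidirectProduct H T.Γ φ) B]
  faith : FaithfulSMul (SemidirectProduct H T.Γ φ) B
  smul_C : ∀ (g : SemidirectProduct H T.Γ φ) (x : T.F),
    g • algebraMap (RatFunc T.F) B (RatFunc.C x) =
      algebraMap (RatFunc T.F) B (RatFunc.C (g.right • x))
  smul_X : ∀ g : SemidirectProduct H T.Γ φ,
    g • algebraMap (RatFunc T.F) B RatFunc.X = algebraMap (RatFunc T.F) B RatFunc.X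
  reg : ∀ x : B, (∃ p : Polynomial T.F, p ≠ 0 ∧
      Polynomial.eval₂ ((algebraMap (RatFunc T.F) B).comp RatFunc.C) x p = 0) →
    ∃ c : T.F, x = algebraMap (RatFunc T.F) B (RatFunc.C c)

attribute [instance] GenSol.fldB GenSol.algB GenSol.fdB GenSol.actB

end H33
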