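import Mathlib

set_option autoImplicit false

open Polynomial

namespace H33

namespace T2

/-- a monic irreducible polynomial over `K` stays irreducible over `F` when `K` is algebraically
closed in `F` -/
theorem irr_map {K F : Type*} [Field K] [Field F] (ρ : K →+* F)
    (hreg : ∀ x : F, (∃ p : K[X], p.Monic ∧ Polynomial.eval₂ ρ x p = 0) → ∃ c, x = ρ c)
    (q : K[X]) (hqm : q.Monic) (hq : Irreducible q) : Irreducible (q.map ρ) := by
  rw [Monic.irreducible_iff_natDegree (hqm.map ρ)]
  constructor
  · intro h1
    have h2 : q.natDegree = 0 := by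
      rw [← Polynomial.natDegree_map ρ, h1, natDegree_one]
    have h3 : q = 1 := by
      rw [Polynomial.eq_C_of_natDegree_eq_zero h2]
      have := hqm.coeff_natDegree
      rw [h2] at this
      rw [this]; rfl
    exact hq.not_isUnit (h3 ▸ isUnit_one)
  · intro a b ha hb hab
    let _ : Algebra K F := ρ.toAlgebra
    have key : ∀ a b : F[X], a.Monic → b.Monic → a * b = q.map ρ →
        ∃ a0 : K[X], a0.Monic ∧ a0.map ρ = a := by
      intro a b ha hb hab
      have hc : ∀ n, a.coeff n ∈ Set.range ρ := by
        intro n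
        have : IsIntegral K (a.coeff n) :=
          isIntegral_coeff_of_dvd q a hqm ha (Dvd.intro _ hab) n
        obtain ⟨p, hp, hp2⟩ := this
        obtain ⟨c, hc⟩ := hreg _ ⟨p, hp, hp2⟩
        exact ⟨c, hc.symm⟩
      have hl : a ∈ lifts ρ := (lifts_iff_coeff_lifts a).2 hc
      obtain ⟨a0, h1, -, h3⟩ := lifts_and_natDegree_eq_and_monic hl ha
      exact ⟨a0, h3, h1⟩
    obtain ⟨a0, ha0, ha1⟩ := key a b ha hb hab
    obtain ⟨b0, hb0, hb1⟩ := key b a hb ha (by rw [mul_comm]; exact hab)
    have hmul : a0 * b0 = q := by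
      apply Polynomial.map_injective ρ ρ.injective
      rw [Polynomial.map_mul, ha1, hb1, hab]
    have := (Monic.irreducible_iff_natDegree hqm).1 hq
    rcases this.2 a0 b0 ha0 hb0 hmul with h | h
    · left
      rw [← ha1, Polynomial.natDegree_map]; exact h
    · right
      rw [← hb1, Polynomial.natDegree_map]; exact h

/-- coefficientwise application of an additive map -/
noncomputable def mapL {K K1 : Type*} [Field K] [Field K1] (π : K1 →+ K) (g : K1[X][X]) :
    K[X][X] :=
  ∑ i ∈ Finset.range (g.natDegree + 1), monomial i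
    (∑ j ∈ Finset.range ((g.coeff i).natDegree + 1), monomial j (π ((g.coeff i).coeff j)))

theorem mapL_coeff {K K1 : Type*} [Field K] [Field K1] (π : K1 →+ K) (g : K1[X][X]) (i j : ℕ) :
    ((mapL π g).coeff i).coeff j = π ((g.coeff i).coeff j) := by
  unfold mapL
  rw [finsetSum_coeff]
  simp only [coeff_monomial]
  rw [Finset.sum_ite_eq' (Finset.range (g.natDegree + 1)) i]
  split_ifs with h
  · rw [finsetSum_coeff]
    simp only [coeff_monomial]
    rw [Finset.sum_ite_eq']
    split_ifs with h2
    · rfl
    · rw [coeff_eq_zero_of_natDegree_lt (p := g.coeff i) (n := j)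
        (by simpa [Nat.lt_succ_iff] using h2), map_zero]
  · rw [coeff_eq_zero_of_natDegree_lt (p := g) (n := i)
        (by simpa [Nat.lt_succ_iff] using h), coeff_zero, coeff_zero, map_zero]

theorem eval_double {K1 Fb : Type*} [Field K1] [Field Fb] (τ : K1 →+* Fb) (u v : Fb)
    (g : K1[X][X]) (N M : ℕ) (hN : g.natDegree < N) (hM : ∀ i, (g.coeff i).natDegree < M) :
    eval₂ (eval₂RingHom τ u) v g =
      ∑ i ∈ Finset.range N, ∑ j ∈ Finset.range M, τ ((g.coeff i).coeff j) * u ^ j * v ^ i := by
  rw [eval₂_eq_sum_range' _ hN]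
  apply Finset.sum_congr rfl
  intro i _
  rw [← Finset.sum_mul]
  congr 1
  rw [coe_eval₂RingHom, eval₂_eq_sum_range' _ (hM i)]

theorem key {K K1 F Fb : Type*} [Field K] [CharZero K] [Field K1] [Field F] [Field Fb]
    [Algebra K K1] [FiniteDimensional K K1] (i : K[X] →+* F) (hi : Function.Injective i)
    (hreg : ∀ x : F, (∃ p : K[X], p ≠ 0 ∧ Polynomial.eval₂ (i.comp C) x p = 0) →
      ∃ c : K, x = i (C c))
    (f : K[X][X]) (hf : f.Monic) (hirr : Irreducible f) (y : F)
    (hy : Polynomial.eval₂ i y f = 0)
    (j : F →+* Fb) (τ : K1 →+* Fb) (hτ : τ.comp (algebraMap K K1) = j.comp (i.comp C))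
    (g : K1[X][X]) (hg : g.Monic) (hdeg : g.natDegree < f.natDegree) :
    eval₂ (eval₂RingHom τ (j (i X))) (j y) g ≠ 0 := by
  intro h0
  classical
  let pb := Field.powerBasisOfFiniteOfSeparable K K1
  let ρ : K →+* F := i.comp C
  let q : K[X] := minpoly K pb.gen
  have hqi : Irreducible q := minpoly.irreducible pb.isIntegral_gen
  have hqm : q.Monic := minpoly.monic pb.isIntegral_gen
  have hqF : Irreducible (q.map ρ) := by
    apply irr_map ρ _ q hqm hqi
    rintro x ⟨p, hp, hpx⟩
    exact hreg x ⟨p, hp.ne_zero, hpx⟩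
  let β : Fb := τ pb.gen
  let _ : Algebra F Fb := j.toAlgebra
  have hβ : aeval β (q.map ρ) = 0 := by
    have h1 : eval₂ (τ.comp (algebraMap K K1)) (τ pb.gen) q = 0 := by
      rw [← hom_eval₂]
      have : eval₂ (algebraMap K K1) pb.gen q = 0 := minpoly.aeval K pb.gen
      rw [this, map_zero]
    rw [aeval_def, eval₂_map]
    have h2 : (algebraMap F Fb).comp ρ = τ.comp (algebraMap K K1) := hτ.symm
    rw [h2]; exact h1
  have hmin : q.map ρ = minpoly F β := minpoly.eq_of_irreducible_of_monic hqF hβ (hqm.map ρ)
  have hdim : (minpoly F β).natDegree = pb.dim := by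
    rw [← hmin, natDegree_map, pb.natDegree_minpoly]
  have hli : ∀ a : Fin pb.dim → F, (∑ l, j (a l) * β ^ (l : ℕ)) = 0 → ∀ l, a l = 0 := by
    intro a ha
    have h1 := linearIndependent_pow (K := F) β
    rw [hdim] at h1
    apply Fintype.linearIndependent_iff.1 h1 a
    rw [← ha]
    apply Finset.sum_congr rfl
    intro l _
    rw [Algebra.smul_def]; rfl
  have hexp : ∀ c : K1, τ c = ∑ l, j (ρ (pb.basis.coord l c)) * β ^ (l : ℕ) := by
    intro c
    conv_lhs => rw [← pb.basis.sum_repr c]
    rw [map_sum]
    apply Finset.sum_congr rfl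
    intro l _
    rw [Algebra.smul_def, map_mul, pb.coe_basis]
    have : τ (algebraMap K K1 (pb.basis.repr c l)) = j (ρ (pb.basis.repr c l)) :=
      congrArg (fun φ : K →+* Fb => φ (pb.basis.repr c l)) hτ
    rw [this, map_pow]
    rfl
  let N := g.natDegree + 1
  let M := (∑ i ∈ Finset.range N, (g.coeff i).natDegree) + 1
  have hM : ∀ i, (g.coeff i).natDegree < M := by
    intro i
    by_cases hi : i ∈ Finset.range N
    · exact Nat.lt_succ_of_le (Finset.single_le_sum (f := fun i => (g.coeff i).natDegree)
        (fun _ _ => Nat.zero_le _) hi)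
    · have : g.coeff i = 0 := coeff_eq_zero_of_natDegree_lt (by
        simpa [N, Nat.lt_succ_iff] using hi)
      rw [this]; simp [M]
  rw [eval_double τ _ _ g N M (Nat.lt_succ_self _) hM] at h0
  let π : Fin pb.dim → (K1 →+ K) := fun l => (pb.basis.coord l).toAddMonoidHom
  have hsum : ∑ l : Fin pb.dim, j (∑ i' ∈ Finset.range N, ∑ j' ∈ Finset.range M,
      ρ (π l ((g.coeff i').coeff j')) * (i X) ^ j' * y ^ i') * β ^ (l : ℕ) = 0 := by
    rw [← h0]
    simp only [map_sum, map_mul, map_pow, Finset.sum_mul]
    rw [Finset.sum_comm]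
    apply Finset.sum_congr rfl
    intro i' _
    rw [Finset.sum_comm]
    apply Finset.sum_congr rfl
    intro j' _
    rw [hexp ((g.coeff i').coeff j'), Finset.sum_mul, Finset.sum_mul]
    apply Finset.sum_congr rfl
    intro l _
    simp only [π, LinearMap.toAddMonoidHom_coe]
    ring
  have hzero := hli _ hsum ⟨0, pb.dim_pos⟩
  set G := mapL (π ⟨0, pb.dim_pos⟩) g with hG
  have hπ1 : π ⟨0, pb.dim_pos⟩ 1 = 1 := by
    have : (1 : K1) = pb.basis ⟨0, pb.dim_pos⟩ := by
      rw [pb.coe_basis]; simp
    simp only [π, LinearMap.toAddMonoidHom_coe, Module.Basis.coord_apply]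
    rw [this, Module.Basis.repr_self]
    simp
  have hGdeg : G.natDegree ≤ g.natDegree := by
    rw [natDegree_le_iff_coeff_eq_zero]
    intro n hn
    ext j'
    rw [hG, mapL_coeff, coeff_eq_zero_of_natDegree_lt hn]
    simp
  have hGmon : G.Monic := by
    apply monic_of_natDegree_le_of_coeff_eq_one g.natDegree hGdeg
    ext j'
    rw [hG, mapL_coeff, hg.coeff_natDegree, coeff_one, coeff_one]
    split_ifs
    · exact hπ1
    · exact map_zero _
  have hGy : eval₂ i y G = 0 := by
    have h1 : i = eval₂RingHom ρ (i X) := by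
      ext x
      · simp [ρ]
      · simp
    have hGM : ∀ i', (G.coeff i').natDegree < M := by
      intro i'
      refine lt_of_le_of_lt ?_ (hM i')
      rw [natDegree_le_iff_coeff_eq_zero]
      intro n hn
      rw [hG, mapL_coeff, coeff_eq_zero_of_natDegree_lt hn]
      simp
    have h2 := eval_double ρ (i X) y G N M (Nat.lt_succ_of_le hGdeg) hGM
    rw [← h1] at h2
    rw [h2, ← hzero]
    apply Finset.sum_congr rfl
    intro i' _
    apply Finset.sum_congr rfl
    intro j' _
    rw [hG, mapL_coeff]
  let _ : Algebra K[X] F := i.toAlgebra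
  have : FaithfulSMul K[X] F := (faithfulSMul_iff_algebraMap_injective _ _).2 hi
  have hint : IsIntegral K[X] y := ⟨f, hf, hy⟩
  have hd1 : minpoly K[X] y ∣ f := minpoly.isIntegrallyClosed_dvd hint hy
  have hd2 : minpoly K[X] y ∣ G := minpoly.isIntegrallyClosed_dvd hint hGy
  have h3 : f ∣ minpoly K[X] y := (hirr.dvd_iff.1 hd1).resolve_left
    (fun h => minpoly.not_isUnit K[X] y h) |>.dvd
  have h4 : f ∣ G := h3.trans hd2
  have h5 := natDegree_le_of_dvd h4 hGmon.ne_zero
  omega

end T2

/-- absolute irreducibility -/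
theorem irreducible_of_regular {K M F : Type} [Field K] [CharZero K] [Field M] [Field F]
    (φ : K →+* M) (i : K[X] →+* F) (hi : Function.Injective i)
    (f : K[X][X]) (hf : f.Monic) (hirr : Irreducible f)
    (y : F) (hy : Polynomial.eval₂ i y f = 0)
    (hreg : ∀ x : F, (∃ p : K[X], p ≠ 0 ∧ Polynomial.eval₂ (i.comp C) x p = 0) →
      ∃ c : K, x = i (C c)) :
    Irreducible (f.map (Polynomial.mapRingHom φ)) := by
  classical
  have hfm := hf.map (Polynomial.mapRingHom φ)
  have hndf : (f.map (Polynomial.mapRingHom φ)).natDegree = f.natDegree := hf.natDegree_map _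
  rw [Monic.irreducible_iff_natDegree hfm]
  constructor
  · intro h1
    have h2 : f.natDegree = 0 := by rw [← hndf, h1, natDegree_one]
    have h3 : f = 1 := by
      rw [Polynomial.eq_C_of_natDegree_eq_zero h2]
      have := hf.coeff_natDegree
      rw [h2] at this
      rw [this]; rfl
    exact hirr.not_isUnit (h3 ▸ isUnit_one)
  · intro a b ha hb hab
    by_contra hcon
    push Not at hcon
    have hsum : a.natDegree + b.natDegree = f.natDegree := by
      rw [← hndf, ← hab, ha.natDegree_mul hb]
    let _ : Algebra K M := φ.toAlgebra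
    let _ : Algebra K[X] M[X] := (Polynomial.mapRingHom φ).toAlgebra
    have hint : ∀ a b : M[X][X], a.Monic → a * b = f.map (Polynomial.mapRingHom φ) →
        ∀ m n, IsIntegral K ((a.coeff m).coeff n) := by
      intro a b ha hab m n
      have h1 : IsIntegral K[X] (a.coeff m) := isIntegral_coeff_of_dvd f a hf ha
        (Dvd.intro _ hab) m
      exact h1.coeff n
    let S : Set M := ((Finset.range (a.natDegree + 1)).biUnion fun m =>
        (Finset.range ((a.coeff m).natDegree + 1)).image fun n => (a.coeff m).coeff n : Finset M) ∪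
      ((Finset.range (b.natDegree + 1)).biUnion fun m =>
        (Finset.range ((b.coeff m).natDegree + 1)).image fun n => (b.coeff m).coeff n : Finset M)
    have hSfin : S.Finite := (Finset.finite_toSet _).union (Finset.finite_toSet _)
    have hSint : ∀ x ∈ S, IsIntegral K x := by
      rintro x (hx | hx)
      · simp only [Finset.coe_biUnion, Set.mem_iUnion, Finset.coe_image, Set.mem_image] at hx
        obtain ⟨m, -, n, -, rfl⟩ := hx
        exact hint a b ha hab m n
      · simp only [Finset.coe_biUnion, Set.mem_iUnion, Finset.coe_image, Set.mem_image] at hx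
        obtain ⟨m, -, n, -, rfl⟩ := hx
        exact hint b a hb (by rw [mul_comm]; exact hab) m n
    have : Finite S := hSfin
    have hfd : FiniteDimensional K (IntermediateField.adjoin K S) :=
      IntermediateField.finiteDimensional_adjoin hSint
    let K1 := IntermediateField.adjoin K S
    let ι : K1 →+* M := algebraMap K1 M
    have haS : ∀ m n, (a.coeff m).coeff n ∈ K1 := by
      intro m n
      by_cases hm : m ∈ Finset.range (a.natDegree + 1)
      · by_cases hn : n ∈ Finset.range ((a.coeff m).natDegree + 1)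
        · apply IntermediateField.subset_adjoin
          left
          simp only [Finset.coe_biUnion, Set.mem_iUnion, Finset.coe_image, Set.mem_image]
          exact ⟨m, hm, n, hn, rfl⟩
        · rw [coeff_eq_zero_of_natDegree_lt (p := a.coeff m) (n := n)
            (by simpa [Nat.lt_succ_iff] using hn)]
          exact zero_mem _
      · rw [coeff_eq_zero_of_natDegree_lt (p := a) (n := m)
          (by simpa [Nat.lt_succ_iff] using hm), coeff_zero]
        exact zero_mem _
    have hbS : ∀ m n, (b.coeff m).coeff n ∈ K1 := by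
      intro m n
      by_cases hm : m ∈ Finset.range (b.natDegree + 1)
      · by_cases hn : n ∈ Finset.range ((b.coeff m).natDegree + 1)
        · apply IntermediateField.subset_adjoin
          right
          simp only [Finset.coe_biUnion, Set.mem_iUnion, Finset.coe_image, Set.mem_image]
          exact ⟨m, hm, n, hn, rfl⟩
        · rw [coeff_eq_zero_of_natDegree_lt (p := b.coeff m) (n := n)
            (by simpa [Nat.lt_succ_iff] using hn)]
          exact zero_mem _
      · rw [coeff_eq_zero_of_natDegree_lt (p := b) (n := m)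
          (by simpa [Nat.lt_succ_iff] using hm), coeff_zero]
        exact zero_mem _
    have hlift : ∀ a : M[X][X], a.Monic → (∀ m n, (a.coeff m).coeff n ∈ K1) →
        ∃ a1 : K1[X][X], a1.map (mapRingHom ι) = a ∧ a1.natDegree = a.natDegree ∧ a1.Monic := by
      intro a ha haS
      have h1 : a ∈ lifts (mapRingHom ι) := by
        rw [lifts_iff_coeff_lifts]
        intro m
        have h2 : a.coeff m ∈ lifts ι := by
          rw [lifts_iff_coeff_lifts]
          intro n
          exact ⟨⟨_, haS m n⟩, rfl⟩
        obtain ⟨p, hp⟩ := (mem_lifts _).1 h2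
        exact ⟨p, hp⟩
      exact lifts_and_natDegree_eq_and_monic h1 ha
    obtain ⟨a1, ha1, ha1d, ha1m⟩ := hlift a ha haS
    obtain ⟨b1, hb1, hb1d, hb1m⟩ := hlift b hb hbS
    have hιi : Function.Injective (mapRingHom ι : K1[X] →+* M[X]) :=
      Polynomial.map_injective ι ι.injective
    have hab1 : a1 * b1 = f.map (mapRingHom (algebraMap K K1)) := by
      apply Polynomial.map_injective (mapRingHom ι) hιi
      rw [Polynomial.map_mul, ha1, hb1, hab, Polynomial.map_map, mapRingHom_comp]
      rfl
    -- the embedding into the algebraic closure of `F`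
    let Fb := AlgebraicClosure F
    let j : F →+* Fb := algebraMap F Fb
    let _ : Algebra K Fb := (j.comp (i.comp C)).toAlgebra
    have halg : Algebra.IsAlgebraic K K1 := inferInstance
    let τ : K1 →ₐ[K] Fb := IsAlgClosed.lift
    have hτ : (τ : K1 →+* Fb).comp (algebraMap K K1) = j.comp (i.comp C) := τ.comp_algebraMap
    have hzero : eval₂ (eval₂RingHom (τ : K1 →+* Fb) (j (i X))) (j y) (a1 * b1) = 0 := by
      rw [hab1, eval₂_map]
      have h1 : (eval₂RingHom (τ : K1 →+* Fb) (j (i X))).comp (mapRingHom (algebraMap K K1)) =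
          j.comp i := by
        ext x
        · have := congrArg (fun ψ : K →+* Fb => ψ x) hτ
          simpa using this
        · simp
      rw [h1, ← hom_eval₂, hy, map_zero]
    rw [eval₂_mul] at hzero
    rcases mul_eq_zero.1 hzero with h | h
    · exact T2.key i hi hreg f hf hirr y hy j (τ : K1 →+* Fb) hτ a1 ha1m (by omega) h
    · exact T2.key i hi hreg f hf hirr y hy j (τ : K1 →+* Fb) hτ b1 hb1m (by omega) h

end H33
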