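import Mathlib
import Pool.Agent.H33R2.Defs
import Pool.Agent.H33R2.Irred

/-! Task T3: base change of a generic solution. -/

set_option autoImplicit false
set_option linter.unusedSectionVars false
set_option linter.style.haveILetI false

open Polynomial

namespace H33
namespace T3

section Artin

variable {B Ω G : Type} [Field B] [Field Ω] [Group G] [Finite G] [MulSemiringAction G B]
  [FaithfulSMul G B]

theorem exists_prim (G B : Type) [Field B] [Group G] [Finite G] [MulSemiringAction G B] :
    ∃ y : B, ∀ (Ω : Type) [Field Ω] (J₁ J₂ : B →+* Ω),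
      (∀ b, (∀ g : G, g • b = b) → J₁ b = J₂ b) → J₁ y = J₂ y → J₁ = J₂ := by
  obtain ⟨y, hy⟩ := Field.exists_primitive_element (FixedPoints.subfield G B) B
  refine ⟨y, fun Ω _ J₁ J₂ h12 h => ?_⟩
  ext b
  have hb : b ∈ IntermediateField.adjoin (FixedPoints.subfield G B) {y} := by rw [hy]; trivial
  induction hb using IntermediateField.adjoin_induction with
  | mem x hx => rw [Set.mem_singleton_iff.1 hx]; exact h
  | algebraMap x => exact h12 _ (fun g => x.2 g)
  | add x y hx hy h1 h2 => simp [h1, h2]
  | inv x hx h1 => simp [h1]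
  | mul x y hx hy h1 h2 => simp [h1, h2]

omit [FaithfulSMul G B] in
theorem root_prod (J J' : B →+* Ω) (h : ∀ b, (∀ g : G, g • b = b) → J b = J' b) (y : B) :
    ∃ g : G, J' y = J (g • y) := by
  classical
  cases nonempty_fintype G
  have h1 : (MulSemiringAction.charpoly G y).map J = (MulSemiringAction.charpoly G y).map J' := by
    ext n
    rw [coeff_map, coeff_map]
    exact h _ (fun g => MulSemiringAction.smul_coeff_charpoly y n g)
  have h2 : (MulSemiringAction.charpoly G y).map J = ∏ g : G, (X - C (J (g • y))) := by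
    rw [MulSemiringAction.charpoly_eq_prod_smul, Polynomial.map_prod]
    refine Finset.prod_congr rfl fun g _ => ?_
    simp [smul_sub, Polynomial.smul_C]
  have h3 : ((MulSemiringAction.charpoly G y).map J').eval (J' y) = 0 := by
    rw [eval_map, eval₂_hom]
    rw [MulSemiringAction.charpoly_eq_prod_smul, eval_prod]
    rw [Finset.prod_eq_zero (Finset.mem_univ (1 : G))]
    · simp
    · simp
  rw [← h1, h2, eval_prod] at h3
  obtain ⟨g, -, hg⟩ := Finset.prod_eq_zero_iff.1 h3
  exact ⟨g, by simpa [sub_eq_zero] using hg⟩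

theorem hom_lift (J J' : B →+* Ω) (h : ∀ b, (∀ g : G, g • b = b) → J b = J' b) :
    ∃ g : G, ∀ b, J' b = J (g • b) := by
  obtain ⟨y, hy⟩ := exists_prim G B
  obtain ⟨g, hg⟩ := root_prod J J' h y
  refine ⟨g, fun b => ?_⟩
  have := hy Ω J' (J.comp (MulSemiringAction.toRingHom G B g)) (fun b hb => by
    simp only [RingHom.comp_apply, MulSemiringAction.toRingHom_apply]
    rw [hb g, h b hb]) (by simpa using hg)
  exact congrArg (fun f : B →+* Ω => f b) this

end Artin

section Gal

variable {P B Ω G : Type} [Field P] [Field B] [Field Ω] [Algebra P Ω] [Group G] [Finite G]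
  [MulSemiringAction G B] [FaithfulSMul G B]

open IntermediateField

theorem galois_adjoin [CharZero P] (J : B →+* Ω)
    (hJ : ∀ b, (∀ g : G, g • b = b) → ∃ p : P, algebraMap P Ω p = J b) :
    FiniteDimensional P (adjoin P (Set.range J)) ∧ IsGalois P (adjoin P (Set.range J)) := by
  classical
  cases nonempty_fintype G
  obtain ⟨y, hy⟩ := Field.exists_primitive_element (FixedPoints.subfield G B) B
  have h2 : (MulSemiringAction.charpoly G y).map J = ∏ g : G, (X - C (J (g • y))) := by
    rw [MulSemiringAction.charpoly_eq_prod_smul, Polynomial.map_prod]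
    refine Finset.prod_congr rfl fun g _ => ?_
    simp [smul_sub, Polynomial.smul_C]
  have h3 : (MulSemiringAction.charpoly G y).map J ∈ Polynomial.lifts (algebraMap P Ω) := by
    rw [Polynomial.lifts_iff_coeff_lifts]
    intro n
    rw [coeff_map]
    obtain ⟨p, hp⟩ := hJ ((MulSemiringAction.charpoly G y).coeff n)
      (fun g => MulSemiringAction.smul_coeff_charpoly y n g)
    exact ⟨p, hp⟩
  obtain ⟨q, hq⟩ := (Polynomial.mem_lifts _).1 h3
  have hsplit : (q.map (algebraMap P Ω)).Splits := by
    rw [hq, h2]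
    exact Polynomial.Splits.prod fun _ _ => Polynomial.Splits.X_sub_C _
  have hq0 : q.map (algebraMap P Ω) ≠ 0 := by
    rw [hq, h2]
    exact Finset.prod_ne_zero_iff.2 fun g _ => X_sub_C_ne_zero _
  have hroot : ∀ z : Ω, z ∈ q.rootSet Ω ↔ ∃ g : G, z = J (g • y) := by
    intro z
    rw [Polynomial.mem_rootSet', and_iff_right hq0, ← eval_map_algebraMap, hq, h2, eval_prod,
      Finset.prod_eq_zero_iff]
    constructor
    · rintro ⟨g, -, hg⟩
      exact ⟨g, by simpa [sub_eq_zero] using hg⟩
    · rintro ⟨g, hg⟩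
      exact ⟨g, Finset.mem_univ _, by simp [hg]⟩
  have hE : adjoin P (Set.range J) = adjoin P (q.rootSet Ω) := by
    apply le_antisymm
    · rw [adjoin_le_iff]
      rintro _ ⟨b, rfl⟩
      have hb : b ∈ IntermediateField.adjoin (FixedPoints.subfield G B) {y} := by rw [hy]; trivial
      show J b ∈ adjoin P (q.rootSet Ω)
      induction hb using IntermediateField.adjoin_induction with
      | mem x hx =>
        rw [Set.mem_singleton_iff.1 hx]
        exact subset_adjoin _ _ ((hroot _).2 ⟨1, by simp⟩)
      | algebraMap x =>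
        obtain ⟨p, hp⟩ := hJ (x : B) (fun g => x.2 g)
        have : J (algebraMap (FixedPoints.subfield G B) B x) = algebraMap P Ω p := hp.symm
        rw [this]
        exact IntermediateField.algebraMap_mem _ _
      | add x y hx hy h1 h2 => rw [map_add]; exact add_mem h1 h2
      | inv x hx h1 => rw [map_inv₀]; exact inv_mem h1
      | mul x y hx hy h1 h2 => rw [map_mul]; exact mul_mem h1 h2
    · rw [adjoin_le_iff]
      intro z hz
      obtain ⟨g, rfl⟩ := (hroot z).1 hz
      exact subset_adjoin _ _ ⟨_, rfl⟩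
  have hsf : q.IsSplittingField P (adjoin P (q.rootSet Ω)) :=
    IntermediateField.adjoin_rootSet_isSplittingField hsplit
  rw [hE]
  have hfd : FiniteDimensional P (adjoin P (q.rootSet Ω)) :=
    Polynomial.IsSplittingField.finiteDimensional _ q
  have hn : Normal P (adjoin P (q.rootSet Ω)) := Normal.of_isSplittingField q
  exact ⟨hfd, ⟨⟩⟩

/-- The restriction homomorphism. -/
theorem gal_restrict (J : B →+* Ω)
    (hJ : ∀ b, (∀ g : G, g • b = b) → ∃ p : P, algebraMap P Ω p = J b) :
    ∃ Φ : (adjoin P (Set.range J) ≃ₐ[P] adjoin P (Set.range J)) →* G, Function.Injective Φ ∧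
      ∀ (σ : adjoin P (Set.range J) ≃ₐ[P] adjoin P (Set.range J)) (b : B)
        (hb : J b ∈ adjoin P (Set.range J)), (σ ⟨J b, hb⟩ : Ω) = J (Φ σ • b) := by
  classical
  have hmem : ∀ b, J b ∈ adjoin P (Set.range J) := fun b => subset_adjoin _ _ ⟨b, rfl⟩
  let J' : B →+* adjoin P (Set.range J) := J.codRestrict _ hmem
  have key : ∀ σ : adjoin P (Set.range J) ≃ₐ[P] adjoin P (Set.range J),
      ∃ g : G, ∀ b, (σ (J' b) : Ω) = J (g • b) := by
    intro σ
    refine hom_lift J (((adjoin P (Set.range J)).val : adjoin P (Set.range J) →+* Ω).comp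
      ((σ : adjoin P (Set.range J) →+* adjoin P (Set.range J)).comp J')) ?_
    intro b hb
    obtain ⟨p, hp⟩ := hJ b hb
    have h1 : J' b = algebraMap P _ p := Subtype.ext hp.symm
    show J b = ((σ (J' b) : adjoin P (Set.range J)) : Ω)
    rw [h1, σ.commutes, ← hp]
    rfl
  choose Φ hΦ using key
  have huniq : ∀ g g' : G, (∀ b, J (g • b) = J (g' • b)) → g = g' := by
    intro g g' h
    exact FaithfulSMul.eq_of_smul_eq_smul (fun b => J.injective (h b))
  have hmul : ∀ σ τ, Φ (σ * τ) = Φ σ * Φ τ := by
    intro σ τ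
    apply huniq
    intro b
    rw [← hΦ, mul_smul, ← hΦ σ]
    have h1 : τ (J' b) = J' (Φ τ • b) := Subtype.ext (hΦ τ b)
    rw [AlgEquiv.mul_apply, h1]
  refine ⟨MonoidHom.mk' Φ hmul, ?_, ?_⟩
  · intro σ τ hst
    have hst' : Φ σ = Φ τ := hst
    have h1 : ∀ b, σ (J' b) = τ (J' b) := by
      intro b
      apply Subtype.ext
      rw [hΦ, hΦ, hst']
    ext x
    obtain ⟨x, hx⟩ := x
    have : σ ⟨x, hx⟩ = τ ⟨x, hx⟩ := by
      induction hx using IntermediateField.adjoin_induction with
      | mem x hx =>
        obtain ⟨b, rfl⟩ := hx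
        exact h1 b
      | algebraMap x =>
        exact (σ.commutes x).trans (τ.commutes x).symm
      | add x y hx hy h1 h2 =>
        exact (map_add σ (⟨x, hx⟩ : adjoin P (Set.range J)) ⟨y, hy⟩).trans
          ((congrArg₂ (· + ·) h1 h2).trans (map_add τ (⟨x, hx⟩ : adjoin P (Set.range J)) ⟨y, hy⟩).symm)
      | inv x hx h1 =>
        exact (map_inv₀ σ (⟨x, hx⟩ : adjoin P (Set.range J))).trans
          ((congrArg (·⁻¹) h1).trans (map_inv₀ τ (⟨x, hx⟩ : adjoin P (Set.range J))).symm)
      | mul x y hx hy h1 h2 =>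
        exact (map_mul σ (⟨x, hx⟩ : adjoin P (Set.range J)) ⟨y, hy⟩).trans
          ((congrArg₂ (· * ·) h1 h2).trans (map_mul τ (⟨x, hx⟩ : adjoin P (Set.range J)) ⟨y, hy⟩).symm)
    rw [this]
  · intro σ b hb
    exact hΦ σ b

end Gal


noncomputable section

/-- the map `A(t) → M(t)` induced by `A → M` -/
def rmap {A M : Type} [Field A] [Field M] (φ : A →+* M) : RatFunc A →+* RatFunc M :=
  RatFunc.mapRingHom (Polynomial.mapRingHom φ)
    (nonZeroDivisors_le_comap_nonZeroDivisors_of_injective _ (Polynomial.map_injective _ φ.injective))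

theorem rmap_alg {A M : Type} [Field A] [Field M] (φ : A →+* M) (p : A[X]) :
    rmap φ (algebraMap _ _ p) = algebraMap _ _ (p.map φ) := by
  have := RatFunc.map_apply_div (Polynomial.mapRingHom φ)
    (nonZeroDivisors_le_comap_nonZeroDivisors_of_injective _ (Polynomial.map_injective _ φ.injective))
    p 1
  simpa [rmap, RatFunc.coe_mapRingHom_eq_coe_map] using this

@[simp] theorem rmap_C {A M : Type} [Field A] [Field M] (φ : A →+* M) (a : A) :
    rmap φ (RatFunc.C a) = RatFunc.C (φ a) := by
  rw [← RatFunc.algebraMap_C, rmap_alg, Polynomial.map_C, RatFunc.algebraMap_C]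

@[simp] theorem rmap_X {A M : Type} [Field A] [Field M] (φ : A →+* M) :
    rmap φ RatFunc.X = RatFunc.X := by
  rw [← RatFunc.algebraMap_X, rmap_alg, Polynomial.map_X, RatFunc.algebraMap_X]

theorem rat_hom_ext {A S : Type} [Field A] [Field S] (f g : RatFunc A →+* S)
    (hC : ∀ a, f (RatFunc.C a) = g (RatFunc.C a)) (hX : f RatFunc.X = g RatFunc.X) : f = g := by
  have h1 : ∀ p : A[X], f (algebraMap _ _ p) = g (algebraMap _ _ p) := by
    intro p
    induction p using Polynomial.induction_on' with
    | add p q hp hq => simp only [map_add, hp, hq]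
    | monomial n a =>
      rw [← Polynomial.C_mul_X_pow_eq_monomial]
      simp only [map_mul, map_pow, RatFunc.algebraMap_C, RatFunc.algebraMap_X, hC, hX]
  ext x
  rw [← RatFunc.num_div_denom x, map_div₀, map_div₀, h1, h1]

theorem rmap_comp {A M N : Type} [Field A] [Field M] [Field N] (φ : A →+* M) (ψ : M →+* N) :
    (rmap ψ).comp (rmap φ) = rmap (ψ.comp φ) := by
  apply rat_hom_ext <;> simp

/-- `K`-linearly independent elements of `M` are `K(t)`-linearly independent in `M(t)` -/
theorem rat_li {K M : Type} [Field K] [Field M] [Algebra K M] {ι : Type} (b : ι → M)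
    (hb : LinearIndependent K b) (s : Finset ι) (c : ι → RatFunc K)
    (h : ∑ i ∈ s, rmap (algebraMap K M) (c i) * RatFunc.C (b i) = 0) : ∀ i ∈ s, c i = 0 := by
  classical
  obtain ⟨q, hq⟩ := IsLocalization.exist_integer_multiples (nonZeroDivisors K[X]) s c
  have hq0 : (algebraMap K[X] (RatFunc K) (q : K[X])) ≠ 0 :=
    RatFunc.algebraMap_ne_zero (nonZeroDivisors.ne_zero q.2)
  choose! p hp using hq
  have hp' : ∀ i ∈ s, algebraMap K[X] (RatFunc K) (p i) = algebraMap K[X] (RatFunc K) q * c i := by
    intro i hi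
    rw [hp i hi, Algebra.smul_def]
  have h1 : ∑ i ∈ s, (p i).map (algebraMap K M) * C (b i) = 0 := by
    apply RatFunc.algebraMap_injective M
    rw [map_sum, map_zero]
    have : ∑ i ∈ s, (algebraMap M[X] (RatFunc M)) ((p i).map (algebraMap K M) * C (b i)) =
        rmap (algebraMap K M) (algebraMap K[X] (RatFunc K) q) *
          ∑ i ∈ s, rmap (algebraMap K M) (c i) * RatFunc.C (b i) := by
      rw [Finset.mul_sum]
      refine Finset.sum_congr rfl fun i hi => ?_
      rw [map_mul, RatFunc.algebraMap_C, ← rmap_alg, hp' i hi, map_mul, mul_assoc]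
    rw [this, h, mul_zero]
  have h2 : ∀ i ∈ s, p i = 0 := by
    intro i hi
    ext n
    have h3 : ∑ i ∈ s, (p i).coeff n • b i = 0 := by
      have := congrArg (fun r : M[X] => r.coeff n) h1
      simp only [finsetSum_coeff, coeff_mul_C, coeff_map, coeff_zero] at this
      simpa [Algebra.smul_def] using this
    simpa using linearIndependent_iff'.1 hb s (fun i => (p i).coeff n) h3 i hi
  intro i hi
  have h4 := hp' i hi
  rw [h2 i hi, map_zero] at h4
  exact (mul_eq_zero.1 h4.symm).resolve_left hq0

/-- a rational function invariant under a family of automorphisms of the coefficients -/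
theorem rat_fixed {A : Type} [Field A] (σ : A →+* A) (q : RatFunc A) (h : rmap σ q = q) :
    q.num.map σ = q.num ∧ q.denom.map σ = q.denom := by
  have h1 : algebraMap A[X] (RatFunc A) (q.num.map σ) / algebraMap A[X] (RatFunc A) (q.denom.map σ)
      = algebraMap A[X] (RatFunc A) q.num / algebraMap A[X] (RatFunc A) q.denom := by
    rw [← rmap_alg, ← rmap_alg, ← map_div₀, RatFunc.num_div_denom, h]
  have hd : q.denom.map σ ≠ 0 := by
    rw [Ne, Polynomial.map_eq_zero]
    exact q.denom_ne_zero
  have hd1 := RatFunc.algebraMap_ne_zero hd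
  have hd2 := RatFunc.algebraMap_ne_zero q.denom_ne_zero
  rw [div_eq_div_iff hd1 hd2, ← map_mul, ← map_mul] at h1
  have h2 : q.num.map σ * q.denom = q.num * q.denom.map σ := RatFunc.algebraMap_injective A h1
  have hcop := RatFunc.isCoprime_num_denom q
  have h3 : q.denom ∣ q.denom.map σ := by
    have : q.denom ∣ q.num * q.denom.map σ := h2 ▸ dvd_mul_left _ _
    exact hcop.symm.dvd_of_dvd_mul_left this
  have hmon : q.denom.Monic := q.monic_denom
  have hmon' : (q.denom.map σ).Monic := hmon.map σ
  have h4 : q.denom.map σ = q.denom := by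
    obtain ⟨r, hr⟩ := h3
    have hrm : r.Monic := Polynomial.Monic.of_mul_monic_left hmon (hr ▸ hmon')
    have hdeg : (q.denom.map σ).natDegree = q.denom.natDegree := Polynomial.natDegree_map _
    rw [hr, hmon.natDegree_mul hrm] at hdeg
    have : r.natDegree = 0 := by omega
    rw [hrm.natDegree_eq_zero] at this
    rw [hr, this, mul_one]
  refine ⟨?_, h4⟩
  rw [h4] at h2
  exact mul_right_cancel₀ q.denom_ne_zero h2

end


section

variable {R B H : Type} [Field R] [Field B] [Algebra R B] [FiniteDimensional R B]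
  [Group H] [Finite H] [MulSemiringAction H B]

theorem fixed_mem [FaithfulSMul H B]
    (hcomm : ∀ (h : H) (r : R), h • algebraMap R B r = algebraMap R B r)
    (rank : Module.finrank R B = Nat.card H) (b : B) (hb : ∀ h : H, h • b = b) :
    ∃ r, b = algebraMap R B r := by
  haveI : SMulCommClass H R B := ⟨fun h r b => by
    rw [Algebra.smul_def, Algebra.smul_def, smul_mul', hcomm]⟩
  let ρ : H →* (B ≃ₐ[R] B) := MulSemiringAction.toAlgAut H R B
  have hρ : Function.Injective ρ := by
    intro h h' e
    refine FaithfulSMul.eq_of_smul_eq_smul (α := B) (fun b => ?_)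
    exact congrArg (fun f : B ≃ₐ[R] B => f b) e
  have h1 : Nat.card H ≤ Nat.card (B ≃ₐ[R] B) := Nat.card_le_card_of_injective _ hρ
  have h2 : Nat.card (B ≃ₐ[R] B) ≤ Module.finrank R B := by
    rw [Nat.card_eq_fintype_card]
    exact AlgEquiv.card_le
  haveI : IsGalois R B := IsGalois.of_card_aut_eq_finrank R B (by omega)
  have hbij : Function.Bijective ρ :=
    (Function.Injective.bijective_of_nat_card_le hρ (by omega))
  have h3 : b ∈ (⊥ : IntermediateField R B) := by
    rw [IsGalois.mem_bot_iff_fixed]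
    intro f
    obtain ⟨h, rfl⟩ := hbij.2 f
    exact hb h
  obtain ⟨r, hr⟩ := IntermediateField.mem_bot.1 h3
  exact ⟨r, hr.symm⟩

end

section

variable {F B : Type} [Field F] [CharZero F] [Field B] [Algebra (RatFunc F) B]
  [FiniteDimensional (RatFunc F) B]

theorem exists_poly : ∃ (y : B) (f : F[X][X]), f.Monic ∧ Irreducible f ∧
    f.natDegree = Module.finrank (RatFunc F) B ∧
    Polynomial.eval₂ ((algebraMap (RatFunc F) B).comp (algebraMap F[X] (RatFunc F))) y f = 0 := by
  letI : Algebra F[X] B := ((algebraMap (RatFunc F) B).comp (algebraMap F[X] (RatFunc F))).toAlgebra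
  haveI : IsScalarTower F[X] (RatFunc F) B := IsScalarTower.of_algebraMap_eq fun x => rfl
  haveI : CharZero (RatFunc F) := charZero_of_injective_algebraMap (RatFunc.algebraMap_injective F) 
  obtain ⟨y₀, hy₀⟩ := Field.exists_primitive_element (RatFunc F) B
  have hinj : Function.Injective (algebraMap F[X] B) :=
    (algebraMap (RatFunc F) B).injective.comp (RatFunc.algebraMap_injective F)
  have halg : IsAlgebraic F[X] y₀ := by
    have : IsAlgebraic (RatFunc F) y₀ := Algebra.IsAlgebraic.isAlgebraic y₀
    exact (IsFractionRing.isAlgebraic_iff F[X] (RatFunc F) B).2 this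
  obtain ⟨q, hq0, hq⟩ := halg.exists_integral_multiple
  set y := q • y₀ with hy
  have hqB : algebraMap (RatFunc F) B (algebraMap F[X] (RatFunc F) q) ≠ 0 := by
    rw [Ne, map_eq_zero]
    exact RatFunc.algebraMap_ne_zero hq0
  have hytop : IntermediateField.adjoin (RatFunc F) {y} = ⊤ := by
    rw [eq_top_iff, ← hy₀, IntermediateField.adjoin_simple_le_iff]
    have h1 : y₀ = algebraMap (RatFunc F) B (algebraMap F[X] (RatFunc F) q)⁻¹ * y := by
      rw [hy, Algebra.smul_def, map_inv₀]
      rw [IsScalarTower.algebraMap_apply F[X] (RatFunc F) B, inv_mul_cancel_left₀ hqB]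
    rw [h1]
    exact mul_mem (IntermediateField.algebraMap_mem _ _)
      (IntermediateField.mem_adjoin_simple_self _ _)
  haveI : Module.IsTorsionFree F[X] B :=
    Module.isTorsionFree_iff_algebraMap_injective.mpr hinj
  refine ⟨y, minpoly F[X] y, minpoly.monic hq, ?_, ?_, ?_⟩
  · exact (minpoly.prime_of_isIntegrallyClosed hq).irreducible
  · have h2 := (Field.primitive_element_iff_minpoly_natDegree_eq (RatFunc F) y).1 hytop
    rw [minpoly.isIntegrallyClosed_eq_field_fractions' (RatFunc F) hq,
      (minpoly.monic hq).natDegree_map] at h2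
    exact h2
  · exact minpoly.aeval F[X] y

end


noncomputable section

theorem wrap {K L H : Type} [Field K] [Field L] [Algebra K L] [Group H]
    (φ' : (L ≃ₐ[K] L) →* MulAut H) (E : Type) [Field E] [Algebra (RatFunc K) E]
    (hfd : FiniteDimensional (RatFunc K) E) (hgal : IsGalois (RatFunc K) E)
    (ι₀ : L →+* E) (hι₀ : ∀ c, ι₀ (algebraMap K L c) = algebraMap (RatFunc K) E (RatFunc.C c))
    (ψ : SemidirectProduct H (L ≃ₐ[K] L) φ' ≃* (E ≃ₐ[RatFunc K] E))
    (h1 : ∀ x a, ψ x (ι₀ a) = ι₀ (x.right a))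
    (h2 : ∀ x : E, (∃ p : K[X], p ≠ 0 ∧
      eval₂ ((algebraMap (RatFunc K) E).comp RatFunc.C) x p = 0) → x ∈ Set.range ι₀) :
    ∃ (E : Type) (_ : Field E) (_ : Algebra (RatFunc K) E) (_ : Algebra K E)
        (_ : IsScalarTower K (RatFunc K) E),
        FiniteDimensional (RatFunc K) E ∧ IsGalois (RatFunc K) E ∧
        ∃ (ι : L →ₐ[K] E)
          (ψ : SemidirectProduct H (L ≃ₐ[K] L) φ' ≃*
            (E ≃ₐ[RatFunc K] E)),
          (∀ x a, ψ x (ι a) = ι (x.right a)) ∧
          ∀ e : E, IsAlgebraic K e → e ∈ Set.range ι := by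
  letI : Algebra K E := ((algebraMap (RatFunc K) E).comp RatFunc.C).toAlgebra
  haveI : IsScalarTower K (RatFunc K) E := IsScalarTower.of_algebraMap_eq fun c => by
    rw [RatFunc.algebraMap_eq_C]; rfl
  refine ⟨E, inferInstance, inferInstance, inferInstance, inferInstance, hfd, hgal,
    { ι₀ with commutes' := fun c => hι₀ c }, ψ, fun x a => h1 x a, ?_⟩
  rintro x ⟨p, hp0, hp⟩
  exact h2 x ⟨p, hp0, hp⟩

/-- fields generated by an equivariant copy -/
theorem adjoin_range_top {K L F Γ : Type} [Field K] [Field L] [Field F] [Algebra K L]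
    [FiniteDimensional K L] [IsGalois K L] [Group Γ] [MulSemiringAction Γ F] [FaithfulSMul Γ F]
    (e : (L ≃ₐ[K] L) ≃* Γ) (j : F →+* L)
    (hj : ∀ (γ : L ≃ₐ[K] L) (x : F), j (e γ • x) = γ (j x)) :
    IntermediateField.adjoin K (Set.range j) = ⊤ := by
  have h1 : IntermediateField.fixingSubgroup (IntermediateField.adjoin K (Set.range j)) = ⊥ := by
    rw [eq_bot_iff]
    intro γ hγ
    rw [Subgroup.mem_bot]
    have h2 : e γ = 1 := by
      refine FaithfulSMul.eq_of_smul_eq_smul (α := F) (fun x => ?_)
      apply j.injective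
      rw [hj, one_smul]
      exact (IntermediateField.mem_fixingSubgroup_iff _ _).1 hγ _
        (IntermediateField.subset_adjoin _ _ ⟨x, rfl⟩)
    exact e.map_eq_one_iff.1 h2
  rw [← IsGalois.fixedField_fixingSubgroup (IntermediateField.adjoin K (Set.range j)), h1,
    IntermediateField.fixedField_bot]

theorem mem_base {K L F Γ : Type} [Field K] [Field L] [Field F] [Algebra K L]
    [FiniteDimensional K L] [IsGalois K L] [Group Γ] [MulSemiringAction Γ F]
    (e : (L ≃ₐ[K] L) ≃* Γ) (j : F →+* L)
    (hj : ∀ (γ : L ≃ₐ[K] L) (x : F), j (e γ • x) = γ (j x)) (x : F) (hx : ∀ γ : Γ, γ • x = x) :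
    ∃ c, algebraMap K L c = j x := by
  have : j x ∈ (⊥ : IntermediateField K L) := by
    rw [IsGalois.mem_bot_iff_fixed]
    intro γ
    rw [← hj, hx]
  exact IntermediateField.mem_bot.1 this


theorem big_li {K Lb Ω : Type} [Field K] [Field Lb] [Field Ω] [Algebra K Lb]
    [Algebra (RatFunc Lb) Ω] [Algebra (RatFunc K) Ω]
    (hiK : algebraMap (RatFunc K) Ω = (algebraMap (RatFunc Lb) Ω).comp (rmap (algebraMap K Lb)))
    (z : Ω) (n : ℕ) (hz : LinearIndependent (RatFunc Lb) (fun i : Fin n => z ^ (i : ℕ)))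
    {ι : Type} (b : ι → Lb) (hb : LinearIndependent K b) :
    LinearIndependent (RatFunc K)
      (fun p : ι × Fin n => algebraMap (RatFunc Lb) Ω (RatFunc.C (b p.1)) * z ^ (p.2 : ℕ)) := by
  letI : Algebra (RatFunc K) (RatFunc Lb) := (rmap (algebraMap K Lb)).toAlgebra
  haveI : IsScalarTower (RatFunc K) (RatFunc Lb) Ω :=
    IsScalarTower.of_algebraMap_eq fun x => by rw [hiK]; rfl
  have h1 : LinearIndependent (RatFunc K) (fun i => (RatFunc.C (b i) : RatFunc Lb)) := by
    rw [linearIndependent_iff']
    intro s c hc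
    refine rat_li b hb s c ?_
    rw [← hc]
    exact Finset.sum_congr rfl fun i _ => (Algebra.smul_def _ _).symm
  have h2 := linearIndependent_smul h1 hz
  have h3 : (fun p : ι × Fin n => algebraMap (RatFunc Lb) Ω (RatFunc.C (b p.1)) * z ^ (p.2 : ℕ)) =
      (fun p : ι × Fin n => (RatFunc.C (b p.1) : RatFunc Lb) • z ^ (p.2 : ℕ)) := by
    funext p
    rw [Algebra.smul_def]
  rw [h3]
  exact h2

/-- if `C z` is a `K(t)`-combination of a basis of `L` then `z ∈ L` -/
theorem mem_of_comb {K L Lb : Type} [Field K] [Field L] [Field Lb] [Algebra K L] [Algebra L Lb]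
    [Algebra K Lb] [IsScalarTower K L Lb] {ι : Type} [Fintype ι] (b : Module.Basis ι K L) (z : Lb)
    (c : ι → RatFunc K)
    (h : RatFunc.C z = ∑ i, rmap (algebraMap K Lb) (c i) * RatFunc.C (algebraMap L Lb (b i))) :
    ∃ x : L, algebraMap L Lb x = z := by
  classical
  by_contra hcon
  have hb' : LinearIndependent K (fun i => algebraMap L Lb (b i)) := by
    have := b.linearIndependent.map' (IsScalarTower.toAlgHom K L Lb).toLinearMap
      (LinearMap.ker_eq_bot.2 (algebraMap L Lb).injective)
    exact this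
  have hz : z ∉ Submodule.span K (Set.range fun i => algebraMap L Lb (b i)) := by
    intro hz
    apply hcon
    have h1 : Submodule.span K (Set.range fun i => algebraMap L Lb (b i)) ≤
        LinearMap.range (IsScalarTower.toAlgHom K L Lb).toLinearMap := by
      rw [Submodule.span_le]
      rintro _ ⟨i, rfl⟩
      exact ⟨b i, rfl⟩
    obtain ⟨x, hx⟩ := h1 hz
    exact ⟨x, hx⟩
  have hli : LinearIndependent K (fun o : Option ι => o.elim z (fun i => algebraMap L Lb (b i))) := by
    rw [linearIndependent_option]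
    exact ⟨hb', hz⟩
  have := rat_li _ hli Finset.univ (fun o => o.elim (-1) c) (by
    rw [Fintype.sum_option]
    simp only [Option.elim]
    rw [← h, map_neg, map_one]
    ring) none (Finset.mem_univ _)
  simp at this


section main

variable {k : Type} [Field k] [CharZero k] (T : Task k) (H : Type) [Group H] [Finite H]
    (φ : T.Γ →* MulAut H) (D : GenSol T H φ)

/-- the action on `F(t)` inside `B` -/
theorem smul_rat (g : SemidirectProduct H T.Γ φ) (q : RatFunc T.F) :
    g • algebraMap (RatFunc T.F) D.B q =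
      algebraMap (RatFunc T.F) D.B (rmap (MulSemiringAction.toRingHom T.Γ T.F g.right) q) := by
  have h : ((MulSemiringAction.toRingHom _ D.B g).comp (algebraMap (RatFunc T.F) D.B)) =
      (algebraMap (RatFunc T.F) D.B).comp
        (rmap (MulSemiringAction.toRingHom T.Γ T.F g.right)) := by
    apply rat_hom_ext
    · intro a
      simp [D.smul_C]
    · simp [D.smul_X]
  exact congrArg (fun f : RatFunc T.F →+* D.B => f q) h

theorem fixed_rat (b : D.B) (hb : ∀ g : SemidirectProduct H T.Γ φ, g • b = b) :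
    ∃ q : RatFunc T.F, b = algebraMap (RatFunc T.F) D.B q ∧
      ∀ γ : T.Γ, rmap (MulSemiringAction.toRingHom T.Γ T.F γ) q = q := by
  letI : MulSemiringAction H D.B :=
    MulSemiringAction.compHom D.B (SemidirectProduct.inl : H →* SemidirectProduct H T.Γ φ)
  have hsm : ∀ (h : H) (x : D.B), h • x = (SemidirectProduct.inl h : SemidirectProduct H T.Γ φ) • x :=
    fun h x => rfl
  haveI := D.faith
  haveI : FaithfulSMul H D.B := ⟨fun {h h'} hh => by
    apply SemidirectProduct.inl_injective (φ := φ)
    exact FaithfulSMul.eq_of_smul_eq_smul (α := D.B) (fun x => by rw [← hsm, ← hsm, hh])⟩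
  obtain ⟨q, hq⟩ := fixed_mem (R := RatFunc T.F) (B := D.B) (H := H) (fun h r => by
    rw [hsm, smul_rat]
    congr 1
    have : rmap (MulSemiringAction.toRingHom T.Γ T.F
        (SemidirectProduct.inl h : SemidirectProduct H T.Γ φ).right) = RingHom.id _ := by
      apply rat_hom_ext <;> simp
    rw [this]; rfl) D.rank b (fun h => hb _)
  refine ⟨q, hq, fun γ => ?_⟩
  apply (algebraMap (RatFunc T.F) D.B).injective
  have h1 := smul_rat T H φ D (SemidirectProduct.inr γ) q
  rw [SemidirectProduct.right_inr] at h1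
  rw [← h1, ← hq, hb]

variable (K L : Type) [Field K] [Field L] [Algebra K L] [FiniteDimensional K L] [IsGalois K L]
    (e : (L ≃ₐ[K] L) ≃* T.Γ) (j : T.F →+* L)
    (hj : ∀ (γ : L ≃ₐ[K] L) (x : T.F), j (e γ • x) = γ (j x))

include hj in
theorem fixed_desc (q : RatFunc T.F)
    (hq : ∀ γ : T.Γ, rmap (MulSemiringAction.toRingHom T.Γ T.F γ) q = q) :
    ∃ p : RatFunc K, rmap (algebraMap K L) p = rmap j q := by
  have h0 : ∀ f : T.F[X], (∀ γ : T.Γ, f.map (MulSemiringAction.toRingHom T.Γ T.F γ) = f) →
      ∃ p : K[X], p.map (algebraMap K L) = f.map j := by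
    intro f hf
    have : f.map j ∈ Polynomial.lifts (algebraMap K L) := by
      rw [Polynomial.lifts_iff_coeff_lifts]
      intro n
      rw [coeff_map]
      obtain ⟨c, hc⟩ := mem_base e j hj (f.coeff n) (fun γ => by
        have := congrArg (fun r : T.F[X] => r.coeff n) (hf γ)
        simpa using this)
      exact ⟨c, hc⟩
    exact (Polynomial.mem_lifts _).1 this
  obtain ⟨n, hn⟩ := h0 q.num (fun γ => (rat_fixed _ q (hq γ)).1)
  obtain ⟨d, hd⟩ := h0 q.denom (fun γ => (rat_fixed _ q (hq γ)).2)
  refine ⟨algebraMap _ _ n / algebraMap _ _ d, ?_⟩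
  rw [map_div₀, rmap_alg, rmap_alg, hn, hd, ← rmap_alg, ← rmap_alg, ← map_div₀,
    RatFunc.num_div_denom]


end main

end

end T3

open T3 in
/-- TASK T3 (base change of a generic solution). -/
theorem base_change {k : Type} [Field k] [CharZero k] (T : Task k) (H : Type) [Group H] [Finite H]
    (φ : T.Γ →* MulAut H) (D : GenSol T H φ)
    (K L : Type) [Field K] [Field L] [Algebra K L] [FiniteDimensional K L] [IsGalois K L]
    (e : (L ≃ₐ[K] L) ≃* T.Γ) (hfaith : FaithfulSMul T.Γ T.F)
    (j : T.F →+* L) (hj : ∀ (γ : L ≃ₐ[K] L) (x : T.F), j (e γ • x) = γ (j x)) :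
    ∃ (E : Type) (_ : Field E) (_ : Algebra (RatFunc K) E) (_ : Algebra K E)
        (_ : IsScalarTower K (RatFunc K) E),
        FiniteDimensional (RatFunc K) E ∧ IsGalois (RatFunc K) E ∧
        ∃ (ι : L →ₐ[K] E)
          (ψ : SemidirectProduct H (L ≃ₐ[K] L) (φ.comp e.toMonoidHom) ≃*
            (E ≃ₐ[RatFunc K] E)),
          (∀ x a, ψ x (ι a) = ι (x.right a)) ∧
          ∀ e : E, IsAlgebraic K e → e ∈ Set.range ι := by
  classical
  haveI := hfaith
  haveI : CharZero T.F := charZero_of_injective_algebraMap (algebraMap k T.F).injective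
  haveI : CharZero L := charZero_of_injective_ringHom j.injective
  haveI : CharZero K := ((algebraMap K L).charZero_iff (algebraMap K L).injective).2 inferInstance
  haveI : CharZero (RatFunc K) :=
    charZero_of_injective_algebraMap (RatFunc.algebraMap_injective K)
  obtain ⟨y, f, hfm, hfi, hfd, hfy⟩ := exists_poly (F := T.F) (B := D.B)
  set Lb := AlgebraicClosure L with hLb
  set Ω := AlgebraicClosure (RatFunc Lb) with hΩ
  let iL : RatFunc L →+* Ω := (algebraMap (RatFunc Lb) Ω).comp (rmap (algebraMap L Lb))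
  let iF : RatFunc T.F →+* Ω := iL.comp (rmap j)
  let iK : RatFunc K →+* Ω := iL.comp (rmap (algebraMap K L))
  have hiK : iK = (algebraMap (RatFunc Lb) Ω).comp (rmap (algebraMap K Lb)) := by
    show ((algebraMap (RatFunc Lb) Ω).comp (rmap (algebraMap L Lb))).comp (rmap (algebraMap K L)) = _
    rw [RingHom.comp_assoc, rmap_comp, ← IsScalarTower.algebraMap_eq K L Lb]
  -- the embedding of `B`
  obtain ⟨J, hJ⟩ : ∃ J : D.B →+* Ω, J.comp (algebraMap (RatFunc T.F) D.B) = iF := by
    letI : Algebra (RatFunc T.F) Ω := iF.toAlgebra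
    exact ⟨(IsAlgClosed.lift : D.B →ₐ[RatFunc T.F] Ω), (IsAlgClosed.lift : D.B →ₐ[RatFunc T.F] Ω).comp_algebraMap⟩
  have hJ' : ∀ q, J (algebraMap (RatFunc T.F) D.B q) = iF q := fun q =>
    congrArg (fun r : RatFunc T.F →+* Ω => r q) hJ
  -- linear independence of powers of `J y` over `Lb(t)`
  have hirr : Irreducible (f.map (Polynomial.mapRingHom ((algebraMap L Lb).comp j))) :=
    irreducible_of_regular ((algebraMap L Lb).comp j)
      ((algebraMap (RatFunc T.F) D.B).comp (algebraMap T.F[X] (RatFunc T.F)))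
      ((algebraMap (RatFunc T.F) D.B).injective.comp (RatFunc.algebraMap_injective _)) f hfm hfi y hfy
      (fun x hx => by
        obtain ⟨p, hp0, hp⟩ := hx
        have hC : ((algebraMap (RatFunc T.F) D.B).comp (algebraMap T.F[X] (RatFunc T.F))).comp C =
            (algebraMap (RatFunc T.F) D.B).comp RatFunc.C := by
          ext a
          simp
        rw [hC] at hp
        obtain ⟨c, hc⟩ := D.reg x ⟨p, hp0, hp⟩
        exact ⟨c, by rw [hc]; simp⟩)
  set f₁ : (RatFunc Lb)[X] := (f.map (Polynomial.mapRingHom ((algebraMap L Lb).comp j))).map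
    (algebraMap Lb[X] (RatFunc Lb)) with hf₁
  have hfm₁ : (f.map (Polynomial.mapRingHom ((algebraMap L Lb).comp j))).Monic := hfm.map _
  have hf₁irr : Irreducible f₁ := (hfm₁.irreducible_iff_irreducible_map_fraction_map).1 hirr
  have hf₁m : f₁.Monic := hfm₁.map _
  have hroot : aeval (J y) f₁ = 0 := by
    have h1 : J (eval₂ ((algebraMap (RatFunc T.F) D.B).comp (algebraMap T.F[X] (RatFunc T.F))) y f)
        = 0 := by rw [hfy, map_zero]
    rw [Polynomial.hom_eval₂] at h1
    rw [Polynomial.aeval_def, hf₁, Polynomial.eval₂_map, Polynomial.eval₂_map, ← h1]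
    congr 1
    apply RingHom.ext
    intro p
    simp only [RingHom.comp_apply, hJ']
    show algebraMap (RatFunc Lb) Ω _ = algebraMap (RatFunc Lb) Ω _
    rw [rmap_alg, rmap_alg, Polynomial.map_map]
    rfl
  have hmin : minpoly (RatFunc Lb) (J y) = f₁ :=
    (minpoly.eq_of_irreducible_of_monic hf₁irr hroot hf₁m).symm
  have hdeg : f₁.natDegree = Nat.card H := by
    rw [hf₁, hfm₁.natDegree_map, hfm.natDegree_map, hfd, D.rank]
  have hpow : LinearIndependent (RatFunc Lb) (fun i : Fin (Nat.card H) => (J y) ^ (i : ℕ)) := by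
    have := linearIndependent_pow (K := RatFunc Lb) (J y)
    rw [hmin, hdeg] at this
    exact this
  -- the field `E`
  letI : Algebra (RatFunc K) Ω := iK.toAlgebra
  have hJfix : ∀ b, (∀ g : SemidirectProduct H T.Γ φ, g • b = b) →
      ∃ p : RatFunc K, algebraMap (RatFunc K) Ω p = J b := by
    intro b hb
    obtain ⟨q, hq, hq'⟩ := fixed_rat T H φ D b hb
    obtain ⟨p, hp⟩ := fixed_desc T K L e j hj q hq'
    refine ⟨p, ?_⟩
    rw [hq, hJ']
    show iL (rmap (algebraMap K L) p) = iL (rmap j q)
    rw [hp]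
  haveI := D.faith
  haveI : Finite (SemidirectProduct H T.Γ φ) := Finite.of_equiv _ SemidirectProduct.equivProd.symm
  obtain ⟨hEfd, hEgal⟩ := galois_adjoin (P := RatFunc K) J hJfix
  obtain ⟨Φ, hΦinj, hΦ⟩ := gal_restrict (P := RatFunc K) J hJfix
  have hLE : ∀ x : L, iL (RatFunc.C x) ∈ IntermediateField.adjoin (RatFunc K) (Set.range J) := by
    intro x
    have hx : x ∈ IntermediateField.adjoin K (Set.range j) := by
      rw [adjoin_range_top e j hj]; trivial
    induction hx using IntermediateField.adjoin_induction with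
    | mem x hx =>
      obtain ⟨a, rfl⟩ := hx
      refine IntermediateField.subset_adjoin _ _ ⟨algebraMap (RatFunc T.F) D.B (RatFunc.C a), ?_⟩
      rw [hJ']
      show iL (rmap j (RatFunc.C a)) = _
      rw [rmap_C]
    | algebraMap c =>
      have : iL (RatFunc.C (algebraMap K L c)) = algebraMap (RatFunc K) Ω (RatFunc.C c) := by
        show _ = iL (rmap (algebraMap K L) (RatFunc.C c))
        rw [rmap_C]
      rw [this]
      exact IntermediateField.algebraMap_mem _ _
    | add x y hx hy h1 h2 => rw [map_add, map_add]; exact add_mem h1 h2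
    | inv x hx h1 => rw [map_inv₀, map_inv₀]; exact inv_mem h1
    | mul x y hx hy h1 h2 => rw [map_mul, map_mul]; exact mul_mem h1 h2
  let ι₀ : L →+* IntermediateField.adjoin (RatFunc K) (Set.range J) :=
    (iL.comp RatFunc.C).codRestrict _ hLE
  have hι₀ : ∀ x, ((ι₀ x : IntermediateField.adjoin (RatFunc K) (Set.range J)) : Ω) =
    iL (RatFunc.C x) := fun x => rfl
  -- cardinalities
  let b := Module.finBasis K L
  have hdim : Module.finrank K L = Nat.card T.Γ := by
    rw [← IsGalois.card_aut_eq_finrank, Nat.card_congr e.toEquiv]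
  have hb' : LinearIndependent K (fun i => algebraMap L Lb (b i)) := by
    have := b.linearIndependent.map' (IsScalarTower.toAlgHom K L Lb).toLinearMap
      (LinearMap.ker_eq_bot.2 (algebraMap L Lb).injective)
    exact this
  have hli := big_li hiK (J y) (Nat.card H) hpow _ hb'
  have hmemE : ∀ p : Fin (Module.finrank K L) × Fin (Nat.card H),
      algebraMap (RatFunc Lb) Ω (RatFunc.C (algebraMap L Lb (b p.1))) * (J y) ^ (p.2 : ℕ) ∈
        IntermediateField.adjoin (RatFunc K) (Set.range J) := by
    intro p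
    refine mul_mem ?_ (pow_mem (IntermediateField.subset_adjoin (RatFunc K) (Set.range J)
      (Set.mem_range_self y)) _)
    have : algebraMap (RatFunc Lb) Ω (RatFunc.C (algebraMap L Lb (b p.1))) =
        iL (RatFunc.C (b p.1)) := by
      show _ = algebraMap (RatFunc Lb) Ω (rmap (algebraMap L Lb) (RatFunc.C (b p.1)))
      rw [rmap_C]
    rw [this]
    exact hLE _
  let vE : Fin (Module.finrank K L) × Fin (Nat.card H) →
      IntermediateField.adjoin (RatFunc K) (Set.range J) := fun p =>
        ⟨algebraMap (RatFunc Lb) Ω (RatFunc.C (algebraMap L Lb (b p.1))) * (J y) ^ (p.2 : ℕ),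
          hmemE p⟩
  have hvE : LinearIndependent (RatFunc K) vE :=
    LinearIndependent.of_comp (IntermediateField.adjoin (RatFunc K) (Set.range J)).val.toLinearMap
      hli
  have hc1 : Module.finrank K L * Nat.card H ≤
      Module.finrank (RatFunc K) (IntermediateField.adjoin (RatFunc K) (Set.range J)) := by
    have := hvE.fintype_card_le_finrank
    simpa [Fintype.card_prod] using this
  have hc2 : Nat.card (SemidirectProduct H T.Γ φ) = Nat.card H * Nat.card T.Γ :=
    SemidirectProduct.card
  have hc3 := IsGalois.card_aut_eq_finrank (RatFunc K)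
    (IntermediateField.adjoin (RatFunc K) (Set.range J))
  have hc4 := Nat.card_le_card_of_injective Φ hΦinj
  have hc5 : Nat.card (IntermediateField.adjoin (RatFunc K) (Set.range J) ≃ₐ[RatFunc K]
      IntermediateField.adjoin (RatFunc K) (Set.range J)) =
      Nat.card (SemidirectProduct H T.Γ φ) := by
    rw [hdim] at hc1
    rw [hc2] at hc4 ⊢
    rw [Nat.mul_comm] at hc1
    omega
  have hbij : Function.Bijective Φ :=
    Function.Injective.bijective_of_nat_card_le hΦinj (by omega)
  let θ : SemidirectProduct H (L ≃ₐ[K] L) (φ.comp e.toMonoidHom) ≃* SemidirectProduct H T.Γ φ :=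
    SemidirectProduct.congr (MulEquiv.refl H) e (fun g => rfl)
  let ψ : SemidirectProduct H (L ≃ₐ[K] L) (φ.comp e.toMonoidHom) ≃*
      (IntermediateField.adjoin (RatFunc K) (Set.range J) ≃ₐ[RatFunc K]
        IntermediateField.adjoin (RatFunc K) (Set.range J)) :=
    θ.trans (MulEquiv.ofBijective Φ hbij).symm
  have hψ : ∀ x, Φ (ψ x) = θ x := fun x => (MulEquiv.ofBijective Φ hbij).apply_symm_apply (θ x)
  have hθ : ∀ x, (θ x).right = e x.right := fun x => rfl
  refine wrap (φ.comp e.toMonoidHom) (IntermediateField.adjoin (RatFunc K) (Set.range J))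
    hEfd hEgal ι₀ ?_ ψ ?_ ?_
  · intro c
    apply Subtype.ext
    rw [hι₀]
    show _ = iL (rmap (algebraMap K L) (RatFunc.C c))
    rw [rmap_C]
  · intro x a
    have ha : a ∈ IntermediateField.adjoin K (Set.range j) := by
      rw [adjoin_range_top e j hj]; trivial
    induction ha using IntermediateField.adjoin_induction with
    | mem a ha =>
      obtain ⟨c, rfl⟩ := ha
      apply Subtype.ext
      have h1 : ι₀ (j c) = ⟨J (algebraMap (RatFunc T.F) D.B (RatFunc.C c)),
          IntermediateField.subset_adjoin _ _ ⟨_, rfl⟩⟩ := by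
        apply Subtype.ext
        rw [hι₀]
        show _ = J _
        rw [hJ']
        show _ = iL (rmap j (RatFunc.C c))
        rw [rmap_C]
      rw [h1, hΦ, hψ, D.smul_C, hθ, hJ', hι₀, ← hj]
      show iL (rmap j (RatFunc.C (e x.right • c))) = _
      rw [rmap_C]
    | algebraMap c =>
      have h1 : ι₀ (algebraMap K L c) = algebraMap (RatFunc K) _ (RatFunc.C c) := by
        apply Subtype.ext
        rw [hι₀]
        show _ = iL (rmap (algebraMap K L) (RatFunc.C c))
        rw [rmap_C]
      rw [AlgEquiv.commutes, h1, AlgEquiv.commutes]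
    | add a b ha hb h1 h2 => simp only [map_add, h1, h2]
    | inv a ha h1 => simp only [map_inv₀, h1]
    | mul a b ha hb h1 h2 => simp only [map_mul, h1, h2]
  · rintro ⟨x, hxE⟩ ⟨p, hp0, hp⟩
    -- `x` lies in `Lb`
    have hxalg : eval₂ ((algebraMap (RatFunc K) Ω).comp RatFunc.C) x p = 0 := by
      have := congrArg (IntermediateField.adjoin (RatFunc K) (Set.range J)).val hp
      rw [map_zero] at this
      rw [← this]
      show _ = (IntermediateField.adjoin (RatFunc K) (Set.range J)).val.toRingHom _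
      rw [Polynomial.hom_eval₂]
      rfl
    have hz : ∃ z : Lb, algebraMap (RatFunc Lb) Ω (RatFunc.C z) = x := by
      have h1 : eval₂ ((algebraMap (RatFunc Lb) Ω).comp RatFunc.C) x (p.map (algebraMap K Lb)) = 0 := by
        rw [Polynomial.eval₂_map, ← hxalg]
        congr 1
        apply RingHom.ext
        intro c
        show _ = iK (RatFunc.C c)
        rw [hiK]
        simp
      have h2 : p.map (algebraMap K Lb) ≠ 0 := by
        rwa [Ne, Polynomial.map_eq_zero]
      have h3 := IsAlgClosed.splits (p.map (algebraMap K Lb))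
      rw [h3.eq_prod_roots, Polynomial.eval₂_mul, Polynomial.eval₂_C] at h1
      rcases mul_eq_zero.1 h1 with h4 | h4
      · exfalso
        rw [map_eq_zero, Polynomial.leadingCoeff_eq_zero] at h4
        exact h2 h4
      · rw [Polynomial.eval₂_multiset_prod, Multiset.prod_eq_zero_iff] at h4
        simp only [Multiset.map_map, Multiset.mem_map, Function.comp_apply] at h4
        obtain ⟨z, -, hz⟩ := h4
        refine ⟨z, ?_⟩
        rw [Polynomial.eval₂_sub, Polynomial.eval₂_X, Polynomial.eval₂_C, sub_eq_zero] at hz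
        exact hz.symm
    obtain ⟨z, hz⟩ := hz
    have hspan : Submodule.span (RatFunc K) (Set.range vE) = ⊤ := by
      apply hvE.span_eq_top_of_card_eq_finrank'
      rw [Fintype.card_prod, Fintype.card_fin, Fintype.card_fin, ← hc3, hc5, hc2, hdim,
        Nat.mul_comm]
    have hx : (⟨x, hxE⟩ : IntermediateField.adjoin (RatFunc K) (Set.range J)) ∈
        Submodule.span (RatFunc K) (Set.range vE) := by
      rw [hspan]; trivial
    obtain ⟨c, hc⟩ := (Submodule.mem_span_range_iff_exists_fun _).1 hx
    have hc' : ∑ p : Fin (Module.finrank K L) × Fin (Nat.card H), iK (c p) *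
        (algebraMap (RatFunc Lb) Ω (RatFunc.C (algebraMap L Lb (b p.1))) * (J y) ^ (p.2 : ℕ)) =
        x := by
      have := congrArg (IntermediateField.adjoin (RatFunc K) (Set.range J)).val hc
      rw [map_sum] at this
      rw [show x = (IntermediateField.adjoin (RatFunc K) (Set.range J)).val ⟨x, hxE⟩ from rfl,
        ← this]
      refine Finset.sum_congr rfl fun p _ => ?_
      rw [Algebra.smul_def, map_mul]
      rfl
    haveI : Nonempty H := ⟨1⟩
    have hn : 0 < Nat.card H := Nat.card_pos
    have hR : ∑ m : Fin (Nat.card H), (if m = ⟨0, hn⟩ then (RatFunc.C z : RatFunc Lb) else 0) •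
        (J y) ^ (m : ℕ) = x := by
      rw [Finset.sum_eq_single (⟨0, hn⟩ : Fin (Nat.card H))]
      · rw [if_pos rfl, pow_zero, Algebra.smul_def, mul_one, hz]
      · intro m _ hm
        rw [if_neg hm, zero_smul]
      · intro h
        exact absurd (Finset.mem_univ _) h
    have hlin := Fintype.linearIndependent_iff.1 hpow
      (fun m => (∑ i, rmap (algebraMap K Lb) (c (i, m)) * RatFunc.C (algebraMap L Lb (b i))) -
        (if m = ⟨0, hn⟩ then RatFunc.C z else 0)) (by
        simp only [sub_smul, Finset.sum_sub_distrib]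
        rw [sub_eq_zero, hR, ← hc', Fintype.sum_prod_type, Finset.sum_comm]
        refine Finset.sum_congr rfl fun m _ => ?_
        rw [Finset.sum_smul]
        refine Finset.sum_congr rfl fun i _ => ?_
        rw [Algebra.smul_def, map_mul, mul_assoc, hiK]
        rfl) ⟨0, hn⟩
    rw [if_pos rfl, sub_eq_zero] at hlin
    obtain ⟨x', hx'⟩ := mem_of_comb b z (fun i => c (i, ⟨0, hn⟩)) hlin.symm
    refine ⟨x', ?_⟩
    apply Subtype.ext
    rw [hι₀]
    show algebraMap (RatFunc Lb) Ω (rmap (algebraMap L Lb) (RatFunc.C x')) = x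
    rw [rmap_C, hx', hz]

end H33
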