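import Pool.Agent.H33R2.Tower
import Pool.Agent.H33R2.Free
import Pool.Agent.H33R2.T3
import Pool.Agent.H33R2.GenEx

/-!
TASK U2: final assembly of S01813.
-/

set_option autoImplicit false

open Pool.Agent.Helper737.Ample

namespace H33

/-- the data of a split extension of finite groups -/
structure ASep where
  Γ : Type
  [gΓ : Group Γ]
  [fΓ : Finite Γ]
  H : Type
  [gH : Group H]
  [fH : Finite H]
  φ : Γ →* MulAut H

attribute [instance] ASep.gΓ ASep.fΓ ASep.gH ASep.fH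

/-- multiplication tables -/
abbrev ACode : Type :=
  Σ n : ℕ, Σ m : ℕ, (Fin n → Fin n → Fin n) × (Fin m → Fin m → Fin m) × (Fin n → Fin m → Fin m)

/-- `c` is a table of `S` -/
def ACodes (S : ASep) (c : ACode) : Prop :=
  ∃ (a : S.Γ ≃ Fin c.1) (b : S.H ≃ Fin c.2.1),
    (∀ x y, a (x * y) = c.2.2.1 (a x) (a y)) ∧ (∀ x y, b (x * y) = c.2.2.2.1 (b x) (b y)) ∧
    ∀ x y, b (S.φ x y) = c.2.2.2.2 (a x) (b y)

theorem exists_aCode (S : ASep) : ∃ c, ACodes S c := by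
  obtain ⟨n, ⟨a⟩⟩ := Finite.exists_equiv_fin S.Γ
  obtain ⟨m, ⟨b⟩⟩ := Finite.exists_equiv_fin S.H
  refine ⟨⟨n, m, fun x y => a (a.symm x * a.symm y), fun x y => b (b.symm x * b.symm y),
    fun x y => b (S.φ (a.symm x) (b.symm y))⟩, a, b, ?_, ?_, ?_⟩
  · intro x y; simp
  · intro x y; simp
  · intro x y; simp

theorem iso_of_aCodes {S S' : ASep} {c : ACode} (h : ACodes S c) (h' : ACodes S' c) :
    ∃ (a : S.Γ ≃* S'.Γ) (b : S.H ≃* S'.H), ∀ x y, b (S.φ x y) = S'.φ (a x) (b y) := by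
  obtain ⟨a, b, h1, h2, h3⟩ := h
  obtain ⟨a', b', h1', h2', h3'⟩ := h'
  refine ⟨⟨a.trans a'.symm, fun x y => ?_⟩, ⟨b.trans b'.symm, fun x y => ?_⟩, fun x y => ?_⟩
  · apply a'.injective
    simp [h1, h1']
  · apply b'.injective
    simp [h2, h2']
  · apply b'.injective
    show b' (b'.symm (b (S.φ x y))) = b' (S'.φ (a'.symm (a x)) (b'.symm (b y)))
    simp [h3, h3']

instance : Countable ACode := inferInstance

theorem assembly : ∃ (K : Type) (_ : Field K),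
    (∃ (n : ℕ) (s : Finset (MvPolynomial (Fin n) K)),
      (∃ x : Fin n → LaurentSeries K, ∀ p ∈ s, MvPolynomial.aeval x p = 0) ∧
      ∀ y : Fin n → K, ∃ p ∈ s, MvPolynomial.eval y p ≠ 0) ∧
    ∀ (L : Type) [Field L] [Algebra K L], FiniteDimensional K L → IsGalois K L →
      ∀ (H : Type) [Group H], Finite H → ∀ φ : (L ≃ₐ[K] L) →* MulAut H,
      ∃ (E : Type) (_ : Field E) (_ : Algebra (RatFunc K) E) (_ : Algebra K E)
        (_ : IsScalarTower K (RatFunc K) E),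
        FiniteDimensional (RatFunc K) E ∧ IsGalois (RatFunc K) E ∧
        ∃ (ι : L →ₐ[K] E)
          (ψ : SemidirectProduct H (L ≃ₐ[K] L) φ ≃* (E ≃ₐ[RatFunc K] E)),
          (∀ x a, ψ x (ι a) = ι (x.right a)) ∧
          ∀ e : E, IsAlgebraic K e → e ∈ Set.range ι := by
  classical
  set k : Subfield ℂ := acl (⊥ : Subfield ℂ) with hkdef
  have hk : acl k = k := acl_idem _
  have hkc : (k : Set ℂ).Countable := by
    apply tw_countable_acl
    have h2 := Subfield.cardinalMk_closure_le_max (∅ : Set ℂ)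
    rw [Subfield.closure_empty] at h2
    have h4 := h2.trans (max_le (Cardinal.mk_le_aleph0_iff.2 inferInstance) le_rfl)
    exact Set.countable_coe_iff.1 (Cardinal.mk_le_aleph0_iff.1 h4)
  have : Uncountable ℂ := by
    rw [← Set.not_countable_univ_iff]
    exact not_countable_complex
  have : IsAlgClosed k := isAlgClosed_acl hk
  have : CharZero k := (RingHom.charZero_iff (algebraMap k ℂ).injective).2 inferInstance
  have hfree : FreeStep ℂ k := fun K L h1 h2 h3 T ρ h4 h5 => free_step hk K L h1 h2 h3 T ρ h4 h5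
  have hT : ∀ c : ACode, ∃ T : Task k, ∀ S, ACodes S c → ∃ S, ACodes S c ∧ ∃ e : T.Γ ≃* S.Γ,
      FaithfulSMul T.Γ T.F ∧ Nonempty (GenSol T S.H (S.φ.comp e.toMonoidHom)) := by
    intro c
    by_cases hc : ∃ S, ACodes S c
    · obtain ⟨S, hS⟩ := hc
      obtain ⟨T, e, h1, h2⟩ := gen_exists k S.Γ S.H S.φ
      exact ⟨T, fun _ _ => ⟨S, hS, e, h1, h2⟩⟩
    · obtain ⟨T, -⟩ := gen_exists k Unit Unit 1
      exact ⟨T, fun S hS => (hc ⟨S, hS⟩).elim⟩
  choose T hT using hT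
  obtain ⟨K, fK, aK, hna, hK⟩ := tower_of k hk hkc hfree T
  refine ⟨K, fK, hna, ?_⟩
  intro L _ _ hfd hgal H _ hH φ
  have : Finite (L ≃ₐ[K] L) := inferInstance
  let S0 : ASep := ⟨L ≃ₐ[K] L, H, φ⟩
  obtain ⟨c, hc⟩ := exists_aCode S0
  obtain ⟨S, hS, e, hf, ⟨D⟩⟩ := hT c S0 hc
  obtain ⟨a, b, hab⟩ := iso_of_aCodes hc hS
  obtain ⟨j, -, hj⟩ := hK L hfd hgal c (a.trans e.symm)
  obtain ⟨E, fE, aE, aKE, tE, h1, h2, ι, ψ, h3, h4⟩ :=
    base_change (T c) S.H (S.φ.comp e.toMonoidHom) D K L (a.trans e.symm) hf j hj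
  refine ⟨E, fE, aE, aKE, tE, h1, h2, ι, ?_, ?_, h4⟩
  · refine (SemidirectProduct.congr b (MulEquiv.refl _) ?_).trans ψ
    intro g
    ext y
    show b (S0.φ g y) = S.φ (e (e.symm (a g))) (b y)
    rw [MulEquiv.apply_symm_apply]
    exact hab g y
  · intro x y
    exact h3 _ _

end H33
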