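import Pool.Agent.H33R2.Struct

set_option autoImplicit false
set_option linter.unusedSectionVars false

open Finset PowerSeries

namespace H33

section res

variable {κ R I : Type} [Field κ] [CharZero κ] [Field R] [CharZero R] [Algebra κ R]
  (P : PatchData κ R I)

/-- coefficientwise residue -/
noncomputable def Res (i : I) : cs (P.O i) →+* κ⟦X⟧ where
  toFun x := PowerSeries.mk fun n => P.res i ⟨coeff n (x : R⟦X⟧), x.2 n⟩
  map_one' := by
    ext n
    rw [coeff_mk, coeff_one]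
    have : (⟨coeff n ((1 : cs (P.O i)) : R⟦X⟧), (1 : cs (P.O i)).2 n⟩ : P.O i) =
        if n = 0 then 1 else 0 := by
      apply Subtype.ext
      show coeff n (1 : R⟦X⟧) = _
      rw [coeff_one]
      split_ifs <;> rfl
    rw [this]
    split_ifs
    · exact map_one _
    · exact map_zero _
  map_zero' := by
    ext n
    rw [coeff_mk]
    have : (⟨coeff n ((0 : cs (P.O i)) : R⟦X⟧), (0 : cs (P.O i)).2 n⟩ : P.O i) = 0 := by
      apply Subtype.ext
      show coeff n (0 : R⟦X⟧) = _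
      simp
    rw [this, map_zero, map_zero]
  map_add' := by
    intro x y
    ext n
    rw [coeff_mk, map_add, coeff_mk, coeff_mk, ← map_add]
    congr 1
  map_mul' := by
    intro x y
    ext n
    rw [coeff_mk, coeff_mul]
    simp only [coeff_mk]
    have : (⟨coeff n ((x * y : cs (P.O i)) : R⟦X⟧), (x * y : cs (P.O i)).2 n⟩ : P.O i) =
        ∑ p ∈ antidiagonal n, (⟨coeff p.1 (x : R⟦X⟧), x.2 p.1⟩ : P.O i) *
          ⟨coeff p.2 (y : R⟦X⟧), y.2 p.2⟩ := by
      apply Subtype.ext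
      show coeff n ((x : R⟦X⟧) * (y : R⟦X⟧)) = _
      rw [coeff_mul, AddSubmonoidClass.coe_finsetSum]
      rfl
    rw [this, map_sum]
    exact Finset.sum_congr rfl fun p _ => map_mul _ _ _

theorem coeff_Res (i : I) (x : cs (P.O i)) (n : ℕ) :
    coeff n (Res P i x) = P.res i ⟨coeff n (x : R⟦X⟧), x.2 n⟩ := by
  show coeff n (PowerSeries.mk fun n => P.res i ⟨coeff n (x : R⟦X⟧), x.2 n⟩) = _
  rw [coeff_mk]

/-- the uniformiser -/
noncomputable def tau (i : I) : cs (P.O i) := ⟨C (P.w i)⁻¹, C_mem_cs (P.winv i)⟩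

theorem Res_tau (i : I) : Res P i (tau P i) = 0 := by
  ext n
  rw [coeff_Res, map_zero]
  by_cases h : n = 0
  · subst h
    have : (⟨coeff 0 ((tau P i : cs (P.O i)) : R⟦X⟧), (tau P i).2 0⟩ : P.O i) =
        ⟨(P.w i)⁻¹, P.winv i⟩ := by
      apply Subtype.ext
      show coeff 0 (C (P.w i)⁻¹) = _
      simp
    rw [this, P.res_winv]
  · have : (⟨coeff n ((tau P i : cs (P.O i)) : R⟦X⟧), (tau P i).2 n⟩ : P.O i) = 0 := by
      apply Subtype.ext
      show coeff n (C (P.w i)⁻¹) = _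
      rw [coeff_C, if_neg h]
      rfl
    rw [this, map_zero]

/-- `X` as an element of the subring -/
noncomputable def XX (i : I) : cs (P.O i) := ⟨X, X_mem_cs⟩

theorem Res_X (i : I) : Res P i (XX P i) = X := by
  ext n
  rw [coeff_Res, coeff_X]
  have : (⟨coeff n ((XX P i : cs (P.O i)) : R⟦X⟧), (XX P i).2 n⟩ : P.O i) =
      if n = 1 then 1 else 0 := by
    apply Subtype.ext
    show coeff n (X : R⟦X⟧) = _
    rw [coeff_X]
    split_ifs <;> rfl
  rw [this]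
  split_ifs
  · exact map_one _
  · exact map_zero _

theorem Res_zero (i : I) (x : cs (P.O i)) (h : Res P i x = 0) : ∃ y, x = tau P i * y := by
  have h1 : C (P.w i) * (x : R⟦X⟧) ∈ cs (P.O i) := by
    intro n
    rw [coeff_C_mul]
    refine P.res_zero i ⟨coeff n (x : R⟦X⟧), x.2 n⟩ ?_
    rw [← coeff_Res, h, map_zero]
  refine ⟨⟨_, h1⟩, ?_⟩
  apply Subtype.ext
  show (x : R⟦X⟧) = C (P.w i)⁻¹ * (C (P.w i) * x)
  rw [← mul_assoc, ← map_mul, inv_mul_cancel₀ (P.w_ne i), map_one, one_mul]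

theorem exists_factor (i : I) (x : cs (P.O i)) (hx : x ≠ 0) :
    ∃ (N : ℕ) (y : cs (P.O i)), x = tau P i ^ N * y ∧ Res P i y ≠ 0 := by
  classical
  have hk : ∃ k, coeff k (x : R⟦X⟧) ≠ 0 := by
    by_contra h
    push Not at h
    apply hx
    apply Subtype.ext
    ext k
    rw [h k]
    simp
  obtain ⟨k, hk⟩ := hk
  obtain ⟨N, hN⟩ := P.res_fin i _ hk
  by_contra hcon
  push Not at hcon
  have h1 : ∀ M, ∃ y : cs (P.O i), x = tau P i ^ M * y := by
    intro M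
    induction M with
    | zero => exact ⟨x, by simp⟩
    | succ M ih =>
      obtain ⟨y, hy⟩ := ih
      obtain ⟨z, hz⟩ := Res_zero P i y (hcon M y hy)
      exact ⟨z, by rw [hy, hz, pow_succ, mul_assoc]⟩
  obtain ⟨y, hy⟩ := h1 N
  apply hN
  have h2 : (x : R⟦X⟧) = C ((P.w i)⁻¹ ^ N) * y := by
    rw [hy, map_pow]
    rfl
  rw [h2, coeff_C_mul, ← mul_assoc, ← mul_pow, mul_inv_cancel₀ (P.w_ne i), one_pow, one_mul]
  exact y.2 k

theorem tau_ne (i : I) : tau P i ≠ 0 := by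
  intro h
  have : C (P.w i)⁻¹ = (0 : R⟦X⟧) := congrArg Subtype.val h
  rw [map_eq_zero_iff _ C_injective] at this
  exact inv_ne_zero (P.w_ne i) this

theorem no_root (i : I) {n m : ℕ} (hm : 0 < m) (hmn : m < n) (a b : cs (P.O i)) (hb : b ≠ 0)
    (h : tau P i ^ m * b ^ n = (tau P i - XX P i) ^ m * a ^ n) : False := by
  have ha : a ≠ 0 := by
    rintro rfl
    rw [zero_pow (by omega), mul_zero] at h
    exact mul_ne_zero (pow_ne_zero _ (tau_ne P i)) (pow_ne_zero _ hb) h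
  obtain ⟨N, b', hb1, hb2⟩ := exists_factor P i b hb
  obtain ⟨M, a', ha1, ha2⟩ := exists_factor P i a ha
  have hX : Res P i ((tau P i - XX P i) ^ m) ≠ 0 := by
    rw [map_pow, map_sub, Res_tau, Res_X, zero_sub]
    exact pow_ne_zero _ (neg_ne_zero.2 X_ne_zero)
  have e1 : tau P i ^ (n * N + m) * b' ^ n =
      tau P i ^ (n * M) * ((tau P i - XX P i) ^ m * a' ^ n) := by
    rw [hb1, ha1] at h
    calc tau P i ^ (n * N + m) * b' ^ n = tau P i ^ m * (tau P i ^ N * b') ^ n := by ring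
      _ = (tau P i - XX P i) ^ m * (tau P i ^ M * a') ^ n := h
      _ = _ := by ring
  rcases lt_trichotomy (n * N + m) (n * M) with hlt | heq | hgt
  · obtain ⟨k, hk⟩ := Nat.exists_eq_add_of_lt hlt
    rw [hk, show n * N + m + k + 1 = (n * N + m) + (k + 1) by ring, pow_add _ (n * N + m) (k + 1),
      mul_assoc (tau P i ^ (n * N + m))] at e1
    have e2 := mul_left_cancel₀ (pow_ne_zero _ (tau_ne P i)) e1
    have e3 := congrArg (Res P i) e2
    rw [map_mul, map_pow (Res P i) (tau P i) (k + 1), Res_tau, zero_pow (Nat.succ_ne_zero k),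
      zero_mul, map_pow] at e3
    exact pow_ne_zero _ hb2 e3
  · have h3 : m = n * (M - N) := by
      rw [Nat.mul_sub]; omega
    have h4 : n ∣ m := ⟨_, h3⟩
    exact absurd (Nat.le_of_dvd hm h4) (by omega)
  · obtain ⟨k, hk⟩ := Nat.exists_eq_add_of_lt hgt
    rw [hk, show n * M + k + 1 = (n * M) + (k + 1) by ring, pow_add _ (n * M) (k + 1),
      mul_assoc (tau P i ^ (n * M))] at e1
    have e2 := mul_left_cancel₀ (pow_ne_zero _ (tau_ne P i)) e1
    have e3 := congrArg (Res P i) e2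
    rw [map_mul, map_pow (Res P i) (tau P i) (k + 1), Res_tau, zero_pow (Nat.succ_ne_zero k),
      zero_mul, map_mul, map_pow (Res P i) a'] at e3
    exact mul_ne_zero hX (pow_ne_zero _ ha2) e3.symm

end res

section Lam

variable {κ R I G Λ : Type} [Field κ] [CharZero κ] [Field R] [CharZero R] [Algebra κ R] [Group G]
  [Fintype G] [DecidableEq G] (P : PatchData κ R I) (Q : GrpData κ I G)
  [Field Λ] [Algebra R⟦X⟧ Λ] [FaithfulSMul R⟦X⟧ Λ] [Algebra κ Λ] [IsScalarTower κ R⟦X⟧ Λ]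

variable (Λ) in
/-- fraction field in `Λ` of a subring of power series -/
def Fr (S : Subalgebra κ R⟦X⟧) : IntermediateField κ Λ :=
  IntermediateField.adjoin κ (algebraMap R⟦X⟧ Λ '' (S : Set R⟦X⟧))

variable (Λ) in
/-- `κ((s))(t)` -/
def EE (P : PatchData κ R I) : IntermediateField κ Λ :=
  IntermediateField.adjoin κ (algebraMap R⟦X⟧ Λ '' (cs (⊥ : Subalgebra κ R) : Set R⟦X⟧) ∪
    {algebraMap R⟦X⟧ Λ (C P.t)})

theorem mem_Fr_of_mem {S : Subalgebra κ R⟦X⟧} {x : R⟦X⟧} (hx : x ∈ S) :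
    algebraMap R⟦X⟧ Λ x ∈ Fr Λ S :=
  IntermediateField.subset_adjoin _ _ ⟨x, hx, rfl⟩

theorem mem_Fr {S : Subalgebra κ R⟦X⟧} {x : Λ} (hx : x ∈ Fr Λ S) :
    ∃ a ∈ S, ∃ b ∈ S, x = algebraMap R⟦X⟧ Λ a / algebraMap R⟦X⟧ Λ b := by
  have h : Algebra.adjoin κ (algebraMap R⟦X⟧ Λ '' (S : Set R⟦X⟧)) =
      S.map (IsScalarTower.toAlgHom κ R⟦X⟧ Λ) := by
    have : algebraMap R⟦X⟧ Λ '' (S : Set R⟦X⟧) =
        (S.map (IsScalarTower.toAlgHom κ R⟦X⟧ Λ) : Set Λ) := by
      rw [Subalgebra.coe_map]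
      rfl
    rw [this, Algebra.adjoin_eq]
  obtain ⟨r, hr, s, hs, rfl⟩ := IntermediateField.mem_adjoin_iff_div.1 hx
  rw [h] at hr hs
  obtain ⟨a, ha, rfl⟩ := hr
  obtain ⟨b, hb, rfl⟩ := hs
  exact ⟨a, ha, b, hb, rfl⟩

theorem EE_le (i : I) : EE Λ P ≤ Fr Λ (cs (P.O i)) := by
  rw [EE, IntermediateField.adjoin_le_iff]
  rintro x (⟨y, hy, rfl⟩ | hx)
  · refine mem_Fr_of_mem ?_
    intro n
    obtain ⟨z, hz⟩ := Algebra.mem_bot.1 (hy n)
    rw [← hz]
    exact (P.O i).algebraMap_mem z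
  · rw [Set.mem_singleton_iff] at hx
    subst hx
    exact mem_Fr_of_mem (C_mem_cs (P.tO i))

theorem yy_not_mem (i : I) {n m : ℕ} (hm : 0 < m) (hmn : m < n) :
    algebraMap R⟦X⟧ Λ (yy (P.w i) (-(m / n : ℚ))) ∉ Fr Λ (cs (P.O i)) := by
  intro h
  obtain ⟨a, ha, b, hb, hab⟩ := mem_Fr h
  have hinj : Function.Injective (algebraMap R⟦X⟧ Λ) := FaithfulSMul.algebraMap_injective _ _
  have hb0 : b ≠ 0 := by
    rintro rfl
    rw [map_zero, div_zero] at hab
    exact yy_ne_zero _ _ ((map_eq_zero_iff _ hinj).1 hab)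
  have hb0' : algebraMap R⟦X⟧ Λ b ≠ 0 := fun h0 => hb0 ((map_eq_zero_iff _ hinj).1 h0)
  rw [eq_div_iff hb0', ← map_mul] at hab
  have hab' := hinj hab
  -- n-th powers
  have hn : (n : ℚ) ≠ 0 := by
    have : n ≠ 0 := by omega
    exact_mod_cast this
  have h1 : yy (P.w i) (-(m : ℚ)) * b ^ n = a ^ n := by
    rw [← hab', mul_pow, yy_pow]
    congr 2
    field_simp
  have h2 : b ^ n = (1 - C (P.w i) * X) ^ m * a ^ n := by
    rw [← h1, ← mul_assoc, ← yy_one, yy_pow, ← yy_add, mul_one, add_neg_cancel, yy_zero, one_mul]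
  refine no_root P i hm hmn ⟨a, ha⟩ ⟨b, hb⟩ (fun h0 => hb0 (congrArg Subtype.val h0)) ?_
  apply Subtype.ext
  show (C (P.w i)⁻¹) ^ m * b ^ n = (C (P.w i)⁻¹ - X) ^ m * a ^ n
  rw [h2, ← mul_assoc, ← mul_pow, mul_sub, mul_one, ← mul_assoc, ← map_mul,
    inv_mul_cancel₀ (P.w_ne i), map_one, one_mul]

/-- the basis vectors, in `Λ` -/
noncomputable def bb (Λ : Type) [Field Λ] [Algebra R⟦X⟧ Λ] (c : G → R⟦X⟧) (ψ : G) : G → Λ :=
  fun θ => algebraMap R⟦X⟧ Λ (c (ψ⁻¹ * θ))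

/-- `E`-combinations of the basis -/
def Span (E : IntermediateField κ Λ) (c : G → R⟦X⟧) : Set (G → Λ) :=
  {a | ∃ e : G → Λ, (∀ ψ, e ψ ∈ E) ∧ ∀ θ, a θ = ∑ ψ, e ψ * bb Λ c ψ θ}

theorem proj_eq_wsum {A : Type} [CommRing A] [Algebra κ A] {g : G} {n m : ℕ} {ζ : κ} (hm : m < n)
    (a : G → A) (θ : G) :
    proj g n ζ m a θ = wsum g n ζ (fun l => if l = m then 1 else 0) a θ := by
  rw [wsum, Finset.sum_eq_single m]
  · simp
  · intro l _ hl; simp [hl]
  · intro h; exact absurd (mem_range.2 hm) h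

variable {P Q}

/-- idempotents in the span are constant -/
theorem idem_const {c : G → R⟦X⟧} (hc : Good P Q c)
    (hgen : Subgroup.closure (Set.range Q.g) = ⊤) {e : G → Λ} (he : e ∈ Span (EE Λ P) c)
    (h01 : ∀ θ, e θ = 0 ∨ e θ = 1) (θ θ' : G) : e θ = e θ' := by
  obtain ⟨f, hf, hef⟩ := he
  have key : ∀ i θ, e (θ * Q.g i) = e θ := by
    intro i
    have hmem : ∀ θ, wsum (Q.g i) (Q.n i) (Q.ζ i)
        (fun m => algebraMap R⟦X⟧ Λ (yy (P.w i) (-(m / Q.n i : ℚ)))) e θ ∈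
          Fr Λ (cs (P.O i)) := by
      intro θ
      have h1 : e = fun θ => ∑ ψ, (fun θ => f ψ * bb Λ c ψ θ) θ := funext hef
      rw [h1, wsum_sum]
      refine sum_mem fun ψ _ => ?_
      rw [wsum_smul]
      refine mul_mem (EE_le P i (hf ψ)) ?_
      have h2 : wsum (Q.g i) (Q.n i) (Q.ζ i)
          (fun m => algebraMap R⟦X⟧ Λ (yy (P.w i) (-(m / Q.n i : ℚ)))) (bb Λ c ψ) θ =
          algebraMap R⟦X⟧ Λ (Tinv P Q i (ltr ψ c) θ) := by
        rw [Tinv, wsum_map (algebraMap R⟦X⟧ Λ)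
          (fun c => (IsScalarTower.algebraMap_apply κ R⟦X⟧ Λ c).symm)]
        rfl
      rw [h2]
      exact mem_Fr_of_mem ((hc.ltr ψ).2 i θ)
    have hbot : ∀ m θ, ∃ z : κ, proj (Q.g i) (Q.n i) (Q.ζ i) m e θ = algebraMap κ Λ z := by
      intro m θ
      have : proj (Q.g i) (Q.n i) (Q.ζ i) m e θ ∈ (⊥ : Subalgebra κ Λ) :=
        proj_mem _ (fun θ => by
          rcases h01 θ with h | h
          · rw [h]; exact zero_mem _
          · rw [h]; exact one_mem _) m θ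
      obtain ⟨z, hz⟩ := Algebra.mem_bot.1 this
      exact ⟨z, hz.symm⟩
    have hzero : ∀ m, 0 < m → m < Q.n i → ∀ θ, proj (Q.g i) (Q.n i) (Q.ζ i) m e θ = 0 := by
      intro m hm hmn θ
      by_contra hne
      have h3 : proj (Q.g i) (Q.n i) (Q.ζ i) m (wsum (Q.g i) (Q.n i) (Q.ζ i)
          (fun m => algebraMap R⟦X⟧ Λ (yy (P.w i) (-(m / Q.n i : ℚ)))) e) θ ∈
            (Fr Λ (cs (P.O i))).toSubalgebra := proj_mem _ hmem m θ
      rw [proj_eq_wsum hmn, wsum_wsum (Q.gn i) (Q.prim i) (Q.ncast i)] at h3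
      have h4 : wsum (Q.g i) (Q.n i) (Q.ζ i) (fun l => (if l = m then (1 : Λ) else 0) *
          algebraMap R⟦X⟧ Λ (yy (P.w i) (-(l / Q.n i : ℚ)))) e θ =
          algebraMap R⟦X⟧ Λ (yy (P.w i) (-(m / Q.n i : ℚ))) *
            proj (Q.g i) (Q.n i) (Q.ζ i) m e θ := by
        rw [wsum, Finset.sum_eq_single m]
        · simp
        · intro l _ hl; simp [hl]
        · intro h; exact absurd (mem_range.2 hmn) h
      rw [h4] at h3
      apply yy_not_mem (Λ := Λ) P i hm hmn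
      obtain ⟨z, hz⟩ := hbot m θ
      have h5 : algebraMap R⟦X⟧ Λ (yy (P.w i) (-(m / Q.n i : ℚ))) =
          (algebraMap R⟦X⟧ Λ (yy (P.w i) (-(m / Q.n i : ℚ))) *
            proj (Q.g i) (Q.n i) (Q.ζ i) m e θ) / algebraMap κ Λ z := by
        rw [hz] at hne ⊢
        field_simp
      rw [h5]
      exact (Fr Λ (cs (P.O i))).div_mem h3 ((Fr Λ (cs (P.O i))).algebraMap_mem z)
    have h0 : ∀ θ, e θ = proj (Q.g i) (Q.n i) (Q.ζ i) 0 e θ := by
      intro θ
      conv_lhs => rw [← sum_proj (g := Q.g i) (Q.prim i) (Q.ncast i) e θ]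
      rw [Finset.sum_eq_single 0]
      · intro m hm hm0
        exact hzero m (Nat.pos_of_ne_zero hm0) (mem_range.1 hm) θ
      · intro h
        exact absurd (mem_range.2 (Nat.pos_of_ne_zero (Q.npos i))) h
    intro θ
    rw [h0 (θ * Q.g i), h0 θ]
    have := proj_eig (Q.gn i) (Q.prim i).pow_eq_one (Q.npos i) 0 e θ
    simpa using this
  have key2 : ∀ x : G, ∀ θ, e (θ * x) = e θ := by
    intro x
    have hx : x ∈ Subgroup.closure (Set.range Q.g) := by rw [hgen]; trivial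
    induction hx using Subgroup.closure_induction with
    | mem x hx =>
      obtain ⟨i, rfl⟩ := hx
      exact key i
    | one => intro θ; rw [mul_one]
    | mul x y _ _ hx hy => intro θ; rw [← mul_assoc, hy, hx]
    | inv x _ hx =>
      intro θ
      rw [← hx (θ * x⁻¹), inv_mul_cancel_right]
  have := key2 (θ⁻¹ * θ') θ
  rw [mul_inv_cancel_left] at this
  exact this.symm

end Lam

end H33
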