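import Pool.Agent.H33R2.LMap

set_option autoImplicit false
set_option linter.unusedSectionVars false

open Finset PowerSeries

namespace H33

section rmap

variable {Γ κ : Type} [Group Γ] [Field κ] [MulSemiringAction Γ κ]


/-- action on polynomials -/
noncomputable def pmap (γ : Γ) : Polynomial κ →+* Polynomial κ :=
  Polynomial.mapRingHom (MulSemiringAction.toRingHom Γ κ γ)

theorem pmap_inj (γ : Γ) : Function.Injective (pmap (κ := κ) γ) :=
  Polynomial.map_injective _ (MulSemiringAction.toRingHom Γ κ γ).injective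

theorem pmap_eval (γ : Γ) (p : Polynomial κ) (c : κ) :
    (pmap γ p).eval (γ • c) = γ • (p.eval c) := by
  have h := Polynomial.eval_map_apply (f := MulSemiringAction.toRingHom Γ κ γ) (p := p) c
  exact h

theorem pmap_C (γ : Γ) (c : κ) : pmap γ (Polynomial.C c) = Polynomial.C (γ • c) := by
  rw [pmap, Polynomial.coe_mapRingHom, Polynomial.map_C]
  rfl

theorem pmap_X (γ : Γ) : pmap γ (Polynomial.X : Polynomial κ) = Polynomial.X := by
  rw [pmap, Polynomial.coe_mapRingHom, Polynomial.map_X]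

theorem pmap_natDegree (γ : Γ) (p : Polynomial κ) : (pmap γ p).natDegree = p.natDegree := by
  rw [pmap, Polynomial.coe_mapRingHom, Polynomial.natDegree_map]

/-- action on rational functions -/
noncomputable def rmap (γ : Γ) : RatFunc κ →+* RatFunc κ :=
  RatFunc.mapRingHom (pmap (κ := κ) γ) (by
    intro x hx
    rw [Submonoid.mem_comap]
    exact mem_nonZeroDivisors_of_ne_zero (fun h0 => nonZeroDivisors.ne_zero hx
      ((map_eq_zero_iff _ (pmap_inj γ)).1 h0)))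

theorem rmap_div (γ : Γ) (p q : Polynomial κ) :
    rmap γ ((algebraMap (Polynomial κ) (RatFunc κ)) p / (algebraMap (Polynomial κ) (RatFunc κ)) q) = (algebraMap (Polynomial κ) (RatFunc κ)) (pmap γ p) / (algebraMap (Polynomial κ) (RatFunc κ)) (pmap γ q) := by
  rw [rmap, RatFunc.coe_mapRingHom_eq_coe_map, RatFunc.map_apply_div]

theorem rmap_poly (γ : Γ) (p : Polynomial κ) : rmap γ ((algebraMap (Polynomial κ) (RatFunc κ)) p) = (algebraMap (Polynomial κ) (RatFunc κ)) (pmap γ p) := by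
  have := rmap_div γ p 1
  simpa using this

theorem rmap_const (γ : Γ) (c : κ) :
    rmap γ (algebraMap κ (RatFunc κ) c) = algebraMap κ (RatFunc κ) (γ • c) := by
  rw [← RP.aa_C, rmap_poly, pmap_C, RP.aa_C]

theorem rmap_X (γ : Γ) : rmap γ (RatFunc.X : RatFunc κ) = RatFunc.X := by
  rw [← RatFunc.algebraMap_X, rmap_poly, pmap_X]

theorem ratFunc_hom_ext {B : Type} [Semiring B] {f g : RatFunc κ →+* B}
    (h : ∀ x : Polynomial κ, f ((algebraMap (Polynomial κ) (RatFunc κ)) x) = g ((algebraMap (Polynomial κ) (RatFunc κ)) x)) : f = g := by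
  refine IsLocalization.ringHom_ext (nonZeroDivisors (Polynomial κ)) ?_
  ext x
  · exact h _
  · exact h _

theorem rmap_mul (γ γ' : Γ) : rmap (κ := κ) (γ * γ') = (rmap γ).comp (rmap γ') := by
  apply ratFunc_hom_ext
  intro x
  rw [RingHom.comp_apply, rmap_poly, rmap_poly, rmap_poly]
  congr 1
  have : pmap (κ := κ) (γ * γ') = (pmap γ).comp (pmap γ') := by
    ext x
    · simp [pmap_C, mul_smul]
    · simp [pmap_X]
  rw [this]; rfl

theorem rmap_one : rmap (κ := κ) (1 : Γ) = RingHom.id _ := by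
  apply ratFunc_hom_ext
  intro x
  rw [rmap_poly]
  have : pmap (κ := κ) (1 : Γ) = RingHom.id _ := by
    ext x
    · simp [pmap_C]
    · simp [pmap_X]
  rw [this]; rfl

theorem rmap_Oc (γ : Γ) {c : κ} {f : RatFunc κ} (hf : f ∈ RP.Oc c) : rmap γ f ∈ RP.Oc (γ • c) := by
  obtain ⟨p, q, hq, e⟩ := hf
  refine ⟨pmap γ p, pmap γ q, ?_, ?_⟩
  · rw [pmap_eval]
    intro h
    apply hq
    have := congrArg (fun z => γ⁻¹ • z) h
    simpa using this
  · rw [← rmap_poly, ← rmap_poly, ← e, map_mul]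

variable {I : Type} [Fintype I] [DecidableEq I] [MulAction Γ I] (c : I → κ)

theorem pmap_qq (hc : ∀ (γ : Γ) i, γ • c i = c (γ • i)) (γ : Γ) : pmap γ (RP.qq c) = RP.qq c := by
  rw [RP.qq, map_prod]
  have h : ∀ i, pmap γ (Polynomial.X - Polynomial.C (c i)) =
      Polynomial.X - Polynomial.C (c (γ • i)) := by
    intro i
    rw [map_sub, pmap_X, pmap_C, hc]
  simp only [h]
  exact Fintype.prod_equiv (MulAction.toPerm γ) _ _ (fun i => rfl)

theorem rmap_DD (hc : ∀ (γ : Γ) i, γ • c i = c (γ • i)) (γ : Γ) {f : RatFunc κ}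
    (hf : f ∈ RP.DD c) : rmap γ f ∈ RP.DD c := by
  obtain ⟨N, p, e, h⟩ := hf
  refine ⟨N, pmap γ p, ?_, by rwa [pmap_natDegree]⟩
  rw [← rmap_poly, ← e, map_mul, rmap_poly, map_pow (pmap γ), pmap_qq c hc]

theorem rmap_w (hcinj : Function.Injective c) (hc : ∀ (γ : Γ) i, γ • c i = c (γ • i)) (γ : Γ)
    (i : I) : rmap γ ((RP.patch c hcinj).w i) = (RP.patch c hcinj).w (γ • i) := by
  show rmap γ (((algebraMap (Polynomial κ) (RatFunc κ)) (Polynomial.X - Polynomial.C (c i)))⁻¹) =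
    ((algebraMap (Polynomial κ) (RatFunc κ)) (Polynomial.X - Polynomial.C (c (γ • i))))⁻¹
  rw [map_inv₀, rmap_poly, map_sub, pmap_X, pmap_C, hc]

end rmap

theorem map_yy {R : Type} [Field R] [CharZero R] (f : R →+* R) (w : R) (q : ℚ) :
    PowerSeries.map f (yy w q) = yy (f w) q := by
  ext n
  rw [PowerSeries.coeff_map, yy, yy, coeff_rescale, coeff_rescale, map_mul, map_pow, map_neg,
    binomialSeries_coeff, Rat.smul_one_eq_cast, map_ratCast]

section vec

variable {k Γ H κ : Type} [Group Γ] [Group H] [Fintype H] [DecidableEq H] [Field κ] [CharZero κ]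
  [MulSemiringAction Γ κ] (φ : Γ →* MulAut H) 

/-- action on vectors of power series -/
noncomputable def vact (γ : Γ) (a : H → (RatFunc κ)⟦X⟧) : H → (RatFunc κ)⟦X⟧ :=
  fun θ => PowerSeries.map (rmap γ) (a ((φ γ)⁻¹ θ))

theorem vact_Tinv (x : H → κ) (hx : Function.Injective x) (hxγ : ∀ (γ : Γ) h, γ • x h = x (φ γ h))
    (Q : GrpData κ H H) (hg : ∀ h, Q.g h = h) (hn : ∀ (γ : Γ) h, Q.n (φ γ h) = Q.n h)
    (hζ : ∀ (γ : Γ) h, Q.ζ (φ γ h) = Q.ζ h) (hζ' : ∀ (γ : Γ) h, γ • Q.ζ h = Q.ζ h)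
    (γ : Γ) (i : H) (a : H → (RatFunc κ)⟦X⟧) (θ : H) :
    Tinv (RP.patch x hx) Q (φ γ i) (vact φ γ a) θ =
      vact φ γ (Tinv (RP.patch x hx) Q i a) θ := by
  have hw : rmap γ ((RP.patch x hx).w i) = (RP.patch x hx).w (φ γ i) := by
    let _ : MulAction Γ H := MulAction.compHom H φ
    exact rmap_w x hx hxγ γ i
  have hk : ∀ z : κ, PowerSeries.map (rmap γ) (algebraMap κ (RatFunc κ)⟦X⟧ z) =
      algebraMap κ (RatFunc κ)⟦X⟧ (γ • z) := by
    intro z
    rw [PowerSeries.algebraMap_apply, PowerSeries.algebraMap_apply, PowerSeries.map_C, rmap_const]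
  show wsum _ _ _ _ _ _ = PowerSeries.map (rmap γ) (wsum _ _ _ _ _ _)
  rw [hn, hζ, hg, hg]
  simp only [wsum, proj, map_sum, map_mul]
  refine Finset.sum_congr rfl fun m _ => ?_
  rw [map_yy, hw, hk]
  congr 2
  · congr 1
    have : ∀ n : ℕ, γ • ((n : κ)⁻¹) = (n : κ)⁻¹ := by
      intro n
      have h1 := map_inv₀ (MulSemiringAction.toRingHom Γ κ γ) (n : κ)
      rw [map_natCast] at h1
      exact h1
    rw [this]
  · refine Finset.sum_congr rfl fun j _ => ?_
    rw [hk]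
    have h1 : γ • ((Q.ζ i)⁻¹ ^ (j * m)) = (Q.ζ i)⁻¹ ^ (j * m) := by
      have h2 : γ • (Q.ζ i)⁻¹ = (Q.ζ i)⁻¹ := by
        have h3 := map_inv₀ (MulSemiringAction.toRingHom Γ κ γ) (Q.ζ i)
        have h4 : (MulSemiringAction.toRingHom Γ κ γ) (Q.ζ i) = Q.ζ i := hζ' γ i
        rw [h4] at h3
        exact h3
      rw [smul_pow', h2]
    rw [h1]
    congr 1
    show PowerSeries.map (rmap γ) (a ((φ γ)⁻¹ (θ * (φ γ i) ^ j))) =
      PowerSeries.map (rmap γ) (a ((φ γ)⁻¹ θ * i ^ j))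
    rw [map_mul, map_pow]
    simp

theorem Good.vact {x : H → κ} {hx : Function.Injective x} (hxγ : ∀ (γ : Γ) h, γ • x h = x (φ γ h))
    {Q : GrpData κ H H} (hg : ∀ h, Q.g h = h) (hn : ∀ (γ : Γ) h, Q.n (φ γ h) = Q.n h)
    (hζ : ∀ (γ : Γ) h, Q.ζ (φ γ h) = Q.ζ h) (hζ' : ∀ (γ : Γ) h, γ • Q.ζ h = Q.ζ h)
    {a : H → (RatFunc κ)⟦X⟧} (ha : Good (RP.patch x hx) Q a) (γ : Γ) :
    Good (RP.patch x hx) Q (H33.vact φ γ a) := by
  constructor
  · intro θ n
    rw [H33.vact, PowerSeries.coeff_map]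
    let _ : MulAction Γ H := MulAction.compHom H φ
    exact rmap_DD x hxγ γ (ha.1 _ n)
  · intro i θ n
    have h1 : i = φ γ ((φ γ)⁻¹ i) := by simp
    have h2 := vact_Tinv φ x hx hxγ Q hg hn hζ hζ' γ ((φ γ)⁻¹ i) a θ
    rw [← h1] at h2
    rw [h2, H33.vact, PowerSeries.coeff_map]
    have h3 := rmap_Oc γ (ha.2 ((φ γ)⁻¹ i) ((φ γ)⁻¹ θ) n)
    rw [hxγ, ← h1] at h3
    exact h3

end vec

end H33
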