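import Pool.Agent.H33R2.Conn

set_option autoImplicit false
set_option linter.unusedSectionVars false

open Finset PowerSeries
open scoped Pointwise

namespace H33

section Span

variable {R G Λ : Type} [Field R] [CharZero R] [Group G]
  [Fintype G] [DecidableEq G] [Field Λ] [Algebra R⟦X⟧ Λ]

/-- span of the basis over a field mapping to `Λ` -/
def SpanE (E' : Type) [Field E'] [Algebra E' Λ] (c : G → R⟦X⟧) : Submodule E' (G → Λ) :=
  Submodule.span E' (Set.range (bb Λ c))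

theorem mem_SpanE {E' : Type} [Field E'] [Algebra E' Λ] {c : G → R⟦X⟧} {a : G → Λ} :
    a ∈ SpanE E' c ↔ ∃ e : G → E', ∀ θ, a θ = ∑ ψ, algebraMap E' Λ (e ψ) * bb Λ c ψ θ := by
  rw [SpanE, Submodule.mem_span_range_iff_exists_fun]
  constructor
  · rintro ⟨e, he⟩
    refine ⟨e, fun θ => ?_⟩
    rw [← he, Finset.sum_apply]
    exact Finset.sum_congr rfl fun ψ _ => by rw [Pi.smul_apply, Algebra.smul_def]
  · rintro ⟨e, he⟩
    refine ⟨e, ?_⟩
    funext θ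
    rw [he, Finset.sum_apply]
    exact Finset.sum_congr rfl fun ψ _ => by rw [Pi.smul_apply, Algebra.smul_def]

theorem SpanE_mul {E' : Type} [Field E'] [Algebra E' Λ] {c : G → R⟦X⟧}
    (hmul : ∀ ψ ψ', bb Λ c ψ * bb Λ c ψ' ∈ SpanE E' c) {a b : G → Λ} (ha : a ∈ SpanE E' c)
    (hb : b ∈ SpanE E' c) : a * b ∈ SpanE E' c := by
  have h1 : a * b ∈ SpanE E' c * SpanE E' c := Submodule.mul_mem_mul ha hb
  have h2 : (SpanE E' c : Submodule E' (G → Λ)) * SpanE E' c ≤ SpanE E' c := by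
    have h3 : (SpanE E' c : Submodule E' (G → Λ)) * SpanE E' c =
        Submodule.span E' (Set.range (bb Λ c) * Set.range (bb Λ c)) :=
      Submodule.span_mul_span E' (Set.range (bb Λ c)) (Set.range (bb Λ c))
    rw [h3, Submodule.span_le]
    rintro _ ⟨_, ⟨ψ, rfl⟩, _, ⟨ψ', rfl⟩, rfl⟩
    exact hmul ψ ψ'
  exact h2 h1

/-- the algebra spanned by the basis -/
def FF (E' : Type) [Field E'] [Algebra E' Λ] (c : G → R⟦X⟧) (hone : (1 : G → Λ) ∈ SpanE E' c)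
    (hmul : ∀ ψ ψ', bb Λ c ψ * bb Λ c ψ' ∈ SpanE E' c) : Subalgebra E' (G → Λ) :=
  (SpanE E' c).toSubalgebra hone fun _ _ ha hb => SpanE_mul hmul ha hb

theorem mem_FF {E' : Type} [Field E'] [Algebra E' Λ] {c : G → R⟦X⟧}
    {hone : (1 : G → Λ) ∈ SpanE E' c}
    {hmul : ∀ ψ ψ', bb Λ c ψ * bb Λ c ψ' ∈ SpanE E' c} {a : G → Λ} :
    a ∈ FF E' c hone hmul ↔ a ∈ SpanE E' c := Iff.rfl

instance FF_finite {E' : Type} [Field E'] [Algebra E' Λ] {c : G → R⟦X⟧}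
    {hone : (1 : G → Λ) ∈ SpanE E' c}
    {hmul : ∀ ψ ψ', bb Λ c ψ * bb Λ c ψ' ∈ SpanE E' c} :
    Module.Finite E' (FF E' c hone hmul) := by
  have : Module.Finite E' (SpanE E' c : Submodule E' (G → Λ)) :=
    FiniteDimensional.span_of_finite E' (Set.finite_range _)
  exact this

theorem bb_lin [FaithfulSMul R⟦X⟧ Λ] {c : G → R⟦X⟧}
    (hc1 : ∀ θ, constantCoeff (c θ) = if θ = 1 then 1 else 0) (e : G → Λ)
    (h : ∀ θ, ∑ ψ, e ψ * bb Λ c ψ θ = 0) : e = 0 := by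
  let M : Matrix G G R⟦X⟧ := fun θ χ => c (χ⁻¹ * θ)
  have hM1 : ∀ i j, constantCoeff (M i j) = if i = j then 1 else 0 := by
    intro i j
    show constantCoeff (c (j⁻¹ * i)) = _
    rw [hc1]
    congr 1
    rw [inv_mul_eq_one]
    exact propext ⟨Eq.symm, Eq.symm⟩
  let M' : Matrix G G Λ := (algebraMap R⟦X⟧ Λ).mapMatrix M
  have hdet : M'.det ≠ 0 := by
    have : M'.det = algebraMap R⟦X⟧ Λ M.det := (RingHom.map_det _ _).symm
    rw [this]
    intro h0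
    have h1 := (map_eq_zero_iff _ (FaithfulSMul.algebraMap_injective R⟦X⟧ Λ)).1 h0
    have h2 := det_const M hM1
    rw [h1] at h2
    simp at h2
  have h3 : M'.mulVec e = 0 := by
    funext θ
    rw [Pi.zero_apply, ← h θ]
    show ∑ χ, algebraMap R⟦X⟧ Λ (c (χ⁻¹ * θ)) * e χ = _
    exact Finset.sum_congr rfl fun χ _ => mul_comm _ _
  exact Matrix.eq_zero_of_mulVec_eq_zero hdet h3

theorem bb_linearIndependent [FaithfulSMul R⟦X⟧ Λ] (E' : Type) [Field E'] [Algebra E' Λ]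
    {c : G → R⟦X⟧}
    (hc1 : ∀ θ, constantCoeff (c θ) = if θ = 1 then 1 else 0) :
    LinearIndependent E' (bb Λ c) := by
  rw [Fintype.linearIndependent_iff]
  intro g hg
  have := bb_lin (Λ := Λ) hc1 (fun ψ => algebraMap E' Λ (g ψ)) (by
    intro θ
    have := congrFun hg θ
    rw [Finset.sum_apply] at this
    rw [← Pi.zero_apply (M := fun _ => Λ) θ, ← this]
    exact Finset.sum_congr rfl fun ψ _ => by rw [Pi.smul_apply, Algebra.smul_def])
  intro i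
  have h1 := congrFun this i
  exact (map_eq_zero_iff _ (algebraMap E' Λ).injective).1 h1

theorem finrank_FF [FaithfulSMul R⟦X⟧ Λ] {E' : Type} [Field E'] [Algebra E' Λ] {c : G → R⟦X⟧}
    (hc1 : ∀ θ, constantCoeff (c θ) = if θ = 1 then 1 else 0)
    {hone : (1 : G → Λ) ∈ SpanE E' c}
    {hmul : ∀ ψ ψ', bb Λ c ψ * bb Λ c ψ' ∈ SpanE E' c} :
    Module.finrank E' (FF E' c hone hmul) = Nat.card G := by
  have h : Module.finrank E' (SpanE E' c : Submodule E' (G → Λ)) = Fintype.card G :=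
    finrank_span_eq_card (bb_linearIndependent E' hc1)
  rw [Nat.card_eq_fintype_card]
  exact h

end Span

section Inj

variable {κ R I G Λ : Type} [Field κ] [CharZero κ] [Field R] [CharZero R] [Algebra κ R] [Group G]
  [Fintype G] [DecidableEq G] {P : PatchData κ R I} {Q : GrpData κ I G}
  [Field Λ] [Algebra R⟦X⟧ Λ] [FaithfulSMul R⟦X⟧ Λ] [Algebra κ Λ] [IsScalarTower κ R⟦X⟧ Λ]

theorem mem_EE_of_bot {μ : R⟦X⟧} (h : μ ∈ cs (⊥ : Subalgebra κ R)) :
    algebraMap R⟦X⟧ Λ μ ∈ EE Λ P :=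
  IntermediateField.subset_adjoin _ _ (Or.inl ⟨μ, h, rfl⟩)

theorem map_mem_cs_bot (p : κ⟦X⟧) :
    PowerSeries.map (algebraMap κ R) p ∈ cs (⊥ : Subalgebra κ R) := by
  intro n
  rw [coeff_map]
  exact Subalgebra.algebraMap_mem _ _

theorem tt_mem : algebraMap R⟦X⟧ Λ (C P.t) ∈ EE Λ P :=
  IntermediateField.subset_adjoin _ _ (Or.inr rfl)

theorem C_q_ne : C (Polynomial.aeval P.t P.q) ≠ 0 := by
  intro h
  rw [map_eq_zero_iff _ C_injective] at h
  exact P.q_ne ((transcendental_iff.1 P.t_trans) _ h)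

theorem C_aeval (x : R) (p : Polynomial κ) : C (Polynomial.aeval x p) = Polynomial.aeval (C x) p := by
  have h : ∀ z : κ, algebraMap κ R⟦X⟧ z = C (algebraMap κ R z) := fun z =>
    PowerSeries.algebraMap_apply
  rw [Polynomial.aeval_def, Polynomial.aeval_def, Polynomial.hom_eval₂]
  congr 1
  ext z : 1
  exact (h z).symm

theorem mem_EE_of_InE {μ : R⟦X⟧} (h : InE P μ) : algebraMap R⟦X⟧ Λ μ ∈ EE Λ P := by
  obtain ⟨p, hp⟩ := h
  have hinj : Function.Injective (algebraMap R⟦X⟧ Λ) := FaithfulSMul.algebraMap_injective _ _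
  have h1 := congrArg (algebraMap R⟦X⟧ Λ) hp
  rw [map_mul, map_sum] at h1
  have hne : algebraMap R⟦X⟧ Λ (C (Polynomial.aeval P.t P.q)) ≠ 0 := by
    intro h0
    exact C_q_ne ((map_eq_zero_iff _ hinj).1 h0)
  have h2 : algebraMap R⟦X⟧ Λ μ =
      (∑ j ∈ range (P.deg + 1), algebraMap R⟦X⟧ Λ (PowerSeries.map (algebraMap κ R) (p j) *
        C (P.t ^ j))) / algebraMap R⟦X⟧ Λ (C (Polynomial.aeval P.t P.q)) := by
    rw [← h1]
    field_simp
  rw [h2]
  refine div_mem (sum_mem fun j _ => ?_) ?_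
  · rw [map_mul, map_pow, map_pow]
    exact mul_mem (mem_EE_of_bot (map_mem_cs_bot _)) (pow_mem tt_mem _)
  · rw [C_aeval]
    have : algebraMap R⟦X⟧ Λ (Polynomial.aeval (C P.t) P.q) =
        Polynomial.aeval (algebraMap R⟦X⟧ Λ (C P.t)) P.q :=
      (Polynomial.aeval_algebraMap_apply Λ (C P.t) P.q).symm
    rw [this]
    have h3 : Polynomial.aeval (algebraMap R⟦X⟧ Λ (C P.t)) P.q ∈
        Algebra.adjoin κ {algebraMap R⟦X⟧ Λ (C P.t)} := Polynomial.aeval_mem_adjoin_singleton _ _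
    exact (Algebra.adjoin_le (S := (EE Λ P).toSubalgebra)
      (by rintro x rfl; exact tt_mem)) h3

theorem coe_mul_bb {c : G → R⟦X⟧} {E' : Type} [Field E'] [Algebra E' Λ] {a : G → R⟦X⟧}
    {μ : G → R⟦X⟧} (h : ∀ θ, a θ = ∑ χ, μ χ * c (χ⁻¹ * θ))
    (hμ : ∀ χ, ∃ e : E', algebraMap E' Λ e = algebraMap R⟦X⟧ Λ (μ χ)) :
    (fun θ => algebraMap R⟦X⟧ Λ (a θ)) ∈ SpanE E' c := by
  rw [mem_SpanE]
  choose e he using hμ
  refine ⟨e, fun θ => ?_⟩
  rw [h, map_sum]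
  exact Finset.sum_congr rfl fun χ _ => by rw [map_mul, he]; rfl

theorem one_mem_EE {c : G → R⟦X⟧} (hc : Good P Q c)
    (hc1 : ∀ θ, constantCoeff (c θ) = if θ = 1 then 1 else 0) :
    (1 : G → Λ) ∈ SpanE (EE Λ P) c := by
  obtain ⟨μ, h1, h2⟩ := expand_good hc hc1 (Good.one (P := P) (Q := Q))
  have := coe_mul_bb (Λ := Λ) (E' := EE Λ P) h1 (fun χ => ⟨⟨_, mem_EE_of_bot (h2 χ)⟩, rfl⟩)
  have h3 : (fun _ : G => algebraMap R⟦X⟧ Λ 1) = (1 : G → Λ) := by
    funext θ; simp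
  rw [← h3]
  exact this

theorem mul_mem_EE {c : G → R⟦X⟧} (hc : Good P Q c)
    (hc1 : ∀ θ, constantCoeff (c θ) = if θ = 1 then 1 else 0) (ψ ψ' : G) :
    bb Λ c ψ * bb Λ c ψ' ∈ SpanE (EE Λ P) c := by
  obtain ⟨μ, h1, h2⟩ := expand_mul hc hc1 (hc.ltr ψ) (hc.ltr ψ')
  have := coe_mul_bb (Λ := Λ) (E' := EE Λ P) h1 (fun χ => ⟨⟨_, mem_EE_of_InE (h2 χ)⟩, rfl⟩)
  have h3 : (fun θ => algebraMap R⟦X⟧ Λ (ltr ψ c θ * ltr ψ' c θ)) = bb Λ c ψ * bb Λ c ψ' := by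
    funext θ
    rw [map_mul]
    rfl
  rw [← h3]
  exact this

/-- an element of the span with a vanishing coordinate vanishes -/
theorem coord_inj {c : G → R⟦X⟧} (hc : Good P Q c)
    (hc1 : ∀ θ, constantCoeff (c θ) = if θ = 1 then 1 else 0)
    (hgen : Subgroup.closure (Set.range Q.g) = ⊤) {a : G → Λ} (ha : a ∈ SpanE (EE Λ P) c)
    {θ₀ : G} (h0 : a θ₀ = 0) : a = 0 := by
  classical
  let F := FF (EE Λ P) c (one_mem_EE (Λ := Λ) hc hc1) (mul_mem_EE hc hc1)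
  have hint : IsIntegral (EE Λ P) (⟨a, ha⟩ : F) := Algebra.IsIntegral.isIntegral _
  obtain ⟨p, hpm, hp⟩ := hint
  have hp0 : p ≠ 0 := hpm.ne_zero
  obtain ⟨q, hq1, hq2⟩ := Polynomial.exists_eq_pow_rootMultiplicity_mul_and_not_dvd p hp0 0
  rw [map_zero, sub_zero] at hq1 hq2
  set r := Polynomial.rootMultiplicity 0 p
  have hq0 : q.coeff 0 ≠ 0 := by
    intro h
    exact hq2 (Polynomial.X_dvd_iff.2 h)
  have hpa : Polynomial.aeval (⟨a, ha⟩ : F) p = 0 := hp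
  -- evaluate at the coordinates
  have hval : ∀ (s : Polynomial (EE Λ P)) (θ : G),
      ((Polynomial.aeval (⟨a, ha⟩ : F) s : F) : G → Λ) θ = Polynomial.aeval (a θ) s := by
    intro s θ
    have h1 := Polynomial.aeval_algHom_apply ((Pi.evalAlgHom (EE Λ P) (fun _ : G => Λ) θ).comp F.val)
      (⟨a, ha⟩ : F) s
    exact h1.symm
  have hdic : ∀ θ, a θ = 0 ∨ Polynomial.aeval (a θ) q = 0 := by
    intro θ
    have h1 := hval p θ
    rw [hpa] at h1
    have h2 : Polynomial.aeval (a θ) p = 0 := h1.symm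
    rw [hq1, map_mul, map_pow, Polynomial.aeval_X] at h2
    rcases mul_eq_zero.1 h2 with h3 | h3
    · exact Or.inl (eq_zero_of_pow_eq_zero h3)
    · exact Or.inr h3
  let e : F := (q.coeff 0)⁻¹ • Polynomial.aeval (⟨a, ha⟩ : F) q
  have he : ∀ θ, (e : G → Λ) θ = algebraMap (EE Λ P) Λ (q.coeff 0)⁻¹ * Polynomial.aeval (a θ) q := by
    intro θ
    have : (e : G → Λ) θ = ((q.coeff 0)⁻¹ • ((Polynomial.aeval (⟨a, ha⟩ : F) q : F) : G → Λ)) θ := rfl
    rw [this, Pi.smul_apply, hval, Algebra.smul_def]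
  have hq0' : algebraMap (EE Λ P) Λ (q.coeff 0) ≠ 0 := by
    intro h; exact hq0 ((map_eq_zero_iff _ (algebraMap (EE Λ P) Λ).injective).1 h)
  have he1 : ∀ θ, a θ = 0 → (e : G → Λ) θ = 1 := by
    intro θ h
    rw [he, h, map_inv₀]
    have : Polynomial.aeval (0 : Λ) q = algebraMap (EE Λ P) Λ (q.coeff 0) := by
      rw [Polynomial.aeval_def, Polynomial.eval₂_at_zero]
    rw [this, inv_mul_cancel₀ hq0']
  have he0 : ∀ θ, a θ ≠ 0 → (e : G → Λ) θ = 0 := by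
    intro θ h
    rw [he, (hdic θ).resolve_left h, mul_zero]
  have hes : (e : G → Λ) ∈ Span (EE Λ P) c := by
    obtain ⟨f, hf⟩ := mem_SpanE.1 e.2
    exact ⟨fun ψ => f ψ, fun ψ => (f ψ).2, hf⟩
  have hconst := idem_const hc hgen hes (fun θ => by
    by_cases h : a θ = 0
    · exact Or.inr (he1 θ h)
    · exact Or.inl (he0 θ h))
  funext θ
  by_contra hne
  have h1 := he0 θ hne
  rw [hconst θ θ₀, he1 θ₀ h0] at h1
  exact one_ne_zero h1

/-- the same for coefficients in a field mapping into `E` -/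
theorem coord_inj' {E' : Type} [Field E'] [Algebra E' Λ]
    (hE : ∀ x : E', algebraMap E' Λ x ∈ EE Λ P) {c : G → R⟦X⟧} (hc : Good P Q c)
    (hc1 : ∀ θ, constantCoeff (c θ) = if θ = 1 then 1 else 0)
    (hgen : Subgroup.closure (Set.range Q.g) = ⊤) {a : G → Λ} (ha : a ∈ SpanE E' c)
    {θ₀ : G} (h0 : a θ₀ = 0) : a = 0 := by
  refine coord_inj hc hc1 hgen (?_ : a ∈ SpanE (EE Λ P) c) h0
  obtain ⟨e, he⟩ := mem_SpanE.1 ha
  exact mem_SpanE.2 ⟨fun ψ => ⟨_, hE (e ψ)⟩, he⟩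

/-- `FF` is a field -/
theorem FF_isField {E' : Type} [Field E'] [Algebra E' Λ]
    (hE : ∀ x : E', algebraMap E' Λ x ∈ EE Λ P) {c : G → R⟦X⟧} (hc : Good P Q c)
    (hc1 : ∀ θ, constantCoeff (c θ) = if θ = 1 then 1 else 0)
    (hgen : Subgroup.closure (Set.range Q.g) = ⊤)
    (hone : (1 : G → Λ) ∈ SpanE E' c)
    (hmul : ∀ ψ ψ', bb Λ c ψ * bb Λ c ψ' ∈ SpanE E' c) :
    IsField (FF E' c hone hmul) := by
  have hinj : Function.Injective ((Pi.evalRingHom (fun _ : G => Λ) 1).comp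
      (FF E' c hone hmul).val.toRingHom) := by
    rw [injective_iff_map_eq_zero]
    intro x hx
    apply Subtype.ext
    exact coord_inj' hE hc hc1 hgen x.2 hx
  have : IsDomain (FF E' c hone hmul) := hinj.isDomain _
  exact isField_of_isIntegral_of_isField' (Field.toIsField E')

end Inj

end H33
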