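import Mathlib

set_option autoImplicit false

open Finset

namespace H33

section Fourier

variable {κ A G : Type} [Field κ] [CommRing A] [Algebra κ A] [Group G]

/-- `x` is an eigenvector of right translation by `g` with eigenvalue `z` -/
def IsEig (g : G) (z : κ) (x : G → A) : Prop := ∀ θ, x (θ * g) = algebraMap κ A z * x θ

/-- projector to the eigenspace of eigenvalue `ζ ^ m` -/
noncomputable def proj (g : G) (n : ℕ) (ζ : κ) (m : ℕ) (a : G → A) : G → A :=
  fun θ => algebraMap κ A (n : κ)⁻¹ *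
    ∑ j ∈ range n, algebraMap κ A (ζ⁻¹ ^ (j * m)) * a (θ * g ^ j)

/-- weighted sum of the projectors -/
noncomputable def wsum (g : G) (n : ℕ) (ζ : κ) (u : ℕ → A) (a : G → A) : G → A :=
  fun θ => ∑ m ∈ range n, u m * proj g n ζ m a θ

variable {g : G} {n : ℕ} {ζ : κ}

theorem IsEig.mul {z z' : κ} {x x' : G → A} (h : IsEig g z x) (h' : IsEig g z' x') :
    IsEig g (z * z') (x * x') := by
  intro θ
  simp only [Pi.mul_apply, h θ, h' θ, map_mul]
  ring

theorem IsEig.pow_apply {z : κ} {x : G → A} (h : IsEig g z x) (θ : G) (j : ℕ) :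
    x (θ * g ^ j) = algebraMap κ A (z ^ j) * x θ := by
  induction j with
  | zero => simp
  | succ j ih =>
    rw [pow_succ, ← mul_assoc, h, ih, pow_succ, map_mul]
    ring

theorem sum_shift {M : Type} [AddCommGroup M] (f : ℕ → M) (n : ℕ) (h : f n = f 0) :
    ∑ j ∈ range n, f (j + 1) = ∑ j ∈ range n, f j := by
  have h1 := Finset.sum_range_succ' f n
  have h2 := Finset.sum_range_succ f n
  rw [h1, h] at h2
  exact add_right_cancel h2

theorem proj_eig (hg : g ^ n = 1) (hζ : ζ ^ n = 1) (hn : n ≠ 0) (m : ℕ) (a : G → A) :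
    IsEig g (ζ ^ m) (proj g n ζ m a) := by
  intro θ
  have hζ0 : ζ ≠ 0 := by
    rintro rfl
    rw [zero_pow hn] at hζ
    exact zero_ne_one hζ
  simp only [proj]
  rw [mul_left_comm (algebraMap κ A (ζ ^ m)), Finset.mul_sum (a := algebraMap κ A (ζ ^ m))]
  congr 1
  have key := sum_shift (fun j => algebraMap κ A (ζ ^ m) *
    (algebraMap κ A (ζ⁻¹ ^ (j * m)) * a (θ * g ^ j))) n (by
      simp only [hg, pow_zero, mul_one, zero_mul]
      rw [pow_mul, inv_pow, hζ]; simp)
  rw [← key]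
  refine Finset.sum_congr rfl fun j _ => ?_
  rw [← mul_assoc, ← map_mul, pow_succ' g j, ← mul_assoc]
  congr 2
  rw [add_mul, pow_add, one_mul, mul_comm (ζ ^ m), mul_assoc, ← mul_pow, inv_mul_cancel₀ hζ0,
    one_pow, mul_one]

theorem geom_zero {η : κ} (h : η ^ n = 1) (h1 : η ≠ 1) : ∑ m ∈ range n, η ^ m = 0 := by
  have := mul_geom_sum η n
  rw [h, sub_self] at this
  exact (mul_eq_zero.1 this).resolve_left (sub_ne_zero.2 h1)

theorem prim_ne {ζ : κ} (hζ : IsPrimitiveRoot ζ n) {j l : ℕ} (hj : j < n) (hl : l < n)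
    (h : j ≠ l) : ζ⁻¹ ^ j * ζ ^ l ≠ 1 := by
  have hζ0 : ζ ≠ 0 := hζ.ne_zero (by omega)
  intro h1
  apply h
  apply hζ.pow_inj hj hl
  rw [inv_pow] at h1
  field_simp at h1
  exact h1.symm

theorem sum_proj (hζ : IsPrimitiveRoot ζ n) (hn : (n : κ) ≠ 0) (a : G → A) (θ : G) :
    ∑ m ∈ range n, proj g n ζ m a θ = a θ := by
  have hn0 : n ≠ 0 := by rintro rfl; simp at hn
  simp only [proj]
  rw [← Finset.mul_sum, Finset.sum_comm]
  have : ∀ j ∈ range n, ∑ m ∈ range n, algebraMap κ A (ζ⁻¹ ^ (j * m)) * a (θ * g ^ j) =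
      if j = 0 then algebraMap κ A n * a θ else 0 := by
    intro j hj
    rw [← Finset.sum_mul, ← map_sum]
    split_ifs with h
    · subst h; simp
    · have h1 : ∑ m ∈ range n, ζ⁻¹ ^ (j * m) = 0 := by
        simp_rw [pow_mul]
        apply geom_zero
        · rw [← pow_mul, mul_comm, pow_mul, inv_pow, hζ.pow_eq_one]; simp
        · have := prim_ne hζ (mem_range.1 hj) (Nat.pos_of_ne_zero hn0) h
          simpa using this
      rw [h1]; simp
  rw [Finset.sum_congr rfl this, Finset.sum_ite_eq' (range n) 0, if_pos (by simp; omega),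
    ← mul_assoc, ← map_mul, inv_mul_cancel₀ hn, map_one, one_mul]

theorem proj_of_eig (hζ : IsPrimitiveRoot ζ n) (hn : (n : κ) ≠ 0) {l m : ℕ}
    (hl : l < n) (hm : m < n) {x : G → A} (hx : IsEig g (ζ ^ l) x) (θ : G) :
    proj g n ζ m x θ = if l = m then x θ else 0 := by
  have hζ0 : ζ ≠ 0 := hζ.ne_zero (by omega)
  simp only [proj]
  have h1 : ∀ j ∈ range n, algebraMap κ A (ζ⁻¹ ^ (j * m)) * x (θ * g ^ j) =
      algebraMap κ A ((ζ⁻¹ ^ m * ζ ^ l) ^ j) * x θ := by
    intro j _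
    rw [hx.pow_apply, ← mul_assoc, ← map_mul, mul_pow]
    congr 3
    rw [← pow_mul, mul_comm m j]
  rw [Finset.sum_congr rfl h1, ← Finset.sum_mul, ← map_sum]
  split_ifs with h
  · subst h
    have : ζ⁻¹ ^ l * ζ ^ l = 1 := by rw [← mul_pow, inv_mul_cancel₀ hζ0, one_pow]
    rw [this]
    simp only [one_pow, sum_const, card_range, nsmul_eq_mul, mul_one]
    rw [← mul_assoc, ← map_mul, inv_mul_cancel₀ hn, map_one, one_mul]
  · rw [geom_zero]
    · simp
    · rw [mul_pow, ← pow_mul, ← pow_mul, mul_comm m, mul_comm l, pow_mul, pow_mul, inv_pow,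
        hζ.pow_eq_one]
      simp
    · exact prim_ne hζ hm hl (Ne.symm h)

theorem wsum_of_eig (hζ : IsPrimitiveRoot ζ n) (hn : (n : κ) ≠ 0) (u : ℕ → A) {l : ℕ}
    (hl : l < n) {x : G → A} (hx : IsEig g (ζ ^ l) x) (θ : G) :
    wsum g n ζ u x θ = u l * x θ := by
  simp only [wsum]
  rw [Finset.sum_eq_single l]
  · rw [proj_of_eig hζ hn hl hl hx]; simp
  · intro m hm hml
    rw [proj_of_eig hζ hn hl (mem_range.1 hm) hx, if_neg (Ne.symm hml), mul_zero]
  · intro h; exact absurd (mem_range.2 hl) h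

theorem proj_add (m : ℕ) (a b : G → A) (θ : G) :
    proj g n ζ m (a + b) θ = proj g n ζ m a θ + proj g n ζ m b θ := by
  simp only [proj, Pi.add_apply, mul_add, Finset.sum_add_distrib]

theorem proj_smul (m : ℕ) (c : A) (a : G → A) (θ : G) :
    proj g n ζ m (fun θ => c * a θ) θ = c * proj g n ζ m a θ := by
  simp only [proj]
  rw [mul_left_comm c, Finset.mul_sum (a := c)]
  congr 1
  exact Finset.sum_congr rfl fun j _ => by ring

theorem proj_sum {ι : Type} (s : Finset ι) (m : ℕ) (a : ι → G → A) (θ : G) :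
    proj g n ζ m (fun θ => ∑ i ∈ s, a i θ) θ = ∑ i ∈ s, proj g n ζ m (a i) θ := by
  simp only [proj]
  rw [← Finset.mul_sum, Finset.sum_comm]
  congr 1
  exact Finset.sum_congr rfl fun j _ => by rw [Finset.mul_sum]

theorem wsum_add (u : ℕ → A) (a b : G → A) (θ : G) :
    wsum g n ζ u (a + b) θ = wsum g n ζ u a θ + wsum g n ζ u b θ := by
  simp only [wsum, proj_add, mul_add, Finset.sum_add_distrib]

theorem wsum_smul (u : ℕ → A) (c : A) (a : G → A) (θ : G) :
    wsum g n ζ u (fun θ => c * a θ) θ = c * wsum g n ζ u a θ := by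
  simp only [wsum, proj_smul]
  rw [Finset.mul_sum]
  exact Finset.sum_congr rfl fun j _ => by ring

theorem wsum_sum {ι : Type} (s : Finset ι) (u : ℕ → A) (a : ι → G → A) (θ : G) :
    wsum g n ζ u (fun θ => ∑ i ∈ s, a i θ) θ = ∑ i ∈ s, wsum g n ζ u (a i) θ := by
  simp only [wsum, proj_sum]
  rw [Finset.sum_comm]
  exact Finset.sum_congr rfl fun j _ => by rw [Finset.mul_sum]

/-- left translation -/
def ltr (σ : G) (a : G → A) : G → A := fun θ => a (σ⁻¹ * θ)

theorem proj_ltr (σ : G) (m : ℕ) (a : G → A) (θ : G) :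
    proj g n ζ m (ltr σ a) θ = ltr σ (proj g n ζ m a) θ := by
  simp only [proj, ltr, mul_assoc]

theorem wsum_ltr (σ : G) (u : ℕ → A) (a : G → A) (θ : G) :
    wsum g n ζ u (ltr σ a) θ = ltr σ (wsum g n ζ u a) θ := by
  simp only [wsum, proj_ltr]
  rfl

/-- composition of weighted sums -/
theorem wsum_wsum (hg : g ^ n = 1) (hζ : IsPrimitiveRoot ζ n) (hn : (n : κ) ≠ 0)
    (u v : ℕ → A) (a : G → A) (θ : G) :
    wsum g n ζ u (wsum g n ζ v a) θ = wsum g n ζ (fun m => u m * v m) a θ := by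
  have hn0 : n ≠ 0 := by rintro rfl; simp at hn
  have h1 : wsum g n ζ v a = fun θ => ∑ m ∈ range n, (fun θ => v m * proj g n ζ m a θ) θ := rfl
  rw [h1, wsum_sum]
  simp only [wsum_smul]
  show _ = ∑ m ∈ range n, (u m * v m) * proj g n ζ m a θ
  refine Finset.sum_congr rfl fun m hm => ?_
  rw [wsum_of_eig hζ hn u (mem_range.1 hm) (proj_eig hg hζ.pow_eq_one hn0 m a)]
  ring

theorem wsum_one (hζ : IsPrimitiveRoot ζ n) (hn : (n : κ) ≠ 0)
    (u : ℕ → A) (hu : ∀ m < n, u m = 1) (a : G → A) (θ : G) :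
    wsum g n ζ u a θ = a θ := by
  rw [← sum_proj (g := g) hζ hn a θ]
  exact Finset.sum_congr rfl fun m hm => by rw [hu m (mem_range.1 hm), one_mul]

/-- membership in a subalgebra -/
theorem proj_mem (S : Subalgebra κ A) {a : G → A} (ha : ∀ θ, a θ ∈ S) (m : ℕ) (θ : G) :
    proj g n ζ m a θ ∈ S :=
  S.mul_mem (S.algebraMap_mem _) (S.sum_mem fun _ _ => S.mul_mem (S.algebraMap_mem _) (ha _))

theorem wsum_mem (S : Subalgebra κ A) {u : ℕ → A} (hu : ∀ m, u m ∈ S) {a : G → A}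
    (ha : ∀ θ, a θ ∈ S) (θ : G) : wsum g n ζ u a θ ∈ S :=
  S.sum_mem fun m _ => S.mul_mem (hu m) (proj_mem S ha m θ)

/-- the product formula -/
theorem wsum_mul_wsum (hg : g ^ n = 1) (hζ : IsPrimitiveRoot ζ n) (hn : (n : κ) ≠ 0)
    (u v w : ℕ → A) (a b : G → A) (θ : G) :
    wsum g n ζ u (fun θ => wsum g n ζ v a θ * wsum g n ζ w b θ) θ =
      ∑ l ∈ range n, ∑ m ∈ range n,
        (u ((l + m) % n) * v l * w m) * (proj g n ζ l a θ * proj g n ζ m b θ) := by
  have hn0 : n ≠ 0 := by rintro rfl; simp at hn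
  have h1 : (fun θ => wsum g n ζ v a θ * wsum g n ζ w b θ) =
      fun θ => ∑ l ∈ range n, (fun θ => ∑ m ∈ range n,
        (fun θ => (v l * w m) * (proj g n ζ l a * proj g n ζ m b) θ) θ) θ := by
    funext θ
    simp only [wsum, Finset.sum_mul_sum, Pi.mul_apply]
    exact Finset.sum_congr rfl fun l _ => Finset.sum_congr rfl fun m _ => by ring
  rw [h1, wsum_sum]
  refine Finset.sum_congr rfl fun l _ => ?_
  rw [wsum_sum]
  refine Finset.sum_congr rfl fun m _ => ?_
  rw [wsum_smul]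
  have h2 : IsEig g (ζ ^ ((l + m) % n)) (proj g n ζ l a * proj g n ζ m b) := by
    have := (proj_eig hg hζ.pow_eq_one hn0 l a).mul (proj_eig hg hζ.pow_eq_one hn0 m b)
    rw [← pow_add] at this
    rwa [← pow_mod_orderOf, ← hζ.eq_orderOf] at this
  rw [wsum_of_eig hζ hn u (Nat.mod_lt _ (Nat.pos_of_ne_zero hn0)) h2]
  simp only [Pi.mul_apply]
  ring

/-- compatibility with ring homs -/
theorem wsum_map {B : Type} [CommRing B] [Algebra κ B] (f : A →+* B)
    (hf : ∀ c : κ, f (algebraMap κ A c) = algebraMap κ B c) (u : ℕ → A) (a : G → A) (θ : G) :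
    f (wsum g n ζ u a θ) = wsum g n ζ (fun m => f (u m)) (fun θ => f (a θ)) θ := by
  simp only [wsum, proj, map_sum, map_mul, hf]

end Fourier

end H33
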