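import Pool.Agent.H33R2.Defs
import Pool.Agent.Helper737.AmpleE
import Pool.Agent.Helper737.AmpleG
import Pool.Agent.Helper737.AmpleH

set_option autoImplicit false

open Pool.Agent.Helper737.Ample

namespace H33

namespace T1b

variable {Ω : Type} [Field Ω]

open Cardinal in
theorem countable_acl {D : Subfield Ω} (h : (D : Set Ω).Countable) :
    ((acl D : Subfield Ω) : Set Ω).Countable := by
  have h1 := Algebra.IsAlgebraic.cardinalMk_le_max D (algebraicClosure D Ω)
  have h2 : #D ≤ ℵ₀ := Cardinal.le_aleph0_iff_set_countable.2 h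
  have h3 : #(algebraicClosure D Ω) ≤ ℵ₀ := h1.trans (max_le h2 le_rfl)
  exact Cardinal.le_aleph0_iff_set_countable.1 h3

open Cardinal in
theorem countable_adj {D : Subfield Ω} {S : Set Ω} (h : (D : Set Ω).Countable)
    (hS : S.Countable) : ((adj D S : Subfield Ω) : Set Ω).Countable := by
  have h1 : adj D S = Subfield.closure ((D : Set Ω) ∪ S) := by
    rw [adj, Subfield.closure_union, Subfield.closure_eq]
  rw [h1]
  have h2 := Subfield.cardinalMk_closure_le_max ((D : Set Ω) ∪ S)
  have h3 : #((D : Set Ω) ∪ S : Set Ω) ≤ ℵ₀ :=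
    Cardinal.le_aleph0_iff_set_countable.2 (h.union hS)
  exact Cardinal.le_aleph0_iff_set_countable.1 (h2.trans (max_le h3 le_rfl))

theorem ld_up [IsAlgClosed Ω] {k D : Subfield Ω} (hk : acl k = k) (hkD : k ≤ D) {κ : Type*}
    (x : κ → Ω) (hx : AlgebraicIndependent D x) {ι : Type*} (b : ι → Ω)
    (hb : ∀ i, b i ∈ D) (hli : LinearIndependent k b) (s : Finset κ) :
    LinearIndependent (acl (adj k (x '' s))) b := by
  classical
  induction s using Finset.induction_on with
  | empty =>
    have : acl (adj k (x '' ((∅ : Finset κ) : Set κ))) = k := by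
      simp [adj, hk]
    rw [this]; exact hli
  | insert a s ha IH =>
    have hD' : b = b := rfl
    have h1 : x a ∉ acl (acl (adj D (x '' s))) := by
      rw [acl_idem, mem_acl_adj]
      exact hx.transcendental_adjoin (by simpa using ha)
    have h2 := ld_step2 (E := acl (adj k (x '' s))) (D := acl (adj D (x '' s))) (acl_idem _)
      (acl_mono (adj_mono hkD le_rfl)) h1 b
      (fun i => le_acl _ (le_adj _ _ (hb i))) IH
    have h3 : acl (adj (acl (adj k (x '' s))) {x a}) =
        acl (adj k (x '' ((insert a s : Finset κ) : Set κ))) := by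
      apply le_antisymm
      · apply acl_le_acl
        apply adj_le
        · apply acl_mono
          apply adj_mono le_rfl
          apply Set.image_mono
          intro z hz; simp at hz ⊢; exact Or.inr hz
        · rintro _ rfl
          apply le_acl
          apply subset_adj
          exact ⟨a, by simp, rfl⟩
      · apply acl_mono
        apply adj_le
        · exact (le_adj _ _).trans ((le_acl _).trans (le_adj _ _))
        · rintro _ ⟨c, hc, rfl⟩
          simp only [Finset.coe_insert, Set.mem_insert_iff, Finset.mem_coe] at hc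
          rcases hc with rfl | hc
          · exact subset_adj _ _ rfl
          · exact le_adj _ _ (le_acl _ (subset_adj _ _ ⟨c, hc, rfl⟩))
    rw [h3] at h2
    exact h2

theorem ld_down [IsAlgClosed Ω] {k D : Subfield Ω} (hk : acl k = k) (hkD : k ≤ D) {r : ℕ}
    (x : Fin r → Ω) (hx : AlgebraicIndependent D x) {ι : Type} (b : ι → Ω)
    (hb : ∀ i, b i ∈ acl (adj k (Set.range x))) (hli : LinearIndependent k b) :
    LinearIndependent D b := by
  refine indep_symm (F := k) (N := D) (B := acl (adj k (Set.range x))) hkD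
    ((le_adj _ _).trans (le_acl _)) ?_ b hb hli
  intro ι v hv hli
  have h1 := ld_up hk hkD x hx v hv hli Finset.univ
  have h2 : x '' ((Finset.univ : Finset (Fin r)) : Set (Fin r)) = Set.range x := by simp
  rw [h2] at h1
  exact h1

theorem exists_indep [IsAlgClosed Ω] [Uncountable Ω] (D : Subfield Ω)
    (hD : (D : Set Ω).Countable) (r : ℕ) : ∃ x : Fin r → Ω, AlgebraicIndependent D x := by
  obtain ⟨ι, z, hz⟩ := exists_isTranscendenceBasis' D Ω
  have hinf : Infinite ι := by
    by_contra hcon
    rw [not_infinite_iff_finite] at hcon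
    have h1 := IsAlgClosed.cardinal_le_max_transcendence_basis' z hz
    have h2 : Cardinal.mk D ≤ Cardinal.aleph0 := Cardinal.le_aleph0_iff_set_countable.2 hD
    have h3 : Cardinal.mk ι ≤ Cardinal.aleph0 := Cardinal.mk_le_aleph0
    have h4 : Cardinal.mk Ω ≤ Cardinal.aleph0 := h1.trans (max_le (max_le h2 h3) le_rfl)
    have h5 := Cardinal.mk_le_aleph0_iff.1 h4
    exact not_countable h5
  let e : Fin r ↪ ι := (Fin.valEmbedding).trans (Infinite.natEmbedding ι)
  exact ⟨z ∘ e, hz.1.comp e e.injective⟩

theorem exists_embed [IsAlgClosed Ω] [Uncountable Ω] {k : Subfield Ω} (D : Subfield Ω)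
    (hkD : k ≤ D) (hD : (D : Set Ω).Countable) (F : Type) [Field F] [Algebra k F]
    (fg : ∃ S : Finset F, IntermediateField.adjoin k (S : Set F) = ⊤) :
    ∃ (j : F →ₐ[k] Ω) (r : ℕ) (x : Fin r → Ω), AlgebraicIndependent D x ∧
      ∀ y, j y ∈ acl (adj k (Set.range x)) := by
  obtain ⟨S, hS⟩ := fg
  have halg : Algebra.IsAlgebraic (Algebra.adjoin k (S : Set F)) F := by
    constructor
    intro y
    have hy : y ∈ IntermediateField.adjoin k (S : Set F) := by rw [hS]; trivial
    rw [IntermediateField.mem_adjoin_iff_div] at hy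
    obtain ⟨p, hp, q, hq, rfl⟩ := hy
    rw [div_eq_mul_inv]
    apply IsAlgebraic.mul
    · exact isAlgebraic_algebraMap (⟨p, hp⟩ : Algebra.adjoin k (S : Set F))
    · exact (isAlgebraic_algebraMap (⟨q, hq⟩ : Algebra.adjoin k (S : Set F))).inv
  obtain ⟨u, huS, hu⟩ := exists_isTranscendenceBasis_subset (R := k) (S : Set F)
  have hufin : Finite u := (S.finite_toSet.subset huS)
  obtain ⟨r, ⟨e⟩⟩ := Finite.exists_equiv_fin u
  let t : Fin r → F := fun i => (e.symm i : F)
  have ht : IsTranscendenceBasis k t :=
    (isTranscendenceBasis_equiv' e.symm rfl).2 hu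
  obtain ⟨x, hx⟩ := exists_indep D hD r
  let _ : Algebra k D := (Subfield.inclusion hkD).toAlgebra
  have : IsScalarTower k D Ω := IsScalarTower.of_algebraMap_eq (fun _ => rfl)
  have hxk : AlgebraicIndependent k x := hx.restrictScalars
    (FaithfulSMul.algebraMap_injective k D)
  let R := MvPolynomial (Fin r) k
  let _ : Algebra R F := (MvPolynomial.aeval t : R →ₐ[k] F).toAlgebra
  let _ : Algebra R Ω := (MvPolynomial.aeval x : R →ₐ[k] Ω).toAlgebra
  have : FaithfulSMul R F := (faithfulSMul_iff_algebraMap_injective _ _).2 ht.1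
  have : FaithfulSMul R Ω := (faithfulSMul_iff_algebraMap_injective _ _).2 hxk
  have halg2 : Algebra.IsAlgebraic R F := by
    have h0 := ht.isAlgebraic
    refine Algebra.IsAlgebraic.of_ringHom_of_comp_eq (S := Algebra.adjoin k (Set.range t))
      (ht.1.aevalEquiv : R →+* Algebra.adjoin k (Set.range t)) (RingHom.id F)
      ht.1.aevalEquiv.surjective Function.injective_id ?_
    ext c
    · simp [RingHom.algebraMap_toAlgebra]
    · simp [RingHom.algebraMap_toAlgebra]
  let j0 : F →ₐ[R] Ω := IsAlgClosed.lift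
  have hj0 : ∀ c : R, j0 (MvPolynomial.aeval t c) = MvPolynomial.aeval x c := fun c =>
    j0.commutes c
  let j : F →ₐ[k] Ω := { j0.toRingHom with
    commutes' := by
      intro c
      have := hj0 (MvPolynomial.C c)
      simp }
  refine ⟨j, r, x, hx, fun y => ?_⟩
  rw [mem_acl_adj]
  have h1 : IsAlgebraic R y := halg2.isAlgebraic y
  refine IsAlgebraic.ringHom_of_comp_eq (S := Algebra.adjoin k (Set.range x))
    (hxk.aevalEquiv : R →+* Algebra.adjoin k (Set.range x)) (j0 : F →+* Ω) h1
    hxk.aevalEquiv.injective ?_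
  have hcm : ∀ c : R, algebraMap (Algebra.adjoin k (Set.range x)) Ω (hxk.aevalEquiv c) =
      MvPolynomial.aeval x c := fun c => by simp
  apply RingHom.ext
  intro c
  change algebraMap (Algebra.adjoin k (Set.range x)) Ω (hxk.aevalEquiv c) =
    j0 (MvPolynomial.aeval t c)
  rw [hcm, hj0]

end T1b

end H33
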