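import Pool.Agent.H33R2.FreeA

set_option autoImplicit false

open scoped TensorProduct

namespace H33

namespace T1b

section

variable {k L F : Type} [Field k] [Field L] [Field F] [Algebra k L] [Algebra k F]

/-- the multiplication map -/
noncomputable def mu {Ω : Type} [Field Ω] [Algebra k Ω] [Algebra L Ω] [IsScalarTower k L Ω]
    (j : F →ₐ[k] Ω) : L ⊗[k] F →ₐ[L] Ω :=
  Algebra.TensorProduct.lift (Algebra.ofId L Ω) j (fun _ _ => Commute.all _ _)

theorem mu_tmul {Ω : Type} [Field Ω] [Algebra k Ω] [Algebra L Ω] [IsScalarTower k L Ω]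
    (j : F →ₐ[k] Ω) (l : L) (y : F) : mu j (l ⊗ₜ[k] y) = algebraMap L Ω l * j y := by
  simp [mu, Algebra.ofId_apply]

theorem exists_fin_repr (x : L ⊗[k] F) (b : Module.Basis (Module.Free.ChooseBasisIndex k F) k F) :
    x = ((Algebra.TensorProduct.basis L b).repr x).sum fun i l => l ⊗ₜ[k] b i := by
  conv_lhs => rw [← (Algebra.TensorProduct.basis L b).linearCombination_repr x]
  rw [Finsupp.linearCombination_apply]
  apply Finsupp.sum_congr
  intro i _
  rw [Algebra.TensorProduct.basis_apply, TensorProduct.smul_tmul', smul_eq_mul, mul_one]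

theorem mu_inj {Ω : Type} [Field Ω] [Algebra k Ω] [Algebra L Ω] [IsScalarTower k L Ω]
    (j : F →ₐ[k] Ω)
    (hli : ∀ (ι : Type) (b : ι → F), LinearIndependent k b → LinearIndependent L (j ∘ b)) :
    Function.Injective (mu j : L ⊗[k] F →ₐ[L] Ω) := by
  rw [injective_iff_map_eq_zero]
  intro x hx
  let b := Module.Free.chooseBasis k F
  have h1 := hli _ b b.linearIndependent
  have h2 := exists_fin_repr x b
  rw [h2] at hx
  rw [Finsupp.sum, map_sum] at hx
  simp only [mu_tmul] at hx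
  have h3 := linearIndependent_iff.1 h1 ((Algebra.TensorProduct.basis L b).repr x) (by
    rw [Finsupp.linearCombination_apply, Finsupp.sum, ← hx]
    apply Finset.sum_congr rfl
    intro i _
    rw [Algebra.smul_def]; rfl)
  exact (LinearEquiv.map_eq_zero_iff _).1 h3

end

/-- Dedekind: a dual family -/
theorem dedekind {L Γ : Type} [Field L] [Group Γ] [Finite Γ] (ρ : Γ →* (L ≃+* L))
    (hρ : Function.Injective ρ) [DecidableEq Γ] :
    ∃ c : L →₀ L, ∀ γ, (c.sum fun b cb => cb * ρ γ b) = if γ = 1 then 1 else 0 := by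
  classical
  have := Fintype.ofFinite Γ
  let v : L → (Γ → L) := fun b γ => ρ γ b
  let W : Submodule L (Γ → L) := Submodule.span L (Set.range v)
  have hW : W = ⊤ := by
    by_contra hne
    obtain ⟨f, hf, hWf⟩ := Submodule.exists_le_ker_of_lt_top W (lt_top_iff_ne_top.2 hne)
    apply hf
    let χ : Γ → (L →* L) := fun γ => ((ρ γ : L →+* L) : L →* L)
    have hχ : Function.Injective χ := by
      intro γ γ' h
      apply hρ
      ext x
      exact congrArg (fun g : L →* L => g x) h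
    have h1 : LinearIndependent L (fun γ : Γ => (χ γ : L → L)) :=
      (linearIndependent_monoidHom L L).comp χ hχ
    have h2 : ∀ x : Γ → L, f x = ∑ γ, x γ * f (Pi.single γ 1) := by
      intro x
      conv_lhs => rw [show x = ∑ γ, x γ • (Pi.single γ (1 : L) : Γ → L) by
        ext γ; simp [Finset.sum_apply, Pi.single_apply]]
      rw [map_sum]
      simp
    have h3 : ∑ γ, f (Pi.single γ 1) • (χ γ : L → L) = 0 := by
      ext b
      have h4 : f (v b) = 0 := hWf (Submodule.subset_span ⟨b, rfl⟩)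
      rw [h2] at h4
      rw [Finset.sum_apply, Pi.zero_apply, ← h4]
      apply Finset.sum_congr rfl
      intro γ _
      simp [χ, v, mul_comm]
    have h5 := Fintype.linearIndependent_iff.1 h1 _ h3
    ext γ
    simp [h5]
  have h6 : (fun γ : Γ => if γ = 1 then (1 : L) else 0) ∈ W := by rw [hW]; trivial
  rw [Finsupp.mem_span_range_iff_exists_finsupp] at h6
  obtain ⟨c, hc⟩ := h6
  refine ⟨c, fun γ => ?_⟩
  have := congrFun hc γ
  rw [← this, Finsupp.sum, Finsupp.sum, Finset.sum_apply]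
  rfl

section action

variable {k L F Γ : Type} [Field k] [Field L] [Field F] [Algebra k L] [Algebra k F]
  [Group Γ] [MulSemiringAction Γ F] [SMulCommClass Γ k F]

/-- the action on the tensor product -/
noncomputable def aR (ρ : Γ →* (L ≃ₐ[k] L)) (γ : Γ) : L ⊗[k] F →ₐ[k] L ⊗[k] F :=
  Algebra.TensorProduct.map (ρ γ : L →ₐ[k] L) (MulSemiringAction.toAlgHom k F γ)

theorem aR_tmul (ρ : Γ →* (L ≃ₐ[k] L)) (γ : Γ) (l : L) (y : F) :
    aR (F := F) ρ γ (l ⊗ₜ y) = ρ γ l ⊗ₜ (γ • y) := by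
  simp [aR]

theorem aR_mul (ρ : Γ →* (L ≃ₐ[k] L)) (γ γ' : Γ) (x : L ⊗[k] F) :
    aR ρ (γ * γ') x = aR ρ γ (aR ρ γ' x) := by
  induction x with
  | zero => simp
  | tmul l y => simp [aR_tmul, mul_smul]
  | add a b ha hb => rw [map_add, map_add, map_add, ha, hb]

theorem aR_one (ρ : Γ →* (L ≃ₐ[k] L)) (x : L ⊗[k] F) : aR ρ 1 x = x := by
  induction x with
  | zero => simp
  | tmul l y => simp [aR_tmul]
  | add a b ha hb => rw [map_add, ha, hb]

theorem aR_inj (ρ : Γ →* (L ≃ₐ[k] L)) (γ : Γ) :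
    Function.Injective (aR (F := F) ρ γ) := by
  intro x y h
  have := congrArg (aR ρ γ⁻¹) h
  rwa [← aR_mul, ← aR_mul, inv_mul_cancel, aR_one, aR_one] at this

variable [IsDomain (L ⊗[k] F)]

theorem aQ_aux (ρ : Γ →* (L ≃ₐ[k] L)) (γ : Γ) :
    Function.Injective ((algebraMap (L ⊗[k] F) (FractionRing (L ⊗[k] F))).comp
      ((aR (F := F) ρ γ : L ⊗[k] F →ₐ[k] L ⊗[k] F) : L ⊗[k] F →+* L ⊗[k] F)) := by
  rw [RingHom.coe_comp]
  exact (IsFractionRing.injective _ _).comp (aR_inj ρ γ)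

/-- the action on the fraction field -/
noncomputable def aQ (ρ : Γ →* (L ≃ₐ[k] L)) (γ : Γ) :
    FractionRing (L ⊗[k] F) →+* FractionRing (L ⊗[k] F) :=
  IsFractionRing.lift (A := L ⊗[k] F) (aQ_aux ρ γ)

theorem aQ_algebraMap (ρ : Γ →* (L ≃ₐ[k] L)) (γ : Γ) (x : L ⊗[k] F) :
    aQ ρ γ (algebraMap (L ⊗[k] F) (FractionRing (L ⊗[k] F)) x) =
      algebraMap (L ⊗[k] F) (FractionRing (L ⊗[k] F)) (aR ρ γ x) := by
  rw [aQ, IsFractionRing.lift_algebraMap]
  rfl

theorem aQ_mul (ρ : Γ →* (L ≃ₐ[k] L)) (γ γ' : Γ) (x : FractionRing (L ⊗[k] F)) :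
    aQ ρ (γ * γ') x = aQ ρ γ (aQ ρ γ' x) := by
  have h : aQ (F := F) ρ (γ * γ') = (aQ ρ γ).comp (aQ ρ γ') := by
    apply IsLocalization.ringHom_ext (nonZeroDivisors (L ⊗[k] F))
    ext x
    · simp [aQ_algebraMap, aR_mul]
    · simp [aQ_algebraMap, aR_mul]
  rw [h]; rfl

theorem aQ_one (ρ : Γ →* (L ≃ₐ[k] L)) (x : FractionRing (L ⊗[k] F)) :
    aQ ρ 1 x = x := by
  have h : aQ (F := F) ρ 1 = RingHom.id _ := by
    apply IsLocalization.ringHom_ext (nonZeroDivisors (L ⊗[k] F))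
    ext x
    · simp [aQ_algebraMap, aR_one]
    · simp [aQ_algebraMap, aR_one]
  rw [h]; rfl

/-- the embedding of `L` -/
noncomputable def iL : L →+* FractionRing (L ⊗[k] F) :=
  (algebraMap (L ⊗[k] F) (FractionRing (L ⊗[k] F))).comp Algebra.TensorProduct.includeLeftRingHom

/-- the embedding of `F` -/
noncomputable def iF : F →+* FractionRing (L ⊗[k] F) :=
  (algebraMap (L ⊗[k] F) (FractionRing (L ⊗[k] F))).comp
    (Algebra.TensorProduct.includeRight : F →ₐ[k] L ⊗[k] F)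

theorem aQ_iL (ρ : Γ →* (L ≃ₐ[k] L)) (γ : Γ) (l : L) :
    aQ (F := F) ρ γ (iL l) = iL (ρ γ l) := by
  simp [iL, aQ_algebraMap, aR_tmul]

theorem aQ_iF (ρ : Γ →* (L ≃ₐ[k] L)) (γ : Γ) (y : F) :
    aQ (F := F) ρ γ (iF y) = iF (γ • y) := by
  simp [iF, aQ_algebraMap, aR_tmul]

/-- trace-like invariants -/
noncomputable def kap [Fintype Γ] (ρ : Γ →* (L ≃ₐ[k] L)) (q : FractionRing (L ⊗[k] F)) (b : L) :
    FractionRing (L ⊗[k] F) := ∑ γ : Γ, aQ ρ γ (iL b * q)

theorem aQ_kap [Fintype Γ] (ρ : Γ →* (L ≃ₐ[k] L)) (q : FractionRing (L ⊗[k] F)) (b : L) (γ : Γ) :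
    aQ ρ γ (kap ρ q b) = kap ρ q b := by
  unfold kap
  rw [map_sum]
  simp only [← aQ_mul]
  exact Fintype.sum_equiv (Equiv.mulLeft γ) _ _ (fun x => rfl)

theorem descend [Fintype Γ] [DecidableEq Γ] (ρ : Γ →* (L ≃ₐ[k] L)) (c : L →₀ L)
    (hc : ∀ γ, (c.sum fun b cb => cb * ρ γ b) = if γ = 1 then 1 else 0)
    (q : FractionRing (L ⊗[k] F)) (γ : Γ) :
    aQ ρ γ q = c.sum fun b cb => iL (ρ γ cb) * kap ρ q b := by
  have h1 : q = c.sum fun b cb => iL cb * kap ρ q b := by
    have h2 : (c.sum fun b cb => iL cb * kap ρ q b) =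
        ∑ γ : Γ, iL (c.sum fun b cb => cb * ρ γ b) * aQ ρ γ q := by
      simp only [Finsupp.sum, kap, map_sum, Finset.sum_mul, Finset.mul_sum]
      rw [Finset.sum_comm]
      apply Finset.sum_congr rfl
      intro γ _
      apply Finset.sum_congr rfl
      intro b _
      rw [map_mul, aQ_iL, map_mul, mul_assoc]
    rw [h2]
    simp only [hc]
    rw [Finset.sum_eq_single 1]
    · simp [aQ_one]
    · intro b _ hb; simp [hb]
    · intro h; exact absurd (Finset.mem_univ _) h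
  conv_lhs => rw [h1]
  rw [Finsupp.sum, map_sum]
  apply Finset.sum_congr rfl
  intro b _
  rw [map_mul, aQ_iL, aQ_kap]

end action

end T1b

end H33
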