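import Pool.Agent.H33R2.Equi
import Pool.Agent.H33R2.Defs

set_option autoImplicit false
set_option linter.unusedSectionVars false

open Finset PowerSeries

namespace H33

section lact

variable {k κ Γ H Λ : Type} [Field k] [Field κ] [CharZero κ] [Algebra k κ] [Group Γ] [Group H]
  [MulSemiringAction Γ κ] [SMulCommClass Γ k κ] (φ : Γ →* MulAut H)
  [Field Λ] [Algebra (RatFunc κ)⟦X⟧ Λ] [IsFractionRing (RatFunc κ)⟦X⟧ Λ]
  [Algebra κ Λ] [IsScalarTower κ (RatFunc κ)⟦X⟧ Λ] [Algebra k Λ] [IsScalarTower k κ Λ]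

/-- action on `Λ` -/
noncomputable def lact (γ : Γ) : Λ →+* Λ := lmap (R := RatFunc κ) (rmap γ)

theorem lact_algebraMap (γ : Γ) (x : (RatFunc κ)⟦X⟧) :
    lact (κ := κ) γ (algebraMap _ Λ x) = algebraMap _ Λ (PowerSeries.map (rmap γ) x) :=
  lmap_algebraMap _ _

theorem lact_mul (γ γ' : Γ) (z : Λ) :
    lact (κ := κ) (γ * γ') z = lact (κ := κ) γ (lact (κ := κ) γ' z) := by
  rw [lact, lact, lact, ← RingHom.comp_apply, lmap_comp, rmap_mul]

theorem lact_one (z : Λ) : lact (κ := κ) (1 : Γ) z = z := by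
  rw [lact, rmap_one, lmap_id]; rfl

theorem lact_const (γ : Γ) (z : κ) :
    lact (κ := κ) γ (algebraMap κ Λ z) = algebraMap κ Λ (γ • z) := by
  rw [IsScalarTower.algebraMap_apply κ (RatFunc κ)⟦X⟧ Λ, lact_algebraMap,
    IsScalarTower.algebraMap_apply κ (RatFunc κ)⟦X⟧ Λ]
  congr 1
  rw [PowerSeries.algebraMap_apply, PowerSeries.algebraMap_apply, PowerSeries.map_C, rmap_const]

theorem lact_k (γ : Γ) (z : k) : lact (κ := κ) γ (algebraMap k Λ z) = algebraMap k Λ z := by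
  rw [IsScalarTower.algebraMap_apply k κ Λ, lact_const]
  congr 1
  rw [Algebra.algebraMap_eq_smul_one, smul_comm, smul_one]

variable (κ Λ) in
/-- the variable `t` in `Λ` -/
noncomputable def tt : Λ := algebraMap (RatFunc κ)⟦X⟧ Λ (C RatFunc.X)

theorem lact_tt (γ : Γ) : lact (κ := κ) γ (tt κ Λ) = tt κ Λ := by
  rw [tt, lact_algebraMap, PowerSeries.map_C, rmap_X]

/-- `κ((s))` -/

theorem lact_K1 (γ : Γ) {z : Λ} (hz : z ∈ (Fr Λ (cs (⊥ : Subalgebra κ (RatFunc κ))))) : lact (κ := κ) γ z ∈ (Fr Λ (cs (⊥ : Subalgebra κ (RatFunc κ)))) := by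
  induction hz using IntermediateField.adjoin_induction with
  | mem x hx =>
    obtain ⟨y, hy, rfl⟩ := hx
    rw [lact_algebraMap]
    refine mem_Fr_of_mem fun n => ?_
    obtain ⟨w, hw⟩ := Algebra.mem_bot.1 (hy n)
    rw [PowerSeries.coeff_map, ← hw, rmap_const]
    exact Subalgebra.algebraMap_mem _ _
  | algebraMap x => rw [lact_const]; exact IntermediateField.algebraMap_mem _ _
  | add x y _ _ hx hy => rw [map_add]; exact add_mem hx hy
  | inv x _ hx => rw [map_inv₀]; exact inv_mem hx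
  | mul x y _ _ hx hy => rw [map_mul]; exact mul_mem hx hy

theorem tt_not_mem : tt κ Λ ∉ (Fr Λ (cs (⊥ : Subalgebra κ (RatFunc κ)))) := by
  intro h
  have h1 := lmap_fix_bot (Λ := Λ) (trans_const (1 : κ)) h
  rw [tt, lmap_algebraMap, PowerSeries.map_C] at h1
  have h2 := C_injective (IsFractionRing.injective (RatFunc κ)⟦X⟧ Λ h1)
  rw [← RatFunc.algebraMap_X, trans_poly, Polynomial.X_comp] at h2
  have h3 := RatFunc.algebraMap_injective κ h2
  have h4 := congrArg (Polynomial.eval 0) h3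
  simp at h4

/-- action of the semidirect product on functions -/
noncomputable def act (g : H ⋊[φ] Γ) : (H → Λ) →+* (H → Λ) :=
  Pi.ringHom fun θ => (lact (κ := κ) g.right).comp
    (Pi.evalRingHom (fun _ : H => Λ) ((φ g.right)⁻¹ (g.left⁻¹ * θ)))

theorem act_apply (g : H ⋊[φ] Γ) (a : H → Λ) (θ : H) :
    act (κ := κ) φ g a θ = lact (κ := κ) g.right (a ((φ g.right)⁻¹ (g.left⁻¹ * θ))) := rfl

theorem act_mul (g g' : H ⋊[φ] Γ) (a : H → Λ) :
    act (κ := κ) φ (g * g') a = act (κ := κ) φ g (act (κ := κ) φ g' a) := by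
  funext θ
  simp only [act_apply, SemidirectProduct.mul_right, SemidirectProduct.mul_left, lact_mul]
  congr 3
  simp only [map_mul, mul_inv_rev, MulAut.mul_apply, map_inv, MulAut.inv_apply_self, mul_assoc]

theorem act_one (a : H → Λ) : act (κ := κ) φ (1 : H ⋊[φ] Γ) a = a := by
  funext θ
  simp [act_apply, lact_one]

theorem act_bb [Fintype H] (g : H ⋊[φ] Γ) (c : H → (RatFunc κ)⟦X⟧) {μ : H → (RatFunc κ)⟦X⟧}
    (hμ : ∀ θ, vact φ g.right c θ = ∑ χ, μ χ * c (χ⁻¹ * θ)) (ψ : H) :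
    act (κ := κ) φ g (bb Λ c ψ) = fun θ => ∑ χ, algebraMap _ Λ (μ χ) *
      bb Λ c (g.left * φ g.right ψ * χ) θ := by
  funext θ
  rw [act_apply]
  have h1 : bb Λ c ψ ((φ g.right)⁻¹ (g.left⁻¹ * θ)) =
      algebraMap _ Λ (c ((φ g.right)⁻¹ ((g.left * φ g.right ψ)⁻¹ * θ))) := by
    rw [bb]
    congr 2
    simp [mul_assoc]
  rw [h1, lact_algebraMap]
  have h2 : PowerSeries.map (rmap g.right) (c ((φ g.right)⁻¹ ((g.left * φ g.right ψ)⁻¹ * θ))) =
      vact φ g.right c ((g.left * φ g.right ψ)⁻¹ * θ) := rfl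
  rw [h2, hμ, map_sum]
  refine Finset.sum_congr rfl fun χ _ => ?_
  rw [map_mul, bb]
  congr 3
  simp [mul_assoc]

end lact

section rf

variable {k κ Γ H Λ : Type} [Field k] [Field κ] [CharZero κ] [Algebra k κ] [Group Γ] [Group H]
  [MulSemiringAction Γ κ] [SMulCommClass Γ k κ] (φ : Γ →* MulAut H)
  [Field Λ] [Algebra (RatFunc κ)⟦X⟧ Λ] [IsFractionRing (RatFunc κ)⟦X⟧ Λ]
  [Algebra κ Λ] [IsScalarTower κ (RatFunc κ)⟦X⟧ Λ] [Algebra k Λ] [IsScalarTower k κ Λ]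


variable (κ) in
theorem tt_trans {F₁ : IntermediateField k Λ} (hF : ∀ z ∈ F₁, z ∈ (Fr Λ (cs (⊥ : Subalgebra κ (RatFunc κ))))) :
    Transcendental F₁ (tt κ Λ) := by
  intro h
  apply tt_not_mem (κ := κ) (Λ := Λ)
  apply alg_closed_bot
  obtain ⟨p, hp0, hp⟩ := h
  let i : F₁ →+* (Fr Λ (cs (⊥ : Subalgebra κ (RatFunc κ)))) :=
    { toFun := fun z => ⟨z, hF z z.2⟩
      map_one' := rfl
      map_mul' := fun _ _ => rfl
      map_zero' := rfl
      map_add' := fun _ _ => rfl }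
  refine ⟨p.map i, Polynomial.map_ne_zero hp0, ?_⟩
  rw [Polynomial.aeval_def, Polynomial.eval₂_map]
  exact hp

/-- the embedding of `F₁(t)` in `Λ` -/
noncomputable def jj {F₁ : IntermediateField k Λ} (hF : ∀ z ∈ F₁, z ∈ (Fr Λ (cs (⊥ : Subalgebra κ (RatFunc κ))))) :
    RatFunc F₁ →ₐ[F₁] Λ :=
  RatFunc.liftAlgHom (Polynomial.aeval (tt κ Λ)) (by
    intro x hx
    rw [Submonoid.mem_comap]
    refine mem_nonZeroDivisors_of_ne_zero fun h0 => nonZeroDivisors.ne_zero hx ?_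
    exact (transcendental_iff.1 (tt_trans κ hF)) _ h0)

theorem jj_div {F₁ : IntermediateField k Λ} (hF : ∀ z ∈ F₁, z ∈ (Fr Λ (cs (⊥ : Subalgebra κ (RatFunc κ))))) (p q : Polynomial F₁) :
    jj hF (algebraMap _ _ p / algebraMap _ _ q) =
      Polynomial.aeval (tt κ Λ) p / Polynomial.aeval (tt κ Λ) q :=
  RatFunc.liftAlgHom_apply_div _ _ _ _

theorem jj_poly {F₁ : IntermediateField k Λ} (hF : ∀ z ∈ F₁, z ∈ (Fr Λ (cs (⊥ : Subalgebra κ (RatFunc κ))))) (p : Polynomial F₁) :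
    jj hF (algebraMap _ _ p) = Polynomial.aeval (tt κ Λ) p := by
  have := jj_div hF p 1
  simpa using this

theorem jj_C {F₁ : IntermediateField k Λ} (hF : ∀ z ∈ F₁, z ∈ (Fr Λ (cs (⊥ : Subalgebra κ (RatFunc κ))))) (z : F₁) :
    jj hF (RatFunc.C z) = (z : Λ) := by
  rw [← RatFunc.algebraMap_C, jj_poly, Polynomial.aeval_C]
  rfl

theorem jj_X {F₁ : IntermediateField k Λ} (hF : ∀ z ∈ F₁, z ∈ (Fr Λ (cs (⊥ : Subalgebra κ (RatFunc κ))))) :
    jj hF RatFunc.X = tt κ Λ := by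
  rw [← RatFunc.algebraMap_X, jj_poly, Polynomial.aeval_X]

theorem jj_mem_of {F₁ : IntermediateField k Λ} (hF : ∀ z ∈ F₁, z ∈ (Fr Λ (cs (⊥ : Subalgebra κ (RatFunc κ))))) (S : Subfield Λ)
    (h1 : ∀ z ∈ F₁, z ∈ S) (h2 : tt κ Λ ∈ S) (r : RatFunc F₁) : jj hF r ∈ S := by
  rw [← RatFunc.num_div_denom r, jj_div]
  have h3 : ∀ p : Polynomial F₁, Polynomial.aeval (tt κ Λ) p ∈ S := by
    intro p
    rw [Polynomial.aeval_eq_sum_range]
    refine sum_mem fun i _ => ?_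
    rw [Algebra.smul_def]
    exact mul_mem (h1 _ (p.coeff i).2) (pow_mem h2 _)
  exact div_mem (h3 _) (h3 _)

theorem jj_mem_EE [Fintype H] [DecidableEq H] {x : H → κ} (hx : Function.Injective x)
    {F₁ : IntermediateField k Λ}
    (hF : ∀ z ∈ F₁, z ∈ (Fr Λ (cs (⊥ : Subalgebra κ (RatFunc κ))))) (r : RatFunc F₁) : jj hF r ∈ EE Λ (RP.patch x hx) := by
  have hle : (Fr Λ (cs (⊥ : Subalgebra κ (RatFunc κ)))) ≤ EE Λ (RP.patch x hx) := by
    rw [Fr, IntermediateField.adjoin_le_iff]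
    rintro _ ⟨y, hy, rfl⟩
    exact mem_EE_of_bot hy
  exact jj_mem_of hF (EE Λ (RP.patch x hx)).toSubfield (fun z hz => hle (hF z hz)) (tt_mem) r

theorem lact_range {F₁ : IntermediateField k Λ} (hF : ∀ z ∈ F₁, z ∈ (Fr Λ (cs (⊥ : Subalgebra κ (RatFunc κ)))))
    (hstab : ∀ (γ : Γ), ∀ z ∈ F₁, lact (κ := κ) γ z ∈ F₁) (γ : Γ) (r : RatFunc F₁) :
    ∃ r' : RatFunc F₁, lact (κ := κ) γ (jj hF r) = jj hF r' := by
  have h := jj_mem_of hF ((jj hF).toRingHom.fieldRange.comap (lact (κ := κ) γ)) (by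
    intro z hz
    exact ⟨RatFunc.C ⟨_, hstab γ z hz⟩, jj_C hF _⟩) (by
    refine ⟨RatFunc.X, ?_⟩
    rw [lact_tt]
    exact jj_X hF) r
  obtain ⟨r', hr'⟩ := h
  exact ⟨r', hr'.symm⟩

end rf

end H33
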