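import Pool.Agent.H33R2.Gen

set_option autoImplicit false
set_option linter.unusedSectionVars false

open Finset PowerSeries

namespace H33

section

variable {k κ Γ H Λ : Type} [Field k] [Field κ] [CharZero κ] [Algebra k κ] [Group Γ] [Group H]
  [MulSemiringAction Γ κ] [SMulCommClass Γ k κ] (φ : Γ →* MulAut H)
  [Field Λ] [Algebra (RatFunc κ)⟦X⟧ Λ] [IsFractionRing (RatFunc κ)⟦X⟧ Λ]
  [Algebra κ Λ] [IsScalarTower κ (RatFunc κ)⟦X⟧ Λ] [Algebra k Λ] [IsScalarTower k κ Λ]


/-- the action of `Γ` on a stable subfield of `Λ` -/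
@[reducible] noncomputable def actF (F₁ : IntermediateField k Λ)
    (hstab : ∀ (γ : Γ), ∀ z ∈ F₁, lact (κ := κ) γ z ∈ F₁) : MulSemiringAction Γ F₁ where
  smul γ z := ⟨lact (κ := κ) γ z, hstab γ z z.2⟩
  one_smul _ := Subtype.ext (lact_one _)
  mul_smul _ _ _ := Subtype.ext (lact_mul _ _ _)
  smul_zero _ := Subtype.ext (map_zero _)
  smul_add _ _ _ := Subtype.ext (map_add _ _ _)
  smul_one _ := Subtype.ext (map_one _)
  smul_mul _ _ _ := Subtype.ext (map_mul _ _ _)

/-- the task attached to a stable finitely generated subfield -/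
noncomputable def taskF [Finite Γ] (F₁ : IntermediateField k Λ)
    (hstab : ∀ (γ : Γ), ∀ z ∈ F₁, lact (κ := κ) γ z ∈ F₁) (hfg : F₁.FG) : Task k :=
  letI := actF (κ := κ) F₁ hstab
  { Γ := Γ
    F := F₁
    comm := ⟨fun γ c z => Subtype.ext (by
      show lact (κ := κ) γ ((c • z : F₁) : Λ) = c • lact (κ := κ) γ (z : Λ)
      rw [show ((c • z : F₁) : Λ) = c • (z : Λ) from rfl, Algebra.smul_def, map_mul, lact_k,
        Algebra.smul_def])⟩
    fg := by
      have h1 := IntermediateField.essFiniteType_iff.2 hfg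
      exact IntermediateField.fg_top_iff.2 h1 }

end

theorem gen_aux {k κ Γ H Λ : Type} [Field k] [CharZero k] [IsAlgClosed k] [Field κ] [CharZero κ]
    [Algebra k κ] [Group Γ] [Finite Γ] [Group H] [Fintype H] [DecidableEq H]
    [MulSemiringAction Γ κ] [SMulCommClass Γ k κ] [FaithfulSMul Γ κ] (φ : Γ →* MulAut H)
    [Field Λ] [Algebra (RatFunc κ)⟦X⟧ Λ] [IsFractionRing (RatFunc κ)⟦X⟧ Λ]
    [Algebra κ Λ] [IsScalarTower κ (RatFunc κ)⟦X⟧ Λ] [Algebra k Λ] [IsScalarTower k κ Λ]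
    (x : H → κ) (hx : Function.Injective x) (hxγ : ∀ (γ : Γ) h, γ • x h = x (φ γ h))
    (S : Finset κ) (hS : IntermediateField.adjoin k (S : Set κ) = ⊤) :
    ∃ (F₁ : IntermediateField k Λ) (hstab : ∀ (γ : Γ), ∀ z ∈ F₁, lact (κ := κ) γ z ∈ F₁)
      (hfg : F₁.FG),
      FaithfulSMul (taskF (κ := κ) F₁ hstab hfg).Γ (taskF (κ := κ) F₁ hstab hfg).F ∧
      Nonempty (GenSol (taskF (κ := κ) F₁ hstab hfg) H φ) := by
  classical
  have hfaithR : FaithfulSMul (RatFunc κ)⟦X⟧ Λ := inferInstance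
  -- group data
  have hroot : ∀ n : ℕ, n ≠ 0 → ∃ z : k, IsPrimitiveRoot z n := by
    intro n hn
    have : NeZero n := ⟨hn⟩
    have : NeZero (n : k) := ⟨by exact_mod_cast hn⟩
    exact HasEnoughRootsOfUnity.exists_primitiveRoot k n
  choose! rt hrt using hroot
  let Q : GrpData κ H H :=
    { g := fun h => h
      n := fun h => orderOf h
      ζ := fun h => algebraMap k κ (rt (orderOf h))
      gn := fun h => pow_orderOf_eq_one h
      prim := fun h => (hrt _ (orderOf_pos h).ne').map_of_injective (algebraMap k κ).injective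
      npos := fun h => (orderOf_pos h).ne' }
  have hn : ∀ (γ : Γ) h, Q.n (φ γ h) = Q.n h := fun γ h => MulEquiv.orderOf_eq (φ γ) h
  have hζ : ∀ (γ : Γ) h, Q.ζ (φ γ h) = Q.ζ h := fun γ h => by
    show algebraMap k κ (rt (orderOf (φ γ h))) = algebraMap k κ (rt (orderOf h))
    rw [MulEquiv.orderOf_eq (φ γ) h]
  have hζ' : ∀ (γ : Γ) h, γ • Q.ζ h = Q.ζ h := fun γ h => by
    show γ • algebraMap k κ (rt (orderOf h)) = algebraMap k κ (rt (orderOf h))
    rw [Algebra.algebraMap_eq_smul_one, smul_comm, smul_one]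
  have hgen : Subgroup.closure (Set.range Q.g) = ⊤ := by
    rw [eq_top_iff]
    intro h _
    exact Subgroup.subset_closure ⟨h, rfl⟩
  let P := RP.patch x hx
  obtain ⟨c, hcD, hc1, hcO⟩ := exists_c P Q
  have hc : Good P Q c := ⟨hcD, hcO⟩
  -- structure constants
  have hprod := fun ψ ψ' => expand_mul hc hc1 (hc.ltr ψ) (hc.ltr ψ')
  choose μ hμ1 hμ2 using hprod
  choose p hp using hμ2
  obtain ⟨ε, hε1, hε2⟩ := expand_good hc hc1 (Good.one (P := P) (Q := Q))
  have hact := fun γ : Γ => expand_good hc hc1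
    (Good.vact φ hxγ (fun _ => rfl) hn hζ hζ' hc γ)
  choose ν hν1 hν2 using hact
  -- the finite set of constants
  let S₀ : Set Λ := (Set.range fun i : H × H × H × Fin (P.deg + 1) =>
      algebraMap (RatFunc κ)⟦X⟧ Λ (PowerSeries.map (algebraMap κ (RatFunc κ))
        (p i.1 i.2.1 i.2.2.1 i.2.2.2))) ∪
    (Set.range fun χ => algebraMap (RatFunc κ)⟦X⟧ Λ (ε χ)) ∪
    (Set.range fun i : Γ × H => algebraMap (RatFunc κ)⟦X⟧ Λ (ν i.1 i.2))
  have hS₀fin : S₀.Finite := ((Set.finite_range _).union (Set.finite_range _)).union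
    (Set.finite_range _)
  let S₁ : Set Λ := ⋃ γ : Γ, lact (κ := κ) γ '' S₀
  have hS₁fin : S₁.Finite := Set.finite_iUnion fun γ => hS₀fin.image _
  have hS₀S₁ : S₀ ⊆ S₁ := by
    intro z hz
    exact Set.mem_iUnion.2 ⟨1, z, hz, lact_one z⟩
  have hS₁stab : ∀ (γ : Γ), ∀ z ∈ S₁, lact (κ := κ) γ z ∈ S₁ := by
    intro γ z hz
    obtain ⟨γ', y, hy, rfl⟩ := Set.mem_iUnion.1 hz
    exact Set.mem_iUnion.2 ⟨γ * γ', y, hy, lact_mul _ _ _⟩
  have hS₀K : ∀ z ∈ S₀, z ∈ Fr Λ (cs (⊥ : Subalgebra κ (RatFunc κ))) := by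
    rintro z ((⟨i, rfl⟩ | ⟨χ, rfl⟩) | ⟨i, rfl⟩)
    · exact mem_Fr_of_mem (map_mem_cs_bot _)
    · exact mem_Fr_of_mem (hε2 _)
    · exact mem_Fr_of_mem (hν2 _ _)
  have hS₁K : ∀ z ∈ S₁, z ∈ Fr Λ (cs (⊥ : Subalgebra κ (RatFunc κ))) := by
    intro z hz
    obtain ⟨γ', y, hy, rfl⟩ := Set.mem_iUnion.1 hz
    exact lact_K1 γ' (hS₀K y hy)
  -- the field
  let F₁ : IntermediateField k Λ :=
    IntermediateField.adjoin k (algebraMap κ Λ '' (S : Set κ) ∪ S₁)
  have hκF : ∀ z : κ, algebraMap κ Λ z ∈ F₁ := by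
    intro z
    have h1 : z ∈ IntermediateField.adjoin k (S : Set κ) := by rw [hS]; trivial
    have h2 : algebraMap κ Λ z ∈ (IntermediateField.adjoin k (S : Set κ)).map
        (IsScalarTower.toAlgHom k κ Λ) := ⟨z, h1, rfl⟩
    rw [IntermediateField.adjoin_map] at h2
    exact IntermediateField.adjoin.mono _ _ _ (by
      rintro _ ⟨y, hy, rfl⟩
      exact Or.inl ⟨y, hy, rfl⟩) h2
  have hSF : ∀ z ∈ S₁, z ∈ F₁ := fun z hz => IntermediateField.subset_adjoin _ _ (Or.inr hz)
  have hF : ∀ z ∈ F₁, z ∈ Fr Λ (cs (⊥ : Subalgebra κ (RatFunc κ))) := by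
    intro z hz
    induction hz using IntermediateField.adjoin_induction with
    | mem x hx =>
      rcases hx with ⟨y, _, rfl⟩ | hx
      · exact IntermediateField.algebraMap_mem _ _
      · exact hS₁K _ hx
    | algebraMap x =>
      rw [IsScalarTower.algebraMap_apply k κ Λ]
      exact IntermediateField.algebraMap_mem _ _
    | add x y _ _ hx hy => exact add_mem hx hy
    | inv x _ hx => exact inv_mem hx
    | mul x y _ _ hx hy => exact mul_mem hx hy
  have hstab : ∀ (γ : Γ), ∀ z ∈ F₁, lact (κ := κ) γ z ∈ F₁ := by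
    intro γ z hz
    induction hz using IntermediateField.adjoin_induction with
    | mem x hx =>
      rcases hx with ⟨y, _, rfl⟩ | hx
      · rw [lact_const]; exact hκF _
      · exact hSF _ (hS₁stab γ _ hx)
    | algebraMap x =>
      rw [lact_k]
      exact IntermediateField.algebraMap_mem _ _
    | add x y _ _ hx hy => rw [map_add]; exact add_mem hx hy
    | inv x _ hx => rw [map_inv₀]; exact inv_mem hx
    | mul x y _ _ hx hy => rw [map_mul]; exact mul_mem hx hy
  have hfg : F₁.FG := IntermediateField.fg_def.2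
    ⟨_, (S.finite_toSet.image _).union hS₁fin, rfl⟩
  refine ⟨F₁, hstab, hfg, ?_, ?_⟩
  · refine ⟨fun {γ γ' : Γ} h => ?_⟩
    have key : ∀ z : κ, γ • z = γ' • z := by
      intro z
      have h1 := congrArg Subtype.val (h ⟨_, hκF z⟩)
      have h2 : lact (κ := κ) γ (algebraMap κ Λ z) = lact (κ := κ) γ' (algebraMap κ Λ z) := h1
      rw [lact_const, lact_const] at h2
      exact (algebraMap κ Λ).injective h2
    exact FaithfulSMul.eq_of_smul_eq_smul (M := Γ) (α := κ) key
  -- the algebra structure of `Λ` over `F₁(t)`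
  let algΛ : Algebra (RatFunc F₁) Λ := (jj hF).toRingHom.toAlgebra
  have halg : ∀ r : RatFunc F₁, algebraMap (RatFunc F₁) Λ r = jj hF r := fun r => rfl
  have hE : ∀ r : RatFunc F₁, algebraMap (RatFunc F₁) Λ r ∈ EE Λ P := fun r =>
    jj_mem_EE hx hF r
  have hFR : ∀ z ∈ F₁, ∃ r : RatFunc F₁, algebraMap (RatFunc F₁) Λ r = z := fun z hz =>
    ⟨RatFunc.C ⟨z, hz⟩, jj_C hF _⟩
  have hone : (1 : H → Λ) ∈ SpanE (RatFunc F₁) c := by
    have h1 := coe_mul_bb (Λ := Λ) (E' := RatFunc F₁) hε1 (fun χ =>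
      hFR _ (hSF _ (hS₀S₁ (Or.inl (Or.inr ⟨χ, rfl⟩)))))
    have h3 : (fun _ : H => algebraMap (RatFunc κ)⟦X⟧ Λ 1) = (1 : H → Λ) := by
      funext θ; simp
    rw [← h3]
    exact h1
  have hmul : ∀ ψ ψ', bb Λ c ψ * bb Λ c ψ' ∈ SpanE (RatFunc F₁) c := by
    intro ψ ψ'
    have h1 := coe_mul_bb (Λ := Λ) (E' := RatFunc F₁) (hμ1 ψ ψ') (fun χ => by
      have hmem : algebraMap (RatFunc κ)⟦X⟧ Λ (μ ψ ψ' χ) ∈ (jj hF).toRingHom.fieldRange := by
        have h1 := congrArg (algebraMap (RatFunc κ)⟦X⟧ Λ) (hp ψ ψ' χ)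
        rw [map_mul, map_sum] at h1
        have hne : algebraMap (RatFunc κ)⟦X⟧ Λ (C (Polynomial.aeval P.t P.q)) ≠ 0 := by
          intro h0
          exact C_q_ne ((map_eq_zero_iff _ (IsFractionRing.injective (RatFunc κ)⟦X⟧ Λ)).1 h0)
        have h2 : algebraMap (RatFunc κ)⟦X⟧ Λ (μ ψ ψ' χ) =
            (∑ j ∈ range (P.deg + 1), algebraMap (RatFunc κ)⟦X⟧ Λ
              (PowerSeries.map (algebraMap κ (RatFunc κ)) (p ψ ψ' χ j) * C (P.t ^ j))) /
              algebraMap (RatFunc κ)⟦X⟧ Λ (C (Polynomial.aeval P.t P.q)) := by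
          rw [← h1]
          field_simp
        have htt : tt κ Λ ∈ (jj hF).toRingHom.fieldRange := ⟨RatFunc.X, jj_X hF⟩
        rw [h2]
        refine div_mem (sum_mem fun j hj => ?_) ?_
        · rw [map_mul, map_pow, map_pow]
          refine mul_mem ?_ (pow_mem htt _)
          have hmem2 : algebraMap (RatFunc κ)⟦X⟧ Λ
              (PowerSeries.map (algebraMap κ (RatFunc κ)) (p ψ ψ' χ j)) ∈ F₁ :=
            hSF _ (hS₀S₁ (Or.inl (Or.inl ⟨(ψ, ψ', χ, ⟨j, Finset.mem_range.1 hj⟩), rfl⟩)))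
          exact ⟨RatFunc.C ⟨_, hmem2⟩, jj_C hF _⟩
        · rw [C_aeval]
          have h4 : algebraMap (RatFunc κ)⟦X⟧ Λ (Polynomial.aeval (C P.t) P.q) =
              Polynomial.aeval (algebraMap (RatFunc κ)⟦X⟧ Λ (C P.t)) P.q :=
            (Polynomial.aeval_algebraMap_apply Λ (C P.t) P.q).symm
          rw [h4, Polynomial.aeval_eq_sum_range]
          refine sum_mem fun i _ => ?_
          rw [Algebra.smul_def]
          exact mul_mem ⟨RatFunc.C ⟨_, hκF _⟩, jj_C hF _⟩ (pow_mem htt _)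
      obtain ⟨r, hr⟩ := hmem
      exact ⟨r, hr⟩)
    have h3 : (fun θ => algebraMap (RatFunc κ)⟦X⟧ Λ (ltr ψ c θ * ltr ψ' c θ)) =
        bb Λ c ψ * bb Λ c ψ' := by
      funext θ
      rw [map_mul]
      rfl
    rw [← h3]
    exact h1
  have hfield := FF_isField hE hc hc1 hgen hone hmul
  -- stability
  have hst : ∀ (g : H ⋊[φ] Γ) (a : H → Λ), a ∈ SpanE (RatFunc F₁) c →
      act (κ := κ) φ g a ∈ SpanE (RatFunc F₁) c := by
    intro g a ha
    obtain ⟨e, he⟩ := mem_SpanE.1 ha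
    have h1 : ∀ ψ, act (κ := κ) φ g (bb Λ c ψ) ∈ SpanE (RatFunc F₁) c := by
      intro ψ
      rw [act_bb φ g c (hν1 g.right) ψ]
      have h2 : (fun θ => ∑ χ, algebraMap (RatFunc κ)⟦X⟧ Λ (ν g.right χ) *
          bb Λ c (g.left * (φ g.right) ψ * χ) θ) =
          ∑ χ, (RatFunc.C ⟨_, hSF _ (hS₀S₁ (Or.inr ⟨(g.right, χ), rfl⟩))⟩ : RatFunc F₁) •
            bb Λ c (g.left * (φ g.right) ψ * χ) := by
        funext θ
        rw [Finset.sum_apply]
        refine Finset.sum_congr rfl fun χ _ => ?_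
        rw [Pi.smul_apply, Algebra.smul_def, halg, jj_C]
      rw [h2]
      exact Submodule.sum_mem _ fun χ _ => Submodule.smul_mem _ _
        (Submodule.subset_span ⟨_, rfl⟩)
    have h2 : ∀ ψ, ∃ r, lact (κ := κ) g.right (algebraMap (RatFunc F₁) Λ (e ψ)) =
        algebraMap (RatFunc F₁) Λ r := fun ψ => lact_range hF hstab g.right (e ψ)
    choose r hr using h2
    have h3 : act (κ := κ) φ g a = ∑ ψ, r ψ • act (κ := κ) φ g (bb Λ c ψ) := by
      funext θ
      rw [act_apply, he, map_sum, Finset.sum_apply]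
      refine Finset.sum_congr rfl fun ψ _ => ?_
      rw [map_mul, hr, Pi.smul_apply, Algebra.smul_def, act_apply]
    rw [h3]
    exact Submodule.sum_mem _ fun ψ _ => Submodule.smul_mem _ _ (h1 ψ)
  -- the field `B`
  let B := FF (RatFunc F₁) c hone hmul
  letI fldB : Field B := hfield.toField
  letI actB : MulSemiringAction (H ⋊[φ] Γ) B :=
    { smul := fun g b => ⟨act (κ := κ) φ g b, hst g b b.2⟩
      one_smul := fun b => Subtype.ext (act_one φ _)
      mul_smul := fun g g' b => Subtype.ext (act_mul φ g g' _)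
      smul_zero := fun g => Subtype.ext (map_zero _)
      smul_add := fun g b b' => Subtype.ext (map_add _ _ _)
      smul_one := fun g => Subtype.ext (map_one _)
      smul_mul := fun g b b' => Subtype.ext (map_mul _ _ _) }
  have hsmul : ∀ (g : H ⋊[φ] Γ) (b : B), ((g • b : B) : H → Λ) = act (κ := κ) φ g b :=
    fun g b => rfl
  have hconst : ∀ (r : RatFunc F₁) (θ : H), ((algebraMap (RatFunc F₁) B r : B) : H → Λ) θ = jj hF r :=
    fun r θ => rfl
  have hrank : Module.finrank (RatFunc F₁) B = Nat.card H :=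
    finrank_FF (Λ := Λ) (E' := RatFunc F₁) hc1 (hone := hone) (hmul := hmul)
  have hfaith : FaithfulSMul (H ⋊[φ] Γ) B := by
    refine ⟨fun {g g'} h => ?_⟩
    have hright : g.right = g'.right := by
      apply FaithfulSMul.eq_of_smul_eq_smul (α := κ)
      intro z
      have h1 := congrFun (congrArg Subtype.val (h (algebraMap (RatFunc F₁) B
        (RatFunc.C ⟨_, hκF z⟩)))) 1
      have h2 : lact (κ := κ) g.right (jj hF (RatFunc.C ⟨_, hκF z⟩)) =
        lact (κ := κ) g'.right (jj hF (RatFunc.C ⟨_, hκF z⟩)) := h1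
      rw [jj_C] at h2
      simp only [lact_const] at h2
      exact (algebraMap κ Λ).injective h2
    have hleft : g.left = g'.left := by
      have h1 := congrArg Subtype.val (h ⟨bb Λ c 1, Submodule.subset_span ⟨1, rfl⟩⟩)
      have h2 : act (κ := κ) φ g (bb Λ c 1) = act (κ := κ) φ g' (bb Λ c 1) := h1
      have h3 := congrFun h2 g.left
      rw [act_apply, act_apply, bb, bb, lact_algebraMap, lact_algebraMap] at h3
      have h4 := congrArg constantCoeff (IsFractionRing.injective (RatFunc κ)⟦X⟧ Λ h3)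
      rw [← coeff_zero_eq_constantCoeff_apply, ← coeff_zero_eq_constantCoeff_apply,
        PowerSeries.coeff_map, PowerSeries.coeff_map, coeff_zero_eq_constantCoeff_apply,
        coeff_zero_eq_constantCoeff_apply, hc1, hc1] at h4
      simp only [inv_one, one_mul, inv_mul_cancel, map_one, if_true] at h4
      by_contra hne
      rw [if_neg] at h4
      · rw [map_zero] at h4; exact one_ne_zero h4
      · intro h5
        apply hne
        rw [← map_inv, map_eq_one_iff _ (MulEquiv.injective _)] at h5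
        exact (inv_mul_eq_one.1 h5).symm
    exact SemidirectProduct.ext hleft hright
  have hC : ∀ (g : H ⋊[φ] Γ) (z : F₁), g • algebraMap (RatFunc F₁) B (RatFunc.C z) =
      algebraMap (RatFunc F₁) B (RatFunc.C ⟨lact (κ := κ) g.right z, hstab _ _ z.2⟩) := by
    intro g z
    apply Subtype.ext
    funext θ
    show lact (κ := κ) g.right (jj hF (RatFunc.C z)) = jj hF (RatFunc.C _)
    rw [jj_C, jj_C]
  have hX : ∀ g : H ⋊[φ] Γ, g • algebraMap (RatFunc F₁) B RatFunc.X =
      algebraMap (RatFunc F₁) B RatFunc.X := by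
    intro g
    apply Subtype.ext
    funext θ
    show lact (κ := κ) g.right (jj hF RatFunc.X) = jj hF RatFunc.X
    rw [jj_X, lact_tt]
  have hreg : ∀ b : B, (∃ p : Polynomial F₁, p ≠ 0 ∧
      Polynomial.eval₂ ((algebraMap (RatFunc F₁) B).comp RatFunc.C) b p = 0) →
      ∃ z : F₁, b = algebraMap (RatFunc F₁) B (RatFunc.C z) := by
    rintro b ⟨p, hp0, hpb⟩
    set z : Λ := (b : H → Λ) 1 with hz
    have hzalg : IsAlgebraic F₁ z := by
      refine ⟨p, hp0, ?_⟩
      have h1 := congrArg ((Pi.evalRingHom (fun _ : H => Λ) 1).comp B.val.toRingHom) hpb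
      rw [Polynomial.hom_eval₂, map_zero] at h1
      rw [Polynomial.aeval_def, ← h1]
      congr 1
      ext w : 1
      exact (jj_C hF w).symm
    have hzK : z ∈ Fr Λ (cs (⊥ : Subalgebra κ (RatFunc κ))) := by
      apply alg_closed_bot
      obtain ⟨p', hp0', hp'⟩ := hzalg
      let i : F₁ →+* Fr Λ (cs (⊥ : Subalgebra κ (RatFunc κ))) :=
        { toFun := fun z => ⟨z, hF z z.2⟩
          map_one' := rfl
          map_mul' := fun _ _ => rfl
          map_zero' := rfl
          map_add' := fun _ _ => rfl }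
      refine ⟨p'.map i, Polynomial.map_ne_zero hp0', ?_⟩
      rw [Polynomial.aeval_def, Polynomial.eval₂_map]
      exact hp'
    have hzE : z ∈ EE Λ P := by
      have hle : Fr Λ (cs (⊥ : Subalgebra κ (RatFunc κ))) ≤ EE Λ P := by
        rw [Fr, IntermediateField.adjoin_le_iff]
        rintro _ ⟨y, hy, rfl⟩
        exact mem_EE_of_bot hy
      exact hle hzK
    obtain ⟨e, he⟩ := mem_SpanE.1 b.2
    have hbE : (b : H → Λ) ∈ SpanE (EE Λ P) c := mem_SpanE.2 ⟨fun ψ => ⟨_, hE (e ψ)⟩, he⟩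
    have hdiff : (b : H → Λ) - (⟨z, hzE⟩ : EE Λ P) • (1 : H → Λ) ∈ SpanE (EE Λ P) c :=
      Submodule.sub_mem _ hbE (Submodule.smul_mem _ _ (one_mem_EE hc hc1))
    have hconstb := coord_inj hc hc1 hgen hdiff (θ₀ := 1) (by
      rw [Pi.sub_apply, Pi.smul_apply, Pi.one_apply, Algebra.smul_def, mul_one]
      show z - z = 0
      rw [sub_self])
    have hb : ∀ θ, (b : H → Λ) θ = z := by
      intro θ
      have h1 := congrFun hconstb θ
      rw [Pi.sub_apply, Pi.smul_apply, Pi.one_apply, Algebra.smul_def, mul_one, Pi.zero_apply,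
        sub_eq_zero] at h1
      exact h1
    have hlin := bb_lin (Λ := Λ) hc1
      (fun ψ => algebraMap (RatFunc F₁) Λ (e ψ) - z * algebraMap (RatFunc κ)⟦X⟧ Λ (ε ψ)) (by
        intro θ
        simp only [sub_mul, Finset.sum_sub_distrib]
        rw [← he, hb]
        have h1 := congrArg (algebraMap (RatFunc κ)⟦X⟧ Λ) (hε1 θ)
        rw [map_one, map_sum] at h1
        have h2 : ∑ ψ, z * algebraMap (RatFunc κ)⟦X⟧ Λ (ε ψ) * bb Λ c ψ θ = z := by
          calc ∑ ψ, z * algebraMap (RatFunc κ)⟦X⟧ Λ (ε ψ) * bb Λ c ψ θ =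
              z * ∑ ψ, algebraMap (RatFunc κ)⟦X⟧ Λ (ε ψ * c (ψ⁻¹ * θ)) := by
                rw [Finset.mul_sum]
                refine Finset.sum_congr rfl fun ψ _ => ?_
                rw [map_mul, mul_assoc]; rfl
            _ = z := by rw [← h1, mul_one]
        rw [h2, sub_self])
    have hεne : ∃ ψ, algebraMap (RatFunc κ)⟦X⟧ Λ (ε ψ) ≠ 0 := by
      by_contra hcon
      push Not at hcon
      have h1 := congrArg (algebraMap (RatFunc κ)⟦X⟧ Λ) (hε1 1)
      rw [map_one, map_sum, Finset.sum_eq_zero] at h1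
      · exact one_ne_zero h1
      · intro ψ _
        rw [map_mul, hcon, zero_mul]
    obtain ⟨ψ, hψ⟩ := hεne
    have hψ2 := congrFun hlin ψ
    rw [Pi.zero_apply, sub_eq_zero] at hψ2
    obtain ⟨r₀, hr₀⟩ := hFR _ (hSF _ (hS₀S₁ (Or.inl (Or.inr ⟨ψ, rfl⟩))))
    have hzr : jj hF (e ψ / r₀) = z := by
      rw [map_div₀, ← halg, ← halg, hr₀, hψ2]
      field_simp
    have hralg : IsAlgebraic F₁ (e ψ / r₀) := by
      rw [← isAlgebraic_algHom_iff (jj hF) (jj hF).toRingHom.injective, hzr]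
      exact hzalg
    by_contra hcon
    refine RatFunc.transcendental_of_ne_C (e ψ / r₀) ?_ hralg
    rintro ⟨c₀, hc₀⟩
    apply hcon
    refine ⟨c₀, ?_⟩
    apply Subtype.ext
    funext θ
    rw [hb, ← hzr, hc₀]
    rfl
  exact ⟨{ B := B, fldB := fldB, algB := (inferInstance : Algebra (RatFunc F₁) B),
           fdB := (FF_finite : Module.Finite (RatFunc F₁) B), rank := hrank, actB := actB,
           faith := hfaith, smul_C := hC, smul_X := hX, reg := hreg }⟩

end H33
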