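import Pool.Agent.H33R2.Patch

set_option autoImplicit false
set_option linter.unusedSectionVars false

open Finset

namespace H33

namespace RP

variable {κ : Type} [Field κ]


theorem aa_C (r : κ) : (algebraMap (Polynomial κ) (RatFunc κ)) (Polynomial.C r) = algebraMap κ (RatFunc κ) r := by
  rw [IsScalarTower.algebraMap_apply κ (Polynomial κ) (RatFunc κ)]
  rfl

/-- rational functions regular at `c` -/
def Oc (c : κ) : Subalgebra κ (RatFunc κ) where
  carrier := {f | ∃ p q : Polynomial κ, q.eval c ≠ 0 ∧ f * (algebraMap (Polynomial κ) (RatFunc κ)) q = (algebraMap (Polynomial κ) (RatFunc κ)) p}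
  mul_mem' := by
    rintro f g ⟨p, q, h, e⟩ ⟨p', q', h', e'⟩
    refine ⟨p * p', q * q', by rw [Polynomial.eval_mul]; exact mul_ne_zero h h', ?_⟩
    rw [map_mul, map_mul, ← e, ← e']; ring
  add_mem' := by
    rintro f g ⟨p, q, h, e⟩ ⟨p', q', h', e'⟩
    refine ⟨p * q' + p' * q, q * q', by rw [Polynomial.eval_mul]; exact mul_ne_zero h h', ?_⟩
    rw [map_add, map_mul, map_mul, map_mul, ← e, ← e']; ring
  algebraMap_mem' := by
    intro r
    exact ⟨Polynomial.C r, 1, by simp, by rw [map_one, mul_one, aa_C]⟩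

theorem mem_Oc {c : κ} {f : RatFunc κ} :
    f ∈ Oc c ↔ ∃ p q : Polynomial κ, q.eval c ≠ 0 ∧ f * (algebraMap (Polynomial κ) (RatFunc κ)) q = (algebraMap (Polynomial κ) (RatFunc κ)) p := Iff.rfl

theorem poly_mem_Oc (c : κ) (p : Polynomial κ) : (algebraMap (Polynomial κ) (RatFunc κ)) p ∈ Oc c :=
  ⟨p, 1, by simp, by rw [map_one, mul_one]⟩

theorem val_unique {c : κ} {f : RatFunc κ} {p q p' q' : Polynomial κ} (h : q.eval c ≠ 0)
    (e : f * (algebraMap (Polynomial κ) (RatFunc κ)) q = (algebraMap (Polynomial κ) (RatFunc κ)) p) (h' : q'.eval c ≠ 0) (e' : f * (algebraMap (Polynomial κ) (RatFunc κ)) q' = (algebraMap (Polynomial κ) (RatFunc κ)) p') :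
    p.eval c / q.eval c = p'.eval c / q'.eval c := by
  have h1 : (algebraMap (Polynomial κ) (RatFunc κ)) (p * q') = (algebraMap (Polynomial κ) (RatFunc κ)) (p' * q) := by
    rw [map_mul, map_mul, ← e, ← e']; ring
  have h2 := RatFunc.algebraMap_injective κ h1
  have h3 := congrArg (Polynomial.eval c) h2
  rw [Polynomial.eval_mul, Polynomial.eval_mul] at h3
  rw [div_eq_div_iff h h', h3]

theorem frac_mul {f g : RatFunc κ} {p q p' q' : Polynomial κ} (e : f * (algebraMap (Polynomial κ) (RatFunc κ)) q = (algebraMap (Polynomial κ) (RatFunc κ)) p)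
    (e' : g * (algebraMap (Polynomial κ) (RatFunc κ)) q' = (algebraMap (Polynomial κ) (RatFunc κ)) p') : (f * g) * (algebraMap (Polynomial κ) (RatFunc κ)) (q * q') = (algebraMap (Polynomial κ) (RatFunc κ)) (p * p') := by
  rw [map_mul, map_mul, ← e, ← e']; ring

theorem frac_add {f g : RatFunc κ} {p q p' q' : Polynomial κ} (e : f * (algebraMap (Polynomial κ) (RatFunc κ)) q = (algebraMap (Polynomial κ) (RatFunc κ)) p)
    (e' : g * (algebraMap (Polynomial κ) (RatFunc κ)) q' = (algebraMap (Polynomial κ) (RatFunc κ)) p') : (f + g) * (algebraMap (Polynomial κ) (RatFunc κ)) (q * q') = (algebraMap (Polynomial κ) (RatFunc κ)) (p * q' + p' * q) := by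
  rw [map_add, map_mul, map_mul, map_mul, ← e, ← e']; ring

/-- value at `c` -/
noncomputable def resc (c : κ) : Oc c →+* κ where
  toFun f := (f.2.choose).eval c / (f.2.choose_spec.choose).eval c
  map_one' := by
    have h := (1 : Oc c).2.choose_spec.choose_spec
    rw [val_unique h.1 h.2 (p' := 1) (q' := 1) (by simp) (by simp)]
    simp
  map_zero' := by
    have h := (0 : Oc c).2.choose_spec.choose_spec
    rw [val_unique h.1 h.2 (p' := 0) (q' := 1) (by simp) (by simp)]
    simp
  map_mul' := by
    intro x y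
    have h := (x * y).2.choose_spec.choose_spec
    have hx := x.2.choose_spec.choose_spec
    have hy := y.2.choose_spec.choose_spec
    rw [val_unique h.1 h.2 (p' := x.2.choose * y.2.choose)
      (q' := x.2.choose_spec.choose * y.2.choose_spec.choose)
      (by rw [Polynomial.eval_mul]; exact mul_ne_zero hx.1 hy.1)
      (frac_mul hx.2 hy.2)]
    rw [Polynomial.eval_mul, Polynomial.eval_mul, mul_div_mul_comm]
  map_add' := by
    intro x y
    have h := (x + y).2.choose_spec.choose_spec
    have hx := x.2.choose_spec.choose_spec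
    have hy := y.2.choose_spec.choose_spec
    rw [val_unique h.1 h.2 (p' := x.2.choose * y.2.choose_spec.choose +
        y.2.choose * x.2.choose_spec.choose)
      (q' := x.2.choose_spec.choose * y.2.choose_spec.choose)
      (by rw [Polynomial.eval_mul]; exact mul_ne_zero hx.1 hy.1)
      (frac_add hx.2 hy.2)]
    rw [Polynomial.eval_mul, Polynomial.eval_add, Polynomial.eval_mul, Polynomial.eval_mul]
    have h1 := hx.1
    have h2 := hy.1
    field_simp

theorem resc_eq {c : κ} (f : Oc c) {p q : Polynomial κ} (h : q.eval c ≠ 0)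
    (e : (f : RatFunc κ) * (algebraMap (Polynomial κ) (RatFunc κ)) q = (algebraMap (Polynomial κ) (RatFunc κ)) p) : resc c f = p.eval c / q.eval c :=
  val_unique f.2.choose_spec.choose_spec.1 f.2.choose_spec.choose_spec.2 h e

variable {I : Type} [Fintype I] (c : I → κ)

/-- the product polynomial -/
noncomputable def qq : Polynomial κ := ∏ i, (Polynomial.X - Polynomial.C (c i))

theorem qq_monic : (qq c).Monic := Polynomial.monic_prod_of_monic _ _ fun i _ =>
  Polynomial.monic_X_sub_C _

theorem qq_natDegree : (qq c).natDegree = Fintype.card I := by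
  rw [qq, Polynomial.natDegree_prod_of_monic _ _ fun i _ => Polynomial.monic_X_sub_C _]
  simp

/-- rational functions regular outside the `c i` (including infinity) -/
noncomputable def DD : Subalgebra κ (RatFunc κ) where
  carrier := {f | ∃ (N : ℕ) (p : Polynomial κ), f * (algebraMap (Polynomial κ) (RatFunc κ)) (qq c ^ N) = (algebraMap (Polynomial κ) (RatFunc κ)) p ∧
    p.natDegree ≤ N * Fintype.card I}
  mul_mem' := by
    rintro f g ⟨N, p, h, e⟩ ⟨N', p', h', e'⟩
    refine ⟨N + N', p * p', ?_, ?_⟩
    · rw [pow_add, map_mul, map_mul, ← h, ← h']; ring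
    · exact Polynomial.natDegree_mul_le.trans (by rw [add_mul]; exact add_le_add e e')
  add_mem' := by
    rintro f g ⟨N, p, h, e⟩ ⟨N', p', h', e'⟩
    have hd : ∀ M, (qq c ^ M).natDegree = M * Fintype.card I := fun M => by
      rw [(qq_monic c).natDegree_pow, qq_natDegree]
    refine ⟨N + N', p * qq c ^ N' + p' * qq c ^ N, ?_, ?_⟩
    · rw [pow_add, map_add, map_mul, map_mul, map_mul, ← h, ← h']; ring
    · refine (Polynomial.natDegree_add_le _ _).trans (max_le ?_ ?_)
      · refine Polynomial.natDegree_mul_le.trans ?_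
        rw [hd, add_mul]; exact Nat.add_le_add_right e _
      · refine Polynomial.natDegree_mul_le.trans ?_
        rw [hd, add_mul, add_comm]; exact Nat.add_le_add_left e' _
  algebraMap_mem' := by
    intro r
    exact ⟨0, Polynomial.C r, by rw [pow_zero, map_one, mul_one, aa_C], by simp⟩

variable {c}

theorem mem_DD {f : RatFunc κ} : f ∈ DD c ↔ ∃ (N : ℕ) (p : Polynomial κ),
    f * (algebraMap (Polynomial κ) (RatFunc κ)) (qq c ^ N) = (algebraMap (Polynomial κ) (RatFunc κ)) p ∧ p.natDegree ≤ N * Fintype.card I := Iff.rfl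

theorem aa_ne {p : Polynomial κ} (h : p ≠ 0) : (algebraMap (Polynomial κ) (RatFunc κ)) p ≠ 0 := RatFunc.algebraMap_ne_zero h

/-- if `x q^N` is a polynomial and `x` is regular at all `c i`, then `x` is a polynomial -/
theorem isPoly {x : RatFunc κ} {N : ℕ} {p : Polynomial κ} (h : x * (algebraMap (Polynomial κ) (RatFunc κ)) (qq c ^ N) = (algebraMap (Polynomial κ) (RatFunc κ)) p)
    (hx : ∀ i, x ∈ Oc (c i)) : ∃ a : Polynomial κ, x = (algebraMap (Polynomial κ) (RatFunc κ)) a := by
  have h1 : IsUnit x.denom := by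
    by_contra hu
    obtain ⟨π, hπ, hdvd⟩ := WfDvdMonoid.exists_irreducible_factor hu x.denom_ne_zero
    have hq0 : qq c ^ N ≠ 0 := pow_ne_zero _ (qq_monic c).ne_zero
    have h2 : x = (algebraMap (Polynomial κ) (RatFunc κ)) p / (algebraMap (Polynomial κ) (RatFunc κ)) (qq c ^ N) := by
      rw [eq_div_iff (aa_ne hq0), h]
    have h3 : π ∣ qq c ^ N := hdvd.trans (by rw [h2]; exact RatFunc.denom_div_dvd _ _)
    have h4 := hπ.prime.dvd_of_dvd_pow h3
    rw [qq, hπ.prime.dvd_finsetProd_iff] at h4
    obtain ⟨i, -, hi⟩ := h4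
    obtain ⟨p', q', hq', e'⟩ := hx i
    have hq'0 : q' ≠ 0 := by rintro rfl; simp at hq'
    have h5 : x = (algebraMap (Polynomial κ) (RatFunc κ)) p' / (algebraMap (Polynomial κ) (RatFunc κ)) q' := by
      rw [eq_div_iff (aa_ne hq'0), e']
    have h6 : π ∣ q' := hdvd.trans (by rw [h5]; exact RatFunc.denom_div_dvd _ _)
    have h7 : Polynomial.X - Polynomial.C (c i) ∣ q' :=
      (hπ.associated_of_dvd (Polynomial.irreducible_X_sub_C (c i)) hi).symm.dvd.trans h6
    exact hq' (Polynomial.dvd_iff_isRoot.1 h7)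
  have h2 : x.denom = 1 := (RatFunc.monic_denom x).isUnit_iff.1 h1
  refine ⟨x.num, ?_⟩
  conv_lhs => rw [← RatFunc.num_div_denom x, h2, map_one, div_one]

theorem erase_prod [DecidableEq I] (i : I) :
    qq c = (Polynomial.X - Polynomial.C (c i)) *
      ∏ j ∈ Finset.univ.erase i, (Polynomial.X - Polynomial.C (c j)) := by
  rw [qq, ← Finset.mul_prod_erase Finset.univ _ (Finset.mem_univ i)]

theorem natDegree_erase [DecidableEq I] (i : I) :
    (∏ j ∈ Finset.univ.erase i, (Polynomial.X - Polynomial.C (c j))).natDegree ≤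
      Fintype.card I := by
  rw [Polynomial.natDegree_prod_of_monic _ _ fun i _ => Polynomial.monic_X_sub_C _]
  simp

/-- the rational patching data -/
noncomputable def patch [DecidableEq I] (c : I → κ) (hc : Function.Injective c) :
    PatchData κ (RatFunc κ) I where
  O i := Oc (c i)
  D := DD c
  w i := ((algebraMap (Polynomial κ) (RatFunc κ)) (Polynomial.X - Polynomial.C (c i)))⁻¹
  wD i := by
    refine ⟨1, ∏ j ∈ Finset.univ.erase i, (Polynomial.X - Polynomial.C (c j)), ?_, ?_⟩
    · rw [pow_one, erase_prod i, map_mul, ← mul_assoc, inv_mul_cancel₀, one_mul]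
      exact aa_ne (Polynomial.X_sub_C_ne_zero _)
    · rw [one_mul]; exact natDegree_erase i
  wO i j hij := by
    refine ⟨1, Polynomial.X - Polynomial.C (c i), ?_, ?_⟩
    · simp only [Polynomial.eval_sub, Polynomial.eval_X, Polynomial.eval_C]
      exact sub_ne_zero.2 fun h => hij (hc h)
    · rw [inv_mul_cancel₀, map_one]
      exact aa_ne (Polynomial.X_sub_C_ne_zero _)
  w_ne i := inv_ne_zero (aa_ne (Polynomial.X_sub_C_ne_zero _))
  winv i := by
    rw [inv_inv]
    exact poly_mem_Oc _ _
  split i f hf := by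
    obtain ⟨N, p, hp, hdeg⟩ := hf
    set u := (Polynomial.X - Polynomial.C (c i)) ^ N with hu
    set v := (∏ j ∈ Finset.univ.erase i, (Polynomial.X - Polynomial.C (c j))) ^ N with hv
    have huv : qq c ^ N = u * v := by rw [erase_prod i, mul_pow]
    have humonic : u.Monic := (Polynomial.monic_X_sub_C _).pow N
    have hcop : IsCoprime u v := by
      refine IsCoprime.pow (IsCoprime.prod_right fun j hj => ?_)
      exact Polynomial.pairwise_coprime_X_sub_C hc (Finset.ne_of_mem_erase hj).symm
    obtain ⟨r, s, hrs⟩ := hcop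
    -- p = p r u + p s v;  B := (p s) mod u
    have hB := Polynomial.modByMonic_add_div (p * s) u
    set B := (p * s) %ₘ u with hBdef
    set A := p * r + ((p * s) /ₘ u) * v with hA
    have hpAB : p = A * u + B * v := by
      have : p = p * (r * u + s * v) := by rw [hrs, mul_one]
      rw [hA]
      calc p = p * (r * u + s * v) := this
        _ = p * r * u + (p * s) * v := by ring
        _ = p * r * u + (B + u * ((p * s) /ₘ u)) * v := by rw [hB]
        _ = _ := by ring
    have hu0 : (algebraMap (Polynomial κ) (RatFunc κ)) u ≠ 0 := aa_ne humonic.ne_zero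
    have hv0' : v ≠ 0 := pow_ne_zero _ (Finset.prod_ne_zero_iff.2 fun j _ =>
      Polynomial.X_sub_C_ne_zero _)
    have hv0 : (algebraMap (Polynomial κ) (RatFunc κ)) v ≠ 0 := aa_ne hv0'
    have hudeg : u.natDegree = N := by
      rw [hu, Polynomial.natDegree_pow, Polynomial.natDegree_X_sub_C, mul_one]
    have hBdeg : B.natDegree ≤ N := by
      rw [← hudeg]
      exact Polynomial.natDegree_modByMonic_le _ humonic
    refine ⟨(algebraMap (Polynomial κ) (RatFunc κ)) B / (algebraMap (Polynomial κ) (RatFunc κ)) u, ?_, ?_, ?_⟩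
    · refine ⟨N, B * v, ?_, ?_⟩
      · rw [huv, map_mul, map_mul]
        field_simp
      · refine Polynomial.natDegree_mul_le.trans ?_
        have h1 : v.natDegree + N = N * Fintype.card I := by
          have h2 := congrArg Polynomial.natDegree huv
          rw [(qq_monic c).natDegree_pow, qq_natDegree, Polynomial.natDegree_mul
            humonic.ne_zero hv0', hudeg] at h2
          omega
        omega
    · intro j hj
      refine ⟨B, u, ?_, ?_⟩
      · rw [hu, Polynomial.eval_pow]
        refine pow_ne_zero _ ?_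
        simp only [Polynomial.eval_sub, Polynomial.eval_X, Polynomial.eval_C]
        exact sub_ne_zero.2 fun h => hj (hc h)
      · field_simp
    · refine ⟨A, v, ?_, ?_⟩
      · rw [hv, Polynomial.eval_pow, Polynomial.eval_prod]
        refine pow_ne_zero _ (Finset.prod_ne_zero_iff.2 fun j hj => ?_)
        simp only [Polynomial.eval_sub, Polynomial.eval_X, Polynomial.eval_C]
        exact sub_ne_zero.2 fun h => (Finset.ne_of_mem_erase hj).symm (hc h)
      · rw [huv, map_mul] at hp
        have hp' : f * (algebraMap (Polynomial κ) (RatFunc κ)) u * (algebraMap (Polynomial κ) (RatFunc κ)) v = (algebraMap (Polynomial κ) (RatFunc κ)) A * (algebraMap (Polynomial κ) (RatFunc κ)) u + (algebraMap (Polynomial κ) (RatFunc κ)) B * (algebraMap (Polynomial κ) (RatFunc κ)) v := by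
          rw [← map_mul, ← map_mul, ← map_add, ← hpAB, ← hp]; ring
        field_simp
        linear_combination hp'
  const f hf hO := by
    obtain ⟨N, p, hp, hdeg⟩ := hf
    obtain ⟨a, rfl⟩ := isPoly hp hO
    rw [← map_mul] at hp
    have h1 := RatFunc.algebraMap_injective κ hp
    by_cases ha : a = 0
    · rw [ha, map_zero]; exact zero_mem _
    · have h2 := congrArg Polynomial.natDegree h1
      rw [Polynomial.natDegree_mul ha (pow_ne_zero _ (qq_monic c).ne_zero),
        (qq_monic c).natDegree_pow, qq_natDegree] at h2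
      have h3 : a.natDegree = 0 := by omega
      rw [Polynomial.eq_C_of_natDegree_eq_zero h3, aa_C]
      exact Subalgebra.algebraMap_mem _ _
  t := RatFunc.X
  tO i := by
    rw [← RatFunc.algebraMap_X]
    exact poly_mem_Oc _ _
  t_trans := RatFunc.transcendental_X
  q := qq c
  q_ne := (qq_monic c).ne_zero
  deg := Fintype.card I
  memE f hf hO := by
    have haev : ∀ p : Polynomial κ, Polynomial.aeval (RatFunc.X : RatFunc κ) p = (algebraMap (Polynomial κ) (RatFunc κ)) p := by
      intro p
      rw [← RatFunc.algebraMap_X, Polynomial.aeval_algebraMap_apply, Polynomial.aeval_X_left]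
      rfl
    obtain ⟨N, p, hp, hdeg⟩ := hf
    have h1 : (algebraMap (Polynomial κ) (RatFunc κ)) (qq c) * f * (algebraMap (Polynomial κ) (RatFunc κ)) (qq c ^ N) = (algebraMap (Polynomial κ) (RatFunc κ)) (qq c * p) := by
      rw [map_mul, ← hp]; ring
    obtain ⟨a, ha⟩ := isPoly (x := (algebraMap (Polynomial κ) (RatFunc κ)) (qq c) * f) h1 (by
      intro i
      have := hO i
      rw [inv_inv] at this
      have h2 : (algebraMap (Polynomial κ) (RatFunc κ)) (qq c) * f =
          (algebraMap (Polynomial κ) (RatFunc κ)) (∏ j ∈ Finset.univ.erase i, (Polynomial.X - Polynomial.C (c j))) *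
            ((algebraMap (Polynomial κ) (RatFunc κ)) (Polynomial.X - Polynomial.C (c i)) * f) := by
        rw [erase_prod i, map_mul]; ring
      rw [h2]
      exact (Oc (c i)).mul_mem (poly_mem_Oc _ _) this)
    refine ⟨a, ?_, ?_⟩
    · rw [ha, ← map_mul] at h1
      have h3 := congrArg Polynomial.natDegree (RatFunc.algebraMap_injective κ h1)
      by_cases ha0 : a = 0
      · rw [ha0]; simp
      · rw [Polynomial.natDegree_mul ha0 (pow_ne_zero _ (qq_monic c).ne_zero),
          (qq_monic c).natDegree_pow, qq_natDegree] at h3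
        have h4 : (qq c * p).natDegree ≤ Fintype.card I + N * Fintype.card I := by
          refine Polynomial.natDegree_mul_le.trans ?_
          rw [qq_natDegree]; omega
        omega
    · rw [haev, haev, ← ha]
  res i := resc (c i)
  res_winv i := by
    rw [resc_eq (p := Polynomial.X - Polynomial.C (c i)) (q := 1) _ (by simp) (by simp)]
    simp
  res_zero i x hx := by
    obtain ⟨p, q, hq, e⟩ := x.2
    rw [resc_eq x hq e, div_eq_zero_iff] at hx
    have h1 := hx.resolve_right hq
    obtain ⟨p', hp'⟩ := Polynomial.dvd_iff_isRoot.2 h1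
    refine ⟨p', q, hq, ?_⟩
    rw [mul_assoc, e, hp', map_mul, ← mul_assoc, inv_mul_cancel₀, one_mul]
    exact aa_ne (Polynomial.X_sub_C_ne_zero _)
  res_fin i x hx := by
    have hnum : x.num ≠ 0 := RatFunc.num_ne_zero hx
    refine ⟨x.num.natDegree + 1, ?_⟩
    rintro ⟨p, q, hq, e⟩
    have hden : (algebraMap (Polynomial κ) (RatFunc κ)) x.denom ≠ 0 := aa_ne x.denom_ne_zero
    have h0 : (algebraMap (Polynomial κ) (RatFunc κ)) (Polynomial.X - Polynomial.C (c i)) ≠ 0 := aa_ne (Polynomial.X_sub_C_ne_zero _)
    have hx' := RatFunc.num_div_denom x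
    have h1 : (algebraMap (Polynomial κ) (RatFunc κ)) (x.num * q) = (algebraMap (Polynomial κ) (RatFunc κ)) (p * x.denom * (Polynomial.X - Polynomial.C (c i)) ^
        (x.num.natDegree + 1)) := by
      rw [map_mul, map_mul, map_mul, map_pow, ← e]
      have h2 : (algebraMap (Polynomial κ) (RatFunc κ)) x.num = x * (algebraMap (Polynomial κ) (RatFunc κ)) x.denom := by
        rw [← div_eq_iff hden]; exact hx'
      rw [h2]
      rw [inv_pow]
      field_simp
    have h2 := RatFunc.algebraMap_injective κ h1
    have h3 : (Polynomial.X - Polynomial.C (c i)) ^ (x.num.natDegree + 1) ∣ x.num * q :=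
      ⟨p * x.denom, by rw [h2, mul_comm]⟩
    have hcop : IsCoprime ((Polynomial.X - Polynomial.C (c i)) ^ (x.num.natDegree + 1)) q := by
      apply IsCoprime.pow_left
      rw [(Polynomial.irreducible_X_sub_C (c i)).coprime_iff_not_dvd]
      intro h
      exact hq (Polynomial.dvd_iff_isRoot.1 h)
    have h4 := hcop.dvd_of_dvd_mul_right h3
    have h5 := Polynomial.natDegree_le_of_dvd h4 hnum
    rw [Polynomial.natDegree_pow, Polynomial.natDegree_X_sub_C, mul_one] at h5
    omega

end RP

end H33
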