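import Pool.Agent.H33R2.FieldB
import Pool.Agent.H33R2.RatPatch

set_option autoImplicit false
set_option linter.unusedSectionVars false

open Finset PowerSeries

namespace H33

section lmap

variable {R Λ : Type} [Field R] [Field Λ] [Algebra R⟦X⟧ Λ] [IsFractionRing R⟦X⟧ Λ]

/-- every element of `Λ` is a power series divided by a power of `X` -/
theorem exists_powX (z : Λ) : ∃ (N : ℕ) (p : R⟦X⟧),
    z * algebraMap R⟦X⟧ Λ X ^ N = algebraMap R⟦X⟧ Λ p := by
  obtain ⟨a, b, hb, rfl⟩ := IsFractionRing.div_surjective (A := R⟦X⟧) z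
  have hb0 : b ≠ 0 := nonZeroDivisors.ne_zero hb
  have h1 : X ^ b.order.toNat * divXPowOrder b = b := X_pow_order_mul_divXPowOrder
  have h2 := Inv_divided_by_X_pow_order_rightInv hb0
  refine ⟨b.order.toNat, a * Inv_divided_by_X_pow_order hb0, ?_⟩
  have hb' : algebraMap R⟦X⟧ Λ b ≠ 0 := by
    intro h; exact hb0 ((map_eq_zero_iff _ (IsFractionRing.injective R⟦X⟧ Λ)).1 h)
  rw [div_mul_eq_mul_div, div_eq_iff hb', ← map_pow, ← map_mul, ← map_mul]
  congr 1
  calc a * X ^ b.order.toNat = a * X ^ b.order.toNat * (divXPowOrder b *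
        Inv_divided_by_X_pow_order hb0) := by rw [h2, mul_one]
    _ = a * Inv_divided_by_X_pow_order hb0 * (X ^ b.order.toNat * divXPowOrder b) := by ring
    _ = _ := by rw [h1]

/-- the ring hom of `Λ` induced by a ring hom of `R` -/
noncomputable def lmap (φ : R →+* R) : Λ →+* Λ :=
  IsFractionRing.map (A := R⟦X⟧) (B := R⟦X⟧) (K := Λ) (L := Λ)
    (PowerSeries.map_injective φ φ.injective)

theorem lmap_algebraMap (φ : R →+* R) (x : R⟦X⟧) :
    lmap (Λ := Λ) φ (algebraMap R⟦X⟧ Λ x) = algebraMap R⟦X⟧ Λ (PowerSeries.map φ x) :=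
  IsLocalization.map_eq (M := nonZeroDivisors R⟦X⟧) (T := nonZeroDivisors R⟦X⟧) (Q := Λ)
    (nonZeroDivisors_le_comap_nonZeroDivisors_of_injective _
      (PowerSeries.map_injective φ φ.injective)) x

theorem lam_hom_ext {B : Type} [Semiring B] {f g : Λ →+* B} 
    (h : ∀ x : R⟦X⟧, f (algebraMap R⟦X⟧ Λ x) = g (algebraMap R⟦X⟧ Λ x)) : f = g := by
  refine IsLocalization.ringHom_ext (nonZeroDivisors R⟦X⟧) ?_
  ext x
  exact h x

theorem lmap_comp (φ ψ : R →+* R) : (lmap (Λ := Λ) φ).comp (lmap ψ) = lmap (φ.comp ψ) := by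
  apply lam_hom_ext (R := R)
  intro x
  rw [RingHom.comp_apply, lmap_algebraMap, lmap_algebraMap, lmap_algebraMap, PowerSeries.map_comp]
  rfl

theorem lmap_id : lmap (Λ := Λ) (RingHom.id R) = RingHom.id Λ := by
  apply lam_hom_ext (R := R)
  intro x
  rw [lmap_algebraMap, PowerSeries.map_id]
  rfl

theorem lmap_fixed {φ : R →+* R} {z : Λ} (hz : lmap φ z = z) {N : ℕ} {p : R⟦X⟧}
    (hp : z * algebraMap R⟦X⟧ Λ X ^ N = algebraMap R⟦X⟧ Λ p) (n : ℕ) :
    φ (coeff n p) = coeff n p := by
  have h1 := congrArg (lmap (Λ := Λ) φ) hp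
  rw [map_mul, map_pow, hz, lmap_algebraMap, lmap_algebraMap, PowerSeries.map_X, hp] at h1
  have h2 := IsFractionRing.injective R⟦X⟧ Λ h1
  have h3 := congrArg (coeff n) h2
  rw [PowerSeries.coeff_map] at h3
  exact h3.symm

variable {κ : Type} [Field κ] [CharZero κ] [CharZero R] [Algebra κ R] [Algebra κ Λ]
  [IsScalarTower κ R⟦X⟧ Λ]

theorem mem_Fr_bot_of {z : Λ} {N : ℕ} {p : R⟦X⟧}
    (hp : z * algebraMap R⟦X⟧ Λ X ^ N = algebraMap R⟦X⟧ Λ p)
    (h : ∀ n, coeff n p ∈ (⊥ : Subalgebra κ R)) : z ∈ Fr Λ (cs (⊥ : Subalgebra κ R)) := by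
  have hX : algebraMap R⟦X⟧ Λ X ≠ 0 := by
    intro h; exact X_ne_zero ((map_eq_zero_iff _ (IsFractionRing.injective R⟦X⟧ Λ)).1 h)
  have h1 : z = algebraMap R⟦X⟧ Λ p / algebraMap R⟦X⟧ Λ X ^ N := by
    rw [← hp]; field_simp
  rw [h1]
  have : FaithfulSMul R⟦X⟧ Λ := inferInstance
  exact div_mem (mem_Fr_of_mem (S := cs (⊥ : Subalgebra κ R)) h)
    (pow_mem (mem_Fr_of_mem (S := cs (⊥ : Subalgebra κ R)) X_mem_cs) _)

/-- `lmap` of a `κ`-linear map fixes `κ((s))` -/
theorem lmap_fix_bot {φ : R →+* R} (hφ : ∀ z : κ, φ (algebraMap κ R z) = algebraMap κ R z)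
    {z : Λ} (hz : z ∈ Fr Λ (cs (⊥ : Subalgebra κ R))) : lmap φ z = z := by
  have hcs : ∀ x ∈ cs (⊥ : Subalgebra κ R), PowerSeries.map φ x = x := by
    intro x hx
    ext n
    rw [PowerSeries.coeff_map]
    obtain ⟨y, hy⟩ := Algebra.mem_bot.1 (hx n)
    rw [← hy, hφ]
  have hk : ∀ a : κ, lmap (Λ := Λ) φ (algebraMap κ Λ a) = algebraMap κ Λ a := by
    intro a
    rw [IsScalarTower.algebraMap_apply κ R⟦X⟧ Λ, lmap_algebraMap, hcs _ (Subalgebra.algebraMap_mem _ a)]
  induction hz using IntermediateField.adjoin_induction with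
  | mem x hx =>
    obtain ⟨y, hy, rfl⟩ := hx
    rw [lmap_algebraMap, hcs y hy]
  | algebraMap x => exact hk x
  | add x y _ _ hx hy => rw [map_add, hx, hy]
  | inv x _ hx => rw [map_inv₀, hx]
  | mul x y _ _ hx hy => rw [map_mul, hx, hy]

end lmap

section translation

variable {κ : Type} [Field κ] [CharZero κ]


theorem poly_const {v : Polynomial κ} {d : κ} (hd : d ≠ 0)
    (h : v.comp (Polynomial.X + Polynomial.C d) = v) : v = Polynomial.C (v.eval 0) := by
  have h1 : ∀ n : ℕ, v.eval (n * d) = v.eval 0 := by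
    intro n
    induction n with
    | zero => simp
    | succ n ih =>
      rw [← ih]
      conv_rhs => rw [← h]
      rw [Polynomial.eval_comp]
      congr 1
      simp only [Polynomial.eval_add, Polynomial.eval_X, Polynomial.eval_C]
      push_cast; ring
  apply Polynomial.eq_of_infinite_eval_eq
  refine Set.Infinite.mono ?_ (Set.infinite_range_of_injective (f := fun n : ℕ => (n : κ) * d) ?_)
  · rintro _ ⟨n, rfl⟩
    show v.eval _ = (Polynomial.C (v.eval 0)).eval _
    rw [h1, Polynomial.eval_C]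
  · intro m n hmn
    exact_mod_cast mul_right_cancel₀ hd hmn

/-- translation of rational functions -/
noncomputable def trans (d : κ) : RatFunc κ →+* RatFunc κ :=
  RatFunc.mapRingHom (Polynomial.algEquivAevalXAddC d : Polynomial κ ≃ₐ[κ] Polynomial κ)
    (by
      intro x hx
      rw [Submonoid.mem_comap]
      exact mem_nonZeroDivisors_of_ne_zero (fun h0 => nonZeroDivisors.ne_zero hx
        ((map_eq_zero_iff _ (Polynomial.algEquivAevalXAddC d).injective).1 h0)))

theorem trans_div (d : κ) (p q : Polynomial κ) : trans d ((algebraMap (Polynomial κ) (RatFunc κ)) p / (algebraMap (Polynomial κ) (RatFunc κ)) q) =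
    (algebraMap (Polynomial κ) (RatFunc κ)) (p.comp (Polynomial.X + Polynomial.C d)) / (algebraMap (Polynomial κ) (RatFunc κ)) (q.comp (Polynomial.X + Polynomial.C d)) := by
  rw [trans, RatFunc.coe_mapRingHom_eq_coe_map, RatFunc.map_apply_div]
  rfl

theorem trans_poly (d : κ) (p : Polynomial κ) : trans d ((algebraMap (Polynomial κ) (RatFunc κ)) p) =
    (algebraMap (Polynomial κ) (RatFunc κ)) (p.comp (Polynomial.X + Polynomial.C d)) := by
  have := trans_div d p 1
  simpa using this

theorem trans_const (d : κ) (z : κ) : trans d (algebraMap κ (RatFunc κ) z) =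
    algebraMap κ (RatFunc κ) z := by
  rw [← RP.aa_C, trans_poly, Polynomial.C_comp]

theorem trans_trans (d e : κ) (f : RatFunc κ) : trans d (trans e f) = trans (d + e) f := by
  conv_lhs => rw [← RatFunc.num_div_denom f]
  conv_rhs => rw [← RatFunc.num_div_denom f]
  rw [trans_div, trans_div, trans_div, Polynomial.comp_assoc, Polynomial.comp_assoc]
  have : (Polynomial.X + Polynomial.C e : Polynomial κ).comp (Polynomial.X + Polynomial.C d) =
      Polynomial.X + Polynomial.C (d + e) := by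
    simp only [Polynomial.add_comp, Polynomial.X_comp, Polynomial.C_comp, map_add]
    ring
  rw [this]

theorem trans_zero (f : RatFunc κ) : trans (0 : κ) f = f := by
  conv_lhs => rw [← RatFunc.num_div_denom f]
  rw [trans_div]
  simp only [map_zero, add_zero, Polynomial.comp_X]
  exact RatFunc.num_div_denom f

theorem trans_fixed {d : κ} (hd : d ≠ 0) {f : RatFunc κ} (h : trans d f = f) :
    f ∈ (⊥ : Subalgebra κ (RatFunc κ)) := by
  have hX : ∀ p : Polynomial κ, (p.comp (Polynomial.X + Polynomial.C d)).natDegree = p.natDegree := by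
    intro p
    rw [Polynomial.natDegree_comp, Polynomial.natDegree_X_add_C, mul_one]
  have hf := RatFunc.num_div_denom f
  have hden0 : f.denom ≠ 0 := f.denom_ne_zero
  have hden1 : f.denom.comp (Polynomial.X + Polynomial.C d) ≠ 0 := by
    intro h0
    exact hden0 (Polynomial.comp_X_add_C_eq_zero_iff.1 h0)
  have h1 : (algebraMap (Polynomial κ) (RatFunc κ)) (f.num.comp (Polynomial.X + Polynomial.C d)) /
      (algebraMap (Polynomial κ) (RatFunc κ)) (f.denom.comp (Polynomial.X + Polynomial.C d)) = (algebraMap (Polynomial κ) (RatFunc κ)) f.num / (algebraMap (Polynomial κ) (RatFunc κ)) f.denom := by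
    rw [← trans_div, hf, h]
  rw [div_eq_div_iff (RP.aa_ne hden1) (RP.aa_ne hden0), ← map_mul, ← map_mul] at h1
  have h2 := RatFunc.algebraMap_injective κ h1
  have h3 : f.denom ∣ f.denom.comp (Polynomial.X + Polynomial.C d) := by
    have : f.denom ∣ f.num * f.denom.comp (Polynomial.X + Polynomial.C d) :=
      ⟨_, by rw [← h2, mul_comm]⟩
    exact (RatFunc.isCoprime_num_denom f).symm.dvd_of_dvd_mul_left this
  have h4 : f.denom.comp (Polynomial.X + Polynomial.C d) = f.denom := by
    refine Polynomial.eq_of_monic_of_dvd_of_natDegree_le (RatFunc.monic_denom f) ?_ h3 (hX _).le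
    exact (RatFunc.monic_denom f).comp_X_add_C d
  have h5 : f.num.comp (Polynomial.X + Polynomial.C d) = f.num := by
    rw [h4] at h2
    exact mul_right_cancel₀ hden0 h2
  have h6 := poly_const hd h4
  have h7 := poly_const hd h5
  rw [← hf, h6, h7, RP.aa_C, RP.aa_C]
  rw [← map_div₀]
  exact Subalgebra.algebraMap_mem _ _

variable {Λ : Type} [Field Λ] [Algebra (RatFunc κ)⟦X⟧ Λ] [IsFractionRing (RatFunc κ)⟦X⟧ Λ]
  [Algebra κ Λ] [IsScalarTower κ (RatFunc κ)⟦X⟧ Λ]

/-- `κ((s))` is algebraically closed in `κ(t)((s))` -/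
theorem alg_closed_bot {z : Λ}
    (hz : IsAlgebraic (Fr Λ (cs (⊥ : Subalgebra κ (RatFunc κ)))) z) :
    z ∈ Fr Λ (cs (⊥ : Subalgebra κ (RatFunc κ))) := by
  classical
  obtain ⟨m, hm0, hm⟩ := hz
  -- translations permute the roots of m
  have hroot : ∀ d : κ, lmap (Λ := Λ) (trans d) z ∈
      (m.map (algebraMap (Fr Λ (cs (⊥ : Subalgebra κ (RatFunc κ)))) Λ)).roots.toFinset := by
    intro d
    rw [Multiset.mem_toFinset, Polynomial.mem_roots', Polynomial.IsRoot.def, Polynomial.eval_map]
    refine ⟨Polynomial.map_ne_zero hm0, ?_⟩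
    have h1 := congrArg (lmap (Λ := Λ) (trans d)) hm
    rw [map_zero, Polynomial.aeval_def, Polynomial.hom_eval₂] at h1
    rw [← h1]
    congr 1
    ext x : 1
    exact (lmap_fix_bot (trans_const d) x.2).symm
  have hninj : ¬ Function.Injective (fun d : κ => lmap (Λ := Λ) (trans d) z) := by
    intro hinj
    have hfin : Set.Finite (Set.range (fun d : κ => lmap (Λ := Λ) (trans d) z)) :=
      Set.Finite.subset (Finset.finite_toSet _) (by
        rintro _ ⟨d, rfl⟩
        exact hroot d)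
    exact (Set.infinite_range_of_injective hinj) hfin
  rw [Function.not_injective_iff] at hninj
  obtain ⟨a, b, hab, hne⟩ := hninj
  have h2 : lmap (Λ := Λ) (trans (-b + a)) z = z := by
    have h3 : (trans (-b + a) : RatFunc κ →+* RatFunc κ) = (trans (-b)).comp (trans a) := by
      ext f; rw [RingHom.comp_apply, trans_trans]
    have h4 : (RingHom.id (RatFunc κ)) = (trans (-b)).comp (trans b) := by
      ext f; rw [RingHom.comp_apply, trans_trans, neg_add_cancel, trans_zero]; rfl
    rw [h3, ← lmap_comp, RingHom.comp_apply]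
    rw [hab, ← RingHom.comp_apply, lmap_comp, ← h4, lmap_id]
    rfl
  obtain ⟨N, p, hp⟩ := exists_powX (R := RatFunc κ) z
  refine mem_Fr_bot_of hp fun n => ?_
  refine trans_fixed (d := -b + a) ?_ (lmap_fixed h2 hp n)
  intro h0
  apply hne
  linear_combination h0

end translation

end H33
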