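import Pool.Agent.H33R2.Fourier

set_option autoImplicit false

open Finset PowerSeries

namespace H33

/-- power series with coefficients in a subalgebra -/
def cs {κ R : Type} [CommRing κ] [CommRing R] [Algebra κ R] (S : Subalgebra κ R) :
    Subalgebra κ R⟦X⟧ where
  carrier := {f | ∀ n, coeff n f ∈ S}
  mul_mem' := by
    intro a b ha hb n
    rw [coeff_mul]
    exact S.sum_mem fun p _ => S.mul_mem (ha _) (hb _)
  one_mem' := by
    intro n
    rw [coeff_one]
    split_ifs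
    · exact S.one_mem
    · exact S.zero_mem
  add_mem' := by
    intro a b ha hb n
    rw [map_add]
    exact S.add_mem (ha n) (hb n)
  zero_mem' := by
    intro n
    simp
  algebraMap_mem' := by
    intro r n
    rw [PowerSeries.algebraMap_apply, coeff_C]
    split_ifs
    · exact S.algebraMap_mem r
    · exact S.zero_mem

section cs

variable {κ R : Type} [Field κ] [Field R] [Algebra κ R] {S : Subalgebra κ R}

theorem mem_cs {f : R⟦X⟧} : f ∈ cs S ↔ ∀ n, coeff n f ∈ S := Iff.rfl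

theorem C_mem_cs {r : R} (hr : r ∈ S) : C r ∈ cs S := by
  intro n
  rw [coeff_C]
  split_ifs
  · exact hr
  · exact S.zero_mem

theorem X_mem_cs : (X : R⟦X⟧) ∈ cs S := by
  intro n
  rw [coeff_X]
  split_ifs
  · exact S.one_mem
  · exact S.zero_mem

theorem inv_mem_cs {f : R⟦X⟧} (hf : f ∈ cs S) (h1 : constantCoeff f = 1) : f⁻¹ ∈ cs S := by
  intro n
  induction n using Nat.strong_induction_on with
  | _ n ih =>
    rw [PowerSeries.coeff_inv, h1]
    split_ifs with h
    · simpa using S.one_mem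
    · refine S.mul_mem (S.neg_mem (by simpa using S.one_mem)) (S.sum_mem fun p _ => ?_)
      split_ifs with h2
      · exact S.mul_mem (hf _) (ih _ h2)
      · exact S.zero_mem

end cs

section yy

variable {R : Type} [Field R] [CharZero R]

/-- `(1 - w X) ^ q` -/
noncomputable def yy (w : R) (q : ℚ) : R⟦X⟧ := rescale (-w) (binomialSeries R q)

theorem yy_add (w : R) (p q : ℚ) : yy w (p + q) = yy w p * yy w q := by
  simp only [yy, binomialSeries_add, map_mul]

theorem yy_zero (w : R) : yy w 0 = 1 := by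
  simp only [yy, binomialSeries_zero, map_one]

theorem yy_one (w : R) : yy w 1 = 1 - C w * X := by
  have h : binomialSeries R (1 : ℚ) = 1 + X := by
    have := binomialSeries_nat (R := ℚ) (A := R) 1
    simpa using this
  rw [yy, h, map_add, map_one, rescale_X]
  simp [sub_eq_add_neg]

theorem yy_const (w : R) (q : ℚ) : constantCoeff (yy w q) = 1 := by
  rw [yy, ← coeff_zero_eq_constantCoeff_apply, coeff_rescale]
  simp

theorem yy_mem {κ : Type} [Field κ] [Algebra κ R] {S : Subalgebra κ R} {w : R}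
    (hw : w ∈ S) (q : ℚ) : yy w q ∈ cs S := by
  intro n
  rw [yy, coeff_rescale, binomialSeries_coeff]
  refine S.mul_mem (S.pow_mem (S.neg_mem hw) n) ?_
  haveI : CharZero κ := by
    refine charZero_of_inj_zero fun n hn => ?_
    have := congrArg (algebraMap κ R) hn
    simpa using this
  rw [Rat.smul_one_eq_cast]
  have : ((Ring.choose q n : ℚ) : R) = algebraMap κ R ((Ring.choose q n : ℚ) : κ) := by simp
  rw [this]
  exact S.algebraMap_mem _

theorem yy_ne_zero (w : R) (q : ℚ) : yy w q ≠ 0 := by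
  intro h
  have := yy_const w q
  rw [h] at this
  simp at this

theorem yy_pow (w : R) (q : ℚ) (n : ℕ) : yy w q ^ n = yy w (n * q) := by
  induction n with
  | zero => simp [yy_zero]
  | succ n ih => rw [pow_succ, ih, ← yy_add]; congr 1; push_cast; ring

end yy

/-- algebraic patching data -/
structure PatchData (κ R I : Type) [Field κ] [Field R] [Algebra κ R] where
  O : I → Subalgebra κ R
  D : Subalgebra κ R
  w : I → R
  wD : ∀ i, w i ∈ D
  wO : ∀ i j, j ≠ i → w i ∈ O j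
  w_ne : ∀ i, w i ≠ 0
  winv : ∀ i, (w i)⁻¹ ∈ O i
  split : ∀ i, ∀ f ∈ D, ∃ p ∈ D, (∀ j, j ≠ i → p ∈ O j) ∧ f - p ∈ O i
  const : ∀ f ∈ D, (∀ i, f ∈ O i) → f ∈ (⊥ : Subalgebra κ R)
  t : R
  tO : ∀ i, t ∈ O i
  t_trans : Transcendental κ t
  q : Polynomial κ
  q_ne : q ≠ 0
  deg : ℕ
  memE : ∀ f ∈ D, (∀ i, (w i)⁻¹ * f ∈ O i) →
    ∃ p : Polynomial κ, p.natDegree ≤ deg ∧ Polynomial.aeval t q * f = Polynomial.aeval t p
  res : ∀ i, O i →+* κ
  res_winv : ∀ i, res i ⟨(w i)⁻¹, winv i⟩ = 0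
  res_zero : ∀ i, ∀ x : O i, res i x = 0 → w i * (x : R) ∈ O i
  res_fin : ∀ i, ∀ x : R, x ≠ 0 → ∃ N, (w i) ^ N * x ∉ O i

/-- the group-theoretic data -/
structure GrpData (κ I G : Type) [Field κ] [Group G] where
  g : I → G
  n : I → ℕ
  ζ : I → κ
  gn : ∀ i, g i ^ n i = 1
  prim : ∀ i, IsPrimitiveRoot (ζ i) (n i)
  npos : ∀ i, n i ≠ 0

section rec

theorem exists_fix {G R : Type} [CommRing R] (Φ : ℕ → (G → R⟦X⟧) → (G → R))
    (hΦ : ∀ r a a', (∀ θ, ∀ m < r, coeff m (a θ) = coeff m (a' θ)) → Φ r a = Φ r a') :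
    ∃ c : G → R⟦X⟧, ∀ r θ, coeff r (c θ) = Φ r c θ := by
  classical
  let F : (r : ℕ) → ((m : ℕ) → m < r → (G → R)) → (G → R) := fun r prev =>
    Φ r (fun θ => PowerSeries.mk fun m => if h : m < r then prev m h θ else 0)
  let s : ℕ → (G → R) := fun r => WellFounded.fix Nat.lt_wfRel.wf F r
  have hs : ∀ r, s r = F r (fun m _ => s m) := fun r => WellFounded.fix_eq Nat.lt_wfRel.wf F r
  refine ⟨fun θ => PowerSeries.mk fun m => s m θ, fun r θ => ?_⟩
  rw [coeff_mk, hs r]
  have := hΦ r (fun θ => PowerSeries.mk fun m => if h : m < r then s m θ else 0)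
    (fun θ => PowerSeries.mk fun m => s m θ) (by
      intro θ m hm
      simp [hm])
  exact congrFun this θ

end rec

section main

variable {κ R I G : Type} [Field κ] [CharZero κ] [Field R] [CharZero R] [Algebra κ R] [Group G]
  (P : PatchData κ R I) (Q : GrpData κ I G)

/-- `T_i⁻¹` -/
noncomputable def Tinv (i : I) (a : G → R⟦X⟧) : G → R⟦X⟧ :=
  wsum (Q.g i) (Q.n i) (Q.ζ i) (fun m => yy (P.w i) (-(m / Q.n i : ℚ))) a

/-- `T_i` -/
noncomputable def TT (i : I) (a : G → R⟦X⟧) : G → R⟦X⟧ :=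
  wsum (Q.g i) (Q.n i) (Q.ζ i) (fun m => yy (P.w i) (m / Q.n i : ℚ)) a

theorem GrpData.ncast (Q : GrpData κ I G) (i : I) : (Q.n i : κ) ≠ 0 := by
  exact_mod_cast Q.npos i

theorem TT_Tinv (i : I) (a : G → R⟦X⟧) (θ : G) : TT P Q i (Tinv P Q i a) θ = a θ := by
  rw [TT, Tinv, wsum_wsum (Q.gn i) (Q.prim i) (Q.ncast i)]
  refine wsum_one (Q.prim i) (Q.ncast i) _ (fun m _ => ?_) a θ
  rw [← yy_add, add_neg_cancel, yy_zero]

theorem wsum_congr {A : Type} [CommRing A] [Algebra κ A] {g : G} {n : ℕ} {ζ : κ} {u v : ℕ → A}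
    {a b : G → A} (h : ∀ m < n, u m = v m) (hab : ∀ θ, a θ = b θ) (θ : G) :
    wsum g n ζ u a θ = wsum g n ζ v b θ := by
  have : a = b := funext hab
  subst this
  exact Finset.sum_congr rfl fun m hm => by rw [h m (mem_range.1 hm)]

/-- the remainder `a - T_i⁻¹ a` -/
theorem sub_Tinv (i : I) (a : G → R⟦X⟧) (θ : G) :
    a θ - Tinv P Q i a θ =
      wsum (Q.g i) (Q.n i) (Q.ζ i) (fun m => 1 - yy (P.w i) (-(m / Q.n i : ℚ))) a θ := by
  conv_lhs => rw [← sum_proj (g := Q.g i) (Q.prim i) (Q.ncast i) a θ]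
  simp only [Tinv, wsum]
  rw [← Finset.sum_sub_distrib]
  exact Finset.sum_congr rfl fun m _ => by ring

theorem dvd_proj {g : G} {n : ℕ} {ζ : κ} {r : ℕ} {a : G → R⟦X⟧} (h : ∀ θ, X ^ r ∣ a θ) (m : ℕ)
    (θ : G) : X ^ r ∣ proj g n ζ m a θ := by
  refine Dvd.dvd.mul_left (Finset.dvd_sum fun j _ => Dvd.dvd.mul_left (h _) _) _

theorem sub_Tinv_dvd (i : I) {r : ℕ} {a : G → R⟦X⟧} (h : ∀ θ, X ^ r ∣ a θ) (θ : G) :
    X ^ (r + 1) ∣ a θ - Tinv P Q i a θ := by
  rw [sub_Tinv]
  refine Finset.dvd_sum fun m _ => ?_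
  rw [pow_succ, mul_comm]
  refine mul_dvd_mul ?_ (dvd_proj h m θ)
  rw [X_dvd_iff, map_sub, map_one, yy_const, sub_self]

theorem Tinv_sub (i : I) (a b : G → R⟦X⟧) (θ : G) :
    Tinv P Q i (fun θ => a θ - b θ) θ = Tinv P Q i a θ - Tinv P Q i b θ := by
  have h : (fun θ => a θ - b θ) = a + (fun θ => (-1 : R⟦X⟧) * b θ) := by
    funext θ; simp [sub_eq_add_neg]
  rw [h, Tinv, wsum_add, wsum_smul]
  simp only [Tinv]
  ring

theorem coeff_sub_Tinv_congr (i : I) {r : ℕ} {a b : G → R⟦X⟧}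
    (h : ∀ θ, ∀ m < r, coeff m (a θ) = coeff m (b θ)) (θ : G) :
    coeff r (a θ - Tinv P Q i a θ) = coeff r (b θ - Tinv P Q i b θ) := by
  have h1 : ∀ θ, X ^ r ∣ (fun θ => a θ - b θ) θ := by
    intro θ
    rw [X_pow_dvd_iff]
    intro m hm
    simp [h θ m hm]
  have h2 := sub_Tinv_dvd P Q i h1 θ
  rw [X_pow_dvd_iff] at h2
  have h3 := h2 r (Nat.lt_succ_self r)
  rw [Tinv_sub] at h3
  rw [← sub_eq_zero, ← map_sub, ← h3]
  congr 1
  ring

theorem coeff_zero_sub_Tinv (i : I) (a : G → R⟦X⟧) (θ : G) :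
    coeff 0 (a θ - Tinv P Q i a θ) = 0 := by
  have h2 := sub_Tinv_dvd P Q i (r := 0) (a := a) (by intro θ; simp) θ
  rw [X_pow_dvd_iff] at h2
  exact h2 0 (by norm_num)

theorem Tinv_mem_D {a : G → R⟦X⟧} (ha : ∀ θ, a θ ∈ cs P.D) (i : I) (θ : G) :
    Tinv P Q i a θ ∈ cs P.D :=
  wsum_mem _ (fun _ => yy_mem (P.wD i) _) ha θ

theorem coeff_sub_Tinv_mem {r : ℕ} {a : G → R⟦X⟧} (ha : ∀ θ, ∀ m < r, coeff m (a θ) ∈ P.D)
    (i : I) (θ : G) : coeff r (a θ - Tinv P Q i a θ) ∈ P.D := by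
  classical
  let b : G → R⟦X⟧ := fun θ => PowerSeries.mk fun m => if m < r then coeff m (a θ) else 0
  have hb : ∀ θ, b θ ∈ cs P.D := by
    intro θ n
    simp only [b, coeff_mk]
    split_ifs with h
    · exact ha θ n h
    · exact P.D.zero_mem
  rw [coeff_sub_Tinv_congr P Q i (b := b) (by
    intro θ m hm
    simp [b, hm]) θ]
  exact (cs P.D).sub_mem (hb θ) (Tinv_mem_D P Q hb i θ) r

/-- the fundamental solution -/
theorem exists_c [Fintype I] [DecidableEq G] : ∃ c : G → R⟦X⟧, (∀ θ, c θ ∈ cs P.D) ∧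
    (∀ θ, constantCoeff (c θ) = if θ = 1 then 1 else 0) ∧
    ∀ i θ, Tinv P Q i c θ ∈ cs (P.O i) := by
  classical
  choose! π hπD hπO hπ using P.split
  obtain ⟨c, hc⟩ := exists_fix (G := G) (R := R)
    (fun r a θ => if r = 0 then (if θ = 1 then 1 else 0) else
      ∑ i, π i (coeff r (a θ - Tinv P Q i a θ))) (by
      intro r a a' h
      funext θ
      by_cases hr : r = 0
      · simp [hr]
      · simp only [hr, if_false]
        exact Finset.sum_congr rfl fun i _ => by rw [coeff_sub_Tinv_congr P Q i h θ])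
  have hcD : ∀ r θ, coeff r (c θ) ∈ P.D := by
    intro r
    induction r using Nat.strong_induction_on with
    | _ r ih =>
      intro θ
      rw [hc r θ]
      by_cases hr : r = 0
      · simp only [hr, if_true]
        split_ifs
        · exact P.D.one_mem
        · exact P.D.zero_mem
      · simp only [hr, if_false]
        exact P.D.sum_mem fun i _ => hπD i _ (coeff_sub_Tinv_mem P Q (fun θ m hm => ih m hm θ) i θ)
  refine ⟨c, fun θ r => hcD r θ, fun θ => ?_, fun i θ r => ?_⟩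
  · rw [← coeff_zero_eq_constantCoeff_apply, hc 0 θ]
    simp
  · have h1 : coeff r (Tinv P Q i c θ) = coeff r (c θ) - coeff r (c θ - Tinv P Q i c θ) := by
      rw [map_sub]; ring
    rw [h1]
    by_cases hr : r = 0
    · subst hr
      rw [coeff_zero_sub_Tinv, hc 0 θ, sub_zero]
      simp only [if_true]
      split_ifs
      · exact (P.O i).one_mem
      · exact (P.O i).zero_mem
    · have h2 := hc r θ
      simp only [hr, if_false] at h2
      rw [← Finset.add_sum_erase Finset.univ _ (Finset.mem_univ i)] at h2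
      have hmem : ∀ j, coeff r (c θ - Tinv P Q j c θ) ∈ P.D := fun j =>
        coeff_sub_Tinv_mem P Q (fun θ m _ => hcD m θ) j θ
      have h3 : coeff r (c θ) - coeff r (c θ - Tinv P Q i c θ) =
          ∑ j ∈ Finset.univ.erase i, π j (coeff r (c θ - Tinv P Q j c θ)) -
            (coeff r (c θ - Tinv P Q i c θ) - π i (coeff r (c θ - Tinv P Q i c θ))) := by
        rw [h2]; ring
      rw [h3]
      refine (P.O i).sub_mem ((P.O i).sum_mem fun j hj => ?_) (hπ i _ (hmem i))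
      exact hπO j _ (hmem j) i (Finset.ne_of_mem_erase hj).symm

end main

end H33
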