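import Pool.Agent.H33R2.Patch

set_option autoImplicit false
set_option linter.unusedSectionVars false

open Finset PowerSeries

namespace H33

section matrix

variable {κ R G : Type} [Field κ] [Field R] [Algebra κ R] [Fintype G] [DecidableEq G]

theorem det_const (M : Matrix G G R⟦X⟧)
    (h1 : ∀ i j, constantCoeff (M i j) = if i = j then 1 else 0) :
    constantCoeff M.det = 1 := by
  rw [RingHom.map_det]
  have : (constantCoeff (R := R)).mapMatrix M = 1 := by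
    ext i j
    simp [h1, Matrix.one_apply]
  rw [this, Matrix.det_one]

theorem det_mem {S : Subalgebra κ R} (M : Matrix G G R⟦X⟧) (hM : ∀ i j, M i j ∈ cs S) :
    M.det ∈ cs S := by
  let M' : Matrix G G (cs S) := fun i j => ⟨M i j, hM i j⟩
  have : M = (cs S).val.toRingHom.mapMatrix M' := by ext i j; rfl
  rw [this, ← RingHom.map_det]
  exact (M'.det).2

theorem adj_mem {S : Subalgebra κ R} (M : Matrix G G R⟦X⟧) (hM : ∀ i j, M i j ∈ cs S) (i j : G) :
    M.adjugate i j ∈ cs S := by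
  let M' : Matrix G G (cs S) := fun i j => ⟨M i j, hM i j⟩
  have : M = (cs S).val.toRingHom.mapMatrix M' := by ext i j; rfl
  rw [this, ← RingHom.map_adjugate]
  exact (M'.adjugate i j).2

theorem mulVec_mem {S : Subalgebra κ R} (M : Matrix G G R⟦X⟧) (hM : ∀ i j, M i j ∈ cs S)
    (h1 : ∀ i j, constantCoeff (M i j) = if i = j then 1 else 0) (v : G → R⟦X⟧)
    (hv : ∀ i, M.mulVec v i ∈ cs S) (i : G) : v i ∈ cs S := by
  have h2 : M.adjugate.mulVec (M.mulVec v) = M.det • v := by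
    rw [Matrix.mulVec_mulVec, Matrix.adjugate_mul, Matrix.smul_mulVec, Matrix.one_mulVec]
  have h3 : v i = M.det⁻¹ * (M.det • v) i := by
    rw [Pi.smul_apply, smul_eq_mul, ← mul_assoc, PowerSeries.inv_mul_cancel, one_mul]
    rw [det_const M h1]
    exact one_ne_zero
  rw [h3, ← h2]
  refine (cs S).mul_mem (inv_mem_cs (det_mem M hM) (det_const M h1)) ?_
  exact (cs S).sum_mem fun j _ => (cs S).mul_mem (adj_mem M hM i j) (hv j)

theorem exists_mulVec (M : Matrix G G R⟦X⟧)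
    (h1 : ∀ i j, constantCoeff (M i j) = if i = j then 1 else 0) (u : G → R⟦X⟧) :
    ∃ v : G → R⟦X⟧, M.mulVec v = u := by
  have hu : IsUnit M.det := by
    rw [PowerSeries.isUnit_iff_constantCoeff, det_const M h1]
    exact isUnit_one
  refine ⟨M⁻¹.mulVec u, ?_⟩
  rw [Matrix.mulVec_mulVec, Matrix.mul_nonsing_inv _ hu, Matrix.one_mulVec]

end matrix

section struct

variable {κ R I G : Type} [Field κ] [CharZero κ] [Field R] [CharZero R] [Algebra κ R] [Group G]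
  [Fintype G] [DecidableEq G] (P : PatchData κ R I) (Q : GrpData κ I G)

/-- the property characterising the module generated by the fundamental solution -/
def Good (a : G → R⟦X⟧) : Prop := (∀ θ, a θ ∈ cs P.D) ∧ ∀ i θ, Tinv P Q i a θ ∈ cs (P.O i)

variable {P Q}

theorem expand {c : G → R⟦X⟧} (hc : Good P Q c)
    (hc1 : ∀ θ, constantCoeff (c θ) = if θ = 1 then 1 else 0)
    (a : G → R⟦X⟧) (ha : ∀ θ, a θ ∈ cs P.D) : ∃ μ : G → R⟦X⟧,
      (∀ θ, a θ = ∑ χ, μ χ * c (χ⁻¹ * θ)) ∧ (∀ χ, μ χ ∈ cs P.D) ∧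
      ∀ i (e : R⟦X⟧), (∀ θ, e * Tinv P Q i a θ ∈ cs (P.O i)) → ∀ χ, e * μ χ ∈ cs (P.O i) := by
  classical
  let M : Matrix G G R⟦X⟧ := fun θ χ => c (χ⁻¹ * θ)
  have hM1 : ∀ i j, constantCoeff (M i j) = if i = j then 1 else 0 := by
    intro i j
    show constantCoeff (c (j⁻¹ * i)) = _
    rw [hc1]
    congr 1
    rw [inv_mul_eq_one]
    exact propext ⟨Eq.symm, Eq.symm⟩
  obtain ⟨μ, hμ⟩ := exists_mulVec M hM1 a
  have hμ' : ∀ θ, a θ = ∑ χ, μ χ * c (χ⁻¹ * θ) := by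
    intro θ
    rw [← hμ]
    show ∑ χ, c (χ⁻¹ * θ) * μ χ = _
    exact Finset.sum_congr rfl fun χ _ => mul_comm _ _
  refine ⟨μ, hμ', ?_, ?_⟩
  · refine mulVec_mem M (fun i j => hc.1 _) hM1 μ ?_
    rw [hμ]
    exact ha
  · intro i e he
    let N : Matrix G G R⟦X⟧ := fun θ χ => Tinv P Q i c (χ⁻¹ * θ)
    have hN1 : ∀ k j, constantCoeff (N k j) = if k = j then 1 else 0 := by
      intro k j
      have h0 := coeff_zero_sub_Tinv P Q i c (j⁻¹ * k)
      rw [map_sub, sub_eq_zero, coeff_zero_eq_constantCoeff_apply,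
        coeff_zero_eq_constantCoeff_apply] at h0
      show constantCoeff (Tinv P Q i c (j⁻¹ * k)) = _
      rw [← h0]
      exact hM1 k j
    have hTa : ∀ θ, Tinv P Q i a θ = ∑ χ, μ χ * Tinv P Q i c (χ⁻¹ * θ) := by
      intro θ
      have h1 : a = fun θ => ∑ χ, (fun θ => μ χ * (ltr χ c) θ) θ := funext hμ'
      rw [h1, Tinv, wsum_sum]
      refine Finset.sum_congr rfl fun χ _ => ?_
      rw [wsum_smul, wsum_ltr]
      rfl
    refine mulVec_mem N (fun k j => hc.2 i _) hN1 (fun χ => e * μ χ) ?_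
    intro θ
    have h2 : N.mulVec (fun χ => e * μ χ) θ = e * Tinv P Q i a θ := by
      rw [hTa θ, Finset.mul_sum]
      show ∑ χ, Tinv P Q i c (χ⁻¹ * θ) * (e * μ χ) = _
      exact Finset.sum_congr rfl fun χ _ => by ring
    rw [h2]
    exact he θ

/-- a `Good` vector is a combination of the basis with coefficients in `κ⟦X⟧` -/
theorem expand_good {c : G → R⟦X⟧} (hc : Good P Q c)
    (hc1 : ∀ θ, constantCoeff (c θ) = if θ = 1 then 1 else 0)
    {a : G → R⟦X⟧} (ha : Good P Q a) : ∃ μ : G → R⟦X⟧,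
      (∀ θ, a θ = ∑ χ, μ χ * c (χ⁻¹ * θ)) ∧ (∀ χ, μ χ ∈ cs (⊥ : Subalgebra κ R)) := by
  obtain ⟨μ, h1, h2, h3⟩ := expand hc hc1 a ha.1
  refine ⟨μ, h1, fun χ n => P.const _ (h2 χ n) fun i => ?_⟩
  have := h3 i 1 (by simpa using ha.2 i) χ n
  simpa using this

theorem prod_reg {a b : G → R⟦X⟧} (i : I) (ha : ∀ θ, Tinv P Q i a θ ∈ cs (P.O i))
    (hb : ∀ θ, Tinv P Q i b θ ∈ cs (P.O i)) (θ : G) :
    C (P.w i)⁻¹ * Tinv P Q i (fun θ => a θ * b θ) θ ∈ cs (P.O i) := by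
  have h1 : (fun θ => a θ * b θ) =
      fun θ => TT P Q i (Tinv P Q i a) θ * TT P Q i (Tinv P Q i b) θ := by
    funext θ
    rw [TT_Tinv, TT_Tinv]
  rw [h1]
  simp only [TT]
  rw [Tinv, wsum_mul_wsum (Q.gn i) (Q.prim i) (Q.ncast i), Finset.mul_sum]
  refine (cs (P.O i)).sum_mem fun l hl => ?_
  rw [Finset.mul_sum]
  refine (cs (P.O i)).sum_mem fun m hm => ?_
  rw [← mul_assoc]
  refine (cs (P.O i)).mul_mem ?_ ((cs (P.O i)).mul_mem (proj_mem _ ha l θ) (proj_mem _ hb m θ))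
  rw [← yy_add, ← yy_add]
  have hn : (Q.n i : ℚ) ≠ 0 := by exact_mod_cast Q.npos i
  have h2 : (-(((l + m) % Q.n i : ℕ) / Q.n i : ℚ) + (l / Q.n i : ℚ) + (m / Q.n i : ℚ)) =
      (((l + m) / Q.n i : ℕ) : ℚ) := by
    have h3 : ((l + m : ℕ) : ℚ) = (Q.n i : ℚ) * (((l + m) / Q.n i : ℕ) : ℚ) +
        (((l + m) % Q.n i : ℕ) : ℚ) := by exact_mod_cast (Nat.div_add_mod (l + m) (Q.n i)).symm
    push_cast at h3
    field_simp
    linarith
  rw [h2]
  have h4 : (l + m) / Q.n i = 0 ∨ (l + m) / Q.n i = 1 := by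
    have hl' := mem_range.1 hl
    have hm' := mem_range.1 hm
    have : (l + m) / Q.n i < 2 := by
      rw [Nat.div_lt_iff_lt_mul (Nat.pos_of_ne_zero (Q.npos i))]
      omega
    generalize (l + m) / Q.n i = e at this
    omega
  rcases h4 with h4 | h4
  · rw [h4, Nat.cast_zero, yy_zero, mul_one]
    exact C_mem_cs (P.winv i)
  · rw [h4, Nat.cast_one, yy_one, mul_sub, mul_one, ← mul_assoc, ← map_mul,
      inv_mul_cancel₀ (P.w_ne i), map_one, one_mul]
    exact (cs (P.O i)).sub_mem (C_mem_cs (P.winv i)) X_mem_cs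

/-- elements of `κ((X))(t)` with bounded denominators -/
def InE (P : PatchData κ R I) (μ : R⟦X⟧) : Prop :=
  ∃ p : ℕ → κ⟦X⟧, C (Polynomial.aeval P.t P.q) * μ =
    ∑ j ∈ range (P.deg + 1), PowerSeries.map (algebraMap κ R) (p j) * C (P.t ^ j)

theorem inE_of_mem {μ : R⟦X⟧} (h1 : μ ∈ cs P.D) (h2 : ∀ i, C (P.w i)⁻¹ * μ ∈ cs (P.O i)) :
    InE P μ := by
  have h3 : ∀ n, ∃ p : Polynomial κ, p.natDegree ≤ P.deg ∧
      Polynomial.aeval P.t P.q * coeff n μ = Polynomial.aeval P.t p := by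
    intro n
    refine P.memE _ (h1 n) fun i => ?_
    have := h2 i n
    rwa [coeff_C_mul] at this
  choose p hp1 hp2 using h3
  refine ⟨fun j => PowerSeries.mk fun n => (p n).coeff j, ?_⟩
  ext n
  rw [coeff_C_mul, hp2, map_sum, Polynomial.aeval_eq_sum_range' (Nat.lt_succ_of_le (hp1 n))]
  refine Finset.sum_congr rfl fun j _ => ?_
  rw [coeff_mul_C, coeff_map, coeff_mk, Algebra.smul_def]

/-- structure constants for products -/
theorem expand_mul {c : G → R⟦X⟧} (hc : Good P Q c)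
    (hc1 : ∀ θ, constantCoeff (c θ) = if θ = 1 then 1 else 0)
    {a b : G → R⟦X⟧} (ha : Good P Q a) (hb : Good P Q b) : ∃ μ : G → R⟦X⟧,
      (∀ θ, a θ * b θ = ∑ χ, μ χ * c (χ⁻¹ * θ)) ∧ (∀ χ, InE P (μ χ)) := by
  obtain ⟨μ, h1, h2, h3⟩ := expand hc hc1 (fun θ => a θ * b θ)
    (fun θ => (cs P.D).mul_mem (ha.1 θ) (hb.1 θ))
  refine ⟨μ, h1, fun χ => inE_of_mem (h2 χ) fun i => ?_⟩
  exact h3 i _ (prod_reg i (ha.2 i) (hb.2 i)) χ

theorem Good.ltr {a : G → R⟦X⟧} (ha : Good P Q a) (σ : G) : Good P Q (H33.ltr σ a) := by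
  refine ⟨fun θ => ha.1 _, fun i θ => ?_⟩
  rw [Tinv, wsum_ltr]
  exact ha.2 i _

theorem Good.one : Good P Q (fun _ => 1) := by
  refine ⟨fun θ => (cs P.D).one_mem, fun i θ => ?_⟩
  have h : IsEig (Q.g i) ((Q.ζ i) ^ 0) (fun _ : G => (1 : R⟦X⟧)) := by
    intro θ; simp
  rw [Tinv, wsum_of_eig (Q.prim i) (Q.ncast i) _ (Nat.pos_of_ne_zero (Q.npos i)) h]
  simp only [Nat.cast_zero, zero_div, neg_zero, yy_zero, one_mul]
  exact (cs (P.O i)).one_mem

end struct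

end H33
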