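import Pool.Agent.Helper737.AmpleC
import Pool.Agent.Helper737.AmpleH

set_option autoImplicit false

open Pool.Agent.Helper737.Ample

namespace H33

variable {Ω : Type} [Field Ω]

theorem t1a_adj_adj (k : Subfield Ω) (S T : Set Ω) : adj (adj k S) T = adj k (S ∪ T) := by
  simp only [adj, Subfield.closure_union, sup_assoc]

theorem t1a_acl_adj_le {k L : Subfield Ω} {S : Set Ω} (hk : k ≤ acl L) (hS : S ⊆ acl L) :
    acl (adj k S) ≤ acl L := acl_le_acl (adj_le hk hS)

theorem t1a_range_succ {r : ℕ} (x : Fin (r + 1) → Ω) :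
    Set.range x = Set.range (x ∘ Fin.castSucc) ∪ {x (Fin.last r)} := by
  ext z
  constructor
  · rintro ⟨i, rfl⟩
    refine Fin.lastCases ?_ (fun j => ?_) i
    · right; rfl
    · left; exact ⟨j, rfl⟩
  · rintro (⟨j, rfl⟩ | hz)
    · exact ⟨_, rfl⟩
    · exact ⟨Fin.last r, hz.symm⟩

theorem t1a_last {L : Subfield Ω} {r : ℕ} (x : Fin (r + 1) → Ω) (hx : AlgebraicIndependent L x) :
    x (Fin.last r) ∉ acl (adj L (Set.range (x ∘ Fin.castSucc))) := by
  have h1 := hx.transcendental_adjoin (s := Set.range Fin.castSucc) (i := Fin.last r) (by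
    rintro ⟨j, hj⟩
    exact (Fin.castSucc_lt_last j).ne hj)
  rw [← Set.range_comp] at h1
  rw [mem_acl_adj]
  exact h1

theorem t1a_inter {L F : Subfield Ω} (hF : F ≤ acl L) {r : ℕ} (x : Fin r → Ω)
    (hx : AlgebraicIndependent L x) {z : Ω} (hz : z ∈ acl L)
    (hz' : z ∈ acl (adj F (Set.range x))) : z ∈ acl F := by
  induction r with
  | zero =>
    have : adj F (Set.range x) = F := by
      rw [Set.range_eq_empty]; simp [adj]
    rwa [this] at hz'
  | succ r ih =>
    by_cases h : z ∈ acl (adj F (Set.range (x ∘ Fin.castSucc)))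
    · exact ih (x ∘ Fin.castSucc) (hx.comp _ (Fin.castSucc_injective r)) h
    · exfalso
      rw [t1a_range_succ, ← t1a_adj_adj] at hz'
      have h1 := exchange hz' h
      apply t1a_last x hx
      have h2 : acl (adj (adj F (Set.range (x ∘ Fin.castSucc))) {z}) ≤
          acl (adj L (Set.range (x ∘ Fin.castSucc))) := by
        have h3 : acl L ≤ acl (adj L (Set.range (x ∘ Fin.castSucc))) := acl_mono (le_adj _ _)
        apply t1a_acl_adj_le
        · apply adj_le (hF.trans h3)
          exact (subset_adj _ _).trans (fun y hy => le_acl _ hy)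
        · rintro y rfl
          exact h3 hz
      exact h2 h1

/-- elements of `K` whose derivative is in `K` -/
def stab (d : Derivation ℤ Ω Ω) (K : Subfield Ω) : Subfield Ω where
  carrier := {z | z ∈ K ∧ d z ∈ K}
  mul_mem' := by
    rintro a b ⟨ha, ha'⟩ ⟨hb, hb'⟩
    refine ⟨K.mul_mem ha hb, ?_⟩
    rw [Derivation.leibniz]
    exact K.add_mem (K.mul_mem ha hb') (K.mul_mem hb ha')
  one_mem' := ⟨K.one_mem, by rw [Derivation.map_one_eq_zero]; exact K.zero_mem⟩
  add_mem' := by
    rintro a b ⟨ha, ha'⟩ ⟨hb, hb'⟩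
    exact ⟨K.add_mem ha hb, by rw [map_add]; exact K.add_mem ha' hb'⟩
  zero_mem' := ⟨K.zero_mem, by rw [map_zero]; exact K.zero_mem⟩
  neg_mem' := by
    rintro a ⟨ha, ha'⟩
    exact ⟨K.neg_mem ha, by rw [map_neg]; exact K.neg_mem ha'⟩
  inv_mem' := by
    rintro a ⟨ha, ha'⟩
    refine ⟨K.inv_mem ha, ?_⟩
    rw [Derivation.leibniz_inv]
    exact K.mul_mem (K.neg_mem (K.pow_mem (K.inv_mem ha) 2)) ha'

theorem mem_stab {d : Derivation ℤ Ω Ω} {K : Subfield Ω} {z : Ω} :
    z ∈ stab d K ↔ z ∈ K ∧ d z ∈ K := Iff.rfl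

/-- the derivation -/
theorem t1a_derivation [CharZero Ω] {k L : Subfield Ω} (hk : acl k = k) (hkL : k ≤ L)
    {lam : Ω} (hlam : lam ∈ L) (hlamk : lam ∉ k) {r : ℕ} (x : Fin r → Ω)
    (hx : AlgebraicIndependent L x) :
    ∃ d : Derivation ℤ Ω Ω, (∀ z ∈ acl (adj k (Set.range x)), d z = 0) ∧ d lam = 1 ∧
      ∀ z ∈ acl L, d z ∈ acl L := by
  classical
  have hI : (AlgebraicIndependent.matroid k Ω).Indep {lam} := by
    rw [AlgebraicIndependent.matroid_indep_iff]
    have h1 : Transcendental k lam := by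
      intro h
      apply hlamk
      rw [← hk]
      exact mem_acl.2 h
    exact (algebraicIndependent_unique_type_iff (x := fun z : ({lam} : Set Ω) => (z : Ω))).2
      (by
        have : ((default : ({lam} : Set Ω)) : Ω) = lam := (default : ({lam} : Set Ω)).2
        rw [this]; exact h1)
  obtain ⟨S, hS, hlS⟩ := hI.subset_isBasis_of_subset (X := (L : Set Ω)) (by
    rintro z rfl
    exact hlam)
  have hlS' : lam ∈ S := hlS rfl
  have hSL : S ⊆ L := hS.subset
  have hLS : (L : Set Ω) ⊆ acl (adj k S) := by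
    intro z hz
    change z ∈ acl (adj k S)
    rw [mem_matroid, hS.closure_eq_closure]
    exact (AlgebraicIndependent.matroid k Ω).mem_closure_of_mem hz
  set F := adj k (S \ {lam}) with hF
  have hFL : F ≤ L := adj_le hkL (Set.sdiff_subset.trans hSL)
  have hlF : lam ∉ acl F := by
    rw [hF, mem_matroid]
    exact hS.indep.notMem_closure_sdiff_of_mem hlS'
  have hl2 : lam ∉ acl (adj F (Set.range x)) := by
    intro h
    exact hlF (t1a_inter (hFL.trans (le_acl _)) x hx (le_acl _ hlam) h)
  obtain ⟨d, hd0, hd1⟩ := exists_derivation hl2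
  refine ⟨d, ?_, hd1, ?_⟩
  · intro z hz
    apply hd0
    exact acl_mono (adj_mono (le_adj _ _) le_rfl) hz
  · have hsub : adj k S ≤ stab d (acl L) := by
      apply adj_le
      · intro z hz
        refine ⟨le_acl _ (hkL hz), ?_⟩
        rw [hd0 z (le_acl _ (le_adj _ _ (le_adj _ _ hz)))]
        exact zero_mem _
      · intro z hz
        refine ⟨le_acl _ (hSL hz), ?_⟩
        by_cases hzl : z = lam
        · rw [hzl, hd1]; exact one_mem _
        · rw [hd0 z (le_acl _ (le_adj _ _ (subset_adj _ _ ⟨hz, hzl⟩)))]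
          exact zero_mem _
    have hkS : adj k S ≤ acl L := fun z hz => (hsub hz).1
    intro z hz
    have hz' : z ∈ acl (adj k S) := (acl_le_acl hLS) hz
    exact derivation_mem d hkS (fun w hw => (hsub hw).2) hz' hz

/-- TASK T1a -/
theorem NN_step [CharZero Ω] [IsAlgClosed Ω] {k L : Subfield Ω}
    (hk : acl k = k) (hkL : k ≤ L) {lam : Ω} (hlam : lam ∈ L) (hlamk : lam ∉ k)
    {r : ℕ} (x : Fin r → Ω) (hx : AlgebraicIndependent L x) {a b c : Ω}
    (ha : a ∈ acl L ⊔ acl (adj k (Set.range x))) (hb : b ∈ acl L ⊔ acl (adj k (Set.range x)))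
    (hc : c ∈ acl L ⊔ acl (adj k (Set.range x)))
    (h1 : a ^ 4 + b ^ 4 = 1) (h2 : c ^ 4 + lam * a ^ 4 = 1) :
    a ∈ acl L ∧ b ∈ acl L ∧ c ∈ acl L := by
  induction r with
  | zero =>
    have h0 : acl L ⊔ acl (adj k (Set.range x)) ≤ acl L := by
      apply sup_le le_rfl
      rw [Set.range_eq_empty]
      have : adj k ∅ = k := by simp [adj]
      rw [this]
      exact acl_mono hkL
    exact ⟨h0 ha, h0 hb, h0 hc⟩
  | succ r ih =>
    set x' := x ∘ Fin.castSucc with hx'
    set y := x (Fin.last r) with hy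
    set E := acl (adj k (Set.range x')) with hE
    set M := acl (adj k (Set.range x)) with hM
    set B := acl L ⊔ E with hB
    have hEE : acl E = E := acl_idem _
    have hEB : E ≤ B := le_sup_right
    have hrange : Set.range x = Set.range x' ∪ {y} := t1a_range_succ x
    have hEM : E ≤ M := by
      apply acl_mono
      apply adj_mono le_rfl
      rw [hrange]
      exact Set.subset_union_left
    have hyM : y ∈ M := le_acl _ (subset_adj _ _ ⟨_, rfl⟩)
    have hME : M ≤ acl (adj E {y}) := by
      apply acl_mono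
      rw [hrange]
      apply adj_le ((le_adj _ _).trans ((le_acl _).trans (le_adj _ _)))
      rintro z (hz | rfl)
      · exact le_adj _ _ (le_acl _ (subset_adj _ _ hz))
      · exact subset_adj _ _ rfl
    have hBle : B ≤ acl (adj L (Set.range x')) := by
      apply sup_le (acl_mono (le_adj _ _))
      exact acl_mono (adj_mono hkL le_rfl)
    have hyB : y ∉ acl B := by
      intro h
      apply t1a_last x hx
      have := acl_le_acl hBle h
      exact this
    obtain ⟨d, hd0, hd1, hdL⟩ := t1a_derivation hk hkL hlam hlamk x hx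
    have hdB : ∀ b ∈ B, d b ∈ B := by
      have h3 : B ≤ stab d B := by
        apply sup_le
        · intro z hz
          exact ⟨(le_sup_left : acl L ≤ B) hz, (le_sup_left : acl L ≤ B) (hdL z hz)⟩
        · intro z hz
          refine ⟨hEB hz, ?_⟩
          rw [hd0 z (hEM hz)]
          exact zero_mem _
      exact fun b hb => (h3 hb).2
    have hLMBM : acl L ⊔ M ≤ B ⊔ M := sup_le (le_sup_left.trans le_sup_left) le_sup_right
    have hlam0 : lam ≠ 0 := by
      rintro rfl
      exact hlamk (zero_mem _)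
    obtain ⟨mu, hmu⟩ := IsAlgClosed.exists_pow_nat_eq lam (n := 4) (by norm_num)
    have hmu0 : mu ≠ 0 := by
      rintro rfl
      apply hlam0
      rw [← hmu]; norm_num
    have hmuL : mu ∈ acl L := by
      rw [mem_acl]
      refine ⟨Polynomial.X ^ 4 - Polynomial.C ⟨lam, hlam⟩, Polynomial.X_pow_sub_C_ne_zero
        (by norm_num) _, ?_⟩
      simp only [map_sub, map_pow, Polynomial.aeval_X, Polynomial.aeval_C, hmu]
      exact sub_self _
    have hmuB : mu ∈ B := (le_sup_left : acl L ≤ B) hmuL
    have haBM := hLMBM ha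
    have hbBM := hLMBM hb
    have hcBM := hLMBM hc
    have hmuaBM : mu * a ∈ B ⊔ M := mul_mem ((le_sup_left : B ≤ B ⊔ M) hmuB) haBM
    have hr1 := rigidity hEE hEB hEM hyM hME hyB d hdB hd0 haBM hbBM h1
    have hr2 := rigidity hEE hEB hEM hyM hME hyB d hdB hd0 hmuaBM hcBM (by
      rw [mul_pow, hmu, add_comm]; exact h2)
    have haB : a ∈ acl B := by
      by_contra hna
      have hda := hr1.resolve_left hna
      have hnmua : mu * a ∉ acl B := by
        intro h
        apply hna
        have h3 : a = mu⁻¹ * (mu * a) := by field_simp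
        rw [h3]
        exact mul_mem ((acl B).inv_mem (le_acl _ hmuB)) h
      have hdmua := hr2.resolve_left hnmua
      rw [Derivation.leibniz, hda, smul_zero, zero_add, smul_eq_mul] at hdmua
      have h4 : d (mu ^ 4) = 1 := by rw [hmu, hd1]
      rw [Derivation.leibniz_pow] at h4
      rcases mul_eq_zero.1 hdmua with h5 | h5
      · apply hna
        rw [h5]
        exact zero_mem _
      · rw [h5] at h4
        simp at h4
    have pow4 : ∀ z : Ω, z ^ 4 ∈ acl B → z ∈ acl B := by
      intro z hz
      have h3 : z ∈ acl (acl B) := by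
        rw [mem_acl]
        refine ⟨Polynomial.X ^ 4 - Polynomial.C ⟨z ^ 4, hz⟩, Polynomial.X_pow_sub_C_ne_zero
          (by norm_num) _, ?_⟩
        simp only [map_sub, map_pow, Polynomial.aeval_X, Polynomial.aeval_C]
        exact sub_self _
      rwa [acl_idem] at h3
    have hbB : b ∈ acl B := by
      apply pow4
      rw [show b ^ 4 = 1 - a ^ 4 by linear_combination h1]
      exact sub_mem (one_mem _) (pow_mem haB 4)
    have hcB : c ∈ acl B := by
      apply pow4
      rw [show c ^ 4 = 1 - lam * a ^ 4 by linear_combination h2]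
      exact sub_mem (one_mem _) (mul_mem (le_acl _ ((le_sup_left : acl L ≤ B) (le_acl _ hlam)))
        (pow_mem haB 4))
    have hreg : ∀ α ∈ B ⊔ M, α ∈ acl B → α ∈ B := by
      intro α hα hα'
      obtain ⟨w, hwM, hαw⟩ := rig_c2c (E' := adj E {y}) (M := M) (k := adj B {y}) (B := B)
        (adj_le hEM (by rintro z rfl; exact hyM)) hME (adj_mono hEB le_rfl) (le_adj _ _) hα
      have hgen : IsGen E (0 : Fin 2) ![y, w] := by
        refine ⟨?_, ?_, ?_⟩
        · intro h
          exact hyB (acl_mono hEB h)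
        · intro i
          fin_cases i
          · exact le_acl _ (subset_adj _ _ rfl)
          · exact hME hwM
        · rw [hEE]
          exact inf_le_right
      have hgen2 := hgen.extend hEB hyB
      apply hgen2.reg
      refine ⟨?_, hα'⟩
      have : adj (adj B {y}) {w} ≤ adj B (Set.range ![y, w]) := by
        apply adj_le
        · apply adj_le (le_adj _ _)
          rintro z rfl
          exact subset_adj _ _ ⟨0, rfl⟩
        · rintro z rfl
          exact subset_adj _ _ ⟨1, rfl⟩
      exact this hαw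
    exact ih x' (hx.comp _ (Fin.castSucc_injective r)) (hreg a haBM haB) (hreg b hbBM hbB)
      (hreg c hcBM hcB)

end H33
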