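import Pool.Agent.H33R2.Defs
import Pool.Agent.Helper737.AmpleG

set_option autoImplicit false

open Polynomial
open Pool.Agent.Helper737.Ample (acl adj)

namespace H33

/-- the condition that will exclude ampleness -/
def NN {R : Type} [Field R] (lam : R) (K : Subfield R) : Prop :=
  ∀ a ∈ K, ∀ b ∈ K, ∀ c ∈ K, a ^ 4 + b ^ 4 = 1 → c ^ 4 + lam * a ^ 4 = 1 → a = 0

/-- TASK T1c, first half -/
theorem NN_base {Ω : Type} [Field Ω] [CharZero Ω] [IsAlgClosed Ω] {k : Subfield Ω}
    (hk : acl k = k) {lam : Ω} (hlam : lam ∉ k) : NN lam (adj k {lam}) := by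
  intro a ha b _ c hc _ h2
  exact Pool.Agent.Helper737.Ample.twisted_fermat_adj hk (by rw [hk]; exact hlam) hc ha h2

theorem exists_fourth_root {K : Type} [Field K] [CharZero K] (f : PowerSeries K)
    (hf : PowerSeries.constantCoeff f = 0) : ∃ g : PowerSeries K, g ^ 4 = 1 + f := by
  have hs : PowerSeries.HasSubst f := PowerSeries.HasSubst.of_constantCoeff_zero' hf
  set u : PowerSeries K := PowerSeries.binomialSeries K (1 / 4 : ℚ) with hu
  have hu4 : u ^ 4 = 1 + PowerSeries.X := by
    have h1 : u ^ 4 = PowerSeries.binomialSeries K ((1 : ℕ) : ℚ) := by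
      rw [hu, pow_succ, pow_succ, pow_succ, pow_one, ← PowerSeries.binomialSeries_add,
        ← PowerSeries.binomialSeries_add, ← PowerSeries.binomialSeries_add]
      norm_num
    rw [h1, PowerSeries.binomialSeries_nat, pow_one]
  refine ⟨PowerSeries.subst f u, ?_⟩
  rw [← PowerSeries.coe_substAlgHom hs, ← map_pow, hu4, map_add, map_one,
    PowerSeries.coe_substAlgHom hs, PowerSeries.subst_X hs]

/-- TASK T1c, second half -/
theorem nonAmple_of_NN {K : Type} [Field K] [CharZero K] (lam : K)
    (h : ∀ a b c : K, a ^ 4 + b ^ 4 = 1 → c ^ 4 + lam * a ^ 4 = 1 → a = 0) : NonAmple K := by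
  classical
  obtain ⟨b, hb⟩ := exists_fourth_root (K := K) (- PowerSeries.X ^ 4) (by simp)
  obtain ⟨c, hc⟩ := exists_fourth_root (K := K) (- PowerSeries.C lam * PowerSeries.X ^ 4) (by simp)
  let φ := algebraMap (PowerSeries K) (LaurentSeries K)
  have hX : φ PowerSeries.X ≠ 0 := by
    intro h0
    have : (PowerSeries.X : PowerSeries K) = 0 :=
      (IsFractionRing.injective (PowerSeries K) (LaurentSeries K)) (by rw [map_zero]; exact h0)
    exact PowerSeries.X_ne_zero this
  refine ⟨4, {MvPolynomial.X 0 ^ 4 + MvPolynomial.X 1 ^ 4 - 1,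
    MvPolynomial.X 2 ^ 4 + MvPolynomial.C lam * MvPolynomial.X 0 ^ 4 - 1,
    MvPolynomial.X 0 * MvPolynomial.X 3 - 1}, ⟨![φ PowerSeries.X, φ b, φ c, (φ PowerSeries.X)⁻¹], ?_⟩, ?_⟩
  · intro p hp
    simp only [Finset.mem_insert, Finset.mem_singleton] at hp
    rcases hp with rfl | rfl | rfl
    · simp only [map_sub, map_add, map_pow, MvPolynomial.aeval_X, map_one, Matrix.cons_val_zero,
        Matrix.cons_val_one]
      have := congrArg φ hb
      rw [map_pow, map_add, map_neg, map_pow, map_one] at this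
      rw [this]; ring
    · have h2 : (![φ PowerSeries.X, φ b, φ c, (φ PowerSeries.X)⁻¹] : Fin 4 → LaurentSeries K) 2 = φ c :=
        rfl
      simp only [map_sub, map_add, map_mul, map_pow, MvPolynomial.aeval_X, map_one,
        Matrix.cons_val_zero, h2, MvPolynomial.aeval_C]
      have := congrArg φ hc
      rw [map_pow, map_add, map_mul, map_neg, map_pow, map_one] at this
      have h3 : algebraMap K (LaurentSeries K) lam = φ (PowerSeries.C lam) := by
        rfl
      rw [this, h3]; ring
    · have h2 : (![φ PowerSeries.X, φ b, φ c, (φ PowerSeries.X)⁻¹] : Fin 4 → LaurentSeries K) 3 =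
        (φ PowerSeries.X)⁻¹ := rfl
      simp only [map_sub, map_mul, MvPolynomial.aeval_X, map_one, Matrix.cons_val_zero, h2]
      rw [mul_inv_cancel₀ hX, sub_self]
  · intro y
    by_contra hcon
    push Not at hcon
    have h1 := hcon (MvPolynomial.X 0 ^ 4 + MvPolynomial.X 1 ^ 4 - 1) (by simp)
    have h2 := hcon (MvPolynomial.X 2 ^ 4 + MvPolynomial.C lam * MvPolynomial.X 0 ^ 4 - 1) (by simp)
    have h3 := hcon (MvPolynomial.X 0 * MvPolynomial.X 3 - 1) (by simp)
    simp only [map_sub, map_add, map_mul, map_pow, MvPolynomial.eval_X, map_one,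
      MvPolynomial.eval_C] at h1 h2 h3
    have h4 := h (y 0) (y 1) (y 2) (by linear_combination h1) (by linear_combination h2)
    rw [h4] at h3
    norm_num at h3

end H33
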