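import Pool.Agent.H33R2.T1a
import Pool.Agent.H33R2.T1c

/-!
TASK T1d (tower): the chain argument.
-/

set_option autoImplicit false

open Polynomial
open Pool.Agent.Helper737.Ample

namespace H33

variable {Ω : Type} [Field Ω]

section basics

theorem tw_sup_ind {A B : Subfield Ω} (E : Subfield ↥(A ⊔ B))
    (hA : ∀ z (hz : z ∈ A), (⟨z, (le_sup_left : A ≤ A ⊔ B) hz⟩ : ↥(A ⊔ B)) ∈ E)
    (hB : ∀ z (hz : z ∈ B), (⟨z, (le_sup_right : B ≤ A ⊔ B) hz⟩ : ↥(A ⊔ B)) ∈ E)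
    (x : ↥(A ⊔ B)) : x ∈ E := by
  have h : A ⊔ B ≤ E.map (A ⊔ B).subtype :=
    sup_le (fun z hz => ⟨_, hA z hz, rfl⟩) (fun z hz => ⟨_, hB z hz, rfl⟩)
  obtain ⟨w, hw, hw2⟩ := h x.2
  have : w = x := Subtype.ext hw2
  rwa [← this]

theorem tw_adj_ind {K : Subfield Ω} {S : Set Ω} (E : Subfield ↥(adj K S))
    (hK : ∀ z (hz : z ∈ K), (⟨z, le_adj K S hz⟩ : ↥(adj K S)) ∈ E)
    (hS : ∀ z (hz : z ∈ S), (⟨z, subset_adj K S hz⟩ : ↥(adj K S)) ∈ E)
    (x : ↥(adj K S)) : x ∈ E := by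
  have h : adj K S ≤ E.map (adj K S).subtype :=
    adj_le (fun z hz => ⟨_, hK z hz, rfl⟩) (fun z hz => ⟨_, hS z hz, rfl⟩)
  obtain ⟨w, hw, hw2⟩ := h x.2
  have : w = x := Subtype.ext hw2
  rwa [← this]

theorem tw_sup_ext {R : Type} [Field R] {A B : Subfield Ω} {f g : ↥(A ⊔ B) →+* R}
    (hA : ∀ z (hz : z ∈ A), f ⟨z, (le_sup_left : A ≤ A ⊔ B) hz⟩ =
      g ⟨z, (le_sup_left : A ≤ A ⊔ B) hz⟩)
    (hB : ∀ z (hz : z ∈ B), f ⟨z, (le_sup_right : B ≤ A ⊔ B) hz⟩ =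
      g ⟨z, (le_sup_right : B ≤ A ⊔ B) hz⟩) (x : ↥(A ⊔ B)) : f x = g x :=
  tw_sup_ind (RingHom.eqLocusField f g) hA hB x

theorem tw_adj_ext {R : Type} [Field R] {K : Subfield Ω} {S : Set Ω} {f g : ↥(adj K S) →+* R}
    (hK : ∀ z (hz : z ∈ K), f ⟨z, le_adj K S hz⟩ = g ⟨z, le_adj K S hz⟩)
    (hS : ∀ z (hz : z ∈ S), f ⟨z, subset_adj K S hz⟩ = g ⟨z, subset_adj K S hz⟩)
    (x : ↥(adj K S)) : f x = g x :=
  tw_adj_ind (RingHom.eqLocusField f g) hK hS x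

theorem tw_countable_acl {K : Subfield Ω} (hK : (K : Set Ω).Countable) :
    (acl K : Set Ω).Countable := by
  have : Countable K := hK.to_subtype
  have : Algebra.IsAlgebraic K (algebraicClosure K Ω) := inferInstance
  have h1 := Algebra.IsAlgebraic.cardinalMk_le_max K (algebraicClosure K Ω)
  have h2 : Cardinal.mk K ≤ Cardinal.aleph0 := Cardinal.mk_le_aleph0
  have h3 : Cardinal.mk (algebraicClosure K Ω) ≤ Cardinal.aleph0 := h1.trans (max_le h2 le_rfl)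
  have h4 : Countable (algebraicClosure K Ω) := Cardinal.mk_le_aleph0_iff.1 h3
  have h5 : ((algebraicClosure K Ω : IntermediateField K Ω) : Set Ω).Countable :=
    Set.countable_coe_iff.1 h4
  exact h5

theorem tw_countable_adj {K : Subfield Ω} {S : Set Ω} (hK : (K : Set Ω).Countable)
    (hS : S.Countable) : (adj K S : Set Ω).Countable := by
  have h1 : adj K S = Subfield.closure ((K : Set Ω) ∪ S) := by
    rw [Subfield.closure_union, Subfield.closure_eq]; rfl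
  rw [h1]
  have h2 := Subfield.cardinalMk_closure_le_max ((K : Set Ω) ∪ S)
  have h3 : Cardinal.mk ((K : Set Ω) ∪ S : Set Ω) ≤ Cardinal.aleph0 :=
    Cardinal.mk_le_aleph0_iff.2 (hK.union hS).to_subtype
  have h4 := h2.trans (max_le h3 le_rfl)
  exact Set.countable_coe_iff.1 (Cardinal.mk_le_aleph0_iff.1 h4)

end basics

section ext

/-- the inclusion `adj K S → IntermediateField.adjoin K S` -/
def twIncl (K : Subfield Ω) (S : Set Ω) : ↥(adj K S) →+* ↥(IntermediateField.adjoin K S) where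
  toFun z := ⟨z, by
    have h : (z : Ω) ∈ (IntermediateField.adjoin K S).toSubfield := by
      rw [← adj_eq]; exact z.2
    exact h⟩
  map_one' := rfl
  map_mul' _ _ := rfl
  map_zero' := rfl
  map_add' _ _ := rfl

theorem tw_minpoly_eq {K K1 : Subfield Ω} (h : K ≤ K1) (hreg : K1 ⊓ acl K ≤ K) {θ : Ω}
    (hθ : θ ∈ acl K) : minpoly K1 θ = (minpoly K θ).map (Subfield.inclusion h) := by
  have hint : IsIntegral K θ := (mem_acl.1 hθ).isIntegral
  have hint1 : IsIntegral K1 θ := (mem_acl.1 (acl_mono h hθ)).isIntegral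
  have hdeg := ld_minpoly h hreg hint
  letI := (Subfield.inclusion h).toAlgebra
  haveI : IsScalarTower K K1 Ω := IsScalarTower.of_algebraMap_eq (fun x => rfl)
  have hdvd := minpoly.dvd_map_of_isScalarTower K K1 θ
  have h1 : (minpoly K θ).map (algebraMap K K1) = minpoly K1 θ := by
    apply Polynomial.eq_of_monic_of_dvd_of_natDegree_le (minpoly.monic hint1)
      ((minpoly.monic hint).map _) hdvd
    rw [Polynomial.natDegree_map, hdeg]
  exact h1.symm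

/-- extension of `τ : K(θ) → Ω` to `K₁(θ)`, identity on `K₁` -/
theorem tw_ext {K K1 : Subfield Ω} (h : K ≤ K1) (hreg : K1 ⊓ acl K ≤ K) {θ : Ω}
    (hθ : θ ∈ acl K) (τ : ↥(adj K {θ}) →+* Ω)
    (hτ : ∀ z (hz : z ∈ K), τ ⟨z, le_adj K {θ} hz⟩ = z) :
    ∃ s : ↥(adj K1 {θ}) →+* Ω, (∀ z (hz : z ∈ K1), s ⟨z, le_adj K1 {θ} hz⟩ = z) ∧
      ∀ z (hz : z ∈ adj K {θ}), s ⟨z, adj_mono h le_rfl hz⟩ = τ ⟨z, hz⟩ := by
  have hint : IsIntegral K θ := (mem_acl.1 hθ).isIntegral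
  have hint1 : IsIntegral K1 θ := (mem_acl.1 (acl_mono h hθ)).isIntegral
  set θ' : ↥(adj K {θ}) := ⟨θ, subset_adj K {θ} rfl⟩ with hθ'
  have hroot0 : (minpoly K θ).eval₂ (Subfield.inclusion (le_adj K {θ})) θ' = 0 := by
    apply Subtype.val_injective
    have h1 := Polynomial.hom_eval₂ (minpoly K θ) (Subfield.inclusion (le_adj K {θ}))
      (adj K {θ}).subtype θ'
    have h2 : (adj K {θ}).subtype.comp (Subfield.inclusion (le_adj K {θ})) = algebraMap K Ω := rfl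
    rw [h2] at h1
    have h3 : Polynomial.eval₂ (algebraMap K Ω) ((adj K {θ}).subtype θ') (minpoly K θ) = 0 :=
      minpoly.aeval K θ
    rw [h3] at h1
    exact h1
  have hroot : Polynomial.aeval (τ θ') (minpoly K θ) = 0 := by
    have h1 := Polynomial.hom_eval₂ (minpoly K θ) (Subfield.inclusion (le_adj K {θ})) τ θ'
    rw [hroot0, map_zero] at h1
    have h2 : τ.comp (Subfield.inclusion (le_adj K {θ})) = algebraMap K Ω := by
      ext z
      exact hτ z z.2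
    rw [h2] at h1
    exact h1.symm
  have hroot1 : Polynomial.aeval (τ θ') (minpoly K1 θ) = 0 := by
    rw [tw_minpoly_eq h hreg hθ, Polynomial.aeval_def, Polynomial.eval₂_map]
    exact hroot
  let s0 : ↥(IntermediateField.adjoin K1 {θ}) →ₐ[K1] Ω :=
    (IntermediateField.algHomAdjoinIntegralEquiv K1 hint1).symm
      ⟨τ θ', (Polynomial.mem_aroots.2 ⟨minpoly.ne_zero hint1, hroot1⟩)⟩
  have hs0 : s0 (IntermediateField.AdjoinSimple.gen K1 θ) = τ θ' :=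
    IntermediateField.algHomAdjoinIntegralEquiv_symm_apply_gen K1 hint1 _
  refine ⟨s0.toRingHom.comp (twIncl K1 {θ}), ?_, ?_⟩
  · intro z hz
    exact s0.commutes ⟨z, hz⟩
  · intro z hz
    have := tw_adj_ext (f := (s0.toRingHom.comp (twIncl K1 {θ})).comp
      (Subfield.inclusion (adj_mono h (le_refl ({θ} : Set Ω))))) (g := τ) ?_ ?_ ⟨z, hz⟩
    · exact this
    · intro z hz
      rw [hτ z hz]
      exact s0.commutes ⟨z, h hz⟩
    · rintro z rfl
      exact hs0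

/-- fixed points are in `K₁` -/
theorem tw_fixed {K K1 : Subfield Ω} (h : K ≤ K1) {θ : Ω} (hθ : θ ∈ acl K)
    {Γ : Type} [Group Γ] [Finite Γ] (ρ : Γ →* (↥(adj K {θ}) ≃+* ↥(adj K {θ})))
    (hinj : Function.Injective ρ)
    (hfix : ∀ x : ↥(adj K {θ}), (∀ γ, ρ γ x = x) ↔ (x : Ω) ∈ K)
    (s : Γ → (↥(adj K1 {θ}) →+* Ω)) (hs1 : ∀ γ z (hz : z ∈ K1), s γ ⟨z, le_adj K1 {θ} hz⟩ = z)
    (hs2 : ∀ γ z (hz : z ∈ adj K {θ}), s γ ⟨z, adj_mono h le_rfl hz⟩ = (ρ γ ⟨z, hz⟩ : ↥(adj K {θ})))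
    (x : ↥(adj K1 {θ})) (hx : ∀ γ, s γ x = x) : (x : Ω) ∈ K1 := by
  classical
  letI : Fintype Γ := Fintype.ofFinite Γ
  have hint1 : IsIntegral K1 θ := (mem_acl.1 (acl_mono h hθ)).isIntegral
  set θ' : ↥(adj K {θ}) := ⟨θ, subset_adj K {θ} rfl⟩ with hθ'
  set θ1 : ↥(adj K1 {θ}) := ⟨θ, subset_adj K1 {θ} rfl⟩ with hθ1
  let r : Γ → Ω := fun γ => (ρ γ θ' : ↥(adj K {θ}))
  have hr1 : r 1 = θ := by simp [r, θ']
  have hsr : ∀ γ, s γ θ1 = r γ := fun γ => hs2 γ θ (subset_adj K {θ} rfl)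
  have hrinj : Function.Injective r := by
    intro γ δ hγδ
    apply hinj
    have h1 : ∀ y, (ρ γ : ↥(adj K {θ}) →+* ↥(adj K {θ})) y =
        (ρ δ : ↥(adj K {θ}) →+* ↥(adj K {θ})) y := by
      apply tw_adj_ext
      · intro z hz
        have h2 := (hfix ⟨z, le_adj K {θ} hz⟩).2 hz
        exact (h2 γ).trans (h2 δ).symm
      · rintro z rfl
        exact Subtype.ext hγδ
    exact RingEquiv.ext h1
  -- the polynomial with roots `r γ`
  have hfK : ∃ f : K1[X], f.map K1.subtype = ∏ γ, (X - C (r γ)) ∧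
      f.natDegree = Fintype.card Γ ∧ f.Monic := by
    set fL : (↥(adj K {θ}))[X] := ∏ γ, (X - C (ρ γ θ')) with hfL
    have hfL1 : fL.map (adj K {θ}).subtype = ∏ γ, (X - C (r γ)) := by
      rw [hfL, Polynomial.map_prod]
      apply Finset.prod_congr rfl
      intro γ _
      simp [r]
    have hfLm : fL.Monic := Polynomial.monic_prod_of_monic _ _ (fun γ _ => Polynomial.monic_X_sub_C _)
    have hfLd : fL.natDegree = Fintype.card Γ := by
      rw [hfL, Polynomial.natDegree_prod_of_monic _ _ (fun γ _ => Polynomial.monic_X_sub_C _)]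
      simp
    have hfLc : ∀ n, ((fL.coeff n : ↥(adj K {θ})) : Ω) ∈ K := by
      intro n
      rw [← hfix]
      intro δ
      have h1 : fL.map (ρ δ : ↥(adj K {θ}) →+* ↥(adj K {θ})) = fL := by
        rw [hfL, Polynomial.map_prod]
        have h2 : ∀ γ, (X - C (ρ γ θ')).map (ρ δ : ↥(adj K {θ}) →+* ↥(adj K {θ})) =
            X - C (ρ (δ * γ) θ') := by
          intro γ
          simp only [Polynomial.map_sub, Polynomial.map_X, Polynomial.map_C, map_mul]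
          rfl
        rw [Finset.prod_congr rfl (fun γ _ => h2 γ)]
        exact Equiv.prod_comp (Equiv.mulLeft δ) (fun γ => (X - C (ρ γ θ')))
      have h3 := congrArg (fun p => Polynomial.coeff p n) h1
      simp only [Polynomial.coeff_map] at h3
      exact h3
    have hl : fL.map (adj K {θ}).subtype ∈ Polynomial.lifts K1.subtype := by
      rw [Polynomial.lifts_iff_coeff_lifts]
      intro n
      rw [Polynomial.coeff_map]
      exact ⟨⟨_, h (hfLc n)⟩, rfl⟩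
    obtain ⟨q, hq, hqd, hqm⟩ := Polynomial.lifts_and_natDegree_eq_and_monic hl (hfLm.map _)
    refine ⟨q, by rw [hq, hfL1], ?_, hqm⟩
    rw [hqd, Polynomial.natDegree_map, hfLd]
  obtain ⟨f, hf, hfd, hfm⟩ := hfK
  have hpos : 0 < Fintype.card Γ := Fintype.card_pos_iff.2 ⟨1⟩
  have hfθ : Polynomial.eval₂ K1.subtype θ f = 0 := by
    rw [← Polynomial.eval_map, hf, Polynomial.eval_prod]
    apply Finset.prod_eq_zero (Finset.mem_univ (1 : Γ))
    rw [hr1]; simp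
  -- `x` is a polynomial in `θ`
  have hxq : ∃ q : K1[X], q.natDegree < Fintype.card Γ ∧
      Polynomial.eval₂ K1.subtype θ q = x := by
    have h1 : (x : Ω) ∈ Algebra.adjoin K1 ({θ} : Set Ω) := by
      rw [← IntermediateField.adjoin_simple_toSubalgebra_of_isAlgebraic hint1.isAlgebraic]
      exact (twIncl K1 {θ} x).2
    rw [Algebra.adjoin_singleton_eq_range_aeval] at h1
    obtain ⟨q, hq⟩ := h1
    refine ⟨q %ₘ f, ?_, ?_⟩
    · rw [← hfd]
      apply Polynomial.natDegree_modByMonic_lt _ hfm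
      rintro rfl
      rw [Polynomial.natDegree_one] at hfd
      omega
    · have h2 := congrArg (Polynomial.eval₂ K1.subtype θ) (Polynomial.modByMonic_add_div q f)
      rw [Polynomial.eval₂_add, Polynomial.eval₂_mul, hfθ, zero_mul, add_zero] at h2
      rw [h2]
      exact hq
  obtain ⟨q, hqd, hq⟩ := hxq
  have hxe : ∀ γ, Polynomial.eval₂ K1.subtype (r γ) q = x := by
    intro γ
    have h1 : Polynomial.eval₂ (Subfield.inclusion (le_adj K1 {θ})) θ1 q = x := by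
      apply Subtype.val_injective
      have h2 := Polynomial.hom_eval₂ q (Subfield.inclusion (le_adj K1 {θ}))
        (adj K1 {θ}).subtype θ1
      have h3 : (adj K1 {θ}).subtype.comp (Subfield.inclusion (le_adj K1 {θ})) = K1.subtype := rfl
      rw [h3] at h2
      exact h2.trans hq
    have h4 := congrArg (s γ) h1
    rw [Polynomial.hom_eval₂, hsr, hx γ] at h4
    rw [← h4]
    congr 1
    ext z
    exact (hs1 γ z z.2).symm
  have hzero : q.map K1.subtype - C (x : Ω) = 0 := by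
    apply Polynomial.eq_zero_of_natDegree_lt_card_of_eval_eq_zero _ hrinj
    · intro γ
      rw [Polynomial.eval_sub, Polynomial.eval_map, hxe γ, Polynomial.eval_C, sub_self]
    · apply lt_of_le_of_lt (Polynomial.natDegree_sub_le _ _)
      rw [Polynomial.natDegree_map, Polynomial.natDegree_C]
      exact max_lt hqd hpos
  have h5 := congrArg (fun p => Polynomial.coeff p 0) hzero
  simp only [Polynomial.coeff_sub, Polynomial.coeff_map, Polynomial.coeff_C_zero,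
    Polynomial.coeff_zero, sub_eq_zero] at h5
  rw [← h5]
  exact (q.coeff 0).2

theorem tw_mkHom {Γ : Type} [Group Γ] {L : Type} [Field L] (S : Γ → (L →+* L))
    (hS1 : ∀ x, S 1 x = x) (hSmul : ∀ γ δ x, S (γ * δ) x = S γ (S δ x)) :
    ∃ ρ : Γ →* (L ≃+* L), ∀ γ x, ρ γ x = S γ x := by
  refine ⟨{ toFun := fun γ => RingEquiv.ofRingHom (S γ) (S γ⁻¹)
              (RingHom.ext fun x => by
                rw [RingHom.comp_apply, ← hSmul, mul_inv_cancel, hS1]; rfl)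
              (RingHom.ext fun x => by
                rw [RingHom.comp_apply, ← hSmul, inv_mul_cancel, hS1]; rfl)
            map_one' := RingEquiv.ext fun x => hS1 x
            map_mul' := fun γ δ => RingEquiv.ext fun x => hSmul γ δ x }, fun γ x => rfl⟩

theorem tw_exS {K K1 : Subfield Ω} (h : K ≤ K1) (hreg : K1 ⊓ acl K ≤ K) {θ : Ω} (hθ : θ ∈ acl K)
    {Γ : Type} [Group Γ] [Finite Γ] (ρ : Γ →* (↥(adj K {θ}) ≃+* ↥(adj K {θ})))
    (hfix : ∀ x : ↥(adj K {θ}), (∀ γ, ρ γ x = x) ↔ (x : Ω) ∈ K) :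
    ∃ s : Γ → (↥(adj K1 {θ}) →+* Ω), (∀ γ z (hz : z ∈ K1), s γ ⟨z, le_adj K1 {θ} hz⟩ = z) ∧
      ∀ γ z (hz : z ∈ adj K {θ}), s γ ⟨z, adj_mono h le_rfl hz⟩ = (ρ γ ⟨z, hz⟩ : ↥(adj K {θ})) := by
  have hex : ∀ γ, ∃ s : ↥(adj K1 {θ}) →+* Ω, (∀ z (hz : z ∈ K1), s ⟨z, le_adj K1 {θ} hz⟩ = z) ∧
      ∀ z (hz : z ∈ adj K {θ}), s ⟨z, adj_mono h le_rfl hz⟩ = (ρ γ ⟨z, hz⟩ : ↥(adj K {θ})) := by
    intro γ
    apply tw_ext h hreg hθ ((adj K {θ}).subtype.comp (ρ γ : ↥(adj K {θ}) →+* ↥(adj K {θ})))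
    intro z hz
    have h2 := (hfix ⟨z, le_adj K {θ} hz⟩).2 hz
    exact congrArg Subtype.val (h2 γ)
  choose s hs1 hs2 using hex
  exact ⟨s, hs1, hs2⟩

theorem tw_exS2 {K K1 : Subfield Ω} (h : K ≤ K1) {θ : Ω}
    {Γ : Type} [Group Γ] (ρ : Γ →* (↥(adj K {θ}) ≃+* ↥(adj K {θ})))
    (s : Γ → (↥(adj K1 {θ}) →+* Ω)) (hs1 : ∀ γ z (hz : z ∈ K1), s γ ⟨z, le_adj K1 {θ} hz⟩ = z)
    (hs2 : ∀ γ z (hz : z ∈ adj K {θ}), s γ ⟨z, adj_mono h le_rfl hz⟩ = (ρ γ ⟨z, hz⟩ : ↥(adj K {θ}))) :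
    ∃ S : Γ → (↥(adj K1 {θ}) →+* ↥(adj K1 {θ})),
      ∀ γ x, ((S γ x : ↥(adj K1 {θ})) : Ω) = s γ x := by
  have hrange : ∀ γ x, s γ x ∈ adj K1 {θ} := by
    intro γ
    apply tw_adj_ind ((adj K1 {θ}).comap (s γ))
    · intro z hz
      change s γ _ ∈ adj K1 {θ}
      rw [hs1 γ z hz]
      exact le_adj K1 {θ} hz
    · intro z hz
      change s γ _ ∈ adj K1 {θ}
      have hz' : z ∈ adj K {θ} := subset_adj K {θ} hz
      have h1 := hs2 γ z hz'
      rw [h1]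
      exact adj_mono h le_rfl (ρ γ ⟨z, hz'⟩).2
  exact ⟨fun γ => (s γ).codRestrict _ (hrange γ), fun γ x => rfl⟩

theorem tw_exS3 {K K1 : Subfield Ω} (h : K ≤ K1) {θ : Ω}
    {Γ : Type} [Group Γ] (ρ : Γ →* (↥(adj K {θ}) ≃+* ↥(adj K {θ})))
    (s : Γ → (↥(adj K1 {θ}) →+* Ω)) (hs1 : ∀ γ z (hz : z ∈ K1), s γ ⟨z, le_adj K1 {θ} hz⟩ = z)
    (hs2 : ∀ γ z (hz : z ∈ adj K {θ}), s γ ⟨z, adj_mono h le_rfl hz⟩ = (ρ γ ⟨z, hz⟩ : ↥(adj K {θ})))
    (S : Γ → (↥(adj K1 {θ}) →+* ↥(adj K1 {θ})))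
    (hS : ∀ γ x, ((S γ x : ↥(adj K1 {θ})) : Ω) = s γ x) :
    (∀ x, S 1 x = x) ∧ ∀ γ δ x, S (γ * δ) x = S γ (S δ x) := by
  constructor
  · intro x
    apply tw_adj_ext (f := S 1) (g := RingHom.id _)
    · intro z hz
      apply Subtype.ext
      rw [hS, hs1 1 z hz, RingHom.id_apply]
    · intro z hz
      have hz' : z ∈ adj K {θ} := subset_adj K {θ} hz
      apply Subtype.ext
      rw [RingHom.id_apply]
      have h1 := hs2 1 z hz'
      rw [map_one, RingAut.one_apply] at h1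
      exact (hS 1 _).trans h1
  · intro γ δ x
    apply tw_adj_ext (f := S (γ * δ)) (g := (S γ).comp (S δ))
    · intro z hz
      apply Subtype.ext
      rw [hS, hs1 _ z hz, RingHom.comp_apply]
      have h1 : S δ ⟨z, le_adj K1 {θ} hz⟩ = ⟨z, le_adj K1 {θ} hz⟩ :=
        Subtype.ext ((hS δ _).trans (hs1 δ z hz))
      rw [h1, hS, hs1 _ z hz]
    · intro z hz
      have hz' : z ∈ adj K {θ} := subset_adj K {θ} hz
      apply Subtype.ext
      rw [RingHom.comp_apply]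
      have h1 : S δ ⟨z, subset_adj K1 {θ} hz⟩ =
          ⟨_, adj_mono h le_rfl (ρ δ ⟨z, hz'⟩).2⟩ :=
        Subtype.ext ((hS δ _).trans (hs2 δ z hz'))
      rw [h1]
      have h3 := hs2 γ _ (ρ δ ⟨z, hz'⟩).2
      have h2 := hs2 (γ * δ) z hz'
      rw [map_mul, RingAut.mul_apply] at h2
      exact ((hS _ _).trans h2).trans ((hS γ _).trans h3).symm

/-- the action on `K(θ)` extends to `K₁(θ)` -/
theorem tw_rho {K K1 : Subfield Ω} (h : K ≤ K1) (hreg : K1 ⊓ acl K ≤ K) {θ : Ω} (hθ : θ ∈ acl K)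
    {Γ : Type} [Group Γ] [Finite Γ] (ρ : Γ →* (↥(adj K {θ}) ≃+* ↥(adj K {θ})))
    (hinj : Function.Injective ρ)
    (hfix : ∀ x : ↥(adj K {θ}), (∀ γ, ρ γ x = x) ↔ (x : Ω) ∈ K) :
    ∃ ρ1 : Γ →* (↥(adj K1 {θ}) ≃+* ↥(adj K1 {θ})), Function.Injective ρ1 ∧
      (∀ x : ↥(adj K1 {θ}), (∀ γ, ρ1 γ x = x) ↔ (x : Ω) ∈ K1) ∧
      ∀ γ z (hz : z ∈ adj K {θ}), ((ρ1 γ ⟨z, adj_mono h le_rfl hz⟩ : ↥(adj K1 {θ})) : Ω) =
        (ρ γ ⟨z, hz⟩ : ↥(adj K {θ})) := by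
  obtain ⟨s, hs1, hs2⟩ := tw_exS h hreg hθ ρ hfix
  obtain ⟨S, hS⟩ := tw_exS2 h ρ s hs1 hs2
  obtain ⟨hS1, hSmul⟩ := tw_exS3 h ρ s hs1 hs2 S hS
  obtain ⟨ρ1, hρ1'⟩ := tw_mkHom S hS1 hSmul
  have hρ1 : ∀ γ x, ((ρ1 γ x : ↥(adj K1 {θ})) : Ω) = s γ x := fun γ x => by rw [hρ1', hS]
  refine ⟨ρ1, ?_, ?_, ?_⟩
  · intro γ δ hγδ
    apply hinj
    apply RingEquiv.ext
    intro x
    apply Subtype.ext
    have h1 := hs2 γ x x.2
    have h2 := hs2 δ x x.2
    rw [← hρ1] at h1 h2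
    rw [hγδ] at h1
    exact h1.symm.trans h2
  · intro x
    constructor
    · intro hx
      apply tw_fixed h hθ ρ hinj hfix s hs1 hs2 x
      intro γ
      rw [← hρ1, hx γ]
    · intro hx γ
      apply Subtype.ext
      rw [hρ1]
      exact hs1 γ x hx
  · intro γ z hz
    rw [hρ1]
    exact hs2 γ z hz

end ext

section demands

/-- the statement of T1b (equivariant free extension) -/
def FreeStep (Ω : Type) [Field Ω] (k : Subfield Ω) : Prop :=
  ∀ (K L : Subfield Ω), k ≤ K → K ≤ L → (L : Set Ω).Countable →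
    ∀ (T : Task k) (ρ : T.Γ →* (L ≃+* L)), Function.Injective ρ →
    (∀ x : L, (∀ γ, ρ γ x = x) ↔ (x : Ω) ∈ K) →
    ∃ (K' : Subfield Ω) (j : T.F →+* Ω) (r : ℕ) (x : Fin r → Ω),
      K ≤ K' ∧ (K' : Set Ω).Countable ∧ (∀ c : k, j (algebraMap k T.F c) = c) ∧
      AlgebraicIndependent L x ∧ K' ≤ L ⊔ acl (adj k (Set.range x)) ∧ K' ⊓ acl K ≤ K ∧
      ∃ hj : ∀ y, j y ∈ L ⊔ K',
      ∀ (σ : ↥(L ⊔ K') →+* Ω) (γ : T.Γ),
        (∀ z (hz : z ∈ K'), σ ⟨z, (le_sup_right : K' ≤ L ⊔ K') hz⟩ = z) →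
        (∀ z (hz : z ∈ L), σ ⟨z, (le_sup_left : L ≤ L ⊔ K') hz⟩ = (ρ γ ⟨z, hz⟩ : L)) →
        ∀ y : T.F, σ ⟨j y, hj y⟩ = j (γ • y)

/-- a demand over `K` -/
structure Dem {k : Subfield Ω} {ι : Type} (T : ι → Task k) (K : Subfield Ω) where
  i : ι
  θ : Ω
  alg : θ ∈ acl K
  ρ : (T i).Γ →* (↥(adj K {θ}) ≃+* ↥(adj K {θ}))
  inj : Function.Injective ρ
  fix : ∀ x : ↥(adj K {θ}), (∀ γ, ρ γ x = x) ↔ (x : Ω) ∈ K

/-- the demand `D` is satisfied by `K'` -/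
def Sat {k : Subfield Ω} {ι : Type} {T : ι → Task k} {K : Subfield Ω} (D : Dem T K)
    (K' : Subfield Ω) : Prop :=
  ∃ j : (T D.i).F →+* Ω, (∀ c : k, j (algebraMap k (T D.i).F c) = c) ∧
    ∃ hj : ∀ y, j y ∈ adj K {D.θ} ⊔ K',
      ∀ (σ : ↥(adj K {D.θ} ⊔ K') →+* Ω) (γ : (T D.i).Γ),
        (∀ z (hz : z ∈ K'), σ ⟨z, (le_sup_right : K' ≤ adj K {D.θ} ⊔ K') hz⟩ = z) →
        (∀ z (hz : z ∈ adj K {D.θ}),
          σ ⟨z, (le_sup_left : adj K {D.θ} ≤ adj K {D.θ} ⊔ K') hz⟩ =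
            (D.ρ γ ⟨z, hz⟩ : ↥(adj K {D.θ}))) →
        ∀ y, σ ⟨j y, hj y⟩ = j (γ • y)

theorem Sat.mono {k : Subfield Ω} {ι : Type} {T : ι → Task k} {K : Subfield Ω} {D : Dem T K}
    {K' K'' : Subfield Ω} (h : K' ≤ K'') (hs : Sat D K') : Sat D K'' := by
  obtain ⟨j, hjk, hj, hσ⟩ := hs
  have hle : adj K {D.θ} ⊔ K' ≤ adj K {D.θ} ⊔ K'' := sup_le_sup_left h _
  refine ⟨j, hjk, fun y => hle (hj y), ?_⟩
  intro σ γ h1 h2 y
  exact hσ (σ.comp (Subfield.inclusion hle)) γ (fun z hz => h1 z (h hz)) (fun z hz => h2 z hz) y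

theorem tw_countable_dem {k : Subfield Ω} {ι : Type} [Countable ι] (T : ι → Task k)
    {K : Subfield Ω} (hK : (K : Set Ω).Countable) : Countable (Dem T K) := by
  have hc : Countable ↥(acl K) := (tw_countable_acl hK).to_subtype
  have hle : ∀ θ : Ω, θ ∈ acl K → adj K {θ} ≤ acl K := fun θ hθ =>
    adj_le (le_acl K) (by rintro _ rfl; exact hθ)
  let code : Dem T K → Σ i : ι, ↥(acl K) × ((T i).Γ → ↥(acl K)) := fun D =>
    ⟨D.i, ⟨D.θ, D.alg⟩, fun γ => ⟨D.ρ γ ⟨D.θ, subset_adj K {D.θ} rfl⟩,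
      hle D.θ D.alg (D.ρ γ ⟨D.θ, subset_adj K {D.θ} rfl⟩).2⟩⟩
  have hinj : Function.Injective code := by
    rintro ⟨i, θ, alg, ρ, inj, fix⟩ ⟨i', θ', alg', ρ', inj', fix'⟩ h
    simp only [code, Sigma.mk.injEq] at h
    obtain ⟨rfl, h⟩ := h
    have h := eq_of_heq h
    simp only [Prod.mk.injEq, Subtype.mk.injEq] at h
    obtain ⟨rfl, h⟩ := h
    have hρ : ρ = ρ' := by
      apply MonoidHom.ext
      intro γ
      have h1 := congrFun h γ
      simp only [Subtype.mk.injEq] at h1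
      have h2 : ∀ y, (ρ γ : ↥(adj K {θ}) →+* ↥(adj K {θ})) y =
          (ρ' γ : ↥(adj K {θ}) →+* ↥(adj K {θ})) y := by
        apply tw_adj_ext
        · intro z hz
          exact ((fix ⟨z, le_adj K {θ} hz⟩).2 hz γ).trans ((fix' ⟨z, le_adj K {θ} hz⟩).2 hz γ).symm
        · rintro z rfl
          exact Subtype.ext h1
      exact RingEquiv.ext h2
    subst hρ
    rfl
  exact hinj.countable

/-- regular extensions -/
def Rg (K K' : Subfield Ω) : Prop := K ≤ K' ∧ K' ⊓ acl K ≤ K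

theorem Rg.refl (K : Subfield Ω) : Rg K K := ⟨le_rfl, inf_le_left⟩

theorem Rg.trans {K K' K'' : Subfield Ω} (h : Rg K K') (h' : Rg K' K'') : Rg K K'' :=
  ⟨h.1.trans h'.1, fun _ hz => h.2 ⟨h'.2 ⟨hz.1, acl_mono h.1 hz.2⟩, hz.2⟩⟩

/-- the fields occurring in the construction -/
structure TwGood (k : Subfield Ω) (lam : Ω) (K : Subfield Ω) : Prop where
  le : k ≤ K
  mem : lam ∈ K
  cnt : (K : Set Ω).Countable
  nn : NN lam K

theorem tw_step [CharZero Ω] [IsAlgClosed Ω] {k : Subfield Ω} (hk : acl k = k)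
    (hfree : FreeStep Ω k) {lam : Ω} (hlam : lam ∉ k) {ι : Type} {T : ι → Task k}
    {K K1 : Subfield Ω} (hK1 : TwGood k lam K1) (hr : Rg K K1) (D : Dem T K) :
    ∃ K2, TwGood k lam K2 ∧ Rg K1 K2 ∧ Sat D K2 := by
  obtain ⟨ρ1, hinj1, hfix1, hext1⟩ := tw_rho hr.1 hr.2 D.alg D.ρ D.inj D.fix
  have hcL : (adj K1 {D.θ} : Set Ω).Countable := tw_countable_adj hK1.cnt (Set.countable_singleton _)
  obtain ⟨K', j, r, x, hK1K', hcK', hjk, hx, hK'le, hreg', hj, hσ⟩ :=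
    hfree K1 (adj K1 {D.θ}) hK1.le (le_adj K1 _) hcL (T D.i) ρ1 hinj1 hfix1
  have hLacl : acl (adj K1 {D.θ}) ≤ acl K1 :=
    acl_le_acl (adj_le (le_acl K1) (by rintro _ rfl; exact acl_mono hr.1 D.alg))
  refine ⟨K', ⟨hK1.le.trans hK1K', hK1K' hK1.mem, hcK', ?_⟩, ⟨hK1K', hreg'⟩, ?_⟩
  · intro a ha b hb c hc h1 h2
    have hle : K' ≤ acl (adj K1 {D.θ}) ⊔ acl (adj k (Set.range x)) :=
      hK'le.trans (sup_le_sup_right (le_acl _) _)
    obtain ⟨h3, h4, h5⟩ := NN_step hk (hK1.le.trans (le_adj K1 {D.θ}))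
      (le_adj K1 {D.θ} hK1.mem) hlam x hx (hle ha) (hle hb) (hle hc) h1 h2
    exact hK1.nn a (hreg' ⟨ha, hLacl h3⟩) b (hreg' ⟨hb, hLacl h4⟩) c (hreg' ⟨hc, hLacl h5⟩) h1 h2
  · have hle : adj K1 {D.θ} ⊔ K' ≤ adj K {D.θ} ⊔ K' :=
      sup_le (adj_le (hK1K'.trans le_sup_right)
        ((subset_adj K {D.θ}).trans (fun _ hz => (le_sup_left : adj K {D.θ} ≤ _) hz))) le_sup_right
    refine ⟨j, hjk, fun y => hle (hj y), ?_⟩
    intro σ γ h1 h2 y
    refine hσ (σ.comp (Subfield.inclusion hle)) γ (fun z hz => h1 z hz) ?_ y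
    intro z hz
    have h3 := tw_adj_ext (K := K1) (S := {D.θ})
      (f := (σ.comp (Subfield.inclusion hle)).comp (Subfield.inclusion le_sup_left))
      (g := (adj K1 {D.θ}).subtype.comp (ρ1 γ : ↥(adj K1 {D.θ}) →+* ↥(adj K1 {D.θ})))
      ?_ ?_ ⟨z, hz⟩
    · exact h3
    · intro z hz
      have h4 := congrArg Subtype.val ((hfix1 ⟨z, le_adj K1 _ hz⟩).2 hz γ)
      exact (h1 z (hK1K' hz)).trans h4.symm
    · intro z hz
      have hz' : z ∈ adj K {D.θ} := subset_adj K {D.θ} hz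
      exact (h2 z hz').trans (hext1 γ z hz').symm

theorem tw_union {k : Subfield Ω} {lam : Ω} {s : ℕ → Subfield Ω} (hg : ∀ n, TwGood k lam (s n))
    (hr : ∀ n, Rg (s n) (s (n + 1))) :
    TwGood k lam (⨆ n, s n) ∧ (∀ n, Rg (s n) (⨆ n, s n)) ∧ (∀ z ∈ ⨆ n, s n, ∃ n, z ∈ s n) ∧
      Monotone s := by
  have hmono : Monotone s := monotone_nat_of_le_succ (fun n => (hr n).1)
  have hdir : Directed (· ≤ ·) s := hmono.directed_le
  have hmem : ∀ z ∈ ⨆ n, s n, ∃ n, z ∈ s n := fun z hz => (Subfield.mem_iSup_of_directed hdir).1 hz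
  have hRg : ∀ m n, m ≤ n → Rg (s m) (s n) := by
    intro m n hmn
    induction n, hmn using Nat.le_induction with
    | base => exact Rg.refl _
    | succ n _ ih => exact ih.trans (hr n)
  refine ⟨⟨(hg 0).le.trans (le_iSup s 0), le_iSup s 0 (hg 0).mem, ?_, ?_⟩, ?_, hmem, hmono⟩
  · rw [Subfield.coe_iSup_of_directed hdir]
    exact Set.countable_iUnion (fun n => (hg n).cnt)
  · intro a ha b hb c hc h1 h2
    obtain ⟨na, ha⟩ := hmem a ha
    obtain ⟨nb, hb⟩ := hmem b hb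
    obtain ⟨nc, hc⟩ := hmem c hc
    have h3 := hmono (le_max_left na (max nb nc))
    have h4 := hmono ((le_max_left nb nc).trans (le_max_right na (max nb nc)))
    have h5 := hmono ((le_max_right nb nc).trans (le_max_right na (max nb nc)))
    exact (hg (max na (max nb nc))).nn a (h3 ha) b (h4 hb) c (h5 hc) h1 h2
  · intro n
    refine ⟨le_iSup s n, ?_⟩
    rintro z ⟨hz1, hz2⟩
    obtain ⟨m, hm⟩ := hmem z hz1
    exact (hRg n (max n m) (le_max_left _ _)).2 ⟨hmono (le_max_right n m) hm, hz2⟩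

theorem tw_all [CharZero Ω] [IsAlgClosed Ω] {k : Subfield Ω} (hk : acl k = k)
    (hfree : FreeStep Ω k) {lam : Ω} (hlam : lam ∉ k) {ι : Type} [Countable ι] (T : ι → Task k)
    (K : Subfield Ω) (hK : TwGood k lam K) :
    ∃ K2, TwGood k lam K2 ∧ Rg K K2 ∧ ∀ D : Dem T K, Sat D K2 := by
  have hcD : Countable (Dem T K) := tw_countable_dem T hK.cnt
  obtain ⟨e, he⟩ := exists_surjective_nat (Option (Dem T K))
  have step : ∀ (n : ℕ) (K1 : {K1 : Subfield Ω // TwGood k lam K1 ∧ Rg K K1}),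
      ∃ K2 : {K1 : Subfield Ω // TwGood k lam K1 ∧ Rg K K1}, Rg K1.1 K2.1 ∧
        ∀ D, e n = some D → Sat D K2.1 := by
    intro n K1
    rcases hen : e n with _ | D
    · exact ⟨K1, Rg.refl _, fun D hD => by simp at hD⟩
    · obtain ⟨K2, h1, h2, h3⟩ := tw_step hk hfree hlam K1.2.1 K1.2.2 D
      refine ⟨⟨K2, h1, K1.2.2.trans h2⟩, h2, ?_⟩
      intro D' hD'
      simp only [Option.some.injEq] at hD'
      rwa [← hD']
  choose g hg1 hg2 using step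
  let f : ℕ → {K1 : Subfield Ω // TwGood k lam K1 ∧ Rg K K1} :=
    fun n => Nat.rec ⟨K, hK, Rg.refl K⟩ (fun n K1 => g n K1) n
  have hf : ∀ n, f (n + 1) = g n (f n) := fun n => rfl
  obtain ⟨h1, h2, _, _⟩ := tw_union (k := k) (lam := lam) (s := fun n => (f n).1)
    (fun n => (f n).2.1) (fun n => by
      change Rg (f n).1 (f (n + 1)).1
      rw [hf]; exact hg1 n (f n))
  refine ⟨_, h1, h2 0, ?_⟩
  intro D
  obtain ⟨n, hn⟩ := he (some D)
  have h3 := hg2 n (f n) D hn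
  rw [← hf] at h3
  exact h3.mono (h2 (n + 1)).1

theorem tw_chain [CharZero Ω] [IsAlgClosed Ω] {k : Subfield Ω} (hk : acl k = k)
    (hfree : FreeStep Ω k) {lam : Ω} (hlam : lam ∉ k) {ι : Type} [Countable ι] (T : ι → Task k)
    (K : Subfield Ω) (hK : TwGood k lam K) :
    ∃ (s : ℕ → Subfield Ω) (Ki : Subfield Ω), TwGood k lam Ki ∧ (∀ n, Rg (s n) Ki) ∧
      (∀ z ∈ Ki, ∃ n, z ∈ s n) ∧ Monotone s ∧ (∀ n, TwGood k lam (s n)) ∧
      ∀ n, ∀ D : Dem T (s n), Sat D Ki := by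
  have step := tw_all hk hfree hlam T
  choose g hg1 hg2 hg3 using step
  let f : ℕ → {K1 : Subfield Ω // TwGood k lam K1} :=
    fun n => Nat.rec ⟨K, hK⟩ (fun _ K1 => ⟨g K1.1 K1.2, hg1 K1.1 K1.2⟩) n
  have hf : ∀ n, (f (n + 1)).1 = g (f n).1 (f n).2 := fun n => rfl
  obtain ⟨h1, h2, h3, h4⟩ := tw_union (k := k) (lam := lam) (s := fun n => (f n).1)
    (fun n => (f n).2) (fun n => by
      change Rg (f n).1 (f (n + 1)).1
      rw [hf]; exact hg2 (f n).1 (f n).2)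
  refine ⟨fun n => (f n).1, _, h1, h2, h3, h4, fun n => (f n).2, ?_⟩
  intro n D
  have h5 := hg3 (f n).1 (f n).2 D
  rw [← hf] at h5
  exact h5.mono (h2 (n + 1)).1

theorem tw_level {Ki : Subfield Ω} {s : ℕ → Subfield Ω} (hmono : Monotone s)
    (hmem : ∀ z ∈ Ki, ∃ n, z ∈ s n) (p : Ki[X]) : ∃ n, ∀ m, n ≤ m → ∀ i, (p.coeff i : Ω) ∈ s m := by
  choose f hf using fun i => hmem (p.coeff i) (p.coeff i).2
  refine ⟨(Finset.range (p.natDegree + 1)).sup f, ?_⟩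
  intro m hm i
  by_cases hi : i ≤ p.natDegree
  · have h1 : f i ≤ (Finset.range (p.natDegree + 1)).sup f :=
      Finset.le_sup (f := f) (Finset.mem_range.2 (by omega))
    exact hmono (h1.trans hm) (hf i)
  · rw [Polynomial.coeff_eq_zero_of_natDegree_lt (by omega)]
    exact (s m).zero_mem

theorem tw_lift {Ki E : Subfield Ω} (h : E ≤ Ki) (p : Ki[X]) (hp : ∀ i, (p.coeff i : Ω) ∈ E) :
    ∃ q : E[X], q.map (Subfield.inclusion h) = p := by
  have hl : p ∈ Polynomial.lifts (Subfield.inclusion h) := by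
    rw [Polynomial.lifts_iff_coeff_lifts]
    intro n
    exact ⟨⟨_, hp n⟩, rfl⟩
  obtain ⟨q, hq⟩ := (Polynomial.mem_lifts _).1 hl
  exact ⟨q, hq⟩

theorem tw_eval_mem {Ki E : Subfield Ω} (p : Ki[X]) (hp : ∀ i, (p.coeff i : Ω) ∈ E) {θ : Ω}
    (hθ : θ ∈ E) : Polynomial.aeval θ p ∈ E := by
  rw [Polynomial.aeval_eq_sum_range]
  apply E.toSubring.sum_mem
  intro i _
  rw [Algebra.smul_def]
  exact E.mul_mem (hp i) (E.pow_mem hθ i)

/-- solving one embedding problem over `Ki` -/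
theorem tw_solve [CharZero Ω] [IsAlgClosed Ω] {k : Subfield Ω} {ι : Type} (T : ι → Task k)
    {Ki : Subfield Ω} (hkKi : k ≤ Ki) {s : ℕ → Subfield Ω} (hs : ∀ n, Rg (s n) Ki)
    (hmono : Monotone s) (hmem : ∀ z ∈ Ki, ∃ n, z ∈ s n)
    (hsat : ∀ n, ∀ D : Dem T (s n), Sat D Ki)
    (L : Type) [Field L] [Algebra Ki L] [FiniteDimensional Ki L] [IsGalois Ki L]
    (i : ι) (e : (L ≃ₐ[Ki] L) ≃* (T i).Γ) :
    ∃ j : (T i).F →+* L,
      (∀ c : k, j (algebraMap k (T i).F c) = algebraMap Ki L (Subfield.inclusion hkKi c)) ∧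
      ∀ (γ : L ≃ₐ[Ki] L) (x : (T i).F), j (e γ • x) = γ (j x) := by
  classical
  let φ : L →ₐ[Ki] Ω := IsAlgClosed.lift
  let pb := Field.powerBasisOfFiniteOfSeparable Ki L
  set θ' : L := pb.gen with hθ'
  set θ : Ω := φ θ' with hθ
  have hq : ∀ γ : L ≃ₐ[Ki] L, ∃ q : Ki[X], γ θ' = Polynomial.aeval θ' q := fun γ =>
    pb.exists_eq_aeval' (γ θ')
  choose q hq using hq
  -- the level `n`
  have hlev : ∃ n, (∀ γ i, ((q γ).coeff i : Ω) ∈ s n) ∧
      ∀ i, ((minpoly Ki θ').coeff i : Ω) ∈ s n := by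
    choose f hf using fun γ => tw_level hmono hmem (q γ)
    obtain ⟨n0, hn0⟩ := tw_level hmono hmem (minpoly Ki θ')
    letI : Fintype (L ≃ₐ[Ki] L) := Fintype.ofFinite _
    refine ⟨max n0 (Finset.univ.sup f), ?_, ?_⟩
    · intro γ
      apply hf γ
      exact (Finset.le_sup (f := f) (Finset.mem_univ γ)).trans (le_max_right _ _)
    · exact hn0 _ (le_max_left _ _)
  obtain ⟨n, hn1, hn2⟩ := hlev
  have hθn : θ ∈ acl (s n) := by
    obtain ⟨p, hp⟩ := tw_lift (hs n).1 (minpoly Ki θ') hn2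
    rw [mem_acl]
    refine ⟨p, ?_, ?_⟩
    · rintro rfl
      rw [Polynomial.map_zero] at hp
      exact minpoly.ne_zero_of_finite Ki θ' hp.symm
    · have h1 : Polynomial.aeval θ (minpoly Ki θ') = 0 := by
        rw [hθ, Polynomial.aeval_algHom_apply, minpoly.aeval, map_zero]
      rw [← hp, Polynomial.aeval_def, Polynomial.eval₂_map] at h1
      exact h1
  -- the image of `L`
  set M : Subfield Ω := (φ : L →+* Ω).fieldRange with hM
  obtain ⟨ψ, hψ⟩ : ∃ ψ : ↥M →+* L, ∀ x : ↥M, φ (ψ x) = x := by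
    refine ⟨((φ : L →+* Ω).rangeRestrictFieldEquiv.symm : ↥M →+* L), fun x => ?_⟩
    exact congrArg Subtype.val ((φ : L →+* Ω).rangeRestrictFieldEquiv.apply_symm_apply x)
  have hφM : ∀ y, φ y ∈ M := fun y => ⟨y, rfl⟩
  have hψφ : ∀ y (hy : φ y ∈ M), ψ ⟨φ y, hy⟩ = y := fun y hy =>
    φ.toRingHom.injective (hψ ⟨φ y, hy⟩)
  have hKiM : Ki ≤ M := fun z hz => ⟨algebraMap Ki L ⟨z, hz⟩, φ.commutes ⟨z, hz⟩⟩
  have hψK : ∀ z (hz : z ∈ Ki), ψ ⟨z, hKiM hz⟩ = algebraMap Ki L ⟨z, hz⟩ := by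
    intro z hz
    apply φ.toRingHom.injective
    exact (hψ ⟨z, hKiM hz⟩).trans (φ.commutes ⟨z, hz⟩).symm
  have hθM : θ ∈ M := hφM θ'
  have hLnM : adj (s n) {θ} ≤ M := adj_le ((hs n).1.trans hKiM) (by rintro _ rfl; exact hθM)
  -- the maps
  let g : (L ≃ₐ[Ki] L) → (↥M →+* Ω) := fun γ =>
    (φ : L →+* Ω).comp ((γ : L →+* L).comp ψ)
  have hg : ∀ γ x, g γ x = φ (γ (ψ x)) := fun γ x => rfl
  have hgK : ∀ γ z (hz : z ∈ Ki), g γ ⟨z, hKiM hz⟩ = z := by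
    intro γ z hz
    rw [hg, hψK z hz, γ.commutes]
    exact φ.commutes ⟨z, hz⟩
  have hgθ : ∀ γ, g γ ⟨θ, hθM⟩ = Polynomial.aeval θ (q γ) := by
    intro γ
    rw [hg]
    have h1 : ψ ⟨θ, hθM⟩ = θ' := hψφ θ' hθM
    rw [h1, hq γ, hθ, Polynomial.aeval_algHom_apply]
  have hrange : ∀ γ (x : ↥(adj (s n) {θ})), g γ ⟨x, hLnM x.2⟩ ∈ adj (s n) {θ} := by
    intro γ x
    have := tw_adj_ind ((adj (s n) {θ}).comap ((g γ).comp (Subfield.inclusion hLnM))) ?_ ?_ x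
    · exact this
    · intro z hz
      change g γ ⟨z, _⟩ ∈ adj (s n) {θ}
      rw [hgK γ z ((hs n).1 hz)]
      exact le_adj _ _ hz
    · intro z hz
      have hz' : z = θ := hz
      subst hz'
      change g γ ⟨θ, _⟩ ∈ adj (s n) {θ}
      rw [hgθ γ]
      exact tw_eval_mem (q γ) (fun i => le_adj _ _ (hn1 γ i)) (subset_adj _ _ rfl)
  obtain ⟨S, hS⟩ : ∃ S : (T i).Γ → (↥(adj (s n) {θ}) →+* ↥(adj (s n) {θ})),
      ∀ γ x, ((S γ x : ↥(adj (s n) {θ})) : Ω) = g (e.symm γ) ⟨x, hLnM x.2⟩ :=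
    ⟨fun γ => ((g (e.symm γ)).comp (Subfield.inclusion hLnM)).codRestrict _
      (hrange (e.symm γ)), fun γ x => rfl⟩
  have hS1 : ∀ x, S 1 x = x := by
    intro x
    apply Subtype.ext
    rw [hS, map_one, hg]
    exact hψ ⟨x, hLnM x.2⟩
  have hSmul : ∀ γ δ x, S (γ * δ) x = S γ (S δ x) := by
    intro γ δ x
    apply Subtype.ext
    rw [hS, map_mul, hg, hS, hg]
    have h1 : (⟨((S δ x : ↥(adj (s n) {θ})) : Ω), hLnM (S δ x).2⟩ : ↥M) =
        ⟨φ (e.symm δ (ψ ⟨x, hLnM x.2⟩)), hφM _⟩ := Subtype.ext ((hS δ x).trans (hg _ _))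
    rw [h1, hψφ]
    rfl
  obtain ⟨ρ, hρ⟩ := tw_mkHom S hS1 hSmul
  have hρg : ∀ γ x, ((ρ γ x : ↥(adj (s n) {θ})) : Ω) = g (e.symm γ) ⟨x, hLnM x.2⟩ :=
    fun γ x => by rw [hρ, hS]
  have hinj : Function.Injective ρ := by
    intro γ δ hγδ
    have h1 := hρg γ ⟨θ, subset_adj _ _ rfl⟩
    have h2 := hρg δ ⟨θ, subset_adj _ _ rfl⟩
    rw [hγδ, h2, hg, hg] at h1
    have h3 : ψ ⟨θ, hθM⟩ = θ' := hψφ θ' hθM
    have h4 : (e.symm δ) θ' = (e.symm γ) θ' := by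
      have h5 := φ.toRingHom.injective h1
      rw [h3] at h5
      exact h5
    have h6 : (e.symm δ : L →ₐ[Ki] L) = (e.symm γ : L →ₐ[Ki] L) := pb.algHom_ext h4
    have h7 : e.symm δ = e.symm γ := by
      apply AlgEquiv.ext
      intro x
      exact congrFun (congrArg DFunLike.coe h6) x
    exact (e.symm.injective h7).symm
  have hfix : ∀ x : ↥(adj (s n) {θ}), (∀ γ, ρ γ x = x) ↔ (x : Ω) ∈ s n := by
    intro x
    constructor
    · intro hx
      have h1 : ψ ⟨x, hLnM x.2⟩ ∈ Set.range (algebraMap Ki L) := by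
        rw [IsGalois.mem_range_algebraMap_iff_fixed]
        intro γ
        have h2 := congrArg Subtype.val (hx (e γ))
        rw [hρg, MulEquiv.symm_apply_apply, hg] at h2
        apply φ.toRingHom.injective
        exact h2.trans (hψ ⟨x, hLnM x.2⟩).symm
      obtain ⟨c, hc⟩ := h1
      have h3 : (x : Ω) = c := by
        have h4 := congrArg φ hc
        rw [hψ, φ.commutes] at h4
        exact h4.symm
      refine (hs n).2 ⟨by rw [h3]; exact c.2, ?_⟩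
      exact adj_le (le_acl _) (by rintro _ rfl; exact hθn) x.2
    · intro hx γ
      apply Subtype.ext
      rw [hρg]
      exact hgK _ _ ((hs n).1 hx)
  obtain ⟨j0, hj0k, hj0, hσ⟩ := hsat n ⟨i, θ, hθn, ρ, hinj, hfix⟩
  have hle : adj (s n) {θ} ⊔ Ki ≤ M := sup_le hLnM hKiM
  refine ⟨ψ.comp (j0.codRestrict M (fun y => hle (hj0 y))), ?_, ?_⟩
  · intro c
    apply φ.toRingHom.injective
    have h1 := hψ ((j0.codRestrict M (fun y => hle (hj0 y))) (algebraMap k (T i).F c))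
    refine h1.trans ?_
    refine (hj0k c).trans ?_
    exact (φ.commutes (Subfield.inclusion hkKi c)).symm
  · intro γ x
    have h1 := hσ ((g γ).comp (Subfield.inclusion hle)) (e γ) (fun z hz => hgK γ z hz) (by
      intro z hz
      have h2 := hρg (e γ) ⟨z, hz⟩
      rw [MulEquiv.symm_apply_apply] at h2
      exact h2.symm) x
    apply φ.toRingHom.injective
    have h3 := hψ ((j0.codRestrict M (fun y => hle (hj0 y))) (e γ • x))
    refine h3.trans ?_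
    exact h1.symm

/-- TASK T1d (tower), from T1b. -/
theorem tower_of [CharZero Ω] [IsAlgClosed Ω] [Uncountable Ω]
    (k : Subfield Ω) (hk : acl k = k) (hkc : (k : Set Ω).Countable) (hfree : FreeStep Ω k)
    {ι : Type} [Countable ι] (T : ι → Task k) :
    ∃ (K : Type) (_ : Field K) (_ : Algebra k K), NonAmple K ∧
      ∀ (L : Type) [Field L] [Algebra K L], FiniteDimensional K L → IsGalois K L →
      ∀ (i : ι) (e : (L ≃ₐ[K] L) ≃* (T i).Γ),
        ∃ j : (T i).F →+* L,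
          (∀ c : k, j (algebraMap k (T i).F c) = algebraMap K L (algebraMap k K c)) ∧
          ∀ (γ : L ≃ₐ[K] L) (x : (T i).F), j (e γ • x) = γ (j x) := by
  obtain ⟨lam, hlam⟩ : ∃ lam : Ω, lam ∉ k := by
    by_contra hcon
    push Not at hcon
    have h1 : (k : Set Ω) = Set.univ := Set.eq_univ_of_forall hcon
    rw [h1] at hkc
    exact Set.not_countable_univ hkc
  have hgood : TwGood k lam (adj k {lam}) :=
    ⟨le_adj _ _, subset_adj _ _ rfl, tw_countable_adj hkc (Set.countable_singleton _),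
      NN_base hk hlam⟩
  obtain ⟨s, Ki, hKi, hs, hmem, hmono, _, hsat⟩ := tw_chain hk hfree hlam T _ hgood
  refine ⟨↥Ki, inferInstance, (Subfield.inclusion hKi.le).toAlgebra, ?_, ?_⟩
  · have hch : CharZero ↥Ki := (RingHom.charZero_iff (algebraMap Ki Ω).injective).2 inferInstance
    apply nonAmple_of_NN (⟨lam, hKi.mem⟩ : ↥Ki)
    intro a b c h1 h2
    apply Subtype.ext
    apply hKi.nn a a.2 b b.2 c c.2
    · exact congrArg Subtype.val h1
    · exact congrArg Subtype.val h2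
  · intro L _ _ hfd hgal i e
    exact tw_solve T hKi.le hs hmono hmem hsat L i e

end demands

end H33
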