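import Pool.Agent.H33R2.V4
import Pool.Agent.H33R2.RatPatch

/-! Task V3: Hilbert specialisation of a regular solution of an embedding problem. -/

set_option autoImplicit false

open Polynomial

namespace H33

namespace V3

variable {K : Type} [Field K]

/-- polynomials are regular at `a` -/
noncomputable def polyA (a : K) : K[X] →+* (RP.Oc a).toSubring :=
  (algebraMap K[X] (RatFunc K)).codRestrict (RP.Oc a).toSubring (fun p => RP.poly_mem_Oc a p)

theorem resc_polyA (a : K) (p : K[X]) :
    (RP.resc a : (RP.Oc a).toSubring →+* K) (polyA a p) = p.eval a := by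
  have h := RP.resc_eq (c := a) (polyA a p) (p := p) (q := 1) (by simp)
    (by rw [map_one, mul_one]; rfl)
  rw [h]; simp

end V3

theorem hilbert_spec (K : Type) [Field K]
    (hHilb : ∀ (f : Polynomial (Polynomial K)), f.Monic → Irreducible f →
          (f.map (algebraMap (Polynomial K) (FractionRing (Polynomial K)))).Separable →
          ∀ g : Polynomial K, g ≠ 0 →
            ∃ a : K, g.eval a ≠ 0 ∧ Irreducible (f.map (Polynomial.evalRingHom a)))
    (L : Type) [Field L] [Algebra K L] [FiniteDimensional K L] [IsGalois K L]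
    (G : Type) [Group G] [Finite G] (α : G →* (L ≃ₐ[K] L))
    (hreg : ∃ (F : Type) (_ : Field F) (_ : Algebra (RatFunc K) F) (_ : Algebra L F)
        (_ : Algebra K F) (_ : IsScalarTower K (RatFunc K) F) (_ : IsScalarTower K L F)
        (_ : FiniteDimensional (RatFunc K) F) (_ : IsGalois (RatFunc K) F)
        (γ : (F ≃ₐ[RatFunc K] F) ≃* G),
        (∀ (σ : F ≃ₐ[RatFunc K] F) (x : L),
            σ (algebraMap L F x) = algebraMap L F (α (γ σ) x))) :
    ∃ (F : Type) (_ : Field F) (_ : Algebra K F) (_ : Algebra L F)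
          (_ : IsScalarTower K L F),
          FiniteDimensional K F ∧ IsGalois K F ∧
          ∃ γ : (F ≃ₐ[K] F) ≃* G, ∀ σ : F ≃ₐ[K] F, α (γ σ) = σ.restrictNormal L := by
  classical
  obtain ⟨F, iF, iA, iL, iK, t1, t2, fd, gal, γ, hγ⟩ := hreg
  let iP : Algebra K[X] F :=
    ((algebraMap (RatFunc K) F).comp (algebraMap K[X] (RatFunc K))).toAlgebra
  have t3 : IsScalarTower K[X] (RatFunc K) F := IsScalarTower.of_algebraMap_eq (fun _ => rfl)
  have halg : Algebra.IsAlgebraic K[X] F :=
    IsFractionRing.comap_isAlgebraic_iff.2 (Algebra.IsAlgebraic.of_finite (RatFunc K) F)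
  -- an integral primitive element
  obtain ⟨y0, hy0⟩ := Field.exists_primitive_element (RatFunc K) F
  obtain ⟨d, hd, hint⟩ := (halg.isAlgebraic y0).exists_integral_multiple
  set y : F := d • y0 with hy
  have hdF : (algebraMap K[X] (RatFunc K) d) ≠ 0 := RatFunc.algebraMap_ne_zero hd
  have hyy : y0 = (algebraMap K[X] (RatFunc K) d)⁻¹ • y := by
    rw [hy, ← algebraMap_smul (RatFunc K) d y0, smul_smul, inv_mul_cancel₀ hdF, one_smul]
  have hadj : IntermediateField.adjoin (RatFunc K) {y} = ⊤ := by
    rw [eq_top_iff, ← hy0, IntermediateField.adjoin_simple_le_iff, hyy]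
    exact IntermediateField.smul_mem _ (IntermediateField.mem_adjoin_simple_self _ _)
  set f : K[X][X] := minpoly K[X] y with hf
  have hfm : f.Monic := minpoly.monic hint
  have hfi : Irreducible f := minpoly.irreducible hint
  have hfmap : f.map (algebraMap K[X] (RatFunc K)) = minpoly (RatFunc K) y :=
    (minpoly.isIntegrallyClosed_eq_field_fractions' (RatFunc K) hint).symm
  have hsep : (f.map (algebraMap K[X] (FractionRing K[X]))).Separable := by
    let e : FractionRing K[X] ≃ₐ[K[X]] RatFunc K := FractionRing.algEquiv K[X] (RatFunc K)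
    have h1 : (f.map (algebraMap K[X] (FractionRing K[X]))).map (e : FractionRing K[X] →+* RatFunc K)
        = minpoly (RatFunc K) y := by
      rw [Polynomial.map_map, ← hfmap]
      congr 1
      ext p <;> simp
    rw [← Polynomial.separable_map (e : FractionRing K[X] →+* RatFunc K), h1]
    exact Algebra.IsSeparable.isSeparable (RatFunc K) y
  -- specialisation
  let b := Module.finBasis K L
  obtain ⟨S, hS⟩ := spec_lemma y hadj (Finset.univ.image fun i => algebraMap L F (b i))
  set g : K[X] := ∏ s ∈ S, s.denom with hg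
  have hg0 : g ≠ 0 := Finset.prod_ne_zero_iff.2 fun s _ => RatFunc.denom_ne_zero s
  obtain ⟨a, hga, hirr⟩ := hHilb f hfm hfi hsep g hg0
  have hSA : (S : Set (RatFunc K)) ⊆ ((RP.Oc a).toSubring : Set (RatFunc K)) := by
    intro s hs
    have h1 : s.denom.eval a ≠ 0 := by
      intro h0
      apply hga
      rw [hg, Polynomial.eval_prod]
      exact Finset.prod_eq_zero hs h0
    refine ⟨s.num, s.denom, h1, ?_⟩
    have h2 : algebraMap K[X] (RatFunc K) s.denom ≠ 0 :=
      RatFunc.algebraMap_ne_zero (RatFunc.denom_ne_zero s)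
    exact (div_eq_iff h2).1 (RatFunc.num_div_denom s) |>.symm
  obtain ⟨F', iF', iKF', fd', gal', ψ, B, hA, hB, Φ, hyB, hWB, hΦA, hΦσ, -⟩ :=
    hS (RP.Oc a).toSubring hSA K (RP.resc a) (f.map (V3.polyA a))
      (by rw [Polynomial.map_map, ← hfmap]; rfl)
      (by
        rw [Polynomial.map_map]
        have : (RP.resc a : (RP.Oc a).toSubring →+* K).comp (V3.polyA a) =
            Polynomial.evalRingHom a := by
          refine RingHom.ext fun p => ?_
          exact V3.resc_polyA a p
        rw [this]; exact hirr)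
  have hKA : ∀ c : K, algebraMap K (RatFunc K) c ∈ (RP.Oc a).toSubring := fun c =>
    (RP.Oc a).algebraMap_mem c
  have hKB : ∀ c : K, algebraMap K F c ∈ B := by
    intro c
    rw [IsScalarTower.algebraMap_apply K (RatFunc K) F]
    exact hA ⟨_, hKA c⟩
  have hLB : ∀ x : L, algebraMap L F x ∈ B := by
    intro x
    rw [← b.sum_repr x, map_sum]
    refine Subring.sum_mem _ fun i _ => ?_
    rw [Algebra.smul_def, map_mul, ← IsScalarTower.algebraMap_apply K L F]
    refine Subring.mul_mem _ (hKB _) (hWB ?_)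
    simp
  let j : L →+* F' := Φ.comp ((algebraMap L F).codRestrict B hLB)
  have hj : ∀ x : L, j x = Φ ⟨algebraMap L F x, hLB x⟩ := fun x => rfl
  have hjK : ∀ c : K, algebraMap K F' c = j (algebraMap K L c) := by
    intro c
    have h1 := hΦA ⟨algebraMap K (RatFunc K) c, hKA c⟩
    have h2 : (RP.resc a : (RP.Oc a).toSubring →+* K) ⟨algebraMap K (RatFunc K) c, hKA c⟩ = c := by
      have h := V3.resc_polyA a (C c)
      rw [Polynomial.eval_C] at h
      conv_rhs => rw [← h]
      congr 1
    have h3 : algebraMap K F' c = Φ ⟨algebraMap (RatFunc K) F (algebraMap K (RatFunc K) c),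
        hA ⟨_, hKA c⟩⟩ := by
      refine Eq.trans ?_ h1.symm
      exact congrArg _ h2.symm
    rw [h3, hj]
    congr 1
    apply Subtype.ext
    show algebraMap (RatFunc K) F (algebraMap K (RatFunc K) c) = algebraMap L F (algebraMap K L c)
    rw [← IsScalarTower.algebraMap_apply K (RatFunc K) F, ← IsScalarTower.algebraMap_apply K L F]
  let iLF' : Algebra L F' := j.toAlgebra
  have t4 : IsScalarTower K L F' := IsScalarTower.of_algebraMap_eq hjK
  refine ⟨F', iF', iKF', iLF', t4, fd', gal', ψ.symm.trans γ, fun σ' => ?_⟩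
  ext x
  apply (algebraMap L F').injective
  rw [AlgEquiv.restrictNormal_commutes]
  obtain ⟨σ, rfl⟩ := ψ.surjective σ'
  have h1 : algebraMap L F' (α ((ψ.symm.trans γ) (ψ σ)) x) =
      Φ ⟨algebraMap L F (α (γ σ) x), hLB _⟩ := by
    rw [MulEquiv.trans_apply, MulEquiv.symm_apply_apply]; rfl
  rw [h1]
  have h2 := hΦσ σ ⟨algebraMap L F x, hLB x⟩
  have h3 : Φ ⟨algebraMap L F (α (γ σ) x), hLB _⟩ =
      Φ ⟨σ ((⟨algebraMap L F x, hLB x⟩ : B) : F), hB σ ⟨algebraMap L F x, hLB x⟩⟩ := by
    congr 1
    apply Subtype.ext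
    exact (hγ σ x).symm
  rw [h3, h2]
  rfl

end H33
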